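import Pool.Agent.H7.Bir.Open
import Pool.Agent.H14.KB.KobFinal
import Pool.Agent.H62.Qe.Defs

/-!
# SY RDefs: the conclusion
-/

set_option autoImplicit false

open MvPolynomial

namespace Pool.Agent.SY

open Pool.Agent.H17 (PN VanishesAt)
open Pool.Agent.H62.FC (Homog)
open Pool.Agent.H62.SA (locVar OnBd)
open Pool.Agent.H62.Qe (IsEtaleOver)
open Pool.Agent.H7.Bir (GGLOpen)
open Pool.Agent.H17LG.Variety (FunField IsLogGeneralType)
open Pool.Agent.H17EF (projVar)
open Pool.Agent.H14.KB (KobayashiHyperbolicModulo)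

variable {N : ℕ}

/-- The conclusion, for the surface `X` given by `P`: the properties of the Green–Griffiths–Lang conjecture (`GGLOpen`) hold for `X` and for all
quasi-projective surfaces which dominate `X`, or virtually dominate `X`. -/
structure IsHyperbolicSurface (P : Ideal (MvPolynomial (Fin (N + 1)) ℂ)) [P.IsPrime] : Prop where
  /-- every quasi-projective surface `U = locVar R G` with a dominant rational map to `X` (for instance `X` itself) has the properties of the
  conjecture, with some exceptional set `Ξ` -/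
  dominating : ∀ (M s : ℕ) (R : Ideal (MvPolynomial (Fin (M + 1)) ℂ)) [R.IsPrime] (G : Fin s → MvPolynomial (Fin (M + 1)) ℂ),
    Homog R → (∀ i, ∃ e, (G i).IsHomogeneous e) → (locVar R G).Nonempty → (∃ z : Fin 2 → FunField R, IsTranscendenceBasis ℂ z) →
    Nonempty (FunField P →ₐ[ℂ] FunField R) → ∃ Ξ : Set (PN M), GGLOpen R G Ξ
  /-- every quasi-projective surface `U = locVar R G` of log general type with a finite étale covering `U' = locVar P' G'` (given by a regular
  map `q` of the closures with `q⁻¹ (U) = U'`) and a dominant rational map from `U'` to `X` has the properties of the conjecture -/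
  virtual : ∀ (M L s s' : ℕ) (P' : Ideal (MvPolynomial (Fin (M + 1)) ℂ)) [P'.IsPrime] (R : Ideal (MvPolynomial (Fin (L + 1)) ℂ)) [R.IsPrime]
    (G : Fin s → MvPolynomial (Fin (L + 1)) ℂ) (G' : Fin s' → MvPolynomial (Fin (M + 1)) ℂ) (q : PN M → PN L),
    Homog P' → Homog R → (∀ i, ∃ e, (G i).IsHomogeneous e) → (∀ i, ∃ e, (G' i).IsHomogeneous e) → (∃ i, G i ∉ R) →
    (∃ z : Fin 2 → FunField P', IsTranscendenceBasis ℂ z) → (∃ z : Fin 2 → FunField R, IsTranscendenceBasis ℂ z) →
    Nonempty (FunField P →ₐ[ℂ] FunField P') → IsEtaleOver R P' G G' q → IsLogGeneralType (OnBd R G (k := 2)) → ∃ Ξ : Set (PN L), GGLOpen R G Ξ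
  /-- the Kobayashi metric of `X` is bounded below by a power of `|Q|`, for a form `Q` which is not `0` on `X` -/
  kobayashi : ∃ (Q : MvPolynomial (Fin (N + 1)) ℂ) (D : ℕ), Q.IsHomogeneous D ∧ (∃ x ∈ projVar P, ¬ VanishesAt Q x) ∧
    KobayashiHyperbolicModulo (projVar P) Q D

end Pool.Agent.SY
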