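import Pool.Agent.SY.F2G
import Pool.Agent.SY.RDefs
import Pool.Agent.H66.SD.Virt

/-!
# SY Fin: the main theorem
-/

set_option autoImplicit false

open Topology Filter Metric MvPolynomial

noncomputable section

namespace Pool.Agent.SY

open Pool.Agent.H17 (PN VanishesAt HolomorphicInto)
open Pool.Agent.H62.FC (Homog)
open Pool.Agent.H17LG.Variety (FunField)
open Pool.Agent.H13.OT (OrderTwo)
open Pool.Agent.H17EF (projVar coneE GT)
open Pool.Agent.AD (NullClass)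
open Pool.Agent.AD.NC (IsSmooth IsOfLogGeneralType isOfLogGeneralType_zero)

variable {N : ℕ} {P : Ideal (MvPolynomial (Fin (N + 1)) ℂ)}

/-- from step (b) -/
theorem hyperbolic_of [P.IsPrime] (hP : Homog P) (hdim : ∃ z : Fin 2 → FunField P, IsTranscendenceBasis ℂ z) (hsmooth : IsSmooth P 2)
    (hgt : IsOfLogGeneralType P (Fin.elim0 : Fin 0 → MvPolynomial (Fin (N + 1)) ℂ) 2) (hb : StepBAll P)
    (A : Set (ℂ → PN N)) (hA : NullClass P A) (R : MvPolynomial (Fin (N + 1)) ℂ) (d : ℕ) (hR : R.IsHomogeneous d) (hRP : R ∉ P)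
    (hnull : ∀ f : ℂ → PN N, HolomorphicInto f Set.univ → OrderTwo f → (∀ z, f z ∈ projVar P) → (∃ z w, f z ≠ f w) → f ∈ A →
      ∀ z, VanishesAt R (f z)) : IsHyperbolicSurface P := by
  obtain ⟨z, hz⟩ := id hdim
  have hgt' : GT P 2 := (isOfLogGeneralType_zero P _ 2).1 hgt
  obtain ⟨ν, hν⟩ := Pool.Agent.AD.exists_length hP hz hsmooth hA
  obtain ⟨Ξ, hcl, hne, hbr⟩ := orderTwo_degenerate_of hP hz hsmooth hgt' hb ν hR hRP
    (fun f hf hfo hfX hfn h => hnull f hf hfo hfX hfn (hν f hfX h))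
  obtain ⟨h1, h2, h3, Q, D, hQ, hQx, -, hkob⟩ := Pool.Agent.H14.V.four_of_brody hP hz hsmooth hgt' hcl hne hbr
  have hG : ∀ w, 1 ≤ w → (∃ z : Fin w → FunField P, IsTranscendenceBasis ℂ z) → GT P w := by
    intro w _ hw
    obtain rfl := Pool.Agent.H17EF.two_of_basis ⟨z, hz⟩ hw
    exact hgt'
  have hggl : Pool.Agent.H7.Bir.GGL P Ξ := ⟨hcl, hne, hG, h2, h1, h3⟩
  refine ⟨?_, ?_, Q, D, hQ, hQx, hkob⟩
  · intro M s R' _ G hR' hGh hne' hdim' ⟨φ⟩
    exact Pool.Agent.H66.SD.dom_open_four hR' hdim hP hdim' φ hGh hne' hggl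
  · intro M L s s' P' _ R' _ G G' q hP' hR' hGh hGh' hne' hdim' hdimR ⟨e⟩ hq hlg
    exact Pool.Agent.H66.SD.virt_open_four hdim hggl hP' hdim' e hR' hdimR hGh hGh' hne' hlg hq

/-- **SD.**  No rational curves. -/
theorem main_noRat [P.IsPrime] (hP : Homog P) (hdim : ∃ z : Fin 2 → FunField P, IsTranscendenceBasis ℂ z) (hsmooth : IsSmooth P 2)
    (hgt : IsOfLogGeneralType P (Fin.elim0 : Fin 0 → MvPolynomial (Fin (N + 1)) ℂ) 2) (hrat : NoRat (coneE P))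
    (A : Set (ℂ → PN N)) (hA : NullClass P A) (R : MvPolynomial (Fin (N + 1)) ℂ) (d : ℕ) (hR : R.IsHomogeneous d) (hRP : R ∉ P)
    (hnull : ∀ f : ℂ → PN N, HolomorphicInto f Set.univ → OrderTwo f → (∀ z, f z ∈ projVar P) → (∃ z w, f z ≠ f w) → f ∈ A →
      ∀ z, VanishesAt R (f z)) : IsHyperbolicSurface P := by
  obtain ⟨z, hz⟩ := id hdim
  exact hyperbolic_of hP hdim hsmooth hgt (stepBAll_of_noRat hP hz hsmooth hrat) A hA R d hR hRP hnull

end Pool.Agent.SY
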