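import Pool.Agent.SY.LangD
import Pool.Agent.H14.V.Spec
import Pool.Agent.H14.TS.Fin
import Pool.Agent.H13.CV.Strong
import Pool.Agent.H62.LGC.Final

/-!
# SY LangS: the special set of a surface and of its closed subvarieties
-/

set_option autoImplicit false

open MvPolynomial Topology Filter
open Pool.Agent.H17 (PN VanishesAt ZariskiClosedIn HolomorphicInto)
open Pool.Agent.H62.FC (Homog closureIn specialSet unionImages entireCurves IsGeneralType SemiAbelianMap unionImages_subset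
  homog_of_minimal exists_fin_basis closureIn_mono closureIn_subset_of_subset)
open Pool.Agent.H17LG.Variety (FunField IsLogGeneralType)
open Pool.Agent.H17EF (projVar)
open Pool.Agent.H17BP (mapIdeal mapIdeal_isPrime mem_mapIdeal_form mapIdeal_homog exists_X_notMem le_mapIdeal trdeg_lt eq_of_trdeg_zero)

noncomputable section

namespace Pool.Agent.SY.Lang

variable {N : ℕ}

/-- an entire curve as a map -/
def mapOfEntire {f : ℂ → PN N} (hf : HolomorphicInto f Set.univ) : SemiAbelianMap N where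
  g := 1
  one_le := le_rfl
  Λ := ⊥
  discrete := inferInstance
  Z := ∅
  analytic := fun p => ⟨1, fun _ _ => 1, analyticAt_const, Filter.Eventually.of_forall fun x => by
    constructor
    · intro h
      exact absurd h (Set.notMem_empty x)
    · intro h
      exact absurd (congrFun h 0) one_ne_zero⟩
  codim := Or.inl rfl
  f := fun p => f (p 0)
  holomorphic := by
    intro p _
    obtain ⟨φ, hφ, hev⟩ := hf (p 0) (Set.mem_univ _)
    have h1 : AnalyticAt ℂ (fun q : Fin 1 → ℂ => q 0) p := (analyticAt_pi_iff.mp (analyticAt_id (𝕜 := ℂ) (z := p))) 0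
    exact ⟨fun q => φ (q 0), AnalyticAt.comp (g := φ) (f := fun q : Fin 1 → ℂ => q 0) hφ h1,
      h1.continuousAt.tendsto.eventually hev⟩
  periodic_Z := by simp
  periodic_f := by
    intro a ha p _
    rw [AddSubgroup.mem_bot] at ha
    rw [ha, add_zero]

/-- the special set is the Zariski closure of the union of the non-constant entire curves -/
theorem specialSet_eq (Y : Set (PN N)) : specialSet Y = closureIn Y (entireCurves Y) := by
  apply Set.Subset.antisymm
  · refine closureIn_subset_of_subset (unionImages_subset fun x hx => ?_)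
    refine ⟨?_, fun k Q _ h => h x hx⟩
    obtain ⟨f, -, hf, -, z, rfl⟩ := hx
    exact hf z
  · refine closureIn_mono ?_
    rintro x ⟨f, hf, hfY, ⟨z₁, z₂, hz⟩, z, rfl⟩
    refine ⟨mapOfEntire hf, ?_, ⟨f z₁, ⟨fun _ => z₁, Set.notMem_empty _, rfl⟩, f z₂,
      ⟨fun _ => z₂, Set.notMem_empty _, rfl⟩, hz⟩, ⟨fun _ => z, Set.notMem_empty _, rfl⟩⟩
    rintro _ ⟨p, -, rfl⟩
    exact hfY (p (0 : Fin 1))

theorem specialSet_subset (Y : Set (PN N)) : specialSet Y ⊆ Y := fun _ hx => hx.1

theorem X_of_point {Q : Ideal (MvPolynomial (Fin (N + 1)) ℂ)} {x : PN N} (hx : x ∈ projVar Q) :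
    ∃ i, (X i : MvPolynomial (Fin (N + 1)) ℂ) ∉ Q := by
  by_contra hcon
  push Not at hcon
  apply x.rep_nonzero
  funext i
  have h1 : VanishesAt (X i : MvPolynomial (Fin (N + 1)) ℂ) x := hx _ (hcon i) 1 (isHomogeneous_X ℂ i)
  have h2 : eval x.rep (X i : MvPolynomial (Fin (N + 1)) ℂ) = 0 := h1
  rw [eval_X] at h2
  exact h2

/-- a variety of positive dimension is not empty -/
theorem exists_X (Q : Ideal (MvPolynomial (Fin (N + 1)) ℂ)) [Q.IsPrime] {w : ℕ} (hw : 1 ≤ w)
    (hz : ∃ z : Fin w → FunField Q, IsTranscendenceBasis ℂ z) : ∃ i, (X i : MvPolynomial (Fin (N + 1)) ℂ) ∉ Q := by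
  by_contra hcon
  push Not at hcon
  obtain ⟨z, hz⟩ := hz
  have h0 : ∀ i, Pool.Agent.H17GT.coordFun Q i = 0 := by
    intro i
    have h1 : (Ideal.Quotient.mk Q (X i : MvPolynomial (Fin (N + 1)) ℂ)) = 0 := Ideal.Quotient.eq_zero_iff_mem.2 (hcon i)
    unfold Pool.Agent.H17GT.coordFun
    rw [h1, map_zero]
  have hset : {y | ∃ i j, y = Pool.Agent.H17GT.coordFun Q i / Pool.Agent.H17GT.coordFun Q j} = {0} := by
    ext y
    constructor
    · rintro ⟨i, j, rfl⟩
      rw [h0 i, zero_div]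
      exact rfl
    · intro hy
      rw [Set.mem_singleton_iff.1 hy]
      exact ⟨0, 0, by rw [h0 0, zero_div]⟩
  have hbot : Pool.Agent.H17GT.functionField Q = ⊥ := by
    unfold Pool.Agent.H17GT.functionField
    rw [hset]
    exact IntermediateField.adjoin_zero
  have htr := hz.1.transcendental ⟨0, hw⟩
  apply htr
  obtain ⟨y, hy⟩ : ∃ y : Pool.Agent.H17GT.functionField Q, y = z ⟨0, hw⟩ := ⟨_, rfl⟩
  have hy2 : (y : FractionRing (MvPolynomial (Fin (N + 1)) ℂ ⧸ Q)) ∈
      (⊥ : IntermediateField ℂ (FractionRing (MvPolynomial (Fin (N + 1)) ℂ ⧸ Q))) := hbot ▸ y.2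
  rw [IntermediateField.mem_bot] at hy2
  obtain ⟨c, hc⟩ := hy2
  have h1 : z ⟨0, hw⟩ = algebraMap ℂ (FunField Q) c := by
    rw [← hy]
    exact Subtype.ext hc.symm
  rw [h1]
  exact isAlgebraic_algebraMap c

theorem hom_one : ∀ _ : Fin 1, ∃ n, (1 : MvPolynomial (Fin (N + 1)) ℂ).IsHomogeneous n := fun _ => ⟨0, isHomogeneous_one _ _⟩

/-- a curve of general type contains no non-constant entire curve -/
theorem const_of_generalType {Q : Ideal (MvPolynomial (Fin (N + 1)) ℂ)} [Q.IsPrime] (hQ : Homog Q)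
    (hz : ∃ z : Fin 1 → FunField Q, IsTranscendenceBasis ℂ z) (hgt : IsGeneralType (FunField Q) 1) {g : ℂ → PN N}
    (hg : HolomorphicInto g Set.univ) (hgQ : ∀ z, g z ∈ projVar Q) (z w : ℂ) : g z = g w := by
  refine Pool.Agent.H62.LGC.const_of_logGeneralType (I := Q) (G := fun _ : Fin 1 => (1 : MvPolynomial (Fin (N + 1)) ℂ)) hQ hz hom_one ?_ hg ?_ z w
  · rw [Pool.Agent.H17EF.onBd_one]
    exact Pool.Agent.H14.V.gt_of_isGeneralType hgt
  · rw [Pool.Agent.H17EF.locVar_one]
    exact hgQ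

/-- a curve which is not of general type contains a non-constant entire curve -/
theorem exists_entire {Q : Ideal (MvPolynomial (Fin (N + 1)) ℂ)} [Q.IsPrime]
    (hz : ∃ z : Fin 1 → FunField Q, IsTranscendenceBasis ℂ z) (hgt : ¬ IsGeneralType (FunField Q) 1) :
    ∃ f : ℂ → PN N, HolomorphicInto f Set.univ ∧ (∀ z, f z ∈ projVar Q) ∧ ∃ z w, f z ≠ f w := by
  have h1 := Pool.Agent.H13.CV.exists_entire_of_not_lgtL (G := fun _ : Fin 1 => (1 : MvPolynomial (Fin (N + 1)) ℂ)) Q
    (exists_X Q le_rfl hz) hz hom_one (fun h => hgt (Pool.Agent.H14.V.isGeneralType_of_gt (by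
      rw [Pool.Agent.H17EF.onBd_one] at h
      exact h)))
  rw [Pool.Agent.H17EF.locVar_one] at h1
  exact h1

/-- the special set of a curve of general type is empty -/
theorem curve_ne {Q : Ideal (MvPolynomial (Fin (N + 1)) ℂ)} [Q.IsPrime] (hQ : Homog Q)
    (hz : ∃ z : Fin 1 → FunField Q, IsTranscendenceBasis ℂ z) (hgt : IsGeneralType (FunField Q) 1) :
    specialSet (projVar Q) ≠ projVar Q := by
  intro heq
  have h1Q : (1 : MvPolynomial (Fin (N + 1)) ℂ) ∉ Q := fun h => (inferInstance : Q.IsPrime).ne_top ((Ideal.eq_top_iff_one Q).2 h)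
  obtain ⟨x, hx, -⟩ := Pool.Agent.H17EF.exists_point hQ (exists_X Q le_rfl hz) h1Q (isHomogeneous_one _ _)
  rw [← heq, specialSet_eq] at hx
  have h2 := hx.2 0 1 (isHomogeneous_one _ _) (by
    rintro _ ⟨f, hf, hfQ, ⟨a, b, hab⟩, -⟩
    exact absurd (const_of_generalType hQ hz hgt hf hfQ a b) hab)
  unfold VanishesAt at h2
  rw [map_one] at h2
  exact one_ne_zero h2

/-- a curve with a non-constant entire curve lies in the closure of the entire curves of every variety which contains it -/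
theorem curve_subset {P Q : Ideal (MvPolynomial (Fin (N + 1)) ℂ)} [Q.IsPrime] (hQ : Homog Q) (hPQ : P ≤ Q)
    (hz : ∃ z : Fin 1 → FunField Q, IsTranscendenceBasis ℂ z) {f : ℂ → PN N} (hf : HolomorphicInto f Set.univ)
    (hfQ : ∀ z, f z ∈ projVar Q) (hne : ∃ z w, f z ≠ f w) : projVar Q ⊆ specialSet (projVar P) := by
  intro x hx
  have hsub : projVar Q ⊆ projVar P := fun y hy R hR => hy R (hPQ hR)
  rw [specialSet_eq]
  refine ⟨hsub hx, fun k R hR hv => ?_⟩
  have h1 : ∀ z, VanishesAt R (f z) := fun z => hv _ ⟨f, hf, fun z => hsub (hfQ z), hne, z, rfl⟩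
  exact hx R (Pool.Agent.H13.CV.form_of_curve0 Q hQ hz hf hfQ hne hR h1) k hR

/-- a curve of general type on a surface does not lie in the closure of the entire curves -/
theorem curve_not_subset {P Q : Ideal (MvPolynomial (Fin (N + 1)) ℂ)} [P.IsPrime] [Q.IsPrime] (hP : Homog P) (hQ : Homog Q)
    (hdim : ∃ z : Fin 2 → FunField P, IsTranscendenceBasis ℂ z) (hne : specialSet (projVar P) ≠ projVar P)
    (hz : ∃ z : Fin 1 → FunField Q, IsTranscendenceBasis ℂ z) (hgt : IsGeneralType (FunField Q) 1) :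
    ¬ projVar Q ⊆ specialSet (projVar P) := by
  classical
  intro hsub
  -- a form which vanishes on the entire curves
  obtain ⟨R, n, hR, hRP, hRv⟩ : ∃ (R : MvPolynomial (Fin (N + 1)) ℂ) (n : ℕ), R.IsHomogeneous n ∧ R ∉ P ∧
      ∀ y ∈ entireCurves (projVar P), VanishesAt R y := by
    by_contra hcon
    push Not at hcon
    apply hne
    refine Set.Subset.antisymm (specialSet_subset _) fun x hx => ?_
    rw [specialSet_eq]
    refine ⟨hx, fun k R hR hv => ?_⟩
    by_contra hRx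
    obtain ⟨y, hy, hRy⟩ := hcon R k hR fun h => hRx (hx R h k hR)
    exact hRy (hv y hy)
  set κ : Type := {l : MvPolynomial (Fin (N + 1)) ℂ × ℕ // l.1.IsHomogeneous l.2 ∧ (l.1 ∈ P ∨ l.1 = R)} with hκ
  set A : κ → MvPolynomial (Fin (N + 1)) ℂ := fun l => l.1.1 with hA
  have hAh : ∀ l, (A l).IsHomogeneous (l.1.2) := fun l => l.2.1
  have hPI : P ≤ Ideal.span (Set.range A) := by
    intro p hp
    rw [← MvPolynomial.sum_homogeneousComponent p]
    refine Ideal.sum_mem _ fun i _ => Ideal.subset_span ⟨⟨(homogeneousComponent i p, i), homogeneousComponent_isHomogeneous i p, Or.inl (hP p hp i)⟩, rfl⟩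
  have hRI : R ∈ Ideal.span (Set.range A) := Ideal.subset_span ⟨⟨(R, n), hR, Or.inr rfl⟩, rfl⟩
  have hfin := Ideal.finite_minimalPrimes_of_isNoetherianRing _ (Ideal.span (Set.range A))
  -- the ideal of an entire curve
  have hcurve : ∀ f : ℂ → PN N, HolomorphicInto f Set.univ → (∀ z, f z ∈ projVar P) → (∃ z w, f z ≠ f w) →
      mapIdeal f Set.univ ∈ (Ideal.span (Set.range A)).minimalPrimes ∧ ¬ mapIdeal f Set.univ ≤ Q := by
    intro f hf hfP hfn
    have hJp : (mapIdeal f Set.univ).IsPrime := mapIdeal_isPrime isOpen_univ isPreconnected_univ Set.univ_nonempty hf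
    have hJX : ∃ i, (X i : MvPolynomial (Fin (N + 1)) ℂ) ∉ mapIdeal f Set.univ := exists_X_notMem Set.univ_nonempty
    have hJh : Homog (mapIdeal f Set.univ) := mapIdeal_homog
    have hIJ : Ideal.span (Set.range A) ≤ mapIdeal f Set.univ := by
      rw [Ideal.span_le]
      rintro _ ⟨l, rfl⟩
      refine (mem_mapIdeal_form (hAh l)).2 fun z _ => ?_
      rcases l.2.2 with h | h
      · exact hfP z _ h _ (hAh l)
      · have h1 : A l = R := h
        rw [h1]
        exact hRv _ ⟨f, hf, hfP, hfn, z, rfl⟩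
    -- the dimension
    have hdimJ : ∀ J : Ideal (MvPolynomial (Fin (N + 1)) ℂ), ∀ _ : J.IsPrime, Homog J → P ≤ J → R ∈ J → J ≤ mapIdeal f Set.univ →
        ∃ z : Fin 1 → FunField J, IsTranscendenceBasis ℂ z := by
      intro J hJ' hJh' hPJ hRJ hJle
      have hX' : ∃ i, (X i : MvPolynomial (Fin (N + 1)) ℂ) ∉ J := by
        obtain ⟨i, hi⟩ := hJX
        exact ⟨i, fun h => hi (hJle h)⟩
      obtain ⟨w, hw⟩ := exists_fin_basis hX'
      have h1 : w < 2 := trdeg_lt hP hJh' hPJ (fun h => hRP (h hRJ)) hX' hdim hw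
      have h2 : w ≠ 0 := by
        rintro rfl
        obtain ⟨a, b, hab⟩ := hfn
        refine hab (eq_of_trdeg_zero hJh' hX' hw _ ⟨fun S hS k hk => ?_, fun m => m.elim0⟩ _ ⟨fun S hS k hk => ?_, fun m => m.elim0⟩)
        · exact (mem_mapIdeal_form hk).1 (hJle hS) a (Set.mem_univ _)
        · exact (mem_mapIdeal_form hk).1 (hJle hS) b (Set.mem_univ _)
      obtain rfl : w = 1 := by omega
      exact hw
    have hJ1 := hdimJ _ hJp hJh (hPI.trans hIJ) (hIJ hRI) le_rfl
    have heq : ∀ J : Ideal (MvPolynomial (Fin (N + 1)) ℂ), ∀ _ : J.IsPrime, Homog J →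
        (∃ z : Fin 1 → FunField J, IsTranscendenceBasis ℂ z) → mapIdeal f Set.univ ≤ J → (∃ i, (X i : MvPolynomial (Fin (N + 1)) ℂ) ∉ J) →
        J ≤ mapIdeal f Set.univ := by
      intro J hJ' hJh' hzJ hle hX'
      by_contra hcon
      have := trdeg_lt hJh hJh' hle hcon hX' hJ1 hzJ
      omega
    refine ⟨?_, fun hle => ?_⟩
    · obtain ⟨J, hJ, hJle⟩ := Ideal.exists_minimalPrimes_le hIJ
      have hJ' : J.IsPrime := hJ.1.1
      have hJh' : Homog J := homog_of_minimal hAh hJ
      have hzJ := hdimJ J hJ' hJh' (hPI.trans hJ.1.2) (hJ.1.2 hRI) hJle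
      have h1 : mapIdeal f Set.univ ≤ J := by
        by_contra hcon
        have := trdeg_lt hJh' hJh hJle hcon hJX hzJ hJ1
        omega
      rw [le_antisymm h1 hJle]
      exact hJ
    · have hQle := heq Q inferInstance hQ hz hle (exists_X Q le_rfl hz)
      obtain ⟨a, b, hab⟩ := hfn
      exact hab (const_of_generalType hQ hz hgt hf (fun z S hS k hk => (mem_mapIdeal_form hk).1 (hQle hS) z (Set.mem_univ _)) a b)
  -- the product of forms
  have hfin' : {J | J ∈ (Ideal.span (Set.range A)).minimalPrimes ∧ ¬ J ≤ Q}.Finite := hfin.subset fun J hJ => hJ.1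
  obtain ⟨S, m, hS, hSQ, hSv⟩ := Pool.Agent.H17EF.exists_prod (P := Q) hfin' (A := fun J => projVar J) (fun J hJ => by
    have hJh' : Homog J := homog_of_minimal hAh hJ.1
    obtain ⟨p, hp, hpQ⟩ := SetLike.not_le_iff_exists.1 hJ.2
    have h1 : ∃ i, homogeneousComponent i p ∉ Q := by
      by_contra hcon
      push Not at hcon
      apply hpQ
      rw [← MvPolynomial.sum_homogeneousComponent p]
      exact Ideal.sum_mem _ fun i _ => hcon i
    obtain ⟨i, hi⟩ := h1
    exact ⟨_, i, homogeneousComponent_isHomogeneous i p, hi, fun x hx => hx _ (hJh' p hp i) i (homogeneousComponent_isHomogeneous i p)⟩)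
  obtain ⟨x, hx, hSx⟩ := Pool.Agent.H17EF.exists_point hQ (exists_X Q le_rfl hz) hSQ hS
  apply hSx
  have hx' := hsub hx
  rw [specialSet_eq] at hx'
  refine hx'.2 m S hS ?_
  rintro _ ⟨f, hf, hfP, hfn, z, rfl⟩
  obtain ⟨h1, h3⟩ := hcurve f hf hfP hfn
  refine hSv _ ?_
  simp only [Set.mem_iUnion]
  exact ⟨_, ⟨h1, h3⟩, fun S' hS' k hk => (mem_mapIdeal_form hk).1 hS' z (Set.mem_univ _)⟩

/-- **The special set of a surface of general type and of its subvarieties**, from the degeneracy of the entire curves -/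
theorem langSpecial_of {P : Ideal (MvPolynomial (Fin (N + 1)) ℂ)} [P.IsPrime] (hP : Homog P)
    (hdim : ∃ z : Fin 2 → FunField P, IsTranscendenceBasis ℂ z) (hgt : IsGeneralType (FunField P) 2) {Ξ : Set (PN N)}
    (hΞ : ZariskiClosedIn (projVar P) Ξ) (hne : Ξ ≠ projVar P)
    (hbr : ∀ f : ℂ → PN N, HolomorphicInto f Set.univ → (∀ z, f z ∈ projVar P) → (∃ z w, f z ≠ f w) → ∀ z, f z ∈ Ξ) : LangSpecial P := by
  have hsp : specialSet (projVar P) ≠ projVar P := by
    intro heq
    apply hne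
    obtain ⟨T, hT, rfl⟩ := hΞ
    refine Set.Subset.antisymm (fun x hx => hx.1) fun x hx => ⟨hx, fun R hR => ?_⟩
    obtain ⟨n, hn⟩ := hT R hR
    rw [← heq, specialSet_eq] at hx
    refine hx.2 n R hn ?_
    rintro _ ⟨f, hf, hfP, hfn, z, rfl⟩
    exact (hbr f hf hfP hfn z).2 R hR
  refine ⟨hsp, ?_⟩
  intro Q _ hQ hPQ w hw hz
  by_cases hle : Q ≤ P
  · have hEq : P = Q := le_antisymm hPQ hle
    subst hEq
    have h1 : w ≤ 2 := Pool.Agent.H62.FC.trdeg_mono hP hP le_rfl hdim hz
    have h2 : 2 ≤ w := Pool.Agent.H62.FC.trdeg_mono hP hP le_rfl hz hdim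
    obtain rfl : w = 2 := le_antisymm h1 h2
    exact ⟨⟨fun _ => hsp, fun _ => hgt⟩, ⟨fun _ h => hsp (Set.Subset.antisymm (specialSet_subset _) h), fun _ => hgt⟩⟩
  · have hX := exists_X Q hw hz
    have hlt : w < 2 := trdeg_lt hP hQ hPQ hle hX hdim hz
    obtain rfl : w = 1 := by omega
    by_cases hg : IsGeneralType (FunField Q) 1
    · exact ⟨⟨fun _ => curve_ne hQ hz hg, fun _ => hg⟩, ⟨fun _ => curve_not_subset hP hQ hdim hsp hz hg, fun _ => hg⟩⟩
    · obtain ⟨f, hf, hfQ, hfn⟩ := exists_entire hz hg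
      have h1 : projVar Q ⊆ specialSet (projVar Q) := curve_subset hQ le_rfl hz hf hfQ hfn
      have h2 : projVar Q ⊆ specialSet (projVar P) := curve_subset hQ hPQ hz hf hfQ hfn
      exact ⟨⟨fun h => absurd h hg, fun h => absurd (Set.Subset.antisymm (specialSet_subset _) h1) h⟩,
        ⟨fun h => absurd h hg, fun h => absurd h2 h⟩⟩

end Pool.Agent.SY.Lang
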