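import Pool.Agent.H36.BP.SubB
import Pool.Agent.H36.BP.MaxP

/-!
# SY PotM: a maximum principle on discs without good points

`m` is upper semicontinuous, `m ≤ A`, and `log m` has Laplacian at least `4 κ` at the points where `0 < m < d`.
* `bound_of_no_good`: if `m < d` on a disc of centre `z₀` and radius `R` then `m p ≤ A exp (-(κ/2) (R² - |p - z₀|²))` there;
* `exists_ge`: if `m` is positive somewhere, then `d ≤ m` somewhere.
-/

set_option autoImplicit false

namespace Pool.Agent.SY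

open Filter Topology Metric
open Pool.Agent.H36.BP (EN Sub Sub.mul Sub.congr Sub.exp_sq max_principle)

/-- decay inside a disc, at the points of which `m` has large Laplacian -/
theorem decay {m : ℂ → ℝ} {z₀ : ℂ} {R A κ : ℝ} (hR : 0 < R) (hκ : 0 < κ) (hA0 : 0 ≤ A) (hm : UpperSemicontinuousOn m (closedBall z₀ R))
    (hA : ∀ z ∈ closedBall z₀ R, m z ≤ A) (hs : ∀ z ∈ ball z₀ R, 0 < m z → Sub m z κ) :
    ∀ z ∈ closedBall z₀ R, m z ≤ A * Real.exp (-(κ / 2) * (R ^ 2 - ‖z - z₀‖ ^ 2)) := by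
  have _ := hR
  have husc : UpperSemicontinuousOn (fun z => m z * Real.exp (-(κ / 2) * ‖z - z₀‖ ^ 2))
      (closedBall z₀ R) := by
    intro x hx y hy
    set h : ℂ → ℝ := fun z => Real.exp (-(κ / 2) * ‖z - z₀‖ ^ 2) with hh
    have hx0 : 0 < h x := Real.exp_pos _
    have h1 : m x < y / h x := (lt_div_iff₀ hx0).2 hy
    obtain ⟨a, ha1, ha2⟩ := exists_between h1
    have h2 : a * h x < y := (lt_div_iff₀ hx0).1 ha2
    have hc : Continuous h := by
      rw [hh]
      fun_prop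
    have h3 : ∀ᶠ z in 𝓝[closedBall z₀ R] x, a * h z < y :=
      (continuousWithinAt_const.mul hc.continuousWithinAt).tendsto.eventually (gt_mem_nhds h2)
    filter_upwards [hm x hx a ha1, h3] with z hz1 hz2
    exact (mul_lt_mul_of_pos_right hz1 (Real.exp_pos _)).trans hz2
  have key := max_principle (isCompact_closedBall z₀ R) isOpen_ball ball_subset_closedBall husc
    (A := A * Real.exp (-(κ / 2) * R ^ 2)) (fun z hz hz0 => ?_) (by positivity) (fun z hz => ?_)
  · intro p hp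
    have h1 := key p hp
    have h2 : Real.exp (-(κ / 2) * (R ^ 2 - ‖p - z₀‖ ^ 2)) =
        Real.exp (-(κ / 2) * R ^ 2) / Real.exp (-(κ / 2) * ‖p - z₀‖ ^ 2) := by
      rw [← Real.exp_sub]
      congr 1
      ring
    rw [h2, ← mul_div_assoc, le_div_iff₀ (Real.exp_pos _)]
    exact h1
  · have hm0 : 0 < m z := by
      by_contra h3
      exact absurd hz0 (not_lt.2 (mul_nonpos_of_nonpos_of_nonneg (not_lt.1 h3) (Real.exp_pos _).le))
    have hs1 := hs z hz hm0
    have hs2 : Sub (fun w => Real.exp (-(κ / 2) * ‖w - z₀‖ ^ 2)) z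
        (-(κ / 2) * ‖deriv (fun w : ℂ => w - z₀) z‖ ^ 2) :=
      Sub.exp_sq (analyticAt_id.sub analyticAt_const) _
    have h3 : deriv (fun w : ℂ => w - z₀) z = 1 := by
      rw [deriv_sub_const]
      exact deriv_id z
    rw [h3, norm_one, one_pow, mul_one] at hs2
    exact ⟨κ + -(κ / 2), by linarith, hs1.mul hs2⟩
  · have hz1 : z ∈ sphere z₀ R := by
      rw [← closedBall_sdiff_ball]
      exact hz
    have hzn : ‖z - z₀‖ = R := mem_sphere_iff_norm.1 hz1
    show m z * Real.exp (-(κ / 2) * ‖z - z₀‖ ^ 2) ≤ _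
    rw [hzn]
    exact mul_le_mul_of_nonneg_right (hA z (sphere_subset_closedBall hz1)) (Real.exp_pos _).le

theorem bound_of_no_good {m : ℂ → ℝ} {A d κ R : ℝ} {z₀ : ℂ} (hκ : 0 < κ) (hA0 : 0 ≤ A)
    (hR : 0 < R) (hm : UpperSemicontinuousOn m (closedBall z₀ R)) (hA : ∀ z ∈ closedBall z₀ R, m z ≤ A)
    (hsub : ∀ z ∈ ball z₀ R, 0 < m z → m z < d → Sub m z κ) (hd : ∀ z ∈ ball z₀ R, m z < d) :
    ∀ p ∈ closedBall z₀ R, m p ≤ A * Real.exp (-(κ / 2) * (R ^ 2 - ‖p - z₀‖ ^ 2)) := by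
  exact decay hR hκ hA0 hm hA fun z hz h0 => hsub z hz h0 (hd z hz)

theorem exists_ge {m : ℂ → ℝ} {A d κ : ℝ} (hκ : 0 < κ) (hA0 : 0 ≤ A)
    (hm : UpperSemicontinuous m) (hA : ∀ z, m z ≤ A)
    (hsub : ∀ z, 0 < m z → m z < d → Sub m z κ) {p : ℂ} (hp : 0 < m p) : ∃ y, d ≤ m y := by
  by_contra hno
  push Not at hno
  have h1 : ∀ n : ℕ, m p ≤ A * Real.exp (-(κ / 2) * (((n : ℝ) + 1) ^ 2)) := by
    intro n
    have h2 := bound_of_no_good (z₀ := p) (R := n + 1) hκ hA0 (by positivity) (hm.upperSemicontinuousOn _)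
      (fun z _ => hA z) (fun z _ => hsub z) (fun z _ => hno z) p
      (mem_closedBall_self (by positivity))
    rw [sub_self, norm_zero, zero_pow two_ne_zero, sub_zero] at h2
    exact h2
  have h3 : Tendsto (fun n : ℕ => A * Real.exp (-(κ / 2) * (((n : ℝ) + 1) ^ 2))) atTop (𝓝 (A * 0)) := by
    refine Tendsto.const_mul A (Real.tendsto_exp_atBot.comp ?_)
    have h4 : Tendsto (fun n : ℕ => ((n : ℝ) + 1) ^ 2) atTop atTop :=
      (tendsto_pow_atTop two_ne_zero).comp
        (tendsto_atTop_add_const_right _ _ tendsto_natCast_atTop_atTop)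
    exact h4.const_mul_atTop_of_neg (by linarith)
  have h4 : m p ≤ A * 0 := ge_of_tendsto' h3 h1
  rw [mul_zero] at h4
  linarith

end Pool.Agent.SY
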