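import Pool.Agent.H36.BP.SubB
import Pool.Agent.H36.BP.MaxP
import Pool.Agent.H36.BP.CirA

/-!
# SY ChM: bounded characteristic, at the level of functions

`char_fun`: `m` upper semicontinuous with `δ ≤ m 0`, `m ≤ A` on the closed disc of radius `R`, `F` an entire curve
without zeros, and `m |F|^(-c₀)` has the lower support property with the exponent `-C m²` where `m > 0`. Then there is
an entire function `g` with `|exp g F| ≤ 1` on the disc and a lower bound for `|exp (g 0) F 0|` which depends only on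
`c₀`, `C`, `A/δ`, `A`, `R`.
-/

set_option autoImplicit false

namespace Pool.Agent.SY

open Filter Topology Metric
open Pool.Agent.H36.BP (EN Sub Sub.mul Sub.congr Sub.of_holo Sub.exp_sq max_principle circle_approx)

variable {N : ℕ}

private theorem ch_usc {S : Set ℂ} {f h : ℂ → ℝ} (hf : UpperSemicontinuousOn f S)
    (hh : ContinuousOn h S) (hpos : ∀ z ∈ S, 0 < h z) :
    UpperSemicontinuousOn (fun z => f z * h z) S := by
  intro x hx y hy
  have hx0 := hpos x hx
  have h1 : f x < y / h x := (lt_div_iff₀ hx0).2 hy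
  obtain ⟨a, ha1, ha2⟩ := exists_between h1
  have h2 : a * h x < y := (lt_div_iff₀ hx0).1 ha2
  have h3 : ∀ᶠ z in 𝓝[S] x, a * h z < y :=
    ((continuousWithinAt_const.mul (hh x hx)).tendsto).eventually (gt_mem_nhds h2)
  filter_upwards [hf x hx a ha1, h3, self_mem_nhdsWithin] with z hz1 hz2 hz3
  exact (mul_lt_mul_of_pos_right hz1 (hpos z hz3)).trans hz2

/-- **bounded characteristic**, for a function `m` -/
theorem char_fun {c₀ C : ℝ} (hc : 0 < c₀) (hC : 0 ≤ C) {R A δ : ℝ} (hR : 0 < R) (hδ : 0 < δ) {F : ℂ → EN N} (hF : Differentiable ℂ F)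
    (h0 : ∀ z, F z ≠ 0) {m : ℂ → ℝ} (hm : UpperSemicontinuousOn m (closedBall 0 R)) (hmA : ∀ z ∈ closedBall (0 : ℂ) R, m z ≤ A) (hm0 : δ ≤ m 0)
    (hs : ∀ z ∈ ball (0 : ℂ) R, 0 < m z → Sub (fun w => m w * ‖F w‖ ^ (-c₀)) z (-(C * m z ^ 2))) :
    ∃ u : ℂ → ℂ, Differentiable ℂ u ∧ (∀ z ∈ ball (0 : ℂ) R, ‖Complex.exp (u z) • F z‖ ≤ 1) ∧
      Real.exp (-(1 + Real.log (A / δ * Real.exp 1 * Real.exp ((C * A ^ 2 + 1) * R ^ 2))) / c₀) ≤ ‖Complex.exp (u 0) • F 0‖ := by
  have hne0 := h0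
  have h0 := hm0
  have hA := hmA
  have hsub := hs
  have hδA : δ ≤ A := h0.trans (hA 0 (mem_closedBall_self hR.le))
  have hApos : 0 < A := hδ.trans_le hδA
  set A' : ℝ := A * Real.exp 1 * Real.exp ((C * A ^ 2 + 1) * R ^ 2) with hA'
  have hA'0 : 0 < A' := mul_pos (mul_pos hApos (Real.exp_pos _)) (Real.exp_pos _)
  have hne : ∀ z, 0 < ‖F z‖ := fun z => norm_pos_iff.2 (hne0 z)
  have hcont : Continuous F := hF.continuous
  obtain ⟨g, hg, hgφ⟩ := circle_approx hR (fun z => c₀ * Real.log ‖F z‖)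
    (continuousOn_const.mul ((hcont.continuousOn).norm.log fun z _ => (hne z).ne'))
    one_pos
  have hexp : ∀ z, ‖Complex.exp (-(g z / c₀)) • F z‖ =
      Real.exp (-((g z).re / c₀) + Real.log ‖F z‖) := by
    intro z
    have h1 : (-(g z / (c₀ : ℂ))).re = -((g z).re / c₀) := by
      rw [Complex.neg_re, Complex.div_ofReal_re]
    rw [norm_smul, Complex.norm_exp, h1, Real.exp_add, Real.exp_log (hne z)]
  -- the upper bound
  have hup : ∀ z ∈ ball (0 : ℂ) R, ‖Complex.exp (-(g z / c₀)) • F z‖ ≤ Real.exp (1 / c₀) := by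
    intro z hz
    have hd : DiffContOnCl ℂ (fun z => Complex.exp (-(g z / c₀)) • F z) (ball (0 : ℂ) R) :=
      ((hg.div_const _).neg.cexp.smul hF).diffContOnCl
    refine Complex.norm_le_of_forall_mem_frontier_norm_le isBounded_ball hd (fun w hw => ?_)
      (subset_closure hz)
    rw [frontier_ball _ hR.ne'] at hw
    rw [hexp w, Real.exp_le_exp]
    have h1 := (abs_le.1 (hgφ w hw)).1
    have h3 : Real.log ‖F w‖ ≤ (1 + (g w).re) / c₀ := by
      rw [le_div_iff₀ hc]
      linarith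
    rw [add_div] at h3
    linarith
  -- the lower bound
  have hlow : δ * (‖F 0‖ ^ (-c₀) * ‖Complex.exp (g 0)‖) ≤ A' := by
    have husc : UpperSemicontinuousOn (fun z => m z * (‖F z‖ ^ (-c₀) * ‖Complex.exp (g z)‖ *
        Real.exp ((C * A ^ 2 + 1) * ‖z‖ ^ 2))) (closedBall (0 : ℂ) R) := by
      refine ch_usc hm ?_ ?_
      · refine ContinuousOn.mul (ContinuousOn.mul ?_ ?_) ?_
        · exact (hcont.continuousOn).norm.rpow_const fun z _ => Or.inl (hne z).ne'
        · exact (hg.continuous.cexp).norm.continuousOn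
        · exact (Real.continuous_exp.comp
            (continuous_const.mul (continuous_norm.pow 2))).continuousOn
      · intro z _
        exact mul_pos (mul_pos (Real.rpow_pos_of_pos (hne z) _)
          (norm_pos_iff.2 (Complex.exp_ne_zero _))) (Real.exp_pos _)
    have hmp := max_principle (isCompact_closedBall (0 : ℂ) R) isOpen_ball ball_subset_closedBall
      husc (fun z hz hz0 => ?_) hA'0.le (fun z hz => ?_) 0 (mem_closedBall_self hR.le)
    · rw [norm_zero] at hmp
      norm_num at hmp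
      refine le_trans (mul_le_mul_of_nonneg_right h0 ?_) hmp
      exact mul_nonneg (Real.rpow_nonneg (norm_nonneg _) _) (norm_nonneg _)
    · have hpos : 0 < ‖F z‖ ^ (-c₀) * ‖Complex.exp (g z)‖ *
            Real.exp ((C * A ^ 2 + 1) * ‖z‖ ^ 2) :=
        mul_pos (mul_pos (Real.rpow_pos_of_pos (hne z) _)
          (norm_pos_iff.2 (Complex.exp_ne_zero _))) (Real.exp_pos _)
      have hm0 : 0 < m z := by
        by_contra h3
        have h4 : m z ≤ 0 := not_lt.1 h3
        exact absurd hz0 (not_lt.2 (mul_nonpos_of_nonpos_of_nonneg h4 hpos.le))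
      have hs1 := hsub z hz hm0
      have hs2 : Sub (fun z => ‖Complex.exp (g z)‖) z 0 :=
        Sub.of_holo ((hg.analyticAt z).cexp) (Complex.exp_ne_zero _)
      have hs3 : Sub (fun z => Real.exp ((C * A ^ 2 + 1) * ‖z‖ ^ 2)) z
          ((C * A ^ 2 + 1) * ‖deriv (fun z : ℂ => z) z‖ ^ 2) := Sub.exp_sq analyticAt_id _
      have hs4 := (hs1.mul hs2).mul hs3
      refine ⟨_, ?_, hs4.congr (Filter.Eventually.of_forall fun w => ?_)⟩
      · have h3 : deriv (fun z : ℂ => z) z = 1 := deriv_id z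
        rw [h3, norm_one, one_pow, mul_one, add_zero]
        have h4 := hA z (ball_subset_closedBall hz)
        have h5 : m z ^ 2 ≤ A ^ 2 := by nlinarith
        nlinarith
      · ring
    · have hz1 : z ∈ sphere (0 : ℂ) R := by
        rw [← closedBall_sdiff_ball]
        exact hz
      have hzn : ‖z‖ = R := mem_sphere_zero_iff_norm.1 hz1
      have h1 := (abs_le.1 (hgφ z hz1)).2
      have h3 : ‖F z‖ ^ (-c₀) * ‖Complex.exp (g z)‖ ≤ Real.exp 1 := by
        rw [Complex.norm_exp, Real.rpow_def_of_pos (hne z), ← Real.exp_add, Real.exp_le_exp]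
        linarith
      have h4 : m z ≤ A := hA z (sphere_subset_closedBall hz1)
      have h5 : 0 ≤ ‖F z‖ ^ (-c₀) * ‖Complex.exp (g z)‖ :=
        mul_nonneg (Real.rpow_nonneg (norm_nonneg _) _) (norm_nonneg _)
      rw [hzn, hA', ← mul_assoc]
      refine mul_le_mul_of_nonneg_right ?_ (Real.exp_pos _).le
      exact mul_le_mul h4 h3 h5 hApos.le
  refine ⟨fun z => -(g z / c₀) - 1 / c₀, (hg.div_const _).neg.sub_const _, fun z hz => ?_, ?_⟩
  · have h1 := hup z hz
    have h3 : Complex.exp (-(g z / c₀) - 1 / c₀) • F z =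
        Complex.exp (-(1 / c₀ : ℂ)) • (Complex.exp (-(g z / c₀)) • F z) := by
      rw [smul_smul, ← Complex.exp_add]
      congr 2
      ring
    have h4 : ‖Complex.exp (-(1 / c₀ : ℂ))‖ = Real.exp (-(1 / c₀)) := by
      rw [Complex.norm_exp]
      congr 1
      rw [Complex.neg_re, ← Complex.ofReal_one, ← Complex.ofReal_div, Complex.ofReal_re]
    rw [h3, norm_smul, h4]
    calc Real.exp (-(1 / c₀)) * ‖Complex.exp (-(g z / c₀)) • F z‖
        ≤ Real.exp (-(1 / c₀)) * Real.exp (1 / c₀) :=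
          mul_le_mul_of_nonneg_left h1 (Real.exp_pos _).le
      _ = 1 := by rw [← Real.exp_add, neg_add_cancel, Real.exp_zero]
  · have h3 : Complex.exp (-(g 0 / c₀) - 1 / c₀) • F 0 =
        Complex.exp (-(1 / c₀ : ℂ)) • (Complex.exp (-(g 0 / c₀)) • F 0) := by
      rw [smul_smul, ← Complex.exp_add]
      congr 2
      ring
    have h4 : ‖Complex.exp (-(1 / c₀ : ℂ))‖ = Real.exp (-(1 / c₀)) := by
      rw [Complex.norm_exp]
      congr 1
      rw [Complex.neg_re, ← Complex.ofReal_one, ← Complex.ofReal_div, Complex.ofReal_re]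
    show _ ≤ ‖Complex.exp (-(g 0 / c₀) - 1 / c₀) • F 0‖
    rw [h3, norm_smul, h4, hexp 0, ← Real.exp_add, Real.exp_le_exp]
    have hlow' : ‖F 0‖ ^ (-c₀) * ‖Complex.exp (g 0)‖ ≤ A' / δ := by
      rw [le_div_iff₀ hδ, mul_comm]
      exact hlow
    rw [Complex.norm_exp, Real.rpow_def_of_pos (hne 0), ← Real.exp_add] at hlow'
    have h5 : Real.log ‖F 0‖ * -c₀ + (g 0).re ≤ Real.log (A' / δ) := by
      have h6 := Real.log_le_log (Real.exp_pos _) hlow'
      rwa [Real.log_exp] at h6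
    have h6 : A' / δ = A / δ * Real.exp 1 * Real.exp ((C * A ^ 2 + 1) * R ^ 2) := by
      rw [hA']
      ring
    rw [h6] at h5
    have h7 : ((g 0).re - Real.log (A / δ * Real.exp 1 * Real.exp ((C * A ^ 2 + 1) * R ^ 2))) / c₀ ≤
        Real.log ‖F 0‖ := by
      rw [div_le_iff₀ hc]
      linarith
    rw [sub_div] at h7
    have h8 : -(1 + Real.log (A / δ * Real.exp 1 * Real.exp ((C * A ^ 2 + 1) * R ^ 2))) / c₀ =
        -(1 / c₀) - Real.log (A / δ * Real.exp 1 * Real.exp ((C * A ^ 2 + 1) * R ^ 2)) / c₀ := by ring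
    rw [h8]
    linarith

end Pool.Agent.SY
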