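import Pool.Agent.SY.EiD
import Pool.Agent.SY.ChM
import Pool.Agent.H17.Montel
import Pool.Agent.H17BP.ChLem
import Pool.Agent.H62.BU.Main

/-!
# SY EiM: limits of entire curves, the metric of the blow-up

Along an ultrafilter the lifts `Φ n` of the curves `F n`, normalised by units (`char_fun`), converge near `0` to a curve `Ψ` of the blow-up
(`montel_ultrafilter`).  The components of `Ψ z` are multiples of `H z` (`lift_prop`), so the property `lim` upstairs gives `H z ∉ T` for some `z`.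
If all the `H z` are proportional, then they are not multiples of `q`, and `Ψ z` is proportional to `phi l (H z)`: `Ψ` is constant, a contradiction.
-/

set_option autoImplicit false

open Topology Filter Metric

noncomputable section

namespace Pool.Agent.SY

open Pool.Agent.H36.BP (EN fs wd Sub)
open Pool.Agent.H17BP (Pr Surface)
open Pool.Agent.H62.BU (blow total Ker phi)

variable {V : Type} [NormedAddCommGroup V] [NormedSpace ℂ V] {ι : Type} [Fintype ι] {l : ι → V →L[ℂ] ℂ} {X T : Set V} {q : V}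

/-- the multiplier of the lift does not vanish identically near any point -/
private theorem eim_ne (hX : Surface X) (hl : Ker l q) (hT : ∀ x ∈ T, ∀ c : ℂ, c ≠ 0 → c • x ∈ T) (hq : q ∈ T) {F : ℂ → V}
    (hF : Ent X T F) {Φ : ℂ → ι → V} {h : ℂ → ℂ} (hh : Differentiable ℂ h) (hphi : ∀ z, phi l (F z) = h z • Φ z) (z₀ : ℂ) :
    ∀ᶠ z in 𝓝[≠] z₀, h z ≠ 0 := by
  rcases (hh.analyticAt z₀).eventually_eq_zero_or_eventually_ne_zero with h1 | h1
  · exfalso
    have h2 : ∀ z, h z = 0 := by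
      intro z
      have h3 : AnalyticOnNhd ℂ h Set.univ := fun w _ => hh.analyticAt w
      exact h3.eqOn_zero_of_preconnected_of_eventuallyEq_zero isPreconnected_univ (Set.mem_univ z₀) h1 (Set.mem_univ z)
    obtain ⟨z, hz⟩ := hF.out
    apply hz
    have hne : F z ≠ 0 := fun h0 => hX.zero (h0 ▸ hF.mem z)
    have h4 : ∀ b, l b (F z) = 0 := by
      intro b
      have h5 := congrFun (hphi z) b
      rw [h2 z, zero_smul] at h5
      have h6 : l b (F z) • F z = 0 := h5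
      exact (smul_eq_zero.mp h6).resolve_right hne
    obtain ⟨c, hc⟩ := (hl (F z)).mp h4
    have hc0 : c ≠ 0 := by
      rintro rfl
      rw [zero_smul] at hc
      exact hne hc
    rw [hc]
    exact hT q hq c hc0
  · exact h1

/-- the components of the lift are proportional to the curve -/
theorem lift_prop (hX : Surface X) (hl : Ker l q) (hT : ∀ x ∈ T, ∀ c : ℂ, c ≠ 0 → c • x ∈ T) (hq : q ∈ T) {F : ℂ → V}
    (hF : Ent X T F) {Φ : ℂ → ι → V} (h1 : IsLiftB l X T F Φ) (Λ : V →L[ℂ] ℂ) (b : ι) (z₀ : ℂ) :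
    Λ (Φ z₀ b) • F z₀ = Λ (F z₀) • Φ z₀ b := by
  obtain ⟨hΦ, h, hh, hphi⟩ := h1
  have hc1 : Continuous F := hF.diff.continuous
  have hc2 : Continuous (fun z => Φ z b) := (continuous_apply b).comp hΦ.diff.continuous
  have h2 : Tendsto (fun z => Λ (Φ z b) • F z) (𝓝[≠] z₀) (𝓝 (Λ (Φ z₀ b) • F z₀)) :=
    ((Λ.continuous.comp hc2).smul hc1).continuousAt.tendsto.mono_left nhdsWithin_le_nhds
  have h3 : Tendsto (fun z => Λ (F z) • Φ z b) (𝓝[≠] z₀) (𝓝 (Λ (F z₀) • Φ z₀ b)) :=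
    ((Λ.continuous.comp hc1).smul hc2).continuousAt.tendsto.mono_left nhdsWithin_le_nhds
  refine tendsto_nhds_unique_of_eventuallyEq h2 h3 ?_
  filter_upwards [eim_ne hX hl hT hq hF hh hphi z₀] with z hz
  have h4 : l b (F z) • F z = h z • Φ z b := congrFun (hphi z) b
  have h5 : Φ z b = ((h z)⁻¹ * l b (F z)) • F z := by
    rw [mul_smul, h4, smul_smul, inv_mul_cancel₀ hz, one_smul]
  rw [h5, map_smul, smul_smul, smul_eq_mul, mul_comm]

/-- MODULE EiM: limits -/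
theorem down_lim [FiniteDimensional ℂ V] {N' : ℕ} {L' : (ι → V) ≃L[ℂ] EN N'} {rho : (ι → V) → ℝ} {M : ℕ} {c₀ C : ℝ} {g : (ℂ → ι → V) → ℂ → ℝ}
    (hX : Surface X) (hl : Ker l q) (hTX : T ⊆ X) (hT : ∀ x ∈ T, ∀ c : ℂ, c ≠ 0 → c • x ∈ T) (hq : q ∈ T)
    (E : Energy (blow l X) (total l X T) (fun y => ‖L' y‖) rho M c₀ C g)
    (u : Filter ℕ) (hu : u.NeBot) (r A ε : ℝ) (hr : 0 < r) (hε : 0 < ε) (F : ℕ → ℂ → V) (H : ℂ → V) (hF : ∀ᶠ n in u, Ent X T (F n))
    (hA : ∀ᶠ n in u, ∀ z ∈ ball (0 : ℂ) r, down l X T g (F n) z ≤ A) (hB : ∀ᶠ n in u, ε ≤ down l X T g (F n) 0)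
    (hc : ∃ h : ℕ → ℂ → ℂ, (∀ᶠ n in u, DifferentiableOn ℂ (h n) (ball 0 r) ∧ ∀ z ∈ ball (0 : ℂ) r, h n z ≠ 0) ∧
      TendstoLocallyUniformlyOn (fun n z => h n z • F n z) H u (ball 0 r))
    (hH : ∀ z ∈ ball (0 : ℂ) r, H z ∈ X) :
    (∃ z ∈ ball (0 : ℂ) r, H z ∉ T) ∧ ∃ z ∈ ball (0 : ℂ) r, ∃ w ∈ ball (0 : ℂ) r, ¬ Pr (H z) (H w) := by
  classical
  have : CompleteSpace V := FiniteDimensional.complete ℂ V
  have : CompleteSpace (ι → V) := FiniteDimensional.complete ℂ (ι → V)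
  have : ProperSpace (ι → V) := FiniteDimensional.proper ℂ (ι → V)
  have hX' := Pool.Agent.H62.BU.toSurface hX
  -- the lifts
  have hΦex : ∀ n, ∃ Φ : ℂ → ι → V, Ent X T (F n) → IsLiftB l X T (F n) Φ := by
    intro n
    by_cases h : Ent X T (F n)
    · obtain ⟨Φ, hΦ⟩ := exists_liftB hX hl hTX hT hq h
      exact ⟨Φ, fun _ => hΦ⟩
    · exact ⟨fun _ => 0, fun h' => absurd h' h⟩
  choose Φ hΦ using hΦex
  -- the units
  have hr' : 0 < r / 2 := half_pos hr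
  have hsub : closedBall (0 : ℂ) (r / 2) ⊆ ball 0 r := closedBall_subset_ball (half_lt_self hr)
  set c' : ℝ := Real.exp (-(1 + Real.log (A / ε * Real.exp 1 * Real.exp ((C * A ^ 2 + 1) * (r / 2) ^ 2))) / c₀) with hc'
  have hc'0 : 0 < c' := Real.exp_pos _
  have hvex : ∀ n, ∃ v : ℂ → ℂ, Ent X T (F n) → (∀ z ∈ ball (0 : ℂ) r, down l X T g (F n) z ≤ A) → ε ≤ down l X T g (F n) 0 →
      Differentiable ℂ v ∧ (∀ z ∈ ball (0 : ℂ) (r / 2), ‖Complex.exp (v z) • L' (Φ n z)‖ ≤ 1) ∧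
      c' ≤ ‖Complex.exp (v 0) • L' (Φ n 0)‖ := by
    intro n
    by_cases h : Ent X T (F n) ∧ (∀ z ∈ ball (0 : ℂ) r, down l X T g (F n) z ≤ A) ∧ ε ≤ down l X T g (F n) 0
    · obtain ⟨h1, h2, h3⟩ := h
      have h4 := hΦ n h1
      rw [down_eq hX hl hTX hT hq E h1 h4] at h2 h3
      obtain ⟨v, hv⟩ := char_fun (N := N') (F := fun z => L' (Φ n z)) (m := g (Φ n)) E.c₀_pos E.C_pos.le hr' hε
        ((L' : (ι → V) →L[ℂ] EN N').differentiable.comp h4.1.diff)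
        (fun z h0 => (h4.1.mem z).2 (by simpa using congrArg L'.symm h0))
        (fun z _ a ha => nhdsWithin_le_nhds (E.usc _ h4.1 z a ha)) (fun z hz => h2 z (hsub hz)) h3
        (fun z _ hz => E.sub _ h4.1 z hz)
      exact ⟨v, fun _ _ _ => hv⟩
    · exact ⟨fun _ => 0, fun h1 h2 h3 => absurd ⟨h1, h2, h3⟩ h⟩
  choose v hv using hvex
  -- the limit upstairs
  set 𝒰 : Ultrafilter ℕ := Ultrafilter.of u with h𝒰
  have h𝒰u : (𝒰 : Filter ℕ) ≤ u := Ultrafilter.of_le u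
  have hev : ∀ᶠ n in (𝒰 : Filter ℕ), Ent X T (F n) ∧ (∀ z ∈ ball (0 : ℂ) r, down l X T g (F n) z ≤ A) ∧
      ε ≤ down l X T g (F n) 0 := h𝒰u (hF.and (hA.and hB))
  have hd : ∀ᶠ n in (𝒰 : Filter ℕ), DifferentiableOn ℂ (fun z => Complex.exp (v n z) • Φ n z) (ball 0 (r / 2)) := by
    filter_upwards [hev] with n hn
    exact ((hv n hn.1 hn.2.1 hn.2.2).1.cexp.smul (hΦ n hn.1).1.diff).differentiableOn
  have hbd : ∀ᶠ n in (𝒰 : Filter ℕ), ∀ z ∈ ball (0 : ℂ) (r / 2),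
      ‖Complex.exp (v n z) • Φ n z‖ ≤ ‖(L'.symm : EN N' →L[ℂ] (ι → V))‖ := by
    filter_upwards [hev] with n hn z hz
    have h4 : Complex.exp (v n z) • Φ n z = (L'.symm : EN N' →L[ℂ] (ι → V)) (Complex.exp (v n z) • L' (Φ n z)) := by
      rw [map_smul]
      simp
    rw [h4]
    calc ‖(L'.symm : EN N' →L[ℂ] (ι → V)) (Complex.exp (v n z) • L' (Φ n z))‖
        ≤ ‖(L'.symm : EN N' →L[ℂ] (ι → V))‖ * ‖Complex.exp (v n z) • L' (Φ n z)‖ :=
          (L'.symm : EN N' →L[ℂ] (ι → V)).le_opNorm _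
      _ ≤ ‖(L'.symm : EN N' →L[ℂ] (ι → V))‖ * 1 :=
          mul_le_mul_of_nonneg_left ((hv n hn.1 hn.2.1 hn.2.2).2.1 z hz) (norm_nonneg _)
      _ = _ := mul_one _
  obtain ⟨Ψ, hΨd, hΨc⟩ := Pool.Agent.H17.montel_ultrafilter 𝒰 hd hbd
  have h0mem : (0 : ℂ) ∈ ball (0 : ℂ) (r / 2) := mem_ball_self hr'
  have hpt : ∀ z ∈ ball (0 : ℂ) (r / 2), Tendsto (fun n => Complex.exp (v n z) • Φ n z) (𝒰 : Filter ℕ) (𝓝 (Ψ z)) :=
    fun z hz => hΨc.tendsto_at hz
  have hΨ0 : Ψ 0 ≠ 0 := by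
    have h1 : Tendsto (fun n => ‖L' (Complex.exp (v n 0) • Φ n 0)‖) (𝒰 : Filter ℕ) (𝓝 ‖L' (Ψ 0)‖) :=
      ((L'.continuous.tendsto _).comp (hpt 0 h0mem)).norm
    have h2 : c' ≤ ‖L' (Ψ 0)‖ := by
      refine ge_of_tendsto h1 ?_
      filter_upwards [hev] with n hn
      rw [map_smul]
      exact (hv n hn.1 hn.2.1 hn.2.2).2.2
    intro h3
    rw [h3, map_zero, norm_zero] at h2
    linarith
  have hcont : ContinuousAt Ψ 0 := (hΨd.differentiableAt (isOpen_ball.mem_nhds h0mem)).continuousAt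
  obtain ⟨s, hs, hsb⟩ := Metric.eventually_nhds_iff_ball.1 ((hcont.eventually_ne hΨ0).and (isOpen_ball.mem_nhds h0mem))
  have hsr : ∀ z ∈ ball (0 : ℂ) s, z ∈ ball (0 : ℂ) r := fun z hz => hsub (ball_subset_closedBall (hsb z hz).2)
  have hmem : ∀ z ∈ ball (0 : ℂ) s, Ψ z ∈ blow l X := by
    intro z hz
    refine Pool.Agent.H62.BU.blow_closed _ ?_ (hsb z hz).1
    refine mem_closure_of_tendsto (hpt z (hsb z hz).2) ?_
    filter_upwards [hev] with n hn
    exact Pool.Agent.H62.BU.blow_smul _ ((hΦ n hn.1).1.mem z) _ (Complex.exp_ne_zero _)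
  obtain ⟨⟨p, hp, hpT⟩, ⟨a, ha, b, hb, hab⟩⟩ := E.lim (𝒰 : Filter ℕ) inferInstance s A ε hs hε Φ Ψ
    (hev.mono fun n hn => (hΦ n hn.1).1)
    (by
      filter_upwards [hev] with n hn z hz
      rw [← down_eq hX hl hTX hT hq E hn.1 (hΦ n hn.1)]
      exact hn.2.1 z (hsr z hz))
    (by
      filter_upwards [hev] with n hn
      rw [← down_eq hX hl hTX hT hq E hn.1 (hΦ n hn.1)]
      exact hn.2.2)
    ⟨fun n z => Complex.exp (v n z), by
      filter_upwards [hev] with n hn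
      exact ⟨(hv n hn.1 hn.2.1 hn.2.2).1.cexp.differentiableOn, fun z _ => Complex.exp_ne_zero _⟩,
      hΨc.mono fun w hw => (hsb w hw).2⟩
    hmem
  -- the components of the limit
  obtain ⟨h, hh1, hh2⟩ := hc
  have hH0 : ∀ z ∈ ball (0 : ℂ) s, H z ≠ 0 := fun z hz h0 => hX.zero (h0 ▸ hH z (hsr z hz))
  have hcomp : ∀ z ∈ ball (0 : ℂ) s, ∀ b, ∃ c : ℂ, Ψ z b = c • H z := by
    intro z hz b
    have hHz := hH0 z hz
    obtain ⟨Λ, hΛ⟩ := exists_dual_vector ℂ (H z) (norm_ne_zero_iff.mpr hHz)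
    have hΛ0 : Λ (H z) ≠ 0 := by
      rw [hΛ.2]
      simpa using hHz
    have hlimH : Tendsto (fun n => h n z • F n z) (𝒰 : Filter ℕ) (𝓝 (H z)) := (hh2.tendsto_at (hsr z hz)).mono_left h𝒰u
    have hlimΨ : Tendsto (fun n => Complex.exp (v n z) • Φ n z b) (𝒰 : Filter ℕ) (𝓝 (Ψ z b)) :=
      ((continuous_apply b).tendsto _).comp (hpt z (hsb z hz).2)
    have h1 : Λ (Ψ z b) • H z = Λ (H z) • Ψ z b := by
      refine tendsto_nhds_unique_of_eventuallyEq (((Λ.continuous.tendsto _).comp hlimΨ).smul hlimH)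
        (((Λ.continuous.tendsto _).comp hlimH).smul hlimΨ) ?_
      filter_upwards [hev] with n hn
      have h2 := lift_prop hX hl hT hq hn.1 (hΦ n hn.1) Λ b z
      simp only [Function.comp_apply, map_smul, smul_eq_mul]
      calc (Complex.exp (v n z) * Λ (Φ n z b)) • h n z • F n z
          = (Complex.exp (v n z) * h n z) • (Λ (Φ n z b) • F n z) := by
            simp only [smul_smul]
            congr 1
            ring
        _ = (Complex.exp (v n z) * h n z) • (Λ (F n z) • Φ n z b) := by rw [h2]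
        _ = (h n z * Λ (F n z)) • Complex.exp (v n z) • Φ n z b := by
            simp only [smul_smul]
            congr 1
            ring
    refine ⟨(Λ (H z))⁻¹ * Λ (Ψ z b), ?_⟩
    rw [mul_smul, h1, smul_smul, inv_mul_cancel₀ hΛ0, one_smul]
  have hout : ∀ z ∈ ball (0 : ℂ) s, Ψ z ∉ total l X T → H z ∉ T := by
    intro z hz hz1 hz2
    apply hz1
    refine ⟨hmem z hz, fun b hb => ?_⟩
    obtain ⟨c, hc⟩ := hcomp z hz b
    have hc0 : c ≠ 0 := by
      rintro rfl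
      rw [zero_smul] at hc
      exact hb hc
    rw [hc]
    exact hT _ hz2 c hc0
  refine ⟨⟨p, hsr p hp, hout p hp hpT⟩, ?_⟩
  by_contra hcon
  push Not at hcon
  apply hab
  -- the limit is determined by the curve downstairs
  have key : ∀ z ∈ ball (0 : ℂ) s, Pr (Ψ z) (phi l (H z)) := by
    intro z hz
    have hHT : H z ∉ T := by
      intro h1
      obtain ⟨c, hc0, hc⟩ := hcon p (hsr p hp) z (hsr z hz)
      apply hout p hp hpT
      rw [hc]
      exact hT _ h1 c hc0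
    have hlb : ∃ b', l b' (H z) ≠ 0 := by
      by_contra hcon'
      push Not at hcon'
      obtain ⟨c, e⟩ := (hl (H z)).1 hcon'
      have hc : c ≠ 0 := by
        rintro rfl
        rw [zero_smul] at e
        exact hH0 z hz e
      exact hHT (e ▸ hT q hq c hc)
    obtain ⟨b', hb'⟩ := hlb
    obtain ⟨b, hb⟩ := Pool.Agent.H62.BU.exists_ne _ (hmem z hz)
    obtain ⟨c, hc⟩ := hcomp z hz b
    have hc0 : c ≠ 0 := by
      rintro rfl
      rw [zero_smul] at hc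
      exact hb hc
    have h1 : l b' (Ψ z b) ≠ 0 := by
      rw [hc, map_smul]
      exact smul_ne_zero hc0 hb'
    have h2 := Pool.Agent.H62.BU.eq_phi _ (hmem z hz) hb h1
    have h3 := Pool.Agent.H62.BU.ne_of_ne _ (hmem z hz) hb h1
    refine ⟨(l b (Ψ z b))⁻¹ * c ^ 2, mul_ne_zero (inv_ne_zero h3) (pow_ne_zero 2 hc0), ?_⟩
    calc Ψ z = (l b (Ψ z b))⁻¹ • phi l (Ψ z b) := h2
      _ = (l b (Ψ z b))⁻¹ • (c ^ 2 • phi l (H z)) := by rw [← Pool.Agent.H62.BU.phi_smul, ← hc]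
      _ = _ := by rw [smul_smul]
  obtain ⟨c, hc0, hc⟩ := hcon a (hsr a ha) b (hsr b hb)
  have h1 : Pr (phi l (H a)) (phi l (H b)) :=
    ⟨c ^ 2, pow_ne_zero 2 hc0, by rw [hc, Pool.Agent.H62.BU.phi_smul]⟩
  exact (key a ha).trans (h1.trans (key b hb).symm)

end Pool.Agent.SY
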