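import Pool.Agent.SY.DefB

/-!
# SY EiQ: the Euclidean norm on the product
-/

set_option autoImplicit false

noncomputable section

namespace Pool.Agent.SY

open Pool.Agent.H36.BP (EN)

variable {V : Type} [NormedAddCommGroup V] [NormedSpace ℂ V]

/-- The Euclidean norm on the product. -/
theorem exists_equiv_sum {N : ℕ} (L : V ≃L[ℂ] EN N) (r : ℕ) (hr : 0 < r) :
    ∃ (N' : ℕ) (L' : (Fin r → V) ≃L[ℂ] EN N'), ∀ y, ‖L' y‖ ^ 2 = ∑ b, ‖L (y b)‖ ^ 2 := by
  have hpos : 0 < Module.finrank ℂ (PiLp 2 (fun _ : Fin r => EN N)) := by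
    have : Nonempty (Fin r) := ⟨⟨0, hr⟩⟩
    have : Nontrivial (PiLp 2 (fun _ : Fin r => EN N)) :=
      (WithLp.equiv 2 (∀ _ : Fin r, EN N)).nontrivial
    exact Module.finrank_pos
  obtain ⟨N', hN'⟩ : ∃ N', Module.finrank ℂ (PiLp 2 (fun _ : Fin r => EN N)) = N' + 1 :=
    ⟨_, (Nat.succ_pred_eq_of_pos hpos).symm⟩
  let B := (stdOrthonormalBasis ℂ (PiLp 2 (fun _ : Fin r => EN N))).reindex (finCongr hN')
  refine ⟨N', (ContinuousLinearEquiv.piCongrRight (fun _ : Fin r => L)).trans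
    ((PiLp.continuousLinearEquiv 2 ℂ (fun _ : Fin r => EN N)).symm.trans B.repr.toContinuousLinearEquiv), fun y => ?_⟩
  have h1 : ‖((ContinuousLinearEquiv.piCongrRight (fun _ : Fin r => L)).trans
    ((PiLp.continuousLinearEquiv 2 ℂ (fun _ : Fin r => EN N)).symm.trans B.repr.toContinuousLinearEquiv)) y‖ =
      ‖(WithLp.toLp 2 (fun b => L (y b)) : PiLp 2 (fun _ : Fin r => EN N))‖ := by
    exact B.repr.norm_map _
  rw [h1, PiLp.norm_sq_eq_of_L2]

end Pool.Agent.SY
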