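import Pool.Agent.SY.EiD
import Pool.Agent.H36.BP.SubC

/-!
# SY EiS: the curvature of the metric downstairs

Near `z₀` every component of the lift is `Φ w b = k b w • F w` with `k b` analytic, `k = (k b)_b ≠ 0`, so `|L' (Φ w)| = |k w| |L (F w)|`.
`|k|` has a lower support of exponent `0` (Cauchy-Schwarz), hence so has `|k|^c₀`; multiply the property `sub` of `g Φ` by it.
-/

set_option autoImplicit false

open Topology Filter Metric

noncomputable section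

namespace Pool.Agent.SY

open Pool.Agent.H36.BP (EN fs wd Sub)
open Pool.Agent.H17BP (Pr Surface IsForm NoZeros NodalAt Eqs IsChart ResAt)
open Pool.Agent.H62.BU (blow total Ker phi om)

variable {V : Type} [NormedAddCommGroup V] [NormedSpace ℂ V] {ι : Type} [Fintype ι] {l : ι → V →L[ℂ] ℂ} {X T : Set V} {q : V}

private theorem ne_of_mem (hX : Surface X) {x : V} (hx : x ∈ X) : x ≠ 0 := fun h => hX.zero (h ▸ hx)

/-- the norm of a holomorphic vector -/
theorem sub_norm_pi {k : ι → ℂ → ℂ} {z₀ : ℂ} (hk : ∀ b, AnalyticAt ℂ (k b) z₀) (h0 : ∃ b, k b z₀ ≠ 0) :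
    Sub (fun w => ‖(WithLp.toLp 2 (fun b => k b w) : EuclideanSpace ℂ ι)‖) z₀ 0 := by
  set U : ℂ → EuclideanSpace ℂ ι := fun w => WithLp.toLp 2 (fun b => k b w) with hU
  have hU0 : U z₀ ≠ 0 := by
    intro h
    obtain ⟨b, hb⟩ := h0
    apply hb
    have := congrArg (fun v : EuclideanSpace ℂ ι => v b) h
    exact this
  have hn : 0 < ‖U z₀‖ := norm_pos_iff.mpr hU0
  set f : ℂ → ℂ := fun w => inner ℂ (U z₀) (U w) / (‖U z₀‖ : ℂ) with hf
  have hfa : AnalyticAt ℂ f z₀ := by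
    refine AnalyticAt.div ?_ analyticAt_const (by exact_mod_cast hn.ne')
    have h1 : (fun w => (inner ℂ (U z₀) (U w) : ℂ)) = fun w => ∑ b, k b w * (starRingEnd ℂ) (k b z₀) := by
      funext w
      rw [PiLp.inner_apply]
      rfl
    rw [h1]
    exact Finset.analyticAt_fun_sum _ fun b _ => (hk b).mul analyticAt_const
  have hf0 : ‖f z₀‖ = ‖U z₀‖ := by
    rw [hf]
    simp only
    rw [norm_div, inner_self_eq_norm_sq_to_K, norm_pow, Complex.norm_real]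
    simp only [Complex.coe_algebraMap, Complex.norm_real, norm_norm]
    field_simp
  have hf1 : f z₀ ≠ 0 := by
    rw [← norm_pos_iff, hf0]
    exact hn
  refine (Pool.Agent.H36.BP.Sub.of_holo hfa hf1).mono hf0 (Eventually.of_forall fun w => ?_)
  rw [hf]
  simp only
  rw [norm_div, Complex.norm_real, norm_norm, div_le_iff₀ hn, mul_comm]
  exact norm_inner_le_norm _ _

/-- the multiplier of the lift does not vanish identically near any point -/
theorem lift_ne (hX : Surface X) (hl : Ker l q) (hT : ∀ x ∈ T, ∀ c : ℂ, c ≠ 0 → c • x ∈ T) (hq : q ∈ T) {F : ℂ → V}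
    (hF : Ent X T F) {Φ : ℂ → ι → V} {h : ℂ → ℂ} (hh : Differentiable ℂ h) (hphi : ∀ z, phi l (F z) = h z • Φ z) (z₀ : ℂ) :
    ∀ᶠ z in 𝓝[≠] z₀, h z ≠ 0 := by
  rcases (hh.analyticAt z₀).eventually_eq_zero_or_eventually_ne_zero with h1 | h1
  · exfalso
    have h2 : ∀ z, h z = 0 := by
      intro z
      have h3 : AnalyticOnNhd ℂ h Set.univ := fun w _ => hh.analyticAt w
      exact h3.eqOn_zero_of_preconnected_of_eventuallyEq_zero isPreconnected_univ (Set.mem_univ z₀) h1 (Set.mem_univ z)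
    obtain ⟨z, hz⟩ := hF.out
    apply hz
    have hne : F z ≠ 0 := ne_of_mem hX (hF.mem z)
    have h4 : ∀ b, l b (F z) = 0 := by
      intro b
      have h5 := congrFun (hphi z) b
      rw [h2 z, zero_smul] at h5
      have h6 : l b (F z) • F z = 0 := h5
      exact (smul_eq_zero.mp h6).resolve_right hne
    obtain ⟨c, hc⟩ := (hl (F z)).mp h4
    have hc0 : c ≠ 0 := by
      rintro rfl
      rw [zero_smul] at hc
      exact hne hc
    rw [hc]
    exact hT q hq c hc0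
  · exact h1

/-- the components of the lift are holomorphic multiples of `F` -/
theorem lift_comp {N : ℕ} (L : V ≃L[ℂ] EN N) (hX : Surface X) (hl : Ker l q) (hT : ∀ x ∈ T, ∀ c : ℂ, c ≠ 0 → c • x ∈ T) (hq : q ∈ T)
    {F : ℂ → V} (hF : Ent X T F) {Φ : ℂ → ι → V} (h1 : IsLiftB l X T F Φ) (z₀ : ℂ) :
    ∃ k : ι → ℂ → ℂ, (∀ b, AnalyticAt ℂ (k b) z₀) ∧ (∃ b, k b z₀ ≠ 0) ∧ ∀ᶠ w in 𝓝 z₀, ∀ b, Φ w b = k b w • F w := by
  obtain ⟨hΦ, h, hh, hphi⟩ := h1
  haveI : FiniteDimensional ℂ V := L.symm.toLinearEquiv.finiteDimensional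
  haveI : CompleteSpace V := FiniteDimensional.complete ℂ V
  have hne : F z₀ ≠ 0 := ne_of_mem hX (hF.mem z₀)
  have hLne : L (F z₀) ≠ 0 := fun h0 => hne (by simpa using congrArg L.symm h0)
  obtain ⟨i, hi⟩ : ∃ i, L (F z₀) i ≠ 0 := by
    by_contra hcon
    push Not at hcon
    exact hLne (by ext i; exact hcon i)
  set e : V →L[ℂ] ℂ := (EuclideanSpace.proj i : EN N →L[ℂ] ℂ).comp (L : V →L[ℂ] EN N) with he
  have he0 : e (F z₀) ≠ 0 := hi
  have hFa : AnalyticAt ℂ F z₀ := hF.diff.analyticAt z₀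
  have hΦa : ∀ b, AnalyticAt ℂ (fun w => Φ w b) z₀ := by
    intro b
    exact ((ContinuousLinearMap.proj (R := ℂ) (φ := fun _ : ι => V) b).analyticAt _).comp (hΦ.diff.analyticAt z₀)
  have hka : ∀ b, AnalyticAt ℂ (fun w => e (Φ w b) / e (F w)) z₀ := by
    intro b
    exact ((e.analyticAt _).comp (hΦa b)).div ((e.analyticAt _).comp hFa) he0
  have hev : ∀ᶠ w in 𝓝 z₀, ∀ b, Φ w b = (e (Φ w b) / e (F w)) • F w := by
    rw [eventually_all]
    intro b
    have h2 : AnalyticAt ℂ (fun w => (e (Φ w b) / e (F w)) • F w) z₀ := (hka b).smul hFa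
    have h3 : ∀ᶠ w in 𝓝[≠] z₀, Φ w b = (e (Φ w b) / e (F w)) • F w := by
      have h4 : ∀ᶠ w in 𝓝 z₀, e (F w) ≠ 0 := ((e.analyticAt _).comp hFa).continuousAt.eventually_ne he0
      filter_upwards [lift_ne hX hl hT hq hF hh hphi z₀, h4.filter_mono nhdsWithin_le_nhds] with w h5 h6
      have h7 : l b (F w) • F w = h w • Φ w b := congrFun (hphi w) b
      have h8 : Φ w b = ((h w)⁻¹ * l b (F w)) • F w := by
        rw [mul_smul, h7, smul_smul, inv_mul_cancel₀ h5, one_smul]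
      rw [h8, map_smul, smul_eq_mul, mul_div_assoc, div_self h6, mul_one]
    exact ((hΦa b).frequently_eq_iff_eventually_eq h2).mp h3.frequently
  refine ⟨fun b w => e (Φ w b) / e (F w), hka, ?_, hev⟩
  by_contra hcon
  push Not at hcon
  have h2 : Φ z₀ = 0 := by
    funext b
    have h3 := hev.self_of_nhds b
    rw [h3, hcon b, zero_smul]
    rfl
  exact (hΦ.mem z₀).2 h2

/-- MODULE EiS: the curvature -/
theorem down_sub {N N' : ℕ} {L : V ≃L[ℂ] EN N} {L' : (ι → V) ≃L[ℂ] EN N'} (hL : ∀ y, ‖L' y‖ ^ 2 = ∑ b, ‖L (y b)‖ ^ 2)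
    {rho : (ι → V) → ℝ} {M : ℕ} {c₀ C : ℝ} {g : (ℂ → ι → V) → ℂ → ℝ}
    (hX : Surface X) (hl : Ker l q) (hTX : T ⊆ X) (hT : ∀ x ∈ T, ∀ c : ℂ, c ≠ 0 → c • x ∈ T) (hq : q ∈ T)
    (E : Energy (blow l X) (total l X T) (fun y => ‖L' y‖) rho M c₀ C g) {F : ℂ → V} (hF : Ent X T F) (z : ℂ)
    (hz : 0 < down l X T g F z) :
    Sub (fun w => down l X T g F w * ‖L (F w)‖ ^ (-c₀)) z (-(C * down l X T g F z ^ 2)) := by
  obtain ⟨Φ, hΦ⟩ := exists_liftB hX hl hTX hT hq hF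
  rw [down_eq hX hl hTX hT hq E hF hΦ] at hz ⊢
  obtain ⟨k, hka, hk0, hk⟩ := lift_comp L hX hl hT hq hF hΦ z
  have h1 := E.sub Φ hΦ.1 z hz
  have h2 := (sub_norm_pi hka hk0).rpow E.c₀_pos.le
  have h3 := h1.mul h2
  rw [mul_zero, add_zero] at h3
  refine h3.congr ?_
  have hpos : ∀ᶠ w in 𝓝 z, (WithLp.toLp 2 (fun b => k b w) : EuclideanSpace ℂ ι) ≠ 0 := by
    obtain ⟨b, hb⟩ := hk0
    filter_upwards [(hka b).continuousAt.eventually_ne hb] with w hw h0
    exact hw (congrArg (fun v : EuclideanSpace ℂ ι => v b) h0)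
  filter_upwards [hk, hpos] with w hw hw0
  set U : EuclideanSpace ℂ ι := WithLp.toLp 2 (fun b => k b w) with hU
  have hUn : 0 < ‖U‖ := norm_pos_iff.mpr hw0
  have hLF : 0 < ‖L (F w)‖ := by
    refine norm_pos_iff.mpr fun h0 => ne_of_mem hX (hF.mem w) ?_
    simpa using congrArg L.symm h0
  have h4 : ‖L' (Φ w)‖ = ‖U‖ * ‖L (F w)‖ := by
    have h5 : ‖L' (Φ w)‖ ^ 2 = (‖U‖ * ‖L (F w)‖) ^ 2 := by
      rw [hL, mul_pow, EuclideanSpace.norm_sq_eq, Finset.sum_mul]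
      refine Finset.sum_congr rfl fun b _ => ?_
      rw [hw b, map_smul, norm_smul, mul_pow]
    exact (pow_left_inj₀ (norm_nonneg _) (by positivity) two_ne_zero).mp h5
  rw [h4, Real.mul_rpow hUn.le hLF.le]
  have h6 : ‖U‖ ^ (-c₀) * ‖U‖ ^ c₀ = 1 := by
    rw [← Real.rpow_add hUn, neg_add_cancel, Real.rpow_zero]
  calc g Φ w * (‖U‖ ^ (-c₀) * ‖L (F w)‖ ^ (-c₀)) * ‖U‖ ^ c₀ = g Φ w * ‖L (F w)‖ ^ (-c₀) * (‖U‖ ^ (-c₀) * ‖U‖ ^ c₀) := by ring
    _ = g Φ w * ‖L (F w)‖ ^ (-c₀) := by rw [h6, mul_one]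

end Pool.Agent.SY
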