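import Pool.Agent.SY.EiD
import Pool.Agent.H14.KB.Kob

/-!
# SY EiW: the lower bound of the metric of the blow-up
-/

set_option autoImplicit false

open Topology Filter Metric

noncomputable section

namespace Pool.Agent.SY

open Pool.Agent.H36.BP (EN fs wd Sub)
open Pool.Agent.H17BP (Pr Surface IsForm NoZeros Eqs IsChart)
open Pool.Agent.H14.PP (IsCone)
open Pool.Agent.H14.KB (rhoS)
open Pool.Agent.H62.BU (blow total Ker phi)

variable {V : Type} [NormedAddCommGroup V] [NormedSpace ℂ V]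
variable {ι : Type} [Fintype ι] {l : ι → V →L[ℂ] ℂ} {X T : Set V} {q : V}

/-- The relative size of homogeneous functions is invariant. -/
theorem rhoS_smul_eq {W : Type} [NormedAddCommGroup W] [NormedSpace ℂ W] {κ : Type} [Fintype κ] {Q : κ → W → ℂ} {D : ℕ}
    (hQs : ∀ i (c : ℂ) x, Q i (c • x) = c ^ D * Q i x) {c : ℂ} (hc : c ≠ 0) (x : W) :
    rhoS Q D (c • x) = rhoS Q D x := by
  unfold rhoS
  have h1 : (fun i => Q i (c • x)) = c ^ D • fun i => Q i x := by
    funext i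
    rw [hQs]
    rfl
  have h2 : 0 < ‖c‖ ^ D := pow_pos (norm_pos_iff.mpr hc) D
  rw [h1, norm_smul, norm_smul, norm_pow, mul_pow, mul_div_mul_left _ _ h2.ne']

/-- MODULE EiW: the lower bound (compare `H14/KB/KobK.lean`, `kobK_blow`) -/
theorem down_lower {N' : ℕ} {L' : (ι → V) ≃L[ℂ] EN N'} {κ : Type} [Fintype κ] {Q : κ → V → ℂ} {D : ℕ} {M : ℕ} {c₀ C : ℝ}
    {g : (ℂ → ι → V) → ℂ → ℝ} (hX : Surface X) (hl : Ker l q) (he : Eqs X T Q D) (hq : q ∈ T) (hM : 1 ≤ M)
    (E : Energy (blow l X) (total l X T) (fun y => ‖L' y‖) (rhoS (fun (p : κ × ι) (y : ι → V) => Q p.1 (y p.2)) D) M c₀ C g)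
    {F : ℂ → V} (hF : Ent X T F) (z : ℂ) :
    ∃ a : ℂ, rhoS Q D (F z) ^ M * ‖deriv F z - a • F z‖ ≤ C * ‖F z‖ * down l X T g F z := by
  have hTX := he.sub
  have hT : ∀ x ∈ T, ∀ c : ℂ, c ≠ 0 → c • x ∈ T := he.cone hX.smul
  have hex : ∃ Φ, IsLiftB l X T F Φ := exists_liftB hX hl hTX hT hq hF
  have hd : down l X T g F = g hex.choose := by
    unfold down
    exact dif_pos hex
  obtain ⟨hΦ, h, hh, hphi⟩ := hex.choose_spec
  rw [hd]
  set Φ := hex.choose
  have hF0 : F z ≠ 0 := fun h0 => hX.zero (h0 ▸ hF.mem z)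
  by_cases hFT : F z ∈ T
  · refine ⟨0, ?_⟩
    have h1 : rhoS Q D (F z) = 0 := by
      unfold rhoS
      have h2 : (fun i => Q i (F z)) = 0 := funext fun i => ((he.mem_iff _).1 hFT).2 i
      rw [h2, norm_zero, zero_div]
    rw [h1, zero_pow (by omega), zero_mul]
    exact mul_nonneg (mul_nonneg E.C_pos.le (norm_nonneg _)) (E.nonneg Φ hΦ z)
  -- some `l b (F z)` is not `0`
  have hlb : ∃ b, l b (F z) ≠ 0 := by
    by_contra hcon
    push Not at hcon
    obtain ⟨c, e⟩ := (hl (F z)).1 hcon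
    have hc : c ≠ 0 := by
      rintro rfl
      rw [zero_smul] at e
      exact hF0 e
    exact hFT (e ▸ hT q hq c hc)
  have : Nonempty ι := ⟨hlb.choose⟩
  obtain ⟨b, hbmax⟩ := Finite.exists_max fun b => ‖l b (F z)‖
  have hb : l b (F z) ≠ 0 := by
    obtain ⟨b', hb'⟩ := hlb
    have h3 := hbmax b'
    intro h0
    rw [h0, norm_zero] at h3
    exact hb' (norm_le_zero_iff.mp h3)
  have hb0 : 0 < ‖l b (F z)‖ := norm_pos_iff.mpr hb
  have hpne : phi l (F z) ≠ 0 := H62.BU.phi_ne ⟨b, hb⟩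
  have hhz : h z ≠ 0 := by
    intro h0
    rw [hphi z, h0, zero_smul] at hpne
    exact hpne rfl
  have hhz0 : 0 < ‖h z‖ := norm_pos_iff.mpr hhz
  -- the lower bound upstairs
  obtain ⟨a', ha'⟩ := E.lower Φ hΦ z
  have hFd : HasDerivAt F (deriv F z) z := (hF.diff z).hasDerivAt
  have hhd : HasDerivAt h (deriv h z) z := (hh z).hasDerivAt
  have hΦd : HasDerivAt Φ (deriv Φ z) z := (hΦ.diff z).hasDerivAt
  have hΦb : HasDerivAt (fun w => Φ w b) (deriv Φ z b) z := (hasDerivAt_pi.1 hΦd) b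
  -- the derivative of the identity `l b (F) F = h Φ_b`
  have h3 : l b (deriv F z) • F z + l b (F z) • deriv F z = deriv h z • Φ z b + h z • deriv Φ z b := by
    have h4 : HasDerivAt (fun w => l b (F w) • F w) (l b (F z) • deriv F z + l b (deriv F z) • F z) z := by
      have h5 : HasDerivAt (fun w => l b (F w)) (l b (deriv F z)) z :=
        (l b).hasFDerivAt.comp_hasDerivAt z hFd
      exact h5.smul hFd
    have h6 : HasDerivAt (fun w => h w • Φ w b) (h z • deriv Φ z b + deriv h z • Φ z b) z :=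
      hhd.smul hΦb
    have h7 : (fun w => l b (F w) • F w) = fun w => h w • Φ w b := by
      funext w
      exact congrFun (hphi w) b
    rw [h7] at h4
    have h8 := h4.unique h6
    rw [add_comm, h8, add_comm]
  have hzb : l b (F z) • F z = h z • Φ z b := congrFun (hphi z) b
  refine ⟨a' + deriv h z / h z - l b (deriv F z) / l b (F z), ?_⟩
  set a : ℂ := a' + deriv h z / h z - l b (deriv F z) / l b (F z) with ha
  have h4 : h z • (deriv Φ z b - a' • Φ z b) = l b (F z) • (deriv F z - a • F z) := by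
    have e1 : l b (F z) * a = (a' + deriv h z / h z) * l b (F z) - l b (deriv F z) := by
      rw [ha]
      field_simp
    have e2 : l b (F z) • (deriv F z - a • F z) = l b (F z) • deriv F z + l b (deriv F z) • F z -
        (a' + deriv h z / h z) • (l b (F z) • F z) := by
      rw [smul_sub, smul_smul, e1, smul_smul]
      module
    rw [e2, add_comm (l b (F z) • deriv F z), h3, hzb, smul_smul]
    have e3 : (a' + deriv h z / h z) * h z = a' * h z + deriv h z := by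
      field_simp
    rw [e3]
    module
  have h5 : ‖l b (F z)‖ * ‖deriv F z - a • F z‖ ≤ ‖h z‖ * ‖deriv Φ z - a' • Φ z‖ := by
    rw [← norm_smul, ← h4, norm_smul]
    exact mul_le_mul_of_nonneg_left (norm_le_pi_norm (deriv Φ z - a' • Φ z) b) (norm_nonneg _)
  have h6 : ‖h z‖ * ‖Φ z‖ ≤ ‖l b (F z)‖ * ‖F z‖ := by
    rw [← norm_smul, ← hphi z]
    refine (pi_norm_le_iff_of_nonneg (by positivity)).mpr fun b' => ?_
    show ‖l b' (F z) • F z‖ ≤ _
    rw [norm_smul]
    exact mul_le_mul_of_nonneg_right (hbmax b') (norm_nonneg _)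
  have h7 := H14.KB.rhoS_phi (l := l) he.smul hF0 hb hbmax
  have h8 : rhoS (fun (p : κ × ι) (y : ι → V) => Q p.1 (y p.2)) D (phi l (F z)) =
      rhoS (fun (p : κ × ι) (y : ι → V) => Q p.1 (y p.2)) D (Φ z) := by
    rw [hphi z]
    exact rhoS_smul_eq (fun p c y => he.smul p.1 c (y p.2)) hhz (Φ z)
  rw [h8] at h7
  have h9 : rhoS Q D (F z) ^ M ≤ rhoS (fun (p : κ × ι) (y : ι → V) => Q p.1 (y p.2)) D (Φ z) ^ M :=
    pow_le_pow_left₀ (H14.KB.rhoS_nonneg _ _ _) h7 M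
  have hg0 := E.nonneg Φ hΦ z
  have h10 : ‖l b (F z)‖ * (rhoS Q D (F z) ^ M * ‖deriv F z - a • F z‖) ≤
      ‖l b (F z)‖ * (C * ‖F z‖ * g Φ z) := by
    calc ‖l b (F z)‖ * (rhoS Q D (F z) ^ M * ‖deriv F z - a • F z‖)
        = rhoS Q D (F z) ^ M * (‖l b (F z)‖ * ‖deriv F z - a • F z‖) := by ring
      _ ≤ rhoS (fun (p : κ × ι) (y : ι → V) => Q p.1 (y p.2)) D (Φ z) ^ M * (‖h z‖ * ‖deriv Φ z - a' • Φ z‖) :=
          mul_le_mul h9 h5 (by positivity) (pow_nonneg (H14.KB.rhoS_nonneg _ _ _) _)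
      _ = ‖h z‖ * (rhoS (fun (p : κ × ι) (y : ι → V) => Q p.1 (y p.2)) D (Φ z) ^ M * ‖deriv Φ z - a' • Φ z‖) := by ring
      _ ≤ ‖h z‖ * (C * ‖Φ z‖ * g Φ z) := mul_le_mul_of_nonneg_left ha' hhz0.le
      _ = C * g Φ z * (‖h z‖ * ‖Φ z‖) := by ring
      _ ≤ C * g Φ z * (‖l b (F z)‖ * ‖F z‖) :=
          mul_le_mul_of_nonneg_left h6 (mul_nonneg E.C_pos.le hg0)
      _ = ‖l b (F z)‖ * (C * ‖F z‖ * g Φ z) := by ring
  exact le_of_mul_le_mul_left h10 hb0

end Pool.Agent.SY
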