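import Pool.Agent.SY.EiN
import Pool.Agent.SY.EiS
import Pool.Agent.SY.EiW
import Pool.Agent.SY.EiM
import Pool.Agent.SY.EiQ
import Pool.Agent.H17BP.Ind

/-!
# SY EiI: the induction over the blow-ups
-/

set_option autoImplicit false

open Topology Filter Metric

noncomputable section

namespace Pool.Agent.SY

open Pool.Agent.H36.BP (EN fs wd Sub)
open Pool.Agent.H17BP (Pr Surface IsForm NoZeros NodalAt Eqs IsChart ResAt eqs_blow thin_blow resAt_blow exists_forms
  exists_finset_of_isolated exists_resAt phi_pr isForm_iff noZeros_iff surface_iff)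
open Pool.Agent.H14.KB (rhoS)
open Pool.Agent.H62.BU (blow total Ker phi om phi_smul)

/-- The blow-up of a model at a point of the curve is a model. -/
theorem modelS_blow {V : Type} [NormedAddCommGroup V] [NormedSpace ℂ V] [FiniteDimensional ℂ V] {ι : Type} [Fintype ι] {l : ι → V →L[ℂ] ℂ}
    {X T : Set V} {q : V} {m j : ℕ} {Ω : V → V → V → ℂ} {κ : Type} {Q : κ → V → ℂ} {D : ℕ} (h : ModelS X T m j Ω Q D) (hl : Ker l q) (hq : q ∈ T) :
    ModelS (blow l X) (total l X T) (2 * m) j (om l j Ω) (fun (p : κ × ι) (y : ι → V) => Q p.1 (y p.2)) D where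
  surf := surface_iff.1 (Pool.Agent.H62.BU.surface_blow (surface_iff.2 h.surf) hl (h.eqs.sub hq))
  one_m := by have := h.one_m; omega
  one_j := h.one_j
  form := isForm_iff.1 (Pool.Agent.H62.BU.isForm_om (surface_iff.2 h.surf) (isForm_iff.2 h.form))
  noZeros := noZeros_iff.1 (Pool.Agent.H62.BU.noZero_om (surface_iff.2 h.surf) (isForm_iff.2 h.form)
    (h.eqs.cone h.surf.smul) (fun v hv => (hl v).1 hv) hq (noZeros_iff.2 h.noZeros))
  eqs := eqs_blow h.surf h.eqs
  thin := fun σ τ h' => thin_blow h.surf h.eqs h.thin hl hq h'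

/-- The conclusion. -/
def HasEnergy {V : Type} [NormedAddCommGroup V] [NormedSpace ℂ V] (X T : Set V) {κ : Type} [Fintype κ] (Q : κ → V → ℂ) (D : ℕ) : Prop :=
  ∀ (N : ℕ) (L : V ≃L[ℂ] EN N), ∃ (M : ℕ) (c₀ C : ℝ) (g : (ℂ → V) → ℂ → ℝ), 1 ≤ M ∧ Energy X T (fun x => ‖L x‖) (rhoS Q D) M c₀ C g

/-- The descent of the metric from the blow-up. -/
theorem energy_blow {V : Type} [NormedAddCommGroup V] [NormedSpace ℂ V] [FiniteDimensional ℂ V] {r : ℕ} {l : Fin r → V →L[ℂ] ℂ}
    {X T : Set V} {q : V} {m j : ℕ} {Ω : V → V → V → ℂ} {κ : Type} [Fintype κ] {Q : κ → V → ℂ} {D : ℕ} (h : ModelS X T m j Ω Q D)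
    (hl : Ker l q) (hq : q ∈ T)
    (H : HasEnergy (blow l X) (total l X T) (fun (p : κ × Fin r) (y : Fin r → V) => Q p.1 (y p.2)) D) : HasEnergy X T Q D := by
  intro N L
  have hX := h.surf
  have hTX : T ⊆ X := h.eqs.sub
  have hT := h.eqs.cone h.surf.smul
  have hr : 0 < r := by
    rcases Nat.eq_zero_or_pos r with h0 | h0
    · exfalso
      subst h0
      obtain ⟨σ, τ, hσ, hσ0⟩ := hX.chart q (hTX hq)
      obtain ⟨p, hp, hp2⟩ := ((h.thin σ τ hσ).and_eventually hσ.σ_mem).exists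
      obtain ⟨c, hc⟩ := (hl (σ p)).1 fun i => i.elim0
      have hc0 : c ≠ 0 := by
        rintro rfl
        rw [zero_smul] at hc
        exact hX.zero (hc ▸ hp2)
      exact hp (hc ▸ hT q hq c hc0)
    · exact h0
  obtain ⟨N', L', hL'⟩ := exists_equiv_sum L r hr
  obtain ⟨M, c₀, C, g, hM, E⟩ := H N' L'
  refine ⟨M, c₀, C, down l X T g, hM, ?_⟩
  exact
  { c₀_pos := E.c₀_pos
    C_pos := E.C_pos
    nonneg := fun F hF z => by
      obtain ⟨Φ, hΦ⟩ := exists_liftB hX hl hTX hT hq hF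
      rw [down_eq hX hl hTX hT hq E hF hΦ]
      exact E.nonneg Φ hΦ.1 z
    usc := fun F hF z a hz => by
      obtain ⟨Φ, hΦ⟩ := exists_liftB hX hl hTX hT hq hF
      rw [down_eq hX hl hTX hT hq E hF hΦ] at hz ⊢
      exact E.usc Φ hΦ.1 z a hz
    aff := fun F hF a b ha z => down_aff hX hl hTX hT hq E hF ha z
    unit := fun F hF u hu h0 z => down_unit hX hl hTX hT hq E hF hu h0 z
    sub := fun F hF z hz => down_sub hL' hX hl hTX hT hq E hF z hz
    lower := fun F hF z => down_lower hX hl h.eqs hq hM E hF z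
    lim := fun u hu r' A ε hr' hε F K hF hA hB hc hK => down_lim hX hl hTX hT hq E u hu r' A ε hr' hε F K hF hA hB hc hK }

/-- The statement for models which are resolved by `n` blow-ups over every point. -/
def EnN (n : ℕ) : Prop :=
  ∀ (V : Type) [NormedAddCommGroup V] [NormedSpace ℂ V] [FiniteDimensional ℂ V] (X T : Set V) (m j : ℕ)
    (Ω : V → V → V → ℂ) (κ : Type) [Fintype κ] (Q : κ → V → ℂ) (D : ℕ), ModelS X T m j Ω Q D →
    (∀ x ∈ X, ResAt X T x n) → HasEnergy X T Q D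

theorem enN_zero : EnN 0 := by
  intro V _ _ _ X T m j Ω κ _ Q D h h0 N L
  exact energy_nodal h (fun x hx => (h0 x hx).nodal) L

theorem enN_step {n : ℕ} (ih : EnN n) : ∀ (k : ℕ) (V : Type) [NormedAddCommGroup V] [NormedSpace ℂ V]
    [FiniteDimensional ℂ V] (X T : Set V) (m j : ℕ) (Ω : V → V → V → ℂ) (κ : Type) [Fintype κ]
    (Q : κ → V → ℂ) (D : ℕ), ModelS X T m j Ω Q D → (∀ x ∈ X, ResAt X T x (n + 1)) →
    (∃ F : Finset V, F.card ≤ k ∧ ∀ x ∈ X, ResAt X T x n ∨ ∃ q ∈ F, Pr x q) → HasEnergy X T Q D := by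
  intro k
  induction k with
  | zero =>
    intro V _ _ _ X T m j Ω κ _ Q D h h0 hF
    obtain ⟨F, hF1, hF2⟩ := hF
    have hF0 : F = ∅ := Finset.card_eq_zero.1 (by omega)
    refine ih V X T m j Ω κ Q D h fun x hx => ?_
    rcases hF2 x hx with h1 | ⟨q, hq, -⟩
    · exact h1
    · rw [hF0] at hq
      simp at hq
  | succ k ihk =>
    intro V _ _ _ X T m j Ω κ _ Q D h h0 hF
    obtain ⟨F, hF1, hF2⟩ := hF
    have hX := h.surf.smul
    have hB := h.eqs.cone h.surf.smul
    by_cases hall : ∀ x ∈ X, ResAt X T x n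
    · exact ih V X T m j Ω κ Q D h hall
    push Not at hall
    obtain ⟨x₀, hx₀, hx₀n⟩ := hall
    rcases hF2 x₀ hx₀ with h1 | ⟨q, hqF, hxq⟩
    · exact absurd h1 hx₀n
    have hqX : q ∈ X := (hxq.mem_iff hX).1 hx₀
    have hqn : ¬ ResAt X T q n := fun h1 => hx₀n (h1.pr hX hB hxq)
    have hq0 : ¬ ResAt X T q 0 := fun h1 => hqn (h1.mono_le (Nat.zero_le n))
    have hqB : q ∈ T := by
      by_contra hqB
      exact hq0 (ResAt.of_notMem h.surf h.eqs hqX hqB)
    have hqne : q ≠ 0 := fun e => h.surf.zero (e ▸ hqX)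
    obtain ⟨r, l, hl⟩ := exists_forms hqne
    classical
    refine energy_blow h hl hqB ?_
    refine ihk (Fin r → V) (blow l X) (total l X T) (2 * m) j (om l j Ω) (κ × Fin r) _ D
      (modelS_blow h hl hqB) ?_ ⟨(F.erase q).image (phi l), ?_, ?_⟩
    · intro y hy
      rcases resAt_blow h.surf h.eqs hl hqB (h0 q hqX) hq0 hy with h1 | ⟨x, hx, -, -, h2⟩
      · exact h1.mono_le (Nat.le_succ n)
      · exact h2 _ (h0 x hx)
    · have h1 := Finset.card_image_le (s := F.erase q) (f := phi l)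
      have h2 := Finset.card_erase_of_mem hqF
      omega
    · intro y hy
      rcases resAt_blow h.surf h.eqs hl hqB (h0 q hqX) hq0 hy with h1 | ⟨x, hx, hxq', hyx, h2⟩
      · exact Or.inl h1
      · rcases hF2 x hx with h3 | ⟨q', hq'F, hxq''⟩
        · exact Or.inl (h2 _ h3)
        · refine Or.inr ⟨phi l q', Finset.mem_image_of_mem _ (Finset.mem_erase.2 ⟨?_, hq'F⟩),
            hyx.trans (phi_pr hxq'')⟩
          rintro rfl
          exact hxq' hxq''

/-- At all but finitely many points the curve is a monomial in local coordinates. -/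
theorem ModelS.exists_finset {V : Type} [NormedAddCommGroup V] [NormedSpace ℂ V] [FiniteDimensional ℂ V]
    {X T : Set V} {m j : ℕ} {Ω : V → V → V → ℂ} {κ : Type} {Q : κ → V → ℂ} {D : ℕ}
    (h : ModelS X T m j Ω Q D) :
    ∃ F : Finset V, (∀ q ∈ F, q ∈ X) ∧ ∀ x ∈ X, ResAt X T x 0 ∨ ∃ q ∈ F, Pr x q := by
  have hX := h.surf.smul
  have hB := h.eqs.cone h.surf.smul
  refine exists_finset_of_isolated h.surf (fun x y hxy hy => hy.pr hX hB hxy) fun x hx => ?_
  obtain ⟨n, hn⟩ := exists_resAt h.surf h.eqs h.thin hx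
  exact hn.near hX hB

theorem enN (n : ℕ) : EnN n := by
  induction n with
  | zero => exact enN_zero
  | succ n ih =>
    intro V _ _ _ X T m j Ω κ _ Q D h h0
    obtain ⟨F, -, hF⟩ := h.exists_finset
    refine enN_step ih F.card V X T m j Ω κ Q D h h0 ⟨F, le_rfl, fun x hx => ?_⟩
    rcases hF x hx with h1 | h1
    · exact Or.inl (h1.mono_le (Nat.zero_le n))
    · exact Or.inr h1

/-- The metric along the entire curves of a surface with a curve in it. -/
theorem energy_of_model {V : Type} [NormedAddCommGroup V] [NormedSpace ℂ V] {X T : Set V}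
    [FiniteDimensional ℂ V] {m j : ℕ} {Ω : V → V → V → ℂ} {κ : Type} [Fintype κ] {Q : κ → V → ℂ} {D : ℕ}
    (h : ModelS X T m j Ω Q D) {N : ℕ} (L : V ≃L[ℂ] EN N) :
    ∃ (M : ℕ) (c₀ C : ℝ) (g : (ℂ → V) → ℂ → ℝ), 1 ≤ M ∧ Energy X T (fun x => ‖L x‖) (rhoS Q D) M c₀ C g := by
  classical
  have hX := h.surf.smul
  have hB := h.eqs.cone h.surf.smul
  obtain ⟨F, hFX, hF⟩ := h.exists_finset
  have h1 : ∀ q : V, ∃ n, q ∈ F → ResAt X T q n := by
    intro q
    by_cases hq : q ∈ F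
    · obtain ⟨n, hn⟩ := exists_resAt h.surf h.eqs h.thin (hFX q hq)
      exact ⟨n, fun _ => hn⟩
    · exact ⟨0, fun h2 => absurd h2 hq⟩
  choose n hn using h1
  refine enN (F.sup n) V X T m j Ω κ Q D h (fun x hx => ?_) N L
  rcases hF x hx with h2 | ⟨q, hq, hxq⟩
  · exact h2.mono_le (Nat.zero_le _)
  · exact ((hn q hq).mono_le (Finset.le_sup (f := n) hq)).pr hX hB hxq

end Pool.Agent.SY
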