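import Pool.Agent.SY.EiA
import Pool.Agent.H14.KB.KobNodal

/-!
# SY EiN: the metric along entire curves, the nodal case

`H14.KB.nodal_metric` gives the metric on the cone `L.symm ⁻¹' X` in `EN N`, `energy_of_metric` the metric along the entire curves in it; both are
pulled back by `L`.
-/

set_option autoImplicit false

open Topology Filter Metric

noncomputable section

namespace Pool.Agent.SY

open Pool.Agent.H36.BP (EN fs wd Sub MetricData mt Curve)
open Pool.Agent.H17BP (Pr Surface IsForm NoZeros NodalAt Eqs IsChart)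
open Pool.Agent.H14.PP (IsCone)
open Pool.Agent.H14.KB (rhoS rhoS_nonneg)

variable {V : Type} [NormedAddCommGroup V] [NormedSpace ℂ V]

/-- curves in the transported cone -/
theorem ent_transport {N : ℕ} (L : V ≃L[ℂ] EN N) {X T : Set V} {F : ℂ → V} (hF : Ent X T F) :
    Ent (L.symm ⁻¹' X : Set (EN N)) (L.symm ⁻¹' T) (fun z => L (F z)) := by
  refine ⟨(L : V →L[ℂ] EN N).differentiable.comp hF.diff, fun z => ?_, ?_⟩
  · show L.symm (L (F z)) ∈ X
    rw [L.symm_apply_apply]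
    exact hF.mem z
  · obtain ⟨z, hz⟩ := hF.out
    refine ⟨z, fun h => hz ?_⟩
    have h1 : L.symm (L (F z)) ∈ T := h
    rwa [L.symm_apply_apply] at h1

/-- transport of the energy by a linear equivalence -/
theorem energy_transport {N : ℕ} (L : V ≃L[ℂ] EN N) {X T : Set V} {rho' : EN N → ℝ} {rho : V → ℝ} {M : ℕ} {c₀ C : ℝ}
    {g' : (ℂ → EN N) → ℂ → ℝ} (E : Energy (L.symm ⁻¹' X : Set (EN N)) (L.symm ⁻¹' T) (fun x => ‖x‖) rho' M c₀ C g')
    {A K₁ : ℝ} (hA : 0 ≤ A) (hK₁ : 0 ≤ K₁) (h0 : ∀ x ∈ X, 0 ≤ rho x) (hr' : ∀ x ∈ X, 0 ≤ rho' (L x)) (hr : ∀ x ∈ X, rho x ≤ A * rho' (L x))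
    (hb : ∀ x ∈ X, rho x ≤ K₁) :
    ∃ C' : ℝ, Energy X T (fun x => ‖L x‖) rho (M + 1) c₀ C' (fun F => g' (fun z => L (F z))) := by
  set a₁ : ℝ := ‖(L : V →L[ℂ] EN N)‖ with ha₁
  set a₂ : ℝ := ‖(L.symm : EN N →L[ℂ] V)‖ with ha₂
  have ha₁0 : 0 ≤ a₁ := norm_nonneg _
  have ha₂0 : 0 ≤ a₂ := norm_nonneg _
  set C' : ℝ := max C (K₁ * (A ^ M * (a₂ * (C * a₁)))) with hC'
  have hCC : C ≤ C' := le_max_left _ _
  refine ⟨C', E.c₀_pos, E.C_pos.trans_le hCC, fun F hF z => E.nonneg _ (ent_transport L hF) z,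
    fun F hF z a ha => E.usc _ (ent_transport L hF) z a ha, fun F hF a b ha z => E.aff _ (ent_transport L hF) a b ha z, ?_, ?_, ?_, ?_⟩
  · intro F hF h hh h0' z
    have h1 := E.unit _ (ent_transport L hF) h hh h0' z
    have h2 : (fun w => L (h w • F w)) = fun w => h w • L (F w) := by
      funext w
      rw [map_smul]
    show g' (fun w => L (h w • F w)) z = _
    rw [h2]
    exact h1
  · intro F hF z hz
    obtain ⟨h1, h2⟩ := E.sub _ (ent_transport L hF) z hz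
    refine ⟨h1, fun t ht => h2 t (lt_of_lt_of_le ht ?_)⟩
    have h3 := mul_le_mul_of_nonneg_right hCC (sq_nonneg (g' (fun z => L (F z)) z))
    linarith
  · intro F hF z
    obtain ⟨a, ha⟩ := E.lower _ (ent_transport L hF) z
    refine ⟨a, ?_⟩
    have hFX := hF.mem z
    have hd : deriv (fun z => L (F z)) z = L (deriv F z) := by
      have h2 : HasDerivAt (fun z => L (F z)) (L (deriv F z)) z :=
        (L : V →L[ℂ] EN N).hasFDerivAt.comp_hasDerivAt z (hF.diff z).hasDerivAt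
      exact h2.deriv
    rw [hd] at ha
    have h2 : L (deriv F z) - a • L (F z) = L (deriv F z - a • F z) := by
      rw [map_sub, map_smul]
    rw [h2] at ha
    have h3 : ‖deriv F z - a • F z‖ ≤ a₂ * ‖L (deriv F z - a • F z)‖ := by
      have := (L.symm : EN N →L[ℂ] V).le_opNorm (L (deriv F z - a • F z))
      have e : (L.symm : EN N →L[ℂ] V) (L (deriv F z - a • F z)) = deriv F z - a • F z :=
        L.symm_apply_apply _
      rwa [e] at this
    have h4 : ‖L (F z)‖ ≤ a₁ * ‖F z‖ := (L : V →L[ℂ] EN N).le_opNorm _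
    have h5 := hr _ hFX
    have h6 := hb _ hFX
    have h7 := h0 _ hFX
    have h8 := hr' _ hFX
    have hg : 0 ≤ g' (fun z => L (F z)) z := E.nonneg _ (ent_transport L hF) z
    have hC0 := E.C_pos.le
    calc rho (F z) ^ (M + 1) * ‖deriv F z - a • F z‖
        = rho (F z) * (rho (F z) ^ M * ‖deriv F z - a • F z‖) := by rw [pow_succ]; ring
      _ ≤ K₁ * ((A * rho' (L (F z))) ^ M * (a₂ * ‖L (deriv F z - a • F z)‖)) := by gcongr
      _ = K₁ * (A ^ M * (a₂ * (rho' (L (F z)) ^ M * ‖L (deriv F z - a • F z)‖))) := by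
          rw [mul_pow]; ring
      _ ≤ K₁ * (A ^ M * (a₂ * (C * ‖L (F z)‖ * g' (fun z => L (F z)) z))) := by gcongr
      _ ≤ K₁ * (A ^ M * (a₂ * (C * (a₁ * ‖F z‖) * g' (fun z => L (F z)) z))) := by gcongr
      _ = K₁ * (A ^ M * (a₂ * (C * a₁))) * ‖F z‖ * g' (fun z => L (F z)) z := by ring
      _ ≤ C' * ‖F z‖ * g' (fun z => L (F z)) z := by
          have h9 : K₁ * (A ^ M * (a₂ * (C * a₁))) ≤ C' := le_max_right _ _
          gcongr
  · intro l hl r A' ε hr0 hε F H hF hA' hB hc hH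
    obtain ⟨h, hh, hlim⟩ := hc
    have hlim' : TendstoLocallyUniformlyOn (fun n z => h n z • L (F n z)) (fun z => L (H z)) l (ball 0 r) := by
      have h1 : TendstoLocallyUniformlyOn (fun n z => L (h n z • F n z)) (fun z => L (H z)) l (ball 0 r) := by
        intro U hU x hx
        have h2 : UniformContinuous (fun y : V => L y) := (L : V →L[ℂ] EN N).uniformContinuous
        obtain ⟨t, ht, h3⟩ := hlim _ (h2 hU) x hx
        exact ⟨t, ht, h3⟩
      have h2 : (fun n z => L (h n z • F n z)) = fun n z => h n z • L (F n z) := by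
        funext n z
        rw [map_smul]
      rwa [h2] at h1
    obtain ⟨⟨z, hz, hzT⟩, ⟨x, hx, y, hy, hxy⟩⟩ := E.lim l hl r A' ε hr0 hε (fun n z => L (F n z)) (fun z => L (H z))
      (hF.mono fun n hn => ent_transport L hn) hA' hB ⟨h, hh, hlim'⟩ (fun z hz => by
        show L.symm (L (H z)) ∈ X
        rw [L.symm_apply_apply]
        exact hH z hz)
    refine ⟨⟨z, hz, fun h1 => hzT ?_⟩, ⟨x, hx, y, hy, fun h1 => hxy ?_⟩⟩
    · show L.symm (L (H z)) ∈ T
      rwa [L.symm_apply_apply]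
    · obtain ⟨c, hc, e⟩ := h1
      exact ⟨c, hc, by show L (H x) = c • L (H y); rw [e, map_smul]⟩

private def EiN_Q {κ : Type} [Fintype κ] (Q : κ → V → ℂ) (x : V) : EuclideanSpace ℂ κ := WithLp.toLp 2 (fun i => Q i x)

/-- MODULE EiN: the nodal case. -/
theorem energy_nodal [FiniteDimensional ℂ V] {X T : Set V} {m j : ℕ}
    {Ω : V → V → V → ℂ} {κ : Type} [Fintype κ] {Q : κ → V → ℂ} {D : ℕ} (h : ModelS X T m j Ω Q D) (hn : ∀ x ∈ X, NodalAt X T x)
    {N : ℕ} (L : V ≃L[ℂ] EN N) :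
    ∃ (M : ℕ) (c₀ C : ℝ) (g : (ℂ → V) → ℂ → ℝ), 1 ≤ M ∧ Energy X T (fun x => ‖L x‖) (rhoS Q D) M c₀ C g := by
  have hne : ∀ x ∈ X, x ≠ 0 := fun x hx e => h.surf.zero (e ▸ hx)
  have hTs := h.eqs.cone h.surf.smul
  obtain ⟨heq, M, c₀, C, G, hM⟩ := Pool.Agent.H14.KB.nodal_metric L (Q := EiN_Q Q) (D := D) h.surf (fun x => by
    have h1 : AnalyticAt ℂ (fun x : V => fun i => Q i x) x := by
      rw [analyticAt_pi_iff]
      exact fun i => h.eqs.an i x
    exact AnalyticAt.comp (g := (WithLp.toLp 2 : (κ → ℂ) → EuclideanSpace ℂ κ))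
      (f := fun x : V => fun i => Q i x) ((EuclideanSpace.equiv κ ℂ).symm.analyticAt _) h1)
    (fun c x => by
      unfold EiN_Q
      rw [← WithLp.toLp_smul]
      congr 1
      funext i
      simp [h.eqs.smul]) (B := T) (fun x => by
      rw [h.eqs.mem_iff]
      unfold EiN_Q
      constructor
      · rintro ⟨h1, h2⟩
        refine ⟨h1, ?_⟩
        have h3 : (fun i => Q i x) = (0 : κ → ℂ) := funext h2
        rw [h3]
        rfl
      · rintro ⟨h1, h2⟩
        refine ⟨h1, fun i => ?_⟩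
        have h3 := congrFun (congrArg WithLp.ofLp h2) i
        exact h3) hn h.one_m h.one_j h.form h.noZeros
  have hcone : IsCone (L.symm ⁻¹' X : Set (EN N)) := Pool.Agent.H36.BP.isCone_transport L h.surf
  obtain ⟨K₁, hK₁, hK₁b⟩ := Pool.Agent.H14.PP.exists_rho_bound hcone heq
  obtain ⟨C₁, E⟩ := energy_of_metric hcone hM (fun x hx c hc => by
    show L.symm (c • x) ∈ T
    rw [map_smul]
    exact hTs _ hx c hc)
  set A : ℝ := ‖(L : V →L[ℂ] EN N)‖ with hA
  have hA0 : 0 ≤ A := norm_nonneg _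
  have hρ : ∀ x ∈ X, rhoS Q D x ≤ A ^ D * Pool.Agent.H14.PP.rho (fun y => EiN_Q Q (L.symm y)) D (L x) := by
    intro x hx
    have hx0 : 0 < ‖x‖ := norm_pos_iff.mpr (hne x hx)
    have hLx0 : 0 < ‖L x‖ := norm_pos_iff.mpr fun h0 => hne x hx (L.map_eq_zero_iff.mp h0)
    unfold rhoS Pool.Agent.H14.PP.rho
    simp only
    rw [L.symm_apply_apply, ← mul_div_assoc, div_le_div_iff₀ (by positivity) (by positivity)]
    have h1 : ‖fun i => Q i x‖ ≤ ‖EiN_Q Q x‖ := by
      refine (pi_norm_le_iff_of_nonneg (norm_nonneg _)).mpr fun i => ?_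
      exact PiLp.norm_apply_le (EiN_Q Q x) i
    have h2 : ‖L x‖ ≤ A * ‖x‖ := (L : V →L[ℂ] EN N).le_opNorm x
    calc ‖fun i => Q i x‖ * ‖L x‖ ^ D ≤ ‖EiN_Q Q x‖ * (A * ‖x‖) ^ D := by gcongr
      _ = A ^ D * ‖EiN_Q Q x‖ * ‖x‖ ^ D := by rw [mul_pow]; ring
  have hρ2 : ∀ x ∈ X, rhoS Q D x ≤ A ^ D * K₁ := by
    intro x hx
    refine (hρ x hx).trans (mul_le_mul_of_nonneg_left (hK₁b _ ?_) (by positivity))
    show L.symm (L x) ∈ X
    rwa [L.symm_apply_apply]
  obtain ⟨C', E'⟩ := energy_transport L (rho := rhoS Q D) E (A := A ^ D) (K₁ := A ^ D * K₁) (by positivity) (by positivity)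
    (fun x _ => rhoS_nonneg Q D x) (fun x _ => Pool.Agent.H14.PP.rho_nonneg _ _ _) hρ hρ2
  exact ⟨M + 1, c₀, C', _, by omega, E'⟩

end Pool.Agent.SY
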