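import Pool.Agent.SY.DefB
import Pool.Agent.H17.Weierstrass

/-!
# SY EiL1: existence of the lift of an entire curve to the blow-up

The entire functions `l b (F z)` are divided by an entire function whose orders are the minima of their orders (Weierstrass' theorem).
-/

set_option autoImplicit false

open Topology Filter Metric

noncomputable section

namespace Pool.Agent.SY

open Pool.Agent.H17BP (Surface)
open Pool.Agent.H62.BU (blow total Ker phi dense)

private lemma eil_quot {f w : ℂ → ℂ} {z₀ : ℂ} {n : ℕ} (hf : AnalyticAt ℂ f z₀) (hw : AnalyticAt ℂ w z₀)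
    (hn : analyticOrderAt w z₀ = n) (h : (n : ℕ∞) ≤ analyticOrderAt f z₀) :
    ∃ q : ℂ → ℂ, AnalyticAt ℂ q z₀ ∧ ∀ᶠ z in 𝓝 z₀, f z = q z * w z := by
  obtain ⟨g, hg, hfg⟩ := (natCast_le_analyticOrderAt hf).mp h
  obtain ⟨u, hu, hu0, hwu⟩ := hw.analyticOrderAt_eq_natCast.mp hn
  refine ⟨fun z => g z / u z, hg.div hu hu0, ?_⟩
  filter_upwards [hfg, hwu, hu.continuousAt.eventually_ne hu0] with z h1 h2 h3
  rw [h1, h2, smul_eq_mul, smul_eq_mul]
  field_simp

/-- Entire functions, not all zero, divided by their greatest common divisor. -/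
private lemma eil_gcd {ι : Type} [Fintype ι] {f : ι → ℂ → ℂ} (hf : ∀ b, Differentiable ℂ (f b)) {z₀ : ℂ} (h0 : ∃ b, f b z₀ ≠ 0) :
    ∃ (w : ℂ → ℂ) (k : ι → ℂ → ℂ), Differentiable ℂ w ∧ (∀ b, Differentiable ℂ (k b)) ∧ (∀ b z, f b z = k b z * w z) ∧
      (∀ z, ∃ b, k b z ≠ 0) ∧ ∀ z, ∀ᶠ y in 𝓝[≠] z, w y ≠ 0 := by
  classical
  obtain ⟨b₀, hb₀⟩ := h0
  have hfa : ∀ b z, AnalyticAt ℂ (f b) z := fun b z => (hf b).analyticAt z
  have hfin : ∀ z, analyticOrderAt (f b₀) z ≠ ⊤ := fun z =>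
    Pool.Agent.H17.EntFun.order_ne_top (f := ⟨f b₀, hf b₀⟩) ((Pool.Agent.H17.EntFun.ne_zero_iff _).mpr ⟨z₀, hb₀⟩) z
  -- the minimal order
  set m : ℂ → ℕ∞ := fun z => Finset.univ.inf (fun b => analyticOrderAt (f b) z) with hm
  have hmle : ∀ z b, m z ≤ analyticOrderAt (f b) z := fun z b => Finset.inf_le (Finset.mem_univ b)
  have hmfin : ∀ z, m z ≠ ⊤ := fun z h => hfin z (top_le_iff.mp (h ▸ hmle z b₀))
  set D : ℂ → ℕ := fun z => (m z).toNat with hD
  have hDm : ∀ z, (D z : ℕ∞) = m z := fun z => ENat.natCast_toNat (hmfin z)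
  have hmex : ∀ z, ∃ b, analyticOrderAt (f b) z = m z := by
    intro z
    obtain ⟨b, -, hb⟩ := Finset.exists_mem_eq_inf (Finset.univ : Finset ι) ⟨b₀, Finset.mem_univ _⟩ (fun b => analyticOrderAt (f b) z)
    exact ⟨b, hb.symm⟩
  have hne : ∀ z, ∀ᶠ y in 𝓝[≠] z, f b₀ y ≠ 0 := by
    intro z
    rcases (hfa b₀ z).eventually_eq_zero_or_eventually_ne_zero with h | h
    · exact absurd (analyticOrderAt_eq_top.mpr h) (hfin z)
    · exact h
  have hD0 : ∀ z, f b₀ z ≠ 0 → D z = 0 := by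
    intro z hz
    have h1 := hmle z b₀
    rw [(hfa b₀ z).analyticOrderAt_eq_zero.mpr hz, ← hDm z] at h1
    exact_mod_cast le_antisymm h1 zero_le
  have hDfin : ∀ R : ℝ, {z ∈ Metric.closedBall (0 : ℂ) R | D z ≠ 0}.Finite := by
    intro R
    by_contra hinf
    obtain ⟨y, -, hy⟩ := Set.Infinite.exists_accPt_of_subset_isCompact hinf
      (isCompact_closedBall (0 : ℂ) R) (fun z hz => hz.1)
    rw [accPt_iff_frequently_nhdsNE] at hy
    obtain ⟨z, hz1, hz2⟩ := (hy.and_eventually (hne y)).exists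
    exact hz1.2 (hD0 z hz2)
  obtain ⟨w, hw⟩ := Pool.Agent.H17.exists_entire_with_orders D hDfin
  have hwa : ∀ z, AnalyticAt ℂ (w : ℂ → ℂ) z := fun z => w.analyticAt z
  have hwne : ∀ z, ∀ᶠ y in 𝓝[≠] z, (w : ℂ → ℂ) y ≠ 0 := by
    intro z
    rcases (hwa z).eventually_eq_zero_or_eventually_ne_zero with h | h
    · have h1 := analyticOrderAt_eq_top.mpr h
      rw [hw z] at h1
      exact absurd h1 (ENat.natCast_ne_top _)
    · exact h
  choose q hqa hqe using fun b z => eil_quot (hfa b z) (hwa z) (hw z) ((hDm z).le.trans (hmle z b))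
  set k : ι → ℂ → ℂ := fun b z => q b z z with hk
  have hkloc : ∀ b z, k b =ᶠ[𝓝 z] q b z := by
    intro b z
    filter_upwards [eventually_nhdsWithin_iff.mp (hwne z), hqe b z] with y h1 h2
    by_cases hy : y = z
    · rw [hy]
    · have h3 : f b y = q b y y * (w : ℂ → ℂ) y := (hqe b y).self_of_nhds
      exact mul_right_cancel₀ (h1 hy) (h3.symm.trans h2)
  refine ⟨w, k, w.diff, fun b z => ((hkloc b z).differentiableAt_iff).mpr (hqa b z).differentiableAt,
    fun b z => (hqe b z).self_of_nhds, fun z => ?_, hwne⟩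
  obtain ⟨b, hb⟩ := hmex z
  refine ⟨b, ?_⟩
  have h1 : analyticOrderAt (f b) z = analyticOrderAt (fun y => q b z y * (w : ℂ → ℂ) y) z := analyticOrderAt_congr (hqe b z)
  have h2 : analyticOrderAt (fun y => q b z y * (w : ℂ → ℂ) y) z = analyticOrderAt (q b z) z + analyticOrderAt (w : ℂ → ℂ) z :=
    analyticOrderAt_mul (hqa b z) (hwa z)
  rw [h1, h2, hw z, ← hDm z] at hb
  have h3 : analyticOrderAt (q b z) z = 0 := by
    have h4 : analyticOrderAt (q b z) z + (D z : ℕ∞) = 0 + (D z : ℕ∞) := by rw [hb, zero_add]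
    exact (ENat.add_left_injective_of_ne_top (ENat.natCast_ne_top _)) h4
  exact (hqa b z).analyticOrderAt_eq_zero.mp h3

variable {V : Type} [NormedAddCommGroup V] [NormedSpace ℂ V] {ι : Type} [Fintype ι] {l : ι → V →L[ℂ] ℂ} {X T : Set V} {q : V}

theorem exists_liftB (hX : Surface X) (hl : Ker l q) (hTX : T ⊆ X) (hT : ∀ x ∈ T, ∀ c : ℂ, c ≠ 0 → c • x ∈ T) (hq : q ∈ T) {F : ℂ → V}
    (hF : Ent X T F) : ∃ Φ, IsLiftB l X T F Φ := by
  have hF0 : ∀ z, F z ≠ 0 := fun z h => hX.zero (h ▸ hF.mem z)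
  obtain ⟨z₀, hz₀⟩ := hF.out
  have h0 : ∃ b, l b (F z₀) ≠ 0 := by
    by_contra hcon
    push Not at hcon
    obtain ⟨c, hc⟩ := (hl (F z₀)).mp hcon
    have hc0 : c ≠ 0 := by
      rintro rfl
      exact hF0 z₀ (by rw [hc, zero_smul])
    exact hz₀ (hc ▸ hT q hq c hc0)
  have hfd : ∀ b, Differentiable ℂ (fun z => l b (F z)) := fun b => (l b).differentiable.comp hF.diff
  obtain ⟨w, k, hwd, hkd, hkf, hk0, hwne⟩ := eil_gcd hfd h0
  have hphi : ∀ z, phi l (F z) = w z • (fun b => k b z • F z) := by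
    intro z
    funext b
    change l b (F z) • F z = w z • (k b z • F z)
    rw [hkf b z, smul_smul, mul_comm]
  have hΦ0 : ∀ z, (fun b => k b z • F z) ≠ (0 : ι → V) := by
    intro z h
    obtain ⟨b, hb⟩ := hk0 z
    exact smul_ne_zero hb (hF0 z) (congrFun h b)
  have hΦd : Differentiable ℂ (fun z => (fun b => k b z • F z : ι → V)) := differentiable_pi.mpr fun b => (hkd b).smul hF.diff
  refine ⟨fun z b => k b z • F z, ⟨hΦd, fun z => ⟨?_, hΦ0 z⟩, z₀, ?_⟩, w, hwd, hphi⟩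
  · have hc : Tendsto (fun z => (fun b => k b z • F z : ι → V)) (𝓝[≠] z) (𝓝 (fun b => k b z • F z)) :=
      (hΦd z).continuousAt.tendsto.mono_left nhdsWithin_le_nhds
    refine mem_closure_of_tendsto hc ?_
    filter_upwards [hwne z] with y hy
    refine ⟨F y, hF.mem y, ?_, (w y)⁻¹, inv_ne_zero hy, ?_⟩
    · obtain ⟨b, hb⟩ := hk0 y
      exact ⟨b, by rw [hkf b y]; exact mul_ne_zero hb hy⟩
    · rw [hphi y, smul_smul, inv_mul_cancel₀ hy, one_smul]
  · rintro ⟨-, h⟩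
    obtain ⟨b, hb⟩ := hk0 z₀
    have h1 : k b z₀ • F z₀ ∈ T := h b (smul_ne_zero hb (hF0 z₀))
    have h2 := hT _ h1 (k b z₀)⁻¹ (inv_ne_zero hb)
    rw [smul_smul, inv_mul_cancel₀ hb, one_smul] at h2
    exact hz₀ h2

end Pool.Agent.SY
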