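import Pool.Agent.SY.Cp
import Pool.Agent.H22.W.Zal

/-!
# SY A: a bound of the metric along the entire curves of constant length one
-/

set_option autoImplicit false

open Topology Filter Metric

noncomputable section

namespace Pool.Agent.SY

open Pool.Agent.H36.BP (EN fs wd Sub OrdTwo)
open Pool.Agent.H14.PP (IsCone CurveAt)
open Pool.Agent.H22.W (PseudoLength tan_entire)

variable {N : ℕ} {X T : Set (EN N)} {rho : EN N → ℝ} {M : ℕ} {c₀ C : ℝ} {g : (ℂ → EN N) → ℂ → ℝ}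

/-- product of a nonnegative upper semicontinuous function and a nonnegative continuous function -/
private theorem usc_mul {α : Type*} [TopologicalSpace α] {S : Set α} {u k : α → ℝ} (hu : UpperSemicontinuousOn u S)
    (hk : ContinuousOn k S) (hu0 : ∀ x ∈ S, 0 ≤ u x) (hk0 : ∀ x ∈ S, 0 ≤ k x) :
    UpperSemicontinuousOn (fun x => u x * k x) S := by
  intro x hx y hy
  have ht : Tendsto (fun ε : ℝ => (u x + ε) * (k x + ε)) (𝓝[>] 0) (𝓝 ((u x + 0) * (k x + 0))) := by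
    apply tendsto_nhdsWithin_of_tendsto_nhds
    have hc : Continuous (fun ε : ℝ => (u x + ε) * (k x + ε)) := by fun_prop
    exact hc.tendsto 0
  have hy' : (u x + 0) * (k x + 0) < y := by simpa using hy
  obtain ⟨ε, hε1, hε2⟩ := ((ht.eventually_lt_const hy').and self_mem_nhdsWithin).exists
  have hε : (0 : ℝ) < ε := hε2
  have h1 : ∀ᶠ x' in 𝓝[S] x, u x' < u x + ε := hu x hx _ (by linarith)
  have h2 : ∀ᶠ x' in 𝓝[S] x, k x' < k x + ε := (hk x hx).eventually_lt_const (by linarith)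
  filter_upwards [h1, h2, self_mem_nhdsWithin] with x' h1' h2' hx'
  refine lt_of_le_of_lt ?_ hε1
  exact mul_le_mul h1'.le h2'.le (hk0 x' hx') (by linarith [hu0 x hx])

theorem Ent.comp_affine {V : Type} [NormedAddCommGroup V] [NormedSpace ℂ V] {X T : Set V} {F : ℂ → V} (hF : Ent X T F) {a : ℂ}
    (ha : a ≠ 0) (b : ℂ) : Ent X T (fun w => F (a * w + b)) := by
  refine ⟨?_, fun z => hF.mem _, ?_⟩
  · exact hF.diff.comp ((differentiable_id.const_mul a).add_const b)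
  · obtain ⟨z, hz⟩ := hF.out
    refine ⟨(z - b) / a, ?_⟩
    have h1 : a * ((z - b) / a) + b = z := by
      field_simp
      ring
    show F (a * ((z - b) / a) + b) ∉ T
    rw [h1]
    exact hz

/-- Zalcman's rescaling with the metric `g` -/
theorem rescale_g {nu : EN N → ℝ} (E : Energy X T nu rho M c₀ C g) {F : ℂ → EN N} (hF : Ent X T F) (k : ℕ) {zc : ℂ}
    (hz : 4 * ((k : ℝ) + 1) < g F zc) :
    ∃ (a : ℝ) (b : ℂ), 4 * ((k : ℝ) + 1) < a ∧ g (fun w => F (((a⁻¹ : ℝ) : ℂ) * w + b)) 0 = 1 ∧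
      ∀ z ∈ ball (0 : ℂ) (k + 1), g (fun w => F (((a⁻¹ : ℝ) : ℂ) * w + b)) z ≤ 2 := by
  have hn : (0 : ℝ) ≤ k := Nat.cast_nonneg k
  obtain ⟨u, hu⟩ : ∃ u : ℂ → ℝ, u = fun z => g F (zc + z) * (1 / 2 - ‖z‖) := ⟨_, rfl⟩
  have husc : UpperSemicontinuousOn u (closedBall (0 : ℂ) (1 / 2)) := by
    rw [hu]
    refine usc_mul ?_ (by fun_prop) (fun x _ => E.nonneg F hF _) ?_
    · intro x _ y hy
      have h1 : Tendsto (fun z : ℂ => zc + z) (𝓝 x) (𝓝 (zc + x)) := by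
        have hc : Continuous (fun z : ℂ => zc + z) := by fun_prop
        exact hc.tendsto x
      exact mem_nhdsWithin_of_mem_nhds (h1.eventually (E.usc F hF (zc + x) y hy))
    · intro x hx
      have : ‖x‖ ≤ 1 / 2 := by simpa using hx
      linarith
  obtain ⟨z₀, hz₀, hmax⟩ := husc.exists_isMaxOn ⟨0, by simp⟩ (isCompact_closedBall _ _)
  have hz₀n : ‖z₀‖ ≤ 1 / 2 := by simpa using hz₀
  have h0 : u 0 ≤ u z₀ := hmax (by simp : (0 : ℂ) ∈ closedBall (0 : ℂ) (1 / 2))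
  have hu0 : u 0 = g F zc / 2 := by simp only [hu, norm_zero, add_zero]; ring
  have hm : 2 * ((k : ℝ) + 1) < u z₀ := by rw [hu0] at h0; linarith
  obtain ⟨d, hd⟩ : ∃ d : ℝ, d = 1 / 2 - ‖z₀‖ := ⟨_, rfl⟩
  have hd0 : 0 ≤ d := by rw [hd]; linarith
  have hd1 : d ≤ 1 / 2 := by rw [hd]; linarith [norm_nonneg z₀]
  obtain ⟨a, ha⟩ : ∃ a : ℝ, a = g F (zc + z₀) := ⟨_, rfl⟩
  have ha0 : 0 ≤ a := by rw [ha]; exact E.nonneg F hF _
  have huz : u z₀ = a * d := by rw [hu, ha, hd]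
  have hmd : 2 * ((k : ℝ) + 1) < a * d := by rw [← huz]; exact hm
  have hpos : 0 < a * d := by linarith
  have hapos : 0 < a := by
    rcases ha0.lt_or_eq with h | h
    · exact h
    · rw [← h] at hpos; simp at hpos
  have hdpos : 0 < d := by
    rcases hd0.lt_or_eq with h | h
    · exact h
    · rw [← h] at hpos; simp at hpos
  have hbig : 4 * ((k : ℝ) + 1) < a := by
    have h1 : a * d ≤ a * (1 / 2) := mul_le_mul_of_nonneg_left hd1 hapos.le
    linarith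
  have hac : (((a⁻¹ : ℝ)) : ℂ) ≠ 0 := by exact_mod_cast inv_ne_zero hapos.ne'
  have haff : ∀ z, g (fun w => F (((a⁻¹ : ℝ) : ℂ) * w + (zc + z₀))) z = a⁻¹ * g F (((a⁻¹ : ℝ) : ℂ) * z + (zc + z₀)) := by
    intro z
    rw [E.aff F hF _ _ hac z, Complex.norm_real, Real.norm_of_nonneg (by positivity)]
  refine ⟨a, zc + z₀, hbig, ?_, ?_⟩
  · rw [haff, mul_zero, zero_add, ← ha]
    exact inv_mul_cancel₀ hapos.ne'
  · intro ζ hζ
    have hζn : ‖ζ‖ < k + 1 := by simpa using hζ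
    obtain ⟨y, hy⟩ : ∃ y : ℂ, y = z₀ + ((a⁻¹ : ℝ) : ℂ) * ζ := ⟨_, rfl⟩
    have h1 : ‖y‖ ≤ ‖z₀‖ + a⁻¹ * ‖ζ‖ := by
      rw [hy]
      calc ‖z₀ + ((a⁻¹ : ℝ) : ℂ) * ζ‖ ≤ ‖z₀‖ + ‖((a⁻¹ : ℝ) : ℂ) * ζ‖ := norm_add_le _ _
        _ = ‖z₀‖ + a⁻¹ * ‖ζ‖ := by
          rw [norm_mul, Complex.norm_real, Real.norm_of_nonneg (by positivity)]
    have h2 : a⁻¹ * ‖ζ‖ ≤ d / 2 := by
      rw [inv_mul_le_iff₀ hapos]
      linarith
    have h3 : ‖z₀‖ = 1 / 2 - d := by rw [hd]; ring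
    have h4 : ‖y‖ ≤ 1 / 2 - d / 2 := by linarith
    have hyb : y ∈ closedBall (0 : ℂ) (1 / 2) := by
      rw [mem_closedBall_zero_iff]
      linarith
    have h5 : u y ≤ u z₀ := hmax hyb
    have h6 : u y = g F (zc + y) * (1 / 2 - ‖y‖) := by rw [hu]
    rw [h6, huz] at h5
    have h7 : 0 ≤ g F (zc + y) := E.nonneg F hF _
    have h8 : g F (zc + y) * (d / 2) ≤ a * d := le_trans (mul_le_mul_of_nonneg_left (by linarith) h7) h5
    have h9 : g F (zc + y) ≤ 2 * a := by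
      by_contra hc
      push Not at hc
      have : 2 * a * (d / 2) < g F (zc + y) * (d / 2) := mul_lt_mul_of_pos_right hc (by linarith)
      linarith
    rw [haff, inv_mul_le_iff₀ hapos]
    have h10 : ((a⁻¹ : ℝ) : ℂ) * ζ + (zc + z₀) = zc + y := by rw [hy]; ring
    rw [h10]
    linarith

/-- MODULE A: a bound of `g` -/
theorem bound_g (hX : IsCone X) (hTs : ∀ x ∈ T, ∀ c : ℂ, c ≠ 0 → c • x ∈ T) (E : Energy X T (fun x => ‖x‖) rho M c₀ C g) (n : PseudoLength X)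
    (hnull : ∀ F : ℂ → EN N, Differentiable ℂ F → (∀ z, F z ∈ X) → OrdTwo F → (∀ z, n.toFun (F z) (deriv F z) = 0) →
      (∀ z, F z ∈ T) ∨ ∀ z w, ∃ c : ℂ, F z = c • F w) :
    ∃ C₁ : ℝ, 0 < C₁ ∧ ∀ F, Cls T n F → ∀ z, g F z ≤ C₁ := by
  by_contra hcon
  push Not at hcon
  have hbig : ∀ k : ℕ, ∃ F : ℂ → EN N, Cls T n F ∧ ∃ z, 4 * ((k : ℝ) + 1) < g F z := fun k => hcon _ (by positivity)
  choose F hF zc hzc using hbig
  have hresc := fun k => rescale_g E (hF k).1 k (hzc k)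
  choose a b ha h1 h2 using hresc
  have ha0 : ∀ k, 0 < a k := fun k => lt_trans (by positivity) (ha k)
  have hac : ∀ k, ((((a k)⁻¹ : ℝ)) : ℂ) ≠ 0 := fun k => by exact_mod_cast inv_ne_zero (ha0 k).ne'
  obtain ⟨G, hG⟩ : ∃ G : ℕ → ℂ → EN N, G = fun k w => F k ((((a k)⁻¹ : ℝ) : ℂ) * w + b k) := ⟨_, rfl⟩
  have hGE : ∀ k, Ent X T (G k) := by
    intro k
    rw [hG]
    exact (hF k).1.comp_affine (hac k) (b k)
  have hGn : ∀ k ζ, n.toFun (G k ζ) (deriv (G k) ζ) = (a k)⁻¹ := by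
    intro k ζ
    have h3 := n.comp_affine (hF k).1.diff (hF k).1.mem (((a k)⁻¹ : ℝ) : ℂ) (b k) ζ
    have h4 : G k = fun ζ => F k (b k + (((a k)⁻¹ : ℝ) : ℂ) * ζ) := by
      rw [hG]
      funext ζ
      show F k ((((a k)⁻¹ : ℝ) : ℂ) * ζ + b k) = _
      rw [add_comm]
    rw [h4]
    rw [show n.toFun ((fun ζ => F k (b k + (((a k)⁻¹ : ℝ) : ℂ) * ζ)) ζ) (deriv (fun ζ => F k (b k + (((a k)⁻¹ : ℝ) : ℂ) * ζ)) ζ) = _ from h3,
      Complex.norm_real, Real.norm_of_nonneg (inv_nonneg.mpr (ha0 k).le), (hF k).2, mul_one]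
  have h0' : ∀ k, (1 : ℝ) ≤ g (G k) 0 := by
    intro k
    rw [hG]
    exact (h1 k).ge
  have hA' : ∀ k : ℕ, ∀ z ∈ ball (0 : ℂ) (k + 1), g (G k) z ≤ 2 := by
    intro k z hz
    rw [hG]
    exact h2 k z hz
  obtain ⟨𝒰, h𝒰⟩ : ∃ 𝒰 : Ultrafilter ℕ, 𝒰 = hyperfilter ℕ := ⟨_, rfl⟩
  have hle : (𝒰 : Filter ℕ) ≤ atTop := by rw [h𝒰]; exact Nat.hyperfilter_le_atTop
  have hainv : Tendsto (fun k => (a k)⁻¹) 𝒰 (𝓝 0) := by
    have hρ : Tendsto (fun k : ℕ => (k : ℝ) + 1) 𝒰 atTop :=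
      (tendsto_atTop_add_const_right _ _ tendsto_natCast_atTop_atTop).mono_left hle
    have h3 : Tendsto a 𝒰 atTop := by
      refine tendsto_atTop_mono (fun k => ?_) hρ
      have := ha k
      have h4 : (0 : ℝ) ≤ k := Nat.cast_nonneg k
      linarith
    exact tendsto_inv_atTop_zero.comp h3
  obtain ⟨H, hH, hHX, hord, hHT, ⟨z₁, w₁, hne⟩, hlim⟩ := exists_limit hX hTs E 𝒰 hle G hGE one_pos hA' h0'
  have hloc : ∀ z₀ : ℂ, ∀ᶠ z in 𝓝[≠] z₀, n.toFun (H z) (deriv H z) = 0 := by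
    intro z₀
    obtain ⟨R, hR⟩ := exists_nat_gt ‖z₀‖
    have hR1 : 1 ≤ R := by
      by_contra hc
      have : R = 0 := by omega
      rw [this, Nat.cast_zero] at hR
      linarith [norm_nonneg z₀]
    obtain ⟨v, HR, hv, hconv, hdiff, -, hfac⟩ := hlim R hR1
    have hz₀ : z₀ ∈ ball (0 : ℂ) R := by rwa [mem_ball_zero_iff]
    obtain ⟨k, w, hw, hw0, hev⟩ := hfac z₀ hz₀
    have hwev : ∀ᶠ z in 𝓝 z₀, w z ≠ 0 := hw.continuousAt.eventually_ne hw0
    have hbev : ∀ᶠ z in 𝓝 z₀, z ∈ ball (0 : ℂ) R := isOpen_ball.mem_nhds hz₀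
    obtain ⟨s, hs, hball⟩ := Metric.eventually_nhds_iff_ball.1 (hev.and (hwev.and hbev))
    have hnear : ∀ᶠ z in 𝓝[≠] z₀, z ∈ ball z₀ s := mem_nhdsWithin_of_mem_nhds (isOpen_ball.mem_nhds (mem_ball_self hs))
    filter_upwards [hnear, self_mem_nhdsWithin] with z hz hzne
    have hzne' : z ≠ z₀ := hzne
    have hdist : 0 < dist z z₀ := dist_pos.2 hzne'
    have hzs : dist z z₀ < s := hz
    obtain ⟨r, hr⟩ : ∃ r : ℝ, r = min (s - dist z z₀) (dist z z₀) := ⟨_, rfl⟩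
    have hr0 : 0 < r := by rw [hr]; exact lt_min (by linarith) hdist
    have hsub : ∀ y ∈ ball z r, y ∈ ball z₀ s ∧ y ≠ z₀ := by
      intro y hy
      have h3 : dist y z < r := hy
      have h4 : r ≤ s - dist z z₀ := by rw [hr]; exact min_le_left _ _
      have h5 : r ≤ dist z z₀ := by rw [hr]; exact min_le_right _ _
      refine ⟨?_, ?_⟩
      · have := dist_triangle y z z₀
        rw [mem_ball]
        linarith
      · rintro rfl
        rw [dist_comm] at h3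
        linarith
    have hsubR : ball z r ⊆ ball (0 : ℂ) R := fun y hy => (hball y (hsub y hy).1).2.2
    have hrel : ∀ y ∈ ball z r, ∃ c : ℂ, c ≠ 0 ∧ HR y = c • H y := by
      intro y hy
      obtain ⟨h3, h4⟩ := hsub y hy
      obtain ⟨h5, h6, -⟩ := hball y h3
      refine ⟨(y - z₀) ^ k * w y, mul_ne_zero (pow_ne_zero _ (sub_ne_zero.2 h4)) h6, ?_⟩
      rw [h5, smul_smul]
    have hHRX : ∀ y ∈ ball z r, HR y ∈ X := by
      intro y hy
      obtain ⟨c, hc, h3⟩ := hrel y hy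
      rw [h3]
      exact hX.smul_mem _ (hHX y) c hc
    have hnb : ball z r ∈ 𝓝 z := isOpen_ball.mem_nhds (mem_ball_self hr0)
    have hφ : ∀ᶠ j in (𝒰 : Filter ℕ), DifferentiableOn ℂ (fun z => Complex.exp (v j z) • G j z) (ball z r) ∧
        ∀ y ∈ ball z r, (fun z => Complex.exp (v j z) • G j z) y ∈ X := by
      filter_upwards [hv] with j hj
      refine ⟨?_, fun y _ => hX.smul_mem _ ((hGE j).mem y) _ (Complex.exp_ne_zero _)⟩
      exact ((hj.1.cexp).smul (hGE j).diff).differentiableOn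
    have h3 := n.tendsto_curve hr0 hφ (hdiff.mono hsubR) hHRX (hconv.mono hsubR)
    have h4 : ∀ᶠ j in (𝒰 : Filter ℕ), n.toFun ((fun z => Complex.exp (v j z) • G j z) z) (deriv (fun z => Complex.exp (v j z) • G j z) z) = (a j)⁻¹ := by
      filter_upwards [hv] with j hj
      rw [← hGn j z]
      refine n.lift_eq hX ⟨((hj.1.cexp).smul (hGE j).diff).analyticAt z, ?_⟩ ⟨(hGE j).diff.analyticAt z, Eventually.of_forall (hGE j).mem⟩ ?_
      · exact Eventually.of_forall fun y => hX.smul_mem _ ((hGE j).mem y) _ (Complex.exp_ne_zero _)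
      · exact Eventually.of_forall fun y => ⟨_, Complex.exp_ne_zero _, rfl⟩
    have h5 : n.toFun (HR z) (deriv HR z) = 0 := tendsto_nhds_unique h3 (hainv.congr' (h4.mono fun j hj => hj.symm))
    rw [← h5]
    symm
    refine n.lift_eq hX ⟨(hdiff.mono hsubR).analyticAt hnb, ?_⟩ ⟨hH.analyticAt z, Eventually.of_forall hHX⟩ ?_
    · filter_upwards [hnb] with y hy using hHRX y hy
    · filter_upwards [hnb] with y hy using hrel y hy
  have hn0 : ∀ z, n.toFun (H z) (deriv H z) = 0 := by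
    intro z₀
    have hc := (n.continuous_curve hH hHX).tendsto z₀
    have h3 : Tendsto (fun z => n.toFun (H z) (deriv H z)) (𝓝[≠] z₀) (𝓝 (n.toFun (H z₀) (deriv H z₀))) := hc.mono_left nhdsWithin_le_nhds
    have h4 : Tendsto (fun z => n.toFun (H z) (deriv H z)) (𝓝[≠] z₀) (𝓝 0) :=
      tendsto_const_nhds.congr' ((hloc z₀).mono fun z hz => hz.symm)
    exact tendsto_nhds_unique h3 h4
  rcases hnull H hH hHX hord hn0 with h | h
  · obtain ⟨z, hz⟩ := hHT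
    exact hz (h z)
  · obtain ⟨c, hc⟩ := h z₁ w₁
    exact hne c hc

end Pool.Agent.SY
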