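import Pool.Agent.SY.Defs
import Pool.Agent.SY.ChM
import Pool.Agent.SY.LimM
import Pool.Agent.H36.BP.OrdDefs

/-!
# SY Cp: compactness

Entire curves with bounded `g` and `g F 0 ≥ δ`: the characteristic is bounded (`char_fun`), so they converge off a
discrete set (`limit_fun`); the limit is of order two, not contained in `T` and not constant.
-/

set_option autoImplicit false

open Topology Filter Metric

namespace Pool.Agent.SY

open Pool.Agent.H36.BP (EN fs wd Sub OrdTwo)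
open Pool.Agent.H17BP (Pr)
open Pool.Agent.H14.PP (IsCone)

variable {N : ℕ} {X T : Set (EN N)} {rho : EN N → ℝ} {M : ℕ} {c₀ C : ℝ} {g : (ℂ → EN N) → ℂ → ℝ}

/-- upper semicontinuity on a closed ball -/
theorem Energy.uscOn {nu : EN N → ℝ} (E : Energy X T nu rho M c₀ C g) {F : ℂ → EN N} (hF : Ent X T F) (S : Set ℂ) :
    UpperSemicontinuousOn (g F) S := fun z _ a ha => nhdsWithin_le_nhds (E.usc F hF z a ha)

/-- compactness of the entire curves with bounded `g` and `g F 0 ≥ δ`: near `0` (and at all points off a closed discrete set) the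
normalised curves converge, the limit is not in `T` and not constant -/
theorem exists_limit (hX : IsCone X) (hTs : ∀ x ∈ T, ∀ c : ℂ, c ≠ 0 → c • x ∈ T) (E : Energy X T (fun x => ‖x‖) rho M c₀ C g) (𝒰 : Ultrafilter ℕ) (h𝒰 : (𝒰 : Filter ℕ) ≤ atTop)
    (F : ℕ → ℂ → EN N) (hF : ∀ n, Ent X T (F n)) {A δ : ℝ} (hδ : 0 < δ) (hA : ∀ n : ℕ, ∀ z ∈ ball (0 : ℂ) (n + 1), g (F n) z ≤ A)
    (h0 : ∀ n, δ ≤ g (F n) 0) :
    ∃ H : ℂ → EN N, Differentiable ℂ H ∧ (∀ z, H z ∈ X) ∧ OrdTwo H ∧ (∃ z, H z ∉ T) ∧ (∃ z w, ∀ c : ℂ, H z ≠ c • H w) ∧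
      ∀ R : ℕ, 1 ≤ R → ∃ (v : ℕ → ℂ → ℂ) (HR : ℂ → EN N),
        (∀ᶠ n in (𝒰 : Filter ℕ), Differentiable ℂ (v n) ∧ ∀ z ∈ ball (0 : ℂ) R, ‖Complex.exp (v n z) • F n z‖ ≤ 1) ∧
        TendstoLocallyUniformlyOn (fun n z => Complex.exp (v n z) • F n z) HR 𝒰 (ball 0 R) ∧ DifferentiableOn ℂ HR (ball 0 R) ∧ HR 0 ≠ 0 ∧
        ∀ z₀ ∈ ball (0 : ℂ) R, ∃ (k : ℕ) (w : ℂ → ℂ), AnalyticAt ℂ w z₀ ∧ w z₀ ≠ 0 ∧ ∀ᶠ z in 𝓝 z₀, HR z = (z - z₀) ^ k • (w z • H z) := by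
  have hc₀ := E.c₀_pos
  have hC := E.C_pos
  have hne : ∀ x ∈ X, x ≠ 0 := fun x hx h => hX.zero_notMem (h ▸ hx)
  have hδA : δ ≤ A := (h0 0).trans (hA 0 0 (mem_ball_self (by positivity)))
  have hA0 : 0 < A := hδ.trans_le hδA
  set D : ℝ := C * A ^ 2 + 1 with hD
  have hD0 : 0 < D := by positivity
  obtain ⟨v, Hs, H, hv, hHc, hHs, hHd, hHX, hloc⟩ := limit_fun hX 𝒰 h𝒰 F (fun n => (hF n).diff)
    (fun n => (hF n).mem)
    (fun R : ℕ => Real.exp (-(1 + Real.log (A / δ * Real.exp 1 * Real.exp (D * (R : ℝ) ^ 2))) / c₀))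
    (fun R _ => Real.exp_pos _) (by
      intro R hR n hn
      have hR0 : (0 : ℝ) < R := by exact_mod_cast hR
      have hsub : closedBall (0 : ℂ) (R : ℝ) ⊆ ball 0 ((n : ℝ) + 1) := by
        apply closedBall_subset_ball
        have : (R : ℝ) ≤ n := by exact_mod_cast hn
        linarith
      exact char_fun hc₀ hC.le hR0 hδ (hF n).diff (fun z => hne _ ((hF n).mem z)) (E.uscOn (hF n) _)
        (fun z hz => hA n z (hsub hz)) (h0 n) (fun z _ hz => E.sub _ (hF n) z hz))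
  have hlog : ∀ R : ℝ, Real.log (A / δ * Real.exp 1 * Real.exp (D * R ^ 2)) =
      Real.log (A / δ) + 1 + D * R ^ 2 := by
    intro R
    have h8 : 0 < A / δ := div_pos hA0 hδ
    rw [Real.log_mul (mul_pos h8 (Real.exp_pos _)).ne' (Real.exp_pos _).ne',
      Real.log_mul h8.ne' (Real.exp_pos _).ne', Real.log_exp, Real.log_exp]
  -- the local form
  have hval : ∀ R : ℕ, 1 ≤ R → ∀ z ∈ ball (0 : ℂ) R, Hs R z = 0 ∨ ∃ c : ℂ, c ≠ 0 ∧ H z = c • Hs R z := by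
    intro R hR z hz
    obtain ⟨k, w, _, hw0, hwe⟩ := hloc R hR z hz
    have h1 := hwe.self_of_nhds
    rcases Nat.eq_zero_or_pos k with hk | hk
    · right
      subst hk
      rw [pow_zero, one_smul] at h1
      exact ⟨(w z)⁻¹, inv_ne_zero hw0, by rw [h1, smul_smul, inv_mul_cancel₀ hw0, one_smul]⟩
    · left
      rw [h1, sub_self, zero_pow hk.ne', zero_smul]
  have hHs0 : ∀ R : ℕ, 1 ≤ R → Hs R 0 ≠ 0 := fun R hR h => by
    have h1 := (hHs R hR).2.2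
    rw [h, norm_zero] at h1
    exact absurd (Real.exp_pos _) (not_lt.2 h1)
  -- order two
  have hord : OrdTwo H := by
    refine ⟨(2 + |Real.log (A / δ)| + 2 * D) / c₀, fun r hr => ?_⟩
    have hR : 1 ≤ ⌈r⌉₊ := Nat.one_le_iff_ne_zero.2 (Nat.ceil_pos.2 hr).ne'
    have hr1 : r ≤ (⌈r⌉₊ : ℝ) := Nat.le_ceil r
    have hr2 : (⌈r⌉₊ : ℝ) < r + 1 := Nat.ceil_lt_add_one hr.le
    have hsub : ball (0 : ℂ) r ⊆ ball 0 (⌈r⌉₊ : ℝ) := ball_subset_ball hr1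
    obtain ⟨h1, h2, h3⟩ := hHs _ hR
    refine ⟨Hs ⌈r⌉₊, h1.mono hsub, fun z hz => h2 z (hsub hz), le_trans (Real.exp_le_exp.2 ?_) h3,
      fun z hz => hval _ hR z (hsub hz)⟩
    rw [hlog, neg_div, neg_le_neg_iff, div_mul_eq_mul_div, div_le_div_iff_of_pos_right hc₀]
    have h4 : (⌈r⌉₊ : ℝ) ^ 2 ≤ 2 * (1 + r ^ 2) := by nlinarith [sq_nonneg (r - 1)]
    have h5 := le_abs_self (Real.log (A / δ))
    have h6 : 0 ≤ |Real.log (A / δ)| := abs_nonneg _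
    nlinarith [mul_le_mul_of_nonneg_left h4 hD0.le, mul_nonneg h6 (sq_nonneg r), sq_nonneg r]
  -- near the origin
  have h0mem : (0 : ℂ) ∈ ball (0 : ℂ) ((1 : ℕ) : ℝ) := mem_ball_self (by simp)
  have hcont0 : ContinuousAt (Hs 1) 0 :=
    ((hHs 1 le_rfl).1.differentiableAt (isOpen_ball.mem_nhds h0mem)).continuousAt
  obtain ⟨s, hs, hsb⟩ := Metric.eventually_nhds_iff_ball.1
    ((hcont0.eventually_ne (hHs0 1 le_rfl)).and (isOpen_ball.mem_nhds h0mem))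
  have hcoef : ∀ z ∈ ball (0 : ℂ) s, ∃ c : ℂ, c ≠ 0 ∧ Hs 1 z = c • H z := by
    intro z hz
    obtain ⟨c, hc, h1⟩ := (hval 1 le_rfl z (hsb z hz).2).resolve_left (hsb z hz).1
    exact ⟨c⁻¹, inv_ne_zero hc, by rw [h1, smul_smul, inv_mul_cancel₀ hc, one_smul]⟩
  have hev1 : ∀ᶠ n in (𝒰 : Filter ℕ), 1 ≤ n := h𝒰 (eventually_ge_atTop 1)
  obtain ⟨⟨p, hp, hpT⟩, ⟨a, ha, b, hb, hab⟩⟩ := E.lim (𝒰 : Filter ℕ) inferInstance (min s 1) A δ
    (lt_min hs one_pos) hδ F (Hs 1) (Eventually.of_forall hF)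
    (by
      refine Eventually.of_forall fun n z hz => hA n z ?_
      refine ball_subset_ball ?_ hz
      exact (min_le_right _ _).trans (by
        have : (0 : ℝ) ≤ n := Nat.cast_nonneg n
        linarith))
    (Eventually.of_forall h0)
    ⟨fun n z => Complex.exp (v 1 n z), by
      filter_upwards [hev1] with n hn
      exact ⟨(hv 1 le_rfl n hn).1.cexp.differentiableOn, fun z _ => Complex.exp_ne_zero _⟩,
      (hHc 1 le_rfl).mono fun w hw => (hsb w (ball_subset_ball (min_le_left _ _) hw)).2⟩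
    (fun w hw => by
      obtain ⟨c, hc, h1⟩ := hcoef w (ball_subset_ball (min_le_left _ _) hw)
      rw [h1]
      exact hX.smul_mem _ (hHX w) _ hc)
  refine ⟨H, hHd, hHX, hord, ?_, ?_, fun R hR => ?_⟩
  · refine ⟨p, fun h => hpT ?_⟩
    obtain ⟨c, hc, h1⟩ := hcoef p (ball_subset_ball (min_le_left _ _) hp)
    rw [h1]
    exact hTs _ h _ hc
  · refine ⟨a, b, fun c hc => hab ?_⟩
    obtain ⟨c₁, hc₁, h1⟩ := hcoef a (ball_subset_ball (min_le_left _ _) ha)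
    obtain ⟨c₂, hc₂, h2⟩ := hcoef b (ball_subset_ball (min_le_left _ _) hb)
    have hc0 : c ≠ 0 := fun h => by
      rw [h, zero_smul] at hc
      exact hne _ (hHX a) hc
    refine ⟨c₁ * c * c₂⁻¹, mul_ne_zero (mul_ne_zero hc₁ hc0) (inv_ne_zero hc₂), ?_⟩
    rw [h1, h2, hc, smul_smul, smul_smul]
    congr 1
    rw [mul_assoc, inv_mul_cancel₀ hc₂, mul_one]
  · refine ⟨v R, Hs R, ?_, hHc R hR, (hHs R hR).1, hHs0 R hR, hloc R hR⟩
    have hevR : ∀ᶠ n in (𝒰 : Filter ℕ), R ≤ n := h𝒰 (eventually_ge_atTop R)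
    filter_upwards [hevR] with n hn
    exact hv R hR n hn

end Pool.Agent.SY
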