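import Pool.Agent.SY.PotM
import Pool.Agent.SY.Cp
import Pool.Agent.H36.BP.SubC
import Pool.Agent.H22.W.Scale

/-!
# SY C: the good points are everywhere

Entire curves `F` of constant length one and `g F ≤ C₁` which are not contained in `T`: there are `d > 0` and a radius
`R` such that every disc of radius `R` contains a point `y` with `d ≤ g F y`.  Otherwise there are discs without good
points and with radii tending to infinity; put a nearest good point at the origin.  In the half plane `g F_n` tends to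
zero (`decay`), the curves converge (`exists_limit`) to a curve which is not in `T`, against the lower bound.
-/

set_option autoImplicit false

open Topology Filter Metric

namespace Pool.Agent.SY

open Pool.Agent.H36.BP (EN fs wd wd_le fs_inv fs_smul_right Sub Sub.mul Sub.anti Sub.congr Sub.norm_rpow)
open Pool.Agent.H14.PP (IsCone)
open Pool.Agent.H62.EF (Charts)
open Pool.Agent.H22.W (PseudoLength tan_entire exists_lower)

variable {N : ℕ} {X T : Set (EN N)} {rho : EN N → ℝ} {M : ℕ} {c₀ C : ℝ} {g : (ℂ → EN N) → ℂ → ℝ}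

/-- the derivative of `F (a z + b)` -/
theorem deriv_aff {F : ℂ → EN N} (hF : Differentiable ℂ F) (a b z : ℂ) :
    deriv (fun z => F (a * z + b)) z = a • deriv F (a * z + b) := by
  have h1 : HasDerivAt (fun z : ℂ => a * z + b) a z := by
    simpa using ((hasDerivAt_id z).const_mul a).add_const b
  exact (HasDerivAt.scomp z (hF (a * z + b)).hasDerivAt h1).deriv

theorem Ent.aff {V : Type} [NormedAddCommGroup V] [NormedSpace ℂ V] {X T : Set V} {F : ℂ → V} (hF : Ent X T F)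
    {a : ℂ} (ha : a ≠ 0) (b : ℂ) : Ent X T (fun z => F (a * z + b)) :=
  ⟨hF.diff.comp ((differentiable_id.const_mul a).add_const b), fun z => hF.mem _, by
    obtain ⟨z, hz⟩ := hF.out
    refine ⟨(z - b) / a, ?_⟩
    rwa [mul_div_cancel₀ _ ha, sub_add_cancel]⟩

theorem Cls.aff {n : PseudoLength X} {F : ℂ → EN N} (hF : Cls T n F) {a : ℂ} (ha : ‖a‖ = 1) (b : ℂ) :
    Cls T n (fun z => F (a * z + b)) := by
  have ha0 : a ≠ 0 := fun h => by
    rw [h, norm_zero] at ha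
    exact zero_ne_one ha
  refine ⟨hF.1.aff ha0 b, fun z => ?_⟩
  rw [deriv_aff hF.1.diff, n.smul _ _ (tan_entire hF.1.diff hF.1.mem _), ha, one_mul]
  exact hF.2 _

theorem norm_mul_fs_le {x v : EN N} (hx : x ≠ 0) (a : ℂ) : ‖x‖ * fs x v ≤ ‖v - a • x‖ := by
  have hn : 0 < ‖x‖ := norm_pos_iff.2 hx
  have h1 : fs x (v - a • x) = fs x v := by
    have h2 := fs_inv hx v (c := 1) one_ne_zero (-a)
    rw [one_smul, one_smul, neg_smul, ← sub_eq_add_neg] at h2
    exact h2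
  rw [← h1]
  unfold fs
  have h3 := wd_le x (v - a • x)
  rw [← mul_div_assoc, div_le_iff₀ (by positivity)]
  nlinarith

/-- the lower bound with the Fubini-Study length -/
theorem Energy.lower_fs (hX : IsCone X) {nu : EN N → ℝ} (E : Energy X T nu rho M c₀ C g) (hρ0 : ∀ x ∈ X, 0 ≤ rho x)
    {F : ℂ → EN N} (hF : Ent X T F) (z : ℂ) : rho (F z) ^ M * fs (F z) (deriv F z) ≤ C * g F z := by
  have hne : F z ≠ 0 := fun h => hX.zero_notMem (h ▸ hF.mem z)
  have hn : 0 < ‖F z‖ := norm_pos_iff.2 hne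
  obtain ⟨a, ha⟩ := E.lower F hF z
  have h1 := mul_le_mul_of_nonneg_left (norm_mul_fs_le (v := deriv F z) hne a)
    (pow_nonneg (hρ0 _ (hF.mem z)) M)
  have h2 : ‖F z‖ * (rho (F z) ^ M * fs (F z) (deriv F z)) ≤ ‖F z‖ * (C * g F z) := by
    calc ‖F z‖ * (rho (F z) ^ M * fs (F z) (deriv F z)) = rho (F z) ^ M * (‖F z‖ * fs (F z) (deriv F z)) := by ring
      _ ≤ C * ‖F z‖ * g F z := h1.trans ha
      _ = ‖F z‖ * (C * g F z) := by ring
  exact le_of_mul_le_mul_left h2 hn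

/-- the metric has large Laplacian where it is small -/
theorem Energy.sub_small (hX : IsCone X) (E : Energy X T (fun x => ‖x‖) rho M c₀ C g) {F : ℂ → EN N} (hF : Ent X T F)
    {c₁ d : ℝ} (hc₁ : 0 < c₁) (h1 : ∀ z, c₁ ≤ fs (F z) (deriv F z)) (hd : C * d ^ 2 ≤ c₀ * c₁ ^ 2 / 4) (z : ℂ)
    (h0 : 0 < g F z) (h2 : g F z < d) : Sub (g F) z (c₀ * c₁ ^ 2 / 4) := by
  have hne : ∀ w, F w ≠ 0 := fun w h => hX.zero_notMem (h ▸ hF.mem w)
  have h3 := (E.sub F hF z h0).mul (Sub.norm_rpow (hF.diff.analyticAt z) (hne z) c₀)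
  have h4 : Sub (g F) z (-(C * g F z ^ 2) + c₀ * fs (F z) (deriv F z) ^ 2 / 2) := by
    refine h3.congr (Eventually.of_forall fun w => ?_)
    have h5 : 0 < ‖F w‖ := norm_pos_iff.2 (hne w)
    show g F w * ‖F w‖ ^ (-c₀) * ‖F w‖ ^ c₀ = g F w
    rw [mul_assoc, ← Real.rpow_add h5, neg_add_cancel, Real.rpow_zero, mul_one]
  refine h4.anti ?_
  have h5 : g F z ^ 2 ≤ d ^ 2 := by nlinarith
  have h6 : c₁ ^ 2 ≤ fs (F z) (deriv F z) ^ 2 := by nlinarith [h1 z]
  nlinarith [mul_le_mul_of_nonneg_left h5 E.C_pos.le, mul_le_mul_of_nonneg_left h6 E.c₀_pos.le]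

/-- the good points are everywhere -/
theorem exists_good (hX : IsCone X) (hch : Charts X) (E : Energy X T (fun x => ‖x‖) rho M c₀ C g) (n : PseudoLength X)
    (hρ0 : ∀ x ∈ X, 0 ≤ rho x) (hρ : ∀ x ∈ X, x ∉ T → 0 < rho x) (hρc : ContinuousOn rho X)
    (hρs : ∀ x ∈ X, ∀ c : ℂ, c ≠ 0 → rho (c • x) = rho x)
    (hTi : ∀ F : ℂ → EN N, Differentiable ℂ F → (∀ z, F z ∈ X) → (∃ z, F z ∉ T) → ∀ z₀, ∀ᶠ z in 𝓝[≠] z₀, F z ∉ T)
    (hTs : ∀ x ∈ T, ∀ c : ℂ, c ≠ 0 → c • x ∈ T)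
    {C₁ : ℝ} (hA : ∀ F, Cls T n F → ∀ z, g F z ≤ C₁) :
    ∃ d R : ℝ, 0 < d ∧ 0 < R ∧ ∀ F, Cls T n F → ∀ z, ∃ y, ‖y - z‖ ≤ R ∧ d ≤ g F y := by
  classical
  obtain ⟨c₁, hc₁, hlow1⟩ := exists_lower hX hch n one_pos
  have hne : ∀ x ∈ X, x ≠ 0 := fun x hx h => hX.zero_notMem (h ▸ hx)
  have hc₀ := E.c₀_pos
  have hC := E.C_pos
  set κ : ℝ := c₀ * c₁ ^ 2 / 4 with hκdef
  have hκ : 0 < κ := by positivity
  set d : ℝ := Real.sqrt (κ / (C + 1)) with hddef
  have hd : 0 < d := Real.sqrt_pos.2 (by positivity)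
  have hd2 : C * d ^ 2 ≤ κ := by
    rw [hddef, Real.sq_sqrt (by positivity), ← mul_div_assoc, div_le_iff₀ (by linarith)]
    nlinarith
  by_contra hcon
  push Not at hcon
  have hcon' : ∀ k : ℕ, ∃ F, Cls T n F ∧ ∃ z, ∀ y, ‖y - z‖ ≤ (k : ℝ) + 1 → g F y < d := by
    intro k
    obtain ⟨F, h1, z, h2⟩ := hcon d ((k : ℝ) + 1) hd (by positivity)
    exact ⟨F, h1, z, h2⟩
  choose F hF z hz using hcon'
  have hA0 : 0 ≤ C₁ := (E.nonneg _ (hF 0).1 0).trans (hA _ (hF 0) 0)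
  have hF1 : ∀ k w, c₁ ≤ fs (F k w) (deriv (F k) w) := fun k =>
    hlow1 _ (hF k).1.diff (hF k).1.mem (hF k).2
  -- the metric is positive somewhere
  have hpos : ∀ k, ∃ p, 0 < g (F k) p := by
    intro k
    obtain ⟨p, hp⟩ := (hF k).1.out
    refine ⟨p, ?_⟩
    have h1 := E.lower_fs hX hρ0 (hF k).1 p
    have h2 : 0 < rho (F k p) ^ M * fs (F k p) (deriv (F k) p) :=
      mul_pos (pow_pos (hρ _ ((hF k).1.mem p) hp) M) (hc₁.trans_le (hF1 k p))
    by_contra h3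
    have h4 : g (F k) p ≤ 0 := not_lt.1 h3
    have h5 : C * g (F k) p ≤ 0 := mul_nonpos_of_nonneg_of_nonpos hC.le h4
    linarith
  have husc : ∀ k, UpperSemicontinuous (g (F k)) := fun k w a ha => E.usc _ (hF k).1 w a ha
  have hsub : ∀ k, ∀ w, 0 < g (F k) w → g (F k) w < d → Sub (g (F k)) w κ := fun k w =>
    E.sub_small hX (hF k).1 hc₁ (hF1 k) hd2 w
  -- the nearest good points
  have hgood : ∀ k, ∃ y, d ≤ g (F k) y ∧ (k : ℝ) + 1 ≤ dist (z k) y ∧
      ∀ w, dist (z k) w < dist (z k) y → g (F k) w < d := by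
    intro k
    have hcl : IsClosed {y | d ≤ g (F k) y} := (husc k).isClosed_preimage d
    obtain ⟨p, hp⟩ := hpos k
    obtain ⟨y₀, hy₀⟩ := exists_ge hκ hA0 (husc k) (hA _ (hF k)) (hsub k) hp
    obtain ⟨y, hy, hyd⟩ := hcl.exists_infDist_eq_dist ⟨y₀, hy₀⟩ (z k)
    refine ⟨y, hy, ?_, fun w hw => ?_⟩
    · by_contra h1
      have h2 := hz k y (by rw [← dist_eq_norm, dist_comm]; exact (not_le.1 h1).le)
      exact absurd hy (not_le.2 h2)
    · by_contra h1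
      have h2 : w ∈ {y | d ≤ g (F k) y} := not_lt.1 h1
      have h3 := infDist_le_dist_of_mem (x := z k) h2
      rw [hyd] at h3
      linarith
  choose y hyd hyr hyl using hgood
  set ρ : ℕ → ℝ := fun k => dist (z k) (y k) with hρdef
  have hρpos : ∀ k, 0 < ρ k := fun k => lt_of_lt_of_le (by positivity) (hyr k)
  set u : ℕ → ℂ := fun k => (z k - y k) / (ρ k : ℂ) with hu
  have hρc' : ∀ k, (ρ k : ℂ) ≠ 0 := fun k => by exact_mod_cast (hρpos k).ne'
  have hun : ∀ k, ‖u k‖ = 1 := by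
    intro k
    rw [hu]
    show ‖(z k - y k) / (ρ k : ℂ)‖ = 1
    rw [norm_div, Complex.norm_real, Real.norm_of_nonneg (hρpos k).le, ← dist_eq_norm]
    exact div_self (hρpos k).ne'
  have hu0 : ∀ k, u k ≠ 0 := fun k h => by
    have := hun k
    rw [h, norm_zero] at this
    exact zero_ne_one this
  set G : ℕ → ℂ → EN N := fun k ζ => F k (u k * ζ + y k) with hG
  have hGC : ∀ k, Cls T n (G k) := fun k => (hF k).aff (hun k) (y k)
  have hgG : ∀ k ζ, g (G k) ζ = g (F k) (u k * ζ + y k) := by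
    intro k ζ
    rw [hG, E.aff _ (hF k).1 _ _ (hu0 k), hun k, one_mul]
  have hG1 : ∀ k ζ, c₁ ≤ fs (G k ζ) (deriv (G k) ζ) := fun k =>
    hlow1 _ (hGC k).1.diff (hGC k).1.mem (hGC k).2
  have hG0 : ∀ k, d ≤ g (G k) 0 := by
    intro k
    rw [hgG, mul_zero, zero_add]
    exact hyd k
  have hGA : ∀ k ζ, g (G k) ζ ≤ C₁ := fun k ζ => hA _ (hGC k) ζ
  have hGs : ∀ k, ∀ w ∈ ball (ρ k : ℂ) (ρ k), g (G k) w < d := by
    intro k w hw
    rw [hgG]
    apply hyl k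
    have h1 : u k * (ρ k : ℂ) = z k - y k := by
      rw [hu]
      exact div_mul_cancel₀ _ (hρc' k)
    have h2 : z k - (u k * w + y k) = -(u k * (w - ρ k)) := by
      rw [mul_sub, h1]
      ring
    rw [dist_eq_norm, h2, norm_neg, norm_mul, hun k, one_mul, ← dist_eq_norm]
    exact hw
  have hbd : ∀ k, ∀ p ∈ closedBall (ρ k : ℂ) (ρ k),
      g (G k) p ≤ C₁ * Real.exp (-(κ / 2) * (ρ k ^ 2 - ‖p - (ρ k : ℂ)‖ ^ 2)) := fun k =>
    decay (hρpos k) hκ hA0 (E.uscOn (hGC k).1 _) (fun w _ => hGA k w)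
      (fun w hw h0 => E.sub_small hX (hGC k).1 hc₁ (hG1 k) hd2 w h0 (hGs k w hw))
  -- the limit
  obtain ⟨H, hHd, hHX, -, hHT, -, hR⟩ := exists_limit hX hTs E (hyperfilter ℕ) Nat.hyperfilter_le_atTop G
    (fun k => (hGC k).1) hd (fun k w _ => hGA k w) hG0
  obtain ⟨v, HR, hv, hHc, hHRd, -, hloc⟩ := hR 1 le_rfl
  -- a point of the half plane where the limit is not in `T`
  have hmem : (1 / 2 : ℂ) ∈ ball (0 : ℂ) ((1 : ℕ) : ℝ) := by
    rw [mem_ball_zero_iff]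
    norm_num
  obtain ⟨j, w, hw, hw0, hwe⟩ := hloc (1 / 2) hmem
  have hball : ball (1 / 2 : ℂ) (1 / 4) ∈ 𝓝 (1 / 2 : ℂ) := ball_mem_nhds _ (by norm_num)
  obtain ⟨p, ⟨⟨⟨hpT, hpe⟩, hpw⟩, hpb⟩, hpne⟩ := ((((hTi H hHd hHX hHT (1 / 2)).and
    (hwe.filter_mono nhdsWithin_le_nhds)).and
    ((hw.continuousAt.eventually_ne hw0).filter_mono nhdsWithin_le_nhds)).and
    (nhdsWithin_le_nhds hball)).and self_mem_nhdsWithin |>.exists
  have hp1 : p ∈ ball (0 : ℂ) ((1 : ℕ) : ℝ) := by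
    rw [mem_ball_zero_iff]
    have h1 : ‖p - 1 / 2‖ < 1 / 4 := by rw [← dist_eq_norm]; exact hpb
    have h2 : ‖p‖ ≤ ‖p - 1 / 2‖ + ‖(1 / 2 : ℂ)‖ := by
      simpa using norm_add_le (p - 1 / 2) (1 / 2 : ℂ)
    have h3 : ‖(1 / 2 : ℂ)‖ = 1 / 2 := by norm_num
    rw [h3] at h2
    push_cast
    linarith
  have hpre : 1 / 4 < p.re := by
    have h1 : ‖p - 1 / 2‖ < 1 / 4 := by rw [← dist_eq_norm]; exact hpb
    have h2 := (Complex.abs_re_le_norm (p - 1 / 2)).trans_lt h1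
    rw [Complex.sub_re] at h2
    norm_num at h2
    have h3 := (abs_lt.1 h2).1
    linarith
  have hcp : (p - 1 / 2) ^ j * w p ≠ 0 := mul_ne_zero (pow_ne_zero _ (sub_ne_zero.2 hpne)) hpw
  have hHRp : HR p = ((p - 1 / 2) ^ j * w p) • H p := by rw [hpe, smul_smul]
  have hHRX : HR p ∈ X := by
    rw [hHRp]
    exact hX.smul_mem _ (hHX p) _ hcp
  have hHRT : HR p ∉ T := by
    intro h
    rw [hHRp] at h
    have h1 := hTs _ h _ (inv_ne_zero hcp)
    rw [smul_smul, inv_mul_cancel₀ hcp, one_smul] at h1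
    exact hpT h1
  set q : ℝ := rho (HR p) with hq
  have hq0 : 0 < q := hρ _ hHRX hHRT
  have hconv : Tendsto (fun k => rho (Complex.exp (v k p) • G k p)) (hyperfilter ℕ : Filter ℕ) (𝓝 q) := by
    have h1 : Tendsto (fun k => Complex.exp (v k p) • G k p) (hyperfilter ℕ : Filter ℕ) (𝓝[X] (HR p)) :=
      tendsto_nhdsWithin_iff.2 ⟨hHc.tendsto_at hp1, Eventually.of_forall fun k =>
        hX.smul_mem _ ((hGC k).1.mem p) _ (Complex.exp_ne_zero _)⟩
    exact (hρc _ hHRX).tendsto.comp h1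
  have hlow : ∀ᶠ k in (hyperfilter ℕ : Filter ℕ), (q / 2) ^ M * c₁ ≤ C * g (G k) p := by
    filter_upwards [hconv.eventually (lt_mem_nhds (by linarith : q / 2 < q))] with k hk
    rw [hρs _ ((hGC k).1.mem p) _ (Complex.exp_ne_zero _)] at hk
    refine le_trans ?_ (E.lower_fs hX hρ0 (hGC k).1 p)
    exact mul_le_mul (pow_le_pow_left₀ (by positivity) hk.le M) (hG1 k p) hc₁.le
      (pow_nonneg (hρ0 _ ((hGC k).1.mem p)) M)
  -- the metric tends to zero at `p`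
  have hup : ∀ k : ℕ, g (G k) p ≤ C₁ * Real.exp (-(κ / 2) * ((k : ℝ) / 2 - 1)) := by
    intro k
    have hnorm : ‖p - (ρ k : ℂ)‖ ^ 2 = ‖p‖ ^ 2 - 2 * ρ k * p.re + ρ k ^ 2 := by
      rw [← Complex.normSq_eq_norm_sq, ← Complex.normSq_eq_norm_sq, Complex.normSq_apply,
        Complex.normSq_apply]
      simp only [Complex.sub_re, Complex.sub_im, Complex.ofReal_re, Complex.ofReal_im, sub_zero]
      ring
    have hp2 : ‖p‖ ^ 2 ≤ 1 := by
      have h1 : ‖p‖ < 1 := by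
        rw [mem_ball_zero_iff] at hp1
        simpa using hp1
      exact pow_le_one₀ (norm_nonneg _) h1.le
    have hρn : (k : ℝ) + 1 ≤ ρ k := hyr k
    have h1 : (k : ℝ) / 2 - 1 ≤ ρ k ^ 2 - ‖p - (ρ k : ℂ)‖ ^ 2 := by
      rw [hnorm]
      nlinarith [hρpos k]
    by_cases hin : p ∈ closedBall (ρ k : ℂ) (ρ k)
    · refine (hbd k p hin).trans (mul_le_mul_of_nonneg_left (Real.exp_le_exp.2 ?_) hA0)
      nlinarith
    · have h2 : ρ k < ‖p - (ρ k : ℂ)‖ := by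
        rw [mem_closedBall, dist_eq_norm] at hin
        exact not_le.1 hin
      have h3 : ρ k ^ 2 < ‖p - (ρ k : ℂ)‖ ^ 2 := by nlinarith [hρpos k]
      refine (hGA k p).trans ?_
      refine le_mul_of_one_le_right hA0 (Real.one_le_exp ?_)
      nlinarith
  have hlim0 : Tendsto (fun k : ℕ => C * (C₁ * Real.exp (-(κ / 2) * ((k : ℝ) / 2 - 1)))) atTop
      (𝓝 (C * (C₁ * 0))) := by
    refine Tendsto.const_mul C (Tendsto.const_mul C₁ (Real.tendsto_exp_atBot.comp ?_))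
    have h4 : Tendsto (fun k : ℕ => (k : ℝ) / 2 - 1) atTop atTop :=
      tendsto_atTop_add_const_right _ _
        ((tendsto_natCast_atTop_atTop (R := ℝ)).atTop_div_const two_pos)
    exact h4.const_mul_atTop_of_neg (by linarith)
  rw [mul_zero, mul_zero] at hlim0
  have hlim1 : Tendsto (fun k : ℕ => C * (C₁ * Real.exp (-(κ / 2) * ((k : ℝ) / 2 - 1))))
      (hyperfilter ℕ : Filter ℕ) (𝓝 0) := hlim0.mono_left Nat.hyperfilter_le_atTop
  have hfin : (q / 2) ^ M * c₁ ≤ 0 := by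
    refine ge_of_tendsto hlim1 ?_
    filter_upwards [hlow] with k hk
    exact hk.trans (mul_le_mul_of_nonneg_left (hup k) hC.le)
  have : 0 < (q / 2) ^ M * c₁ := by positivity
  linarith

end Pool.Agent.SY
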