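import Pool.Agent.SY.Defs
import Pool.Agent.H36.BP.OrdDefs
import Pool.Agent.H14.V.FourW

/-!
# SY Plug: the interface of step (b)

`StepB X T n`: the derivative of the curves of length one is bounded near the good points.
`NoBubbles X T n`: where a sequence of curves of length one converges off a point, it converges at the point (`m = 0`).
The theorem `stepB_of_noBubbles` (module `Joint`) deduces `StepB X T n` from `NoBubbles X T₀ n`, `T₀ ⊆ T`.
`StepBAll P`, `NoBubblesAll P`: the same for every pseudo-length whose null curves of order two lie in a curve.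
-/

set_option autoImplicit false

open Topology Filter Metric MvPolynomial

namespace Pool.Agent.SY

open Pool.Agent.H36.BP (EN fs wd Sub OrdTwo)
open Pool.Agent.H22.W (PseudoLength)
open Pool.Agent.H17 (PN VanishesAt HolomorphicInto)
open Pool.Agent.H13.OT (OrderTwo)
open Pool.Agent.H17EF (projVar coneE)
open Pool.Agent.H14.V (IsNull)

variable {N : ℕ}

/-- Step (b): the derivative is bounded near the good points. -/
def StepB (X T : Set (EN N)) (n : PseudoLength X) : Prop :=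
  ∀ (rho : EN N → ℝ) (M : ℕ) (c₀ C : ℝ) (g : (ℂ → EN N) → ℂ → ℝ), Energy X T (fun x => ‖x‖) rho M c₀ C g →
    ∀ C₁ : ℝ, (∀ F, Cls T n F → ∀ z, g F z ≤ C₁) → ∀ d : ℝ, 0 < d → ∀ R : ℝ,
      ∃ L : ℝ, ∀ F, Cls T n F → d ≤ g F 0 → ∀ z ∈ ball (0 : ℂ) R, fs (F z) (deriv F z) ≤ L

/-- A limit of curves of length one at the point `0`: `exp (v k) • F k` converges near `0` to `z ^ m • (u z • H z)`, `u` without zeros,
`H` again a curve of length one, not contained in `T`.  `m` is the degree of the bubble. -/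
structure BubbleAt (X T : Set (EN N)) (n : PseudoLength X) (𝒰 : Ultrafilter ℕ) (F : ℕ → ℂ → EN N) (v : ℕ → ℂ → ℂ) (H : ℂ → EN N)
    (u : ℂ → ℂ) (r : ℝ) (m : ℕ) : Prop where
  le_atTop : (𝒰 : Filter ℕ) ≤ atTop
  r_pos : 0 < r
  cls : ∀ k, Cls T n (F k)
  diff_v : ∀ k, Differentiable ℂ (v k)
  cls_H : Cls T n H
  ord_H : OrdTwo H
  diff_u : DifferentiableOn ℂ u (ball 0 r)
  u_ne : ∀ z ∈ ball (0 : ℂ) r, u z ≠ 0
  lim : TendstoLocallyUniformlyOn (fun k z => Complex.exp (v k z) • F k z) (fun z => z ^ m • (u z • H z)) 𝒰 (ball 0 r)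

/-- There are no bubbles. -/
def NoBubbles (X T : Set (EN N)) (n : PseudoLength X) : Prop :=
  ∀ (𝒰 : Ultrafilter ℕ) (F : ℕ → ℂ → EN N) (v : ℕ → ℂ → ℂ) (H : ℂ → EN N) (u : ℂ → ℂ) (r : ℝ) (m : ℕ),
    BubbleAt X T n 𝒰 F v H u r m → m = 0

theorem NoBubbles.mono {X T₀ T : Set (EN N)} {n : PseudoLength X} (h : NoBubbles X T₀ n) (hT : T₀ ⊆ T) : NoBubbles X T n := by
  intro 𝒰 F v H u r m hb
  have e : ∀ G : ℂ → EN N, Cls T n G → Cls T₀ n G := by
    rintro G ⟨⟨h1, h2, z, h3⟩, h4⟩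
    exact ⟨⟨h1, h2, z, fun h => h3 (hT h)⟩, h4⟩
  exact h 𝒰 F v H u r m ⟨hb.le_atTop, hb.r_pos, fun k => e _ (hb.cls k), hb.diff_v, e _ hb.cls_H, hb.ord_H, hb.diff_u, hb.u_ne, hb.lim⟩

/-- The null curves of order two of `n` lie in `{R = 0}`. -/
def NullIn (P : Ideal (MvPolynomial (Fin (N + 1)) ℂ)) (n : PseudoLength (coneE P)) (R : MvPolynomial (Fin (N + 1)) ℂ) : Prop :=
  ∀ f : ℂ → PN N, HolomorphicInto f Set.univ → OrderTwo f → (∀ z, f z ∈ projVar P) → (∃ z w, f z ≠ f w) → IsNull n f → ∀ z, VanishesAt R (f z)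

/-- the cone of the curve `{Q = 0}` -/
def zer (P : Ideal (MvPolynomial (Fin (N + 1)) ℂ)) (Q : MvPolynomial (Fin (N + 1)) ℂ) : Set (EN N) :=
  {x | x ∈ coneE P ∧ eval x.ofLp Q = 0}

/-- Step (b) for every pseudo-length whose null curves of order two lie in a curve. -/
def StepBAll (P : Ideal (MvPolynomial (Fin (N + 1)) ℂ)) : Prop :=
  ∀ (n : PseudoLength (coneE P)) (R : MvPolynomial (Fin (N + 1)) ℂ) (d : ℕ), R.IsHomogeneous d → R ∉ P → NullIn P n R →
    ∃ (R₀ : MvPolynomial (Fin (N + 1)) ℂ) (d₀ : ℕ), R₀.IsHomogeneous d₀ ∧ R₀ ∉ P ∧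
      ∀ (Q : MvPolynomial (Fin (N + 1)) ℂ) (D : ℕ), Q.IsHomogeneous D → Q ∉ P → zer P R₀ ⊆ zer P Q → StepB (coneE P) (zer P Q) n

/-- No bubbles for every pseudo-length whose null curves of order two lie in a curve: THE TARGET OF THE EXTENSION. -/
def NoBubblesAll (P : Ideal (MvPolynomial (Fin (N + 1)) ℂ)) : Prop :=
  ∀ (n : PseudoLength (coneE P)) (R : MvPolynomial (Fin (N + 1)) ℂ) (d : ℕ), R.IsHomogeneous d → R ∉ P → NullIn P n R →
    ∃ (R₀ : MvPolynomial (Fin (N + 1)) ℂ) (d₀ : ℕ), R₀.IsHomogeneous d₀ ∧ R₀ ∉ P ∧ NoBubbles (coneE P) (zer P R₀) n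

end Pool.Agent.SY
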