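import Pool.Agent.SY.EiP
import Pool.Agent.SY.DG
import Pool.Agent.H14.V.MainV
import Pool.Agent.H22.WL.Proj

/-!
# SY F1G: the curves of order two lie in a proper closed subset, from step (b)
-/

set_option autoImplicit false

open Topology Filter Metric MvPolynomial

noncomputable section

namespace Pool.Agent.SY

open Pool.Agent.H36.BP (EN fs wd Sub OrdTwo isCone_transport)
open Pool.Agent.H14.PP (IsCone)
open Pool.Agent.H22.W (PseudoLength tan_entire)
open Pool.Agent.H17 (PN VanishesAt HolomorphicInto ZariskiClosedIn puncturedDisc)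
open Pool.Agent.H17BP (Surface)
open Pool.Agent.H62.FC (Homog)
open Pool.Agent.H62.EF (Charts)
open Pool.Agent.H17LG.Variety (FunField)
open Pool.Agent.H13.SM (conTan cone)
open Pool.Agent.H13.OT (OrderTwo)
open Pool.Agent.H17EF (projVar coneE GT LE zariskiClosure)
open Pool.Agent.H14.V (IsNull IsLift isLift_mk average_toLp partA)
open Pool.Agent.H22.WL (evF evF_diff evF_smul vanishesAt_lift)
open Pool.Agent.H5.BD (BC)

variable {N : ℕ} {P : Ideal (MvPolynomial (Fin (N + 1)) ℂ)}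

/-- from the characteristic function to the averages -/
private theorem orderTwo_of_ordTwo {F : ℂ → EN N} {f : ℂ → PN N} (h : IsLift F f) (hF : OrdTwo F) : OrderTwo f := by
  have h1 : OrdTwo fun z => (LE N).symm (F z) := Pool.Agent.H17EF.ordTwo_symm hF
  have h2 : Differentiable ℂ fun z => (LE N).symm (F z) := (LE N).symm.differentiable.comp h.1
  have h3 : ∀ z, (LE N).symm (F z) ≠ 0 := fun z => (h.2 z).1
  have h4 : ∀ z, Pool.Agent.H17BP.HolP (fun z => (LE N).symm (F z)) z := by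
    intro z
    exact ⟨fun z => (LE N).symm (F z), h2.analyticAt z, h3 z, Eventually.of_forall fun w => ⟨1, one_ne_zero, by simp⟩⟩
  have h5 := Pool.Agent.H13.OT.OrdTwo.orderTwo h3 h4 h1
  have h6 : f = fun z => Projectivization.mk ℂ ((LE N).symm (F z)) (h3 z) := by
    funext z
    exact (h.2 z).2
  rw [h6]
  exact h5

private theorem vanishesAt_mul_left {Q R : MvPolynomial (Fin (N + 1)) ℂ} {x : PN N} (h : VanishesAt Q x) : VanishesAt (Q * R) x := by
  unfold VanishesAt at h ⊢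
  rw [map_mul, h, zero_mul]

private theorem vanishesAt_mul_right {Q R : MvPolynomial (Fin (N + 1)) ℂ} {x : PN N} (h : VanishesAt R x) : VanishesAt (Q * R) x := by
  unfold VanishesAt at h ⊢
  rw [map_mul, h, mul_zero]

/-- **F1**: the curves of order two lie in a proper closed subset -/
theorem orderTwo_degenerate_of [P.IsPrime] {z : Fin 2 → FunField P} (hP : Homog P) (hz : IsTranscendenceBasis ℂ z)
    (hsm : ∀ y : Fin (N + 1) → ℂ, y ≠ 0 → (∀ Q ∈ P, eval y Q = 0) → Module.finrank ℂ (conTan P y) ≤ 3) (hgt : GT P 2)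
    (hb : StepBAll P) (n : PseudoLength (coneE P)) {R : MvPolynomial (Fin (N + 1)) ℂ} {d : ℕ} (hR : R.IsHomogeneous d) (hRP : R ∉ P)
    (hnull : ∀ f : ℂ → PN N, HolomorphicInto f Set.univ → OrderTwo f → (∀ z, f z ∈ projVar P) → (∃ z w, f z ≠ f w) → IsNull n f →
      ∀ z, VanishesAt R (f z)) :
    ∃ Ξ : Set (PN N), ZariskiClosedIn (projVar P) Ξ ∧ Ξ ≠ projVar P ∧
      ∀ f : ℂ → PN N, HolomorphicInto f Set.univ → OrderTwo f → (∀ z, f z ∈ projVar P) → (∃ z w, f z ≠ f w) → ∀ z, f z ∈ Ξ := by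
  have hS : Surface (cone P) := Pool.Agent.H13.SM.surface_cone hP hz fun y hy => hsm y hy.1 hy.2
  have hX : IsCone (coneE P) := isCone_transport (LE N) hS
  have hch : Charts (coneE P) := Pool.Agent.H17EF.charts hS
  obtain ⟨R₀, d₀, hR₀, hR₀P, hstep⟩ := hb n R d hR hRP hnull
  obtain ⟨Q, D, M, c₀, C, g, hQ, hQP, hRQ', hM, E⟩ := energy_surface hP hz hsm hgt (hR.mul hR₀)
    (fun h => ((inferInstance : P.IsPrime).mem_or_mem h).elim hRP hR₀P)
  have hRQ : ∀ x : EN N, eval x.ofLp R = 0 → eval x.ofLp Q = 0 := fun x hx => hRQ' x (by rw [map_mul, hx, zero_mul])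
  have hst : StepB (coneE P) (zer P Q) n :=
    hstep Q D hQ hQP fun x hx => ⟨hx.1, hRQ' x (by rw [map_mul, hx.2, mul_zero])⟩
  obtain ⟨T, hT⟩ : ∃ T : Set (EN N), T = {x | x ∈ coneE P ∧ eval x.ofLp Q = 0} := ⟨_, rfl⟩
  rw [← hT] at E
  unfold zer at hst
  rw [← hT] at hst
  have hxne : ∀ x ∈ coneE P, ‖x‖ ≠ 0 := fun x hx => norm_ne_zero_iff.2 fun h => hX.zero_notMem (h ▸ hx)
  have hTs : ∀ x ∈ T, ∀ c : ℂ, c ≠ 0 → c • x ∈ T := by
    intro x hx c hc
    rw [hT] at hx ⊢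
    refine ⟨hX.smul_mem x hx.1 c hc, ?_⟩
    have h1 := evF_smul hQ c x
    unfold evF at h1
    rw [h1, hx.2, mul_zero]
  have hρ0 : ∀ x ∈ coneE P, 0 ≤ ‖eval x.ofLp Q‖ / ‖x‖ ^ D := fun x _ => by positivity
  have hρ : ∀ x ∈ coneE P, x ∉ T → 0 < ‖eval x.ofLp Q‖ / ‖x‖ ^ D := by
    intro x hx hxT
    have h1 : eval x.ofLp Q ≠ 0 := fun h => hxT (by rw [hT]; exact ⟨hx, h⟩)
    have h2 : 0 < ‖x‖ := lt_of_le_of_ne (norm_nonneg _) (Ne.symm (hxne x hx))
    have h3 : 0 < ‖eval x.ofLp Q‖ := norm_pos_iff.2 h1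
    positivity
  have hρc : ContinuousOn (fun x : EN N => ‖eval x.ofLp Q‖ / ‖x‖ ^ D) (coneE P) := by
    refine ContinuousOn.div ?_ (continuous_norm.pow D).continuousOn fun x hx => pow_ne_zero _ (hxne x hx)
    exact (evF_diff Q).continuous.norm.continuousOn
  have hρs : ∀ x ∈ coneE P, ∀ c : ℂ, c ≠ 0 → ‖eval (c • x).ofLp Q‖ / ‖c • x‖ ^ D = ‖eval x.ofLp Q‖ / ‖x‖ ^ D := by
    intro x _ c hc
    have h1 := evF_smul hQ c x
    unfold evF at h1
    rw [h1, norm_mul, norm_pow, norm_smul, mul_pow]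
    exact mul_div_mul_left _ _ (pow_ne_zero _ (norm_ne_zero_iff.2 hc))
  have hTi : ∀ F : ℂ → EN N, Differentiable ℂ F → (∀ z, F z ∈ coneE P) → (∃ z, F z ∉ T) → ∀ z₀, ∀ᶠ z in 𝓝[≠] z₀, F z ∉ T := by
    intro F hF hFX hne z₀
    have h1 : Differentiable ℂ fun z => evF Q (F z) := (evF_diff Q).comp hF
    have h2 : AnalyticAt ℂ (fun z => evF Q (F z)) z₀ := h1.analyticAt z₀
    rcases h2.eventually_eq_zero_or_eventually_ne_zero with h3 | h3
    · exfalso
      have h4 : AnalyticOnNhd ℂ (fun z => evF Q (F z)) Set.univ := fun z _ => h1.analyticAt z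
      have h5 := h4.eqOn_zero_of_preconnected_of_eventuallyEq_zero isPreconnected_univ (Set.mem_univ z₀) h3
      obtain ⟨z, hz⟩ := hne
      apply hz
      rw [hT]
      exact ⟨hFX z, h5 (Set.mem_univ z)⟩
    · filter_upwards [h3] with z hz hzT
      rw [hT] at hzT
      exact hz hzT.2
  have hnull' : ∀ F : ℂ → EN N, Differentiable ℂ F → (∀ z, F z ∈ coneE P) → OrdTwo F → (∀ z, n.toFun (F z) (deriv F z) = 0) →
      (∀ z, F z ∈ T) ∨ ∀ z w, ∃ c : ℂ, F z = c • F w := by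
    intro F hF hFX hFo hF0
    have h0 : ∀ z, (F z).ofLp ≠ 0 := fun z => (hFX z).1
    have hl := isLift_mk hF h0
    by_cases hcon : ∃ z w, (fun z => Projectivization.mk ℂ (F z).ofLp (h0 z)) z ≠ (fun z => Projectivization.mk ℂ (F z).ofLp (h0 z)) w
    · left
      intro z
      have h1 := hnull _ hl.holomorphicInto (orderTwo_of_ordTwo hl hFo) (fun z => (hl.mem_iff hP z).2 (hFX z)) hcon ⟨F, hl, hF0⟩ z
      rw [vanishesAt_lift hl hR] at h1
      rw [hT]
      exact ⟨hFX z, hRQ _ h1⟩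
    · right
      push Not at hcon
      intro z w
      have h1 := hcon z w
      simp only at h1
      rw [Projectivization.mk_eq_mk_iff'] at h1
      obtain ⟨a, ha⟩ := h1
      exact ⟨a, WithLp.ofLp_injective 2 ha.symm⟩
  obtain ⟨c, L, hc, hBC⟩ := bounded_distortion_of (rho := fun x : EN N => ‖eval x.ofLp Q‖ / ‖x‖ ^ D) hX hch E n hst hρ0 hρ hρc hρs hTi hTs hnull'
  obtain ⟨hA1, S, hSf, hSb, hSe⟩ := partA hP hz hsm hgt hc L
  have hSX : ∀ g ∈ S, ∀ z, g z ∈ projVar P := fun g hg => (hSb hg).1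
  refine ⟨{x | x ∈ projVar P ∧ ∀ A ∈ ({Q} : Set (MvPolynomial (Fin (N + 1)) ℂ)), VanishesAt A x} ∪ ⋃ g ∈ S, zariskiClosure g, ?_, ?_, ?_⟩
  · refine Pool.Agent.H17EF.closed_union ⟨{Q}, ?_, rfl⟩
      (Pool.Agent.H17EF.closed_biUnion hSf fun g hg => Pool.Agent.H17EF.closed_zariskiClosure (hSX g hg))
    rintro A hA
    rw [Set.mem_singleton_iff.1 hA]
    exact ⟨D, hQ⟩
  · intro heq
    have hXi : ∃ i, (X i : MvPolynomial (Fin (N + 1)) ℂ) ∉ P := Pool.Agent.H62.FC.exists_X_notMem (r := 2) (by norm_num) ⟨z, hz⟩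
    obtain ⟨A, m, hA, hAP, hAU⟩ := Pool.Agent.H17EF.exists_prod (P := P) hSf (A := fun f => zariskiClosure f) (by
      intro f hf
      obtain ⟨B, k, hB, hBP, hBf⟩ := (hA1 f (hSb hf)).2
      exact ⟨B, k, hB, hBP, fun x hx => hx B k hB hBf⟩)
    obtain ⟨x, hx, hxA⟩ := Pool.Agent.H17EF.exists_point hP hXi (Q := Q * A)
      (fun h => ((inferInstance : P.IsPrime).mem_or_mem h).elim hQP hAP) (hQ.mul hA)
    apply hxA
    rw [← heq] at hx
    rcases hx with hx | hx
    · exact vanishesAt_mul_left (hx.2 Q rfl)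
    · exact vanishesAt_mul_right (hAU x hx)
  · intro f hf hfo hfX hfn
    obtain ⟨F₀, A, hF₀, hFf, hA⟩ := id hfo
    obtain ⟨A', hA'⟩ := average_toLp hF₀ (fun z => (hFf z).1) hA
    obtain ⟨F, hFdef⟩ : ∃ F : ℂ → EN N, F = fun z => WithLp.toLp 2 (F₀ z) := ⟨_, rfl⟩
    have hl : IsLift F f := by
      rw [hFdef]
      refine ⟨?_, fun z => hFf z⟩
      exact (LE N).differentiable.comp hF₀
    have hFX : ∀ z, F z ∈ coneE P := fun z => (hl.mem_iff hP z).1 (hfX z)
    obtain ⟨b, hb⟩ : ∃ b : ℝ, b = n.toFun (F 0) (deriv F 0) := ⟨_, rfl⟩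
    have hconst : ∀ z, n.toFun (F z) (deriv F z) = b := fun z => by
      rw [hb]
      refine Pool.Agent.H22.W.const_length hX hch n hl.1 hFX (A := A') ?_ z 0
      rw [hFdef]
      exact hA'
    have hb0 : 0 ≤ b := by
      rw [hb]
      exact n.nonneg _ _ (tan_entire hl.1 hFX 0)
    rcases hb0.eq_or_lt with h0 | hpos
    · intro y
      left
      refine ⟨hfX y, fun B hB => ?_⟩
      rw [Set.mem_singleton_iff.1 hB]
      have h1 := hnull f hf hfo hfX hfn ⟨F, hl, fun z => by rw [hconst z, h0]⟩ y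
      rw [vanishesAt_lift hl hR] at h1
      rw [vanishesAt_lift hl hQ]
      exact hRQ _ h1
    · by_cases hFT : ∀ y, F y ∈ T
      · intro y
        left
        refine ⟨hfX y, fun B hB => ?_⟩
        rw [Set.mem_singleton_iff.1 hB, vanishesAt_lift hl hQ]
        have := hFT y
        rw [hT] at this
        exact this.2
      · push Not at hFT
        obtain ⟨y₀, hy₀⟩ := hFT
        have hbc : ((b : ℝ) : ℂ) ≠ 0 := by exact_mod_cast hpos.ne'
        have hd' : Differentiable ℂ fun z => F (0 + ((b⁻¹ : ℝ) : ℂ) * z) :=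
          hl.1.comp ((differentiable_id.const_mul _).const_add 0)
        have hcls : Cls T n fun z => F (0 + ((b⁻¹ : ℝ) : ℂ) * z) := by
          refine ⟨⟨hd', fun z => hFX _, ⟨(b : ℂ) * y₀, ?_⟩⟩, fun z => ?_⟩
          · have : (0 : ℂ) + ((b⁻¹ : ℝ) : ℂ) * ((b : ℂ) * y₀) = y₀ := by
              push_cast
              field_simp
              ring
            rw [this]
            exact hy₀
          · rw [n.comp_affine hl.1 hFX _ 0 z, hconst, Complex.norm_real, Real.norm_of_nonneg (inv_pos.2 hpos).le,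
              inv_mul_cancel₀ hpos.ne']
        have hmem := hBC _ hcls
        have hl' : IsLift (fun z => F (0 + ((b⁻¹ : ℝ) : ℂ) * z)) fun z => f (0 + ((b⁻¹ : ℝ) : ℂ) * z) :=
          ⟨hd', fun z => hl.2 _⟩
        obtain ⟨g', hg', a', b', ha', hfg⟩ := hSe (fun z => f (0 + ((b⁻¹ : ℝ) : ℂ) * z)) ⟨fun z => hfX _, _, hl', hmem.2.2⟩
        intro y
        right
        refine Set.mem_biUnion hg' ?_
        have h1 := hfg ((b : ℂ) * y)
        have h2 : (0 : ℂ) + ((b⁻¹ : ℝ) : ℂ) * ((b : ℂ) * y) = y := by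
          push_cast
          field_simp
          ring
        rw [h2] at h1
        rw [h1]
        intro B k hB hBg
        exact hBg _

end Pool.Agent.SY
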