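import Pool.Agent.SY.EiL

/-!
# SY EiD: the metric of the blow-up on the curves downstairs

The value does not depend on the lift; it is compatible with affine changes of the parameter and with units.
-/

set_option autoImplicit false

open Topology Filter Metric

noncomputable section

namespace Pool.Agent.SY

open Pool.Agent.H36.BP (EN)
open Pool.Agent.H17BP (Surface)
open Pool.Agent.H62.BU (blow total Ker phi)

variable {V : Type} [NormedAddCommGroup V] [NormedSpace ℂ V] {ι : Type} [Fintype ι] {l : ι → V →L[ℂ] ℂ} {X T : Set V} {q : V}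

theorem down_eq {N' : ℕ} {L' : (ι → V) ≃L[ℂ] EN N'} {rho : (ι → V) → ℝ} {M : ℕ} {c₀ C : ℝ} {g : (ℂ → ι → V) → ℂ → ℝ}
    (hX : Surface X) (hl : Ker l q) (hTX : T ⊆ X) (hT : ∀ x ∈ T, ∀ c : ℂ, c ≠ 0 → c • x ∈ T) (hq : q ∈ T)
    (E : Energy (blow l X) (total l X T) (fun y => ‖L' y‖) rho M c₀ C g) {F : ℂ → V} (hF : Ent X T F) {Φ : ℂ → ι → V}
    (h1 : IsLiftB l X T F Φ) : down l X T g F = g Φ := by
  have hex : ∃ Φ, IsLiftB l X T F Φ := ⟨Φ, h1⟩
  have h2 : down l X T g F = g hex.choose := by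
    unfold down
    rw [dif_pos hex]
  obtain ⟨u, hu, hu0, huΦ⟩ := liftB_unique hX hl hTX hT hq hF hex.choose_spec h1
  rw [h2, show hex.choose = fun z => u z • Φ z from funext huΦ]
  exact funext fun z => E.unit Φ h1.1 u hu hu0 z

private lemma eid_aff_ent {W : Type} [NormedAddCommGroup W] [NormedSpace ℂ W] {X T : Set W} {F : ℂ → W} (hF : Ent X T F) {a b : ℂ}
    (ha : a ≠ 0) : Ent X T (fun w => F (a * w + b)) := by
  refine ⟨hF.diff.comp ((differentiable_id.const_mul a).add_const b), fun z => hF.mem _, ?_⟩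
  obtain ⟨z, hz⟩ := hF.out
  refine ⟨(z - b) / a, ?_⟩
  rwa [mul_div_cancel₀ _ ha, sub_add_cancel]

theorem down_aff {N' : ℕ} {L' : (ι → V) ≃L[ℂ] EN N'} {rho : (ι → V) → ℝ} {M : ℕ} {c₀ C : ℝ} {g : (ℂ → ι → V) → ℂ → ℝ}
    (hX : Surface X) (hl : Ker l q) (hTX : T ⊆ X) (hT : ∀ x ∈ T, ∀ c : ℂ, c ≠ 0 → c • x ∈ T) (hq : q ∈ T)
    (E : Energy (blow l X) (total l X T) (fun y => ‖L' y‖) rho M c₀ C g) {F : ℂ → V} (hF : Ent X T F) {a b : ℂ} (ha : a ≠ 0) (z : ℂ) :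
    down l X T g (fun w => F (a * w + b)) z = ‖a‖ * down l X T g F (a * z + b) := by
  obtain ⟨Φ, hΦ, h, hh, hhΦ⟩ := exists_liftB hX hl hTX hT hq hF
  have h2 : IsLiftB l X T (fun w => F (a * w + b)) (fun w => Φ (a * w + b)) :=
    ⟨eid_aff_ent hΦ ha, fun w => h (a * w + b), hh.comp ((differentiable_id.const_mul a).add_const b), fun w => hhΦ _⟩
  rw [down_eq hX hl hTX hT hq E (eid_aff_ent hF ha) h2, down_eq hX hl hTX hT hq E hF ⟨hΦ, h, hh, hhΦ⟩]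
  exact E.aff Φ hΦ a b ha z

theorem down_unit {N' : ℕ} {L' : (ι → V) ≃L[ℂ] EN N'} {rho : (ι → V) → ℝ} {M : ℕ} {c₀ C : ℝ} {g : (ℂ → ι → V) → ℂ → ℝ}
    (hX : Surface X) (hl : Ker l q) (hTX : T ⊆ X) (hT : ∀ x ∈ T, ∀ c : ℂ, c ≠ 0 → c • x ∈ T) (hq : q ∈ T)
    (E : Energy (blow l X) (total l X T) (fun y => ‖L' y‖) rho M c₀ C g) {F : ℂ → V} (hF : Ent X T F) {h : ℂ → ℂ}
    (hh : Differentiable ℂ h) (h0 : ∀ z, h z ≠ 0) (z : ℂ) :
    down l X T g (fun w => h w • F w) z = down l X T g F z := by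
  obtain ⟨Φ, hΦ, k, hk, hkΦ⟩ := exists_liftB hX hl hTX hT hq hF
  have h1 : Ent X T (fun w => h w • F w) := by
    refine ⟨fun w => (hh w).smul (hF.diff w), fun w => hX.smul _ (hF.mem w) _ (h0 w), ?_⟩
    obtain ⟨w, hw⟩ := hF.out
    refine ⟨w, fun hc => hw ?_⟩
    have h3 := hT _ hc (h w)⁻¹ (inv_ne_zero (h0 w))
    rwa [smul_smul, inv_mul_cancel₀ (h0 w), one_smul] at h3
  have h2 : IsLiftB l X T (fun w => h w • F w) Φ := by
    refine ⟨hΦ, fun w => h w ^ 2 * k w, fun w => ((hh w).pow 2).mul (hk w), fun w => ?_⟩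
    rw [mul_smul, ← hkΦ w]
    funext b
    simp only [phi, Pi.smul_apply, map_smul, smul_eq_mul, smul_smul]
    congr 1
    ring
  rw [down_eq hX hl hTX hT hq E h1 h2, down_eq hX hl hTX hT hq E hF ⟨hΦ, k, hk, hkΦ⟩]

end Pool.Agent.SY
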