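import Pool.Agent.SY.EiL1

/-!
# SY EiL: uniqueness of the lift of an entire curve to the blow-up

Two lifts are proportional off a discrete set, hence everywhere; the factor is locally a quotient of two holomorphic functions.
-/

set_option autoImplicit false

open Topology Filter Metric

noncomputable section

namespace Pool.Agent.SY

open Pool.Agent.H17BP (Surface)
open Pool.Agent.H62.BU (blow total Ker phi)

/-- Two nowhere vanishing entire curves which are proportional off a discrete set differ by a nowhere vanishing entire factor. -/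
private lemma eilu_factor {W : Type} [NormedAddCommGroup W] [NormedSpace ℂ W] {Φ Ψ : ℂ → W} (hΦ : Differentiable ℂ Φ)
    (hΨ : Differentiable ℂ Ψ) (hΦ0 : ∀ z, Φ z ≠ 0) (hΨ0 : ∀ z, Ψ z ≠ 0) (h : ∀ z, ∃ᶠ y in 𝓝[≠] z, ∃ c : ℂ, Φ y = c • Ψ y) :
    ∃ u : ℂ → ℂ, Differentiable ℂ u ∧ (∀ z, u z ≠ 0) ∧ ∀ z, Φ z = u z • Ψ z := by
  have hex : ∀ z, ∃ c : ℂ, Φ z = c • Ψ z := by
    intro z
    obtain ⟨L, -, hL⟩ := exists_dual_vector ℂ (Ψ z) (norm_ne_zero_iff.mpr (hΨ0 z))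
    have hL0 : L (Ψ z) ≠ 0 := by
      rw [hL]
      exact Complex.ofReal_ne_zero.mpr (norm_ne_zero_iff.mpr (hΨ0 z))
    have hkey : L (Ψ z) • Φ z = L (Φ z) • Ψ z := by
      by_contra hne
      have hc : ContinuousAt (fun y => L (Ψ y) • Φ y - L (Φ y) • Ψ y) z :=
        ((L.continuous.continuousAt.comp (hΨ z).continuousAt).smul (hΦ z).continuousAt).sub
          ((L.continuous.continuousAt.comp (hΦ z).continuousAt).smul (hΨ z).continuousAt)
      have h1 : ∀ᶠ y in 𝓝[≠] z, L (Ψ y) • Φ y - L (Φ y) • Ψ y ≠ 0 :=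
        (hc.eventually_ne (sub_ne_zero.mpr hne)).filter_mono nhdsWithin_le_nhds
      obtain ⟨y, ⟨c, hy⟩, hy2⟩ := ((h z).and_eventually h1).exists
      apply hy2
      rw [hy, map_smul, smul_smul, smul_eq_mul, mul_comm c, sub_self]
    refine ⟨L (Φ z) / L (Ψ z), ?_⟩
    rw [div_eq_inv_mul, mul_smul, ← hkey, smul_smul, inv_mul_cancel₀ hL0, one_smul]
  choose u hu using hex
  refine ⟨u, fun z => ?_, fun z h0 => hΦ0 z (by rw [hu z, h0, zero_smul]), hu⟩
  obtain ⟨L, -, hL⟩ := exists_dual_vector ℂ (Ψ z) (norm_ne_zero_iff.mpr (hΨ0 z))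
  have hL0 : L (Ψ z) ≠ 0 := by
    rw [hL]
    exact Complex.ofReal_ne_zero.mpr (norm_ne_zero_iff.mpr (hΨ0 z))
  have hd1 : DifferentiableAt ℂ (fun y => L (Φ y)) z := L.differentiableAt.comp z (hΦ z)
  have hd2 : DifferentiableAt ℂ (fun y => L (Ψ y)) z := L.differentiableAt.comp z (hΨ z)
  refine (hd1.div hd2 hL0).congr_of_eventuallyEq ?_
  filter_upwards [hd2.continuousAt.eventually_ne hL0] with y hy
  change u y = L (Φ y) / L (Ψ y)
  rw [hu y, map_smul, smul_eq_mul, mul_div_cancel_right₀ _ hy]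

variable {V : Type} [NormedAddCommGroup V] [NormedSpace ℂ V] {ι : Type} [Fintype ι] {l : ι → V →L[ℂ] ℂ} {X T : Set V} {q : V}

theorem liftB_unique (hX : Surface X) (hl : Ker l q) (hTX : T ⊆ X) (hT : ∀ x ∈ T, ∀ c : ℂ, c ≠ 0 → c • x ∈ T) (hq : q ∈ T) {F : ℂ → V}
    (hF : Ent X T F) {Φ Ψ : ℂ → ι → V} (h1 : IsLiftB l X T F Φ) (h2 : IsLiftB l X T F Ψ) :
    ∃ u : ℂ → ℂ, Differentiable ℂ u ∧ (∀ z, u z ≠ 0) ∧ ∀ z, Φ z = u z • Ψ z := by
  have hF0 : ∀ z, F z ≠ 0 := fun z h => hX.zero (h ▸ hF.mem z)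
  obtain ⟨hΦ, h, hh, hhΦ⟩ := h1
  obtain ⟨hΨ, k, hk, hkΨ⟩ := h2
  obtain ⟨z₀, hz₀⟩ := hF.out
  -- some coordinate of `phi l (F z)` does not vanish identically
  obtain ⟨b, hb⟩ : ∃ b, l b (F z₀) ≠ 0 := by
    by_contra hcon
    push Not at hcon
    obtain ⟨c, hc⟩ := (hl (F z₀)).mp hcon
    have hc0 : c ≠ 0 := by
      rintro rfl
      exact hF0 z₀ (by rw [hc, zero_smul])
    exact hz₀ (hc ▸ hT q hq c hc0)
  have hfa : AnalyticOnNhd ℂ (fun z => l b (F z)) Set.univ := fun z _ =>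
    ((l b).differentiable.comp hF.diff).analyticAt z
  have hne : ∀ z, ∀ᶠ y in 𝓝[≠] z, l b (F y) ≠ 0 := by
    intro z
    rcases (hfa z (Set.mem_univ z)).eventually_eq_zero_or_eventually_ne_zero with hz | hz
    · exact absurd (hfa.eqOn_zero_of_preconnected_of_eventuallyEq_zero isPreconnected_univ (Set.mem_univ z) hz (Set.mem_univ z₀)) hb
    · exact hz
  refine eilu_factor hΦ.diff hΨ.diff (fun z => (hΦ.mem z).2) (fun z => (hΨ.mem z).2) fun z => ?_
  refine Eventually.frequently ?_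
  filter_upwards [hne z] with y hy
  have hh0 : h y ≠ 0 := by
    intro h0
    have h3 := hhΦ y
    rw [h0, zero_smul] at h3
    have h4 : l b (F y) • F y = 0 := congrFun h3 b
    exact smul_ne_zero hy (hF0 y) h4
  refine ⟨(h y)⁻¹ * k y, ?_⟩
  rw [mul_smul, ← hkΨ y, hhΦ y, smul_smul, inv_mul_cancel₀ hh0, one_smul]

end Pool.Agent.SY
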