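import Mathlib

/-!
# SD / step (b): growth lemmas

* `exists_poly_of_growth`: an entire function of polynomial growth is a polynomial.
* `three_circles`: Hadamard's theorem with outer bound `1`.
* `growth`: if `|F| ≤ 1` on the disc of radius `R₁ > R₀` about `w`, `|F z₁| ≥ c` for one `z₁` with `|z₁ - w| ≤ R₀/2` and `|F| ≤ A` on
  `|z - w| ≤ ρ`, then `|F z| ≤ A (|z - w|/ρ)^m` for `ρ ≤ |z - w| ≤ R₀`, `m ≥ - log c / log 2`.
-/

set_option autoImplicit false

namespace Pool.Agent.SY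

open Filter Topology Metric

theorem exists_poly_of_growth (k : ℕ) : ∀ (f : ℂ → ℂ) (C : ℝ), Differentiable ℂ f →
    (∀ z, ‖f z‖ ≤ C * (1 + ‖z‖) ^ k) → ∃ p : Polynomial ℂ, ∀ z, f z = p.eval z := by
  induction k with
  | zero =>
    intro f C hf hb
    refine ⟨Polynomial.C (f 0), fun z => ?_⟩
    rw [Polynomial.eval_C]
    refine hf.apply_eq_apply_of_bounded ?_ z 0
    rw [Metric.isBounded_iff_subset_closedBall (0 : ℂ)]
    refine ⟨C, ?_⟩
    rintro _ ⟨w, rfl⟩
    have := hb w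
    rw [pow_zero, mul_one] at this
    rwa [mem_closedBall_zero_iff]
  | succ k ih =>
    intro f C hf hb
    have hgd : Differentiable ℂ (dslope f 0) := by
      have := (Complex.differentiableOn_dslope (f := f) (c := 0) (s := Set.univ) univ_mem).mpr hf.differentiableOn
      exact differentiableOn_univ.mp this
    obtain ⟨M, hM⟩ := (isCompact_closedBall (0 : ℂ) 1).exists_bound_of_continuousOn hgd.continuous.continuousOn
    have hM0 : 0 ≤ M := (norm_nonneg _).trans (hM 0 (mem_closedBall_self zero_le_one))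
    have hC0 : 0 ≤ C := by
      have := (norm_nonneg _).trans (hb 0)
      simpa using this
    obtain ⟨p, hp⟩ := ih (dslope f 0) (M + 4 * C) hgd (by
      intro z
      have h1 : (1 : ℝ) ≤ 1 + ‖z‖ := by linarith [norm_nonneg z]
      have hpow : (1 : ℝ) ≤ (1 + ‖z‖) ^ k := one_le_pow₀ h1
      by_cases hz : ‖z‖ ≤ 1
      · have h2 := hM z (mem_closedBall_zero_iff.mpr hz)
        calc ‖dslope f 0 z‖ ≤ M * 1 := by rw [mul_one]; exact h2
          _ ≤ M * (1 + ‖z‖) ^ k := mul_le_mul_of_nonneg_left hpow hM0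
          _ ≤ (M + 4 * C) * (1 + ‖z‖) ^ k := mul_le_mul_of_nonneg_right (by linarith) (by positivity)
      · push Not at hz
        have hz0 : z ≠ 0 := by
          rintro rfl
          rw [norm_zero] at hz
          linarith
        rw [dslope_of_ne _ hz0, slope_def_field, sub_zero, norm_div]
        have hzn : 0 < ‖z‖ := by linarith
        rw [div_le_iff₀ hzn]
        have h2 : ‖f z - f 0‖ ≤ C * (1 + ‖z‖) ^ (k + 1) + C := by
          refine (norm_sub_le _ _).trans (add_le_add (hb z) ?_)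
          have := hb 0
          simpa using this
        have h3 : (1 + ‖z‖) ^ (k + 1) ≤ 2 * ‖z‖ * (1 + ‖z‖) ^ k := by
          rw [pow_succ]
          nlinarith
        have h4 : C ≤ 2 * C * ‖z‖ * (1 + ‖z‖) ^ k := by
          have h5 : 1 ≤ ‖z‖ * (1 + ‖z‖) ^ k := one_le_mul_of_one_le_of_one_le hz.le hpow
          nlinarith
        have h5 := mul_le_mul_of_nonneg_left h3 hC0
        have h6 : 0 ≤ M * (1 + ‖z‖) ^ k * ‖z‖ := by positivity
        nlinarith)
    refine ⟨Polynomial.C (f 0) + Polynomial.X * p, fun z => ?_⟩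
    rw [Polynomial.eval_add, Polynomial.eval_C, Polynomial.eval_mul, Polynomial.eval_X, ← hp]
    have := sub_smul_dslope f 0 z
    rw [sub_zero, smul_eq_mul] at this
    rw [this]
    ring

theorem three_circles {E : Type*} [NormedAddCommGroup E] [NormedSpace ℂ E] {F : ℂ → E} {w : ℂ} {R₁ R₀ ρ A : ℝ}
    (hF : DifferentiableOn ℂ F (ball w R₁)) (h1 : ∀ z ∈ ball w R₁, ‖F z‖ ≤ 1) (hρ : 0 < ρ) (hρR : ρ < R₀) (hR : R₀ < R₁)
    (hA : ∀ z ∈ closedBall w ρ, ‖F z‖ ≤ A) {z : ℂ} (hz1 : ρ ≤ ‖z - w‖) (hz2 : ‖z - w‖ ≤ R₀) :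
    ‖F z‖ ≤ A ^ (Real.log (R₀ / ‖z - w‖) / Real.log (R₀ / ρ)) := by
  have hR0 : 0 < R₀ := hρ.trans hρR
  have hR1 : 0 < R₁ := hR0.trans hR
  have hzn : 0 < ‖z - w‖ := hρ.trans_le hz1
  have hlt : Real.log ρ < Real.log R₀ := Real.log_lt_log hρ hρR
  set f : ℂ → E := fun s => F (w + Complex.exp s) with hf
  have hmem : ∀ s : ℂ, s.re ≤ Real.log R₀ → w + Complex.exp s ∈ ball w R₁ := by
    intro s hs
    rw [mem_ball, dist_eq_norm, add_sub_cancel_left, Complex.norm_exp]
    calc Real.exp s.re ≤ Real.exp (Real.log R₀) := Real.exp_le_exp.mpr hs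
      _ = R₀ := Real.exp_log hR0
      _ < R₁ := hR
  have hcl : closure (Complex.HadamardThreeLines.verticalStrip (Real.log ρ) (Real.log R₀)) ⊆
      Complex.HadamardThreeLines.verticalClosedStrip (Real.log ρ) (Real.log R₀) := by
    refine closure_minimal ?_ ?_
    · exact Set.preimage_mono Set.Ioo_subset_Icc_self
    · exact isClosed_Icc.preimage Complex.continuous_re
  have hd : DiffContOnCl ℂ f (Complex.HadamardThreeLines.verticalStrip (Real.log ρ) (Real.log R₀)) := by
    refine DifferentiableOn.diffContOnCl ?_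
    intro s hs
    have hs2 : s.re ≤ Real.log R₀ := (hcl hs).2
    have h2 : DifferentiableAt ℂ F (w + Complex.exp s) :=
      hF.differentiableAt (isOpen_ball.mem_nhds (hmem s hs2))
    exact (h2.comp s ((Complex.differentiable_exp s).const_add w)).differentiableWithinAt
  have hB : BddAbove ((norm ∘ f) '' Complex.HadamardThreeLines.verticalClosedStrip (Real.log ρ) (Real.log R₀)) := by
    refine ⟨1, ?_⟩
    rintro _ ⟨s, hs, rfl⟩
    exact h1 _ (hmem s hs.2)
  have ha : ∀ s ∈ Complex.re ⁻¹' {Real.log ρ}, ‖f s‖ ≤ A := by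
    intro s hs
    refine hA _ ?_
    rw [mem_closedBall, dist_eq_norm, add_sub_cancel_left, Complex.norm_exp]
    have : s.re = Real.log ρ := hs
    rw [this, Real.exp_log hρ]
  have hb : ∀ s ∈ Complex.re ⁻¹' {Real.log R₀}, ‖f s‖ ≤ 1 := by
    intro s hs
    have : s.re = Real.log R₀ := hs
    exact h1 _ (hmem s this.le)
  have hne : z - w ≠ 0 := norm_pos_iff.mp hzn
  have hre : (Complex.log (z - w)).re = Real.log ‖z - w‖ := Complex.log_re _
  have hmain := Complex.HadamardThreeLines.norm_le_interp_of_mem_verticalClosedStrip' (f := f) (z := Complex.log (z - w)) (a := A)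
    (b := 1) hlt (by
      refine ⟨?_, ?_⟩
      · rw [hre]
        exact Real.log_le_log hρ hz1
      · rw [hre]
        exact Real.log_le_log hzn hz2) hd hB ha hb
  rw [Real.one_rpow, mul_one, hre] at hmain
  have hfz : f (Complex.log (z - w)) = F z := by
    rw [hf]
    simp only
    rw [Complex.exp_log hne]
    congr 1
    ring
  rw [hfz] at hmain
  convert hmain using 2
  have h3 : Real.log R₀ - Real.log ρ ≠ 0 := by linarith
  rw [Real.log_div hR0.ne' hzn.ne', Real.log_div hR0.ne' hρ.ne']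
  field_simp
  ring

theorem growth {E : Type*} [NormedAddCommGroup E] [NormedSpace ℂ E] {F : ℂ → E} {w z₁ : ℂ} {R₁ R₀ ρ A c : ℝ} {m : ℕ}
    (hF : DifferentiableOn ℂ F (ball w R₁)) (h1 : ∀ z ∈ ball w R₁, ‖F z‖ ≤ 1) (hρ : 0 < ρ) (hρR : 2 * ρ ≤ R₀) (hR : R₀ < R₁)
    (hA : ∀ z ∈ closedBall w ρ, ‖F z‖ ≤ A) (hA1 : A ≤ 1) (hc : 0 < c) (hz₁ : ‖z₁ - w‖ ≤ R₀ / 2) (hcz : c ≤ ‖F z₁‖)
    (hm : -Real.log c / Real.log 2 ≤ m) {z : ℂ} (hz1 : ρ ≤ ‖z - w‖) (hz2 : ‖z - w‖ ≤ R₀) :
    0 < A ∧ ‖F z‖ ≤ A * (‖z - w‖ / ρ) ^ m := by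
  have hR0 : 0 < R₀ := by linarith
  have hρ2 : ρ < R₀ := by linarith
  have hl2 : 0 < Real.log 2 := Real.log_pos one_lt_two
  set τ : ℝ := Real.log (R₀ / ρ) with hτ
  have hτ2 : Real.log 2 ≤ τ := by
    rw [hτ]
    refine Real.log_le_log two_pos ?_
    rw [le_div_iff₀ hρ]
    exact hρR
  have hτ0 : 0 < τ := hl2.trans_le hτ2
  have hz₁b : z₁ ∈ ball w R₁ := by
    rw [mem_ball, dist_eq_norm]
    linarith
  have hc1 : c ≤ 1 := hcz.trans (h1 _ hz₁b)
  have hlc : Real.log c ≤ 0 := Real.log_nonpos hc.le hc1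
  -- the lower bound for `A`
  have hlow : 0 < A ∧ τ * Real.log c / Real.log 2 ≤ Real.log A := by
    by_cases h2 : ‖z₁ - w‖ ≤ ρ
    · have h3 : c ≤ A := hcz.trans (hA _ (by rw [mem_closedBall, dist_eq_norm]; exact h2))
      have hA0 : 0 < A := hc.trans_le h3
      refine ⟨hA0, le_trans ?_ (Real.log_le_log hc h3)⟩
      rw [div_le_iff₀ hl2]
      nlinarith
    · push Not at h2
      have h3 := three_circles hF h1 hρ hρ2 hR hA h2.le (by linarith)
      rw [← hτ] at h3
      have hz₁n : 0 < ‖z₁ - w‖ := hρ.trans h2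
      have h4 : Real.log 2 ≤ Real.log (R₀ / ‖z₁ - w‖) := by
        refine Real.log_le_log two_pos ?_
        rw [le_div_iff₀ hz₁n]
        linarith
      have h5 : 0 < Real.log (R₀ / ‖z₁ - w‖) / τ := div_pos (hl2.trans_le h4) hτ0
      have hAnn : 0 ≤ A := (norm_nonneg _).trans (hA w (mem_closedBall_self hρ.le))
      have hA0 : 0 < A := by
        rcases hAnn.lt_or_eq with h | h
        · exact h
        · rw [← h, Real.zero_rpow h5.ne'] at h3
          linarith
      refine ⟨hA0, ?_⟩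
      have h6 : Real.log c ≤ Real.log (R₀ / ‖z₁ - w‖) / τ * Real.log A := by
        have := Real.log_le_log hc (hcz.trans h3)
        rwa [Real.log_rpow hA0] at this
      have hlA : Real.log A ≤ 0 := Real.log_nonpos hA0.le hA1
      have h7 : Real.log (R₀ / ‖z₁ - w‖) / τ * Real.log A ≤ Real.log 2 / τ * Real.log A := by
        refine mul_le_mul_of_nonpos_right ?_ hlA
        exact div_le_div_of_nonneg_right h4 hτ0.le
      have h8 : Real.log c ≤ Real.log 2 / τ * Real.log A := h6.trans h7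
      rw [div_le_iff₀ hl2]
      rw [div_mul_eq_mul_div, le_div_iff₀ hτ0] at h8
      linarith
  obtain ⟨hA0, hlow⟩ := hlow
  refine ⟨hA0, ?_⟩
  have hzn : 0 < ‖z - w‖ := hρ.trans_le hz1
  have h3 := three_circles hF h1 hρ hρ2 hR hA hz1 hz2
  rw [← hτ] at h3
  refine h3.trans ?_
  set t : ℝ := Real.log (‖z - w‖ / ρ) with ht
  have ht0 : 0 ≤ t := by
    rw [ht]
    refine Real.log_nonneg ?_
    rw [le_div_iff₀ hρ]
    linarith
  have h4 : Real.log (R₀ / ‖z - w‖) = τ - t := by
    rw [hτ, ht, Real.log_div hR0.ne' hzn.ne', Real.log_div hR0.ne' hρ.ne', Real.log_div hzn.ne' hρ.ne']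
    ring
  have h5 : A * (‖z - w‖ / ρ) ^ m = Real.exp (Real.log A + m * t) := by
    rw [Real.exp_add, Real.exp_log hA0, ht, ← Real.log_pow, Real.exp_log (by positivity)]
  rw [h4, h5, Real.rpow_def_of_pos hA0, Real.exp_le_exp]
  have h6 : Real.log A * ((τ - t) / τ) = Real.log A - t / τ * Real.log A := by
    field_simp
  rw [h6]
  have h7 : t / τ * (τ * Real.log c / Real.log 2) ≤ t / τ * Real.log A := mul_le_mul_of_nonneg_left hlow (by positivity)
  have h8 : t / τ * (τ * Real.log c / Real.log 2) = -(t * (-Real.log c / Real.log 2)) := by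
    field_simp
  rw [h8] at h7
  have h9 := mul_le_mul_of_nonneg_left hm ht0
  linarith

end Pool.Agent.SY
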