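import Pool.Agent.H36.BP.OrdDefs
import Pool.Agent.H36.BP.CirA
import Pool.Agent.EG.LE.Har

/-!
# SY OrdTr: the order two condition does not depend on the centre

`OrdTwo.translate`: if `H` is an entire curve without zeros and `OrdTwo H` then `OrdTwo (fun z => H (w + z))`.

Proof.  `circle_approx`: `u` entire with `|Re u - log |H|| ≤ 1` on the circle of radius `R`, so `exp (-u - 1) H` is
bounded by `1` and its value at `0` is at least `e⁻²` times that of every lift `F` with `|F| ≤ 1`.  It has no zeros, so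
the Harnack inequality on a fixed disc gives the lower bound at `w`.
-/

set_option autoImplicit false

open Topology Filter Metric

namespace Pool.Agent.SY

open Pool.Agent.H36.BP (EN OrdTwo circle_approx)

variable {N : ℕ}

/-- lifts of the same curve differ by a holomorphic function -/
private theorem ratio {H F : ℂ → EN N} (hH : Differentiable ℂ H) (h0 : ∀ z, H z ≠ 0) {R : ℝ}
    (hF : DifferentiableOn ℂ F (ball 0 R)) (hFH : ∀ z ∈ ball (0 : ℂ) R, F z = 0 ∨ ∃ c : ℂ, c ≠ 0 ∧ H z = c • F z) :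
    ∃ φ : ℂ → ℂ, DifferentiableOn ℂ φ (ball 0 R) ∧ ∀ z ∈ ball (0 : ℂ) R, F z = φ z • H z := by
  classical
  have h1 : ∀ z, z ∈ ball (0 : ℂ) R → ∃ a : ℂ, F z = a • H z := by
    intro z hz
    rcases hFH z hz with h | ⟨c, hc, h⟩
    · exact ⟨0, by rw [h, zero_smul]⟩
    · exact ⟨c⁻¹, by rw [h, smul_smul, inv_mul_cancel₀ hc, one_smul]⟩
  choose! φ hφ using h1
  refine ⟨φ, fun z hz => ?_, hφ⟩
  obtain ⟨i, hi⟩ : ∃ i, H z i ≠ 0 := by
    by_contra hcon
    push Not at hcon
    exact h0 z (by ext i; simpa using hcon i)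
  have hHi : Differentiable ℂ fun z => H z i := fun y => differentiableAt_pi.1 ((PiLp.continuousLinearEquiv 2 ℂ
    (fun _ : Fin (N + 1) => ℂ)).differentiable.comp hH y) i
  have hFi : DifferentiableAt ℂ (fun z => F z i) z := differentiableAt_pi.1 ((PiLp.continuousLinearEquiv 2 ℂ
    (fun _ : Fin (N + 1) => ℂ)).differentiable.differentiableAt.comp z (hF.differentiableAt (isOpen_ball.mem_nhds hz))) i
  have h2 : ∀ᶠ y in 𝓝 z, φ y = F y i / H y i := by
    filter_upwards [isOpen_ball.mem_nhds hz, (hHi z).continuousAt.eventually_ne hi] with y hy1 hy2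
    have h3 := congrArg (fun v : EN N => v i) (hφ y hy1)
    simp only [PiLp.smul_apply, smul_eq_mul] at h3
    rw [h3, mul_div_cancel_right₀ _ hy2]
  exact ((hFi.div (hHi z) hi).congr_of_eventuallyEq h2).differentiableWithinAt

/-- the order two condition does not depend on the centre -/
theorem OrdTwo.translate {H : ℂ → EN N} (hH : Differentiable ℂ H) (h0 : ∀ z, H z ≠ 0) (ho : OrdTwo H) (w : ℂ) :
    OrdTwo fun z => H (w + z) := by
  obtain ⟨C₀, hC⟩ := ho
  have hn : ∀ z, 0 < ‖H z‖ := fun z => norm_pos_iff.2 (h0 z)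
  -- bounds near the origin
  obtain ⟨K, hK⟩ := (isCompact_closedBall (0 : ℂ) (2 * ‖w‖ + 1)).exists_bound_of_continuousOn
    (f := fun z => Real.log ‖H z‖) ((hH.continuous.norm.continuousOn).log fun z _ => (hn z).ne')
  have hw0 := norm_nonneg w
  have hK0 : 0 ≤ K := (norm_nonneg _).trans (hK 0 (mem_closedBall_self (by linarith)))
  set a : ℝ := 2 * ‖w‖ + 2 with ha
  have ha0 : 0 ≤ a := by rw [ha]; linarith
  refine ⟨(2 * ‖w‖ + 1) * (max C₀ 0 * (2 + 2 * a ^ 2) + 2 * K + 3), fun r hr => ?_⟩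
  set R : ℝ := r + 2 * ‖w‖ + 1 with hR
  have hR0 : 0 < R := by rw [hR]; linarith
  obtain ⟨F, hF1, hF2, hF3, hF4⟩ := hC (R + 1) (by linarith)
  obtain ⟨φ, hφ1, hφ2⟩ := ratio hH h0 hF1 hF4
  have hsub : closedBall (0 : ℂ) R ⊆ ball 0 (R + 1) := closedBall_subset_ball (by linarith)
  obtain ⟨u, hu, huR⟩ := circle_approx hR0 (fun z => Real.log ‖H z‖)
    ((hH.continuous.norm.continuousOn).log fun z _ => (hn z).ne') one_pos
  have hexp : ∀ z, ‖Complex.exp (-u z - 1) • H z‖ = Real.exp (-(u z).re - 1 + Real.log ‖H z‖) := by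
    intro z
    rw [norm_smul, Complex.norm_exp, Real.exp_add, Real.exp_log (hn z)]
    simp
  -- the upper bound
  have hup : ∀ z ∈ ball (0 : ℂ) R, ‖Complex.exp (-u z - 1) • H z‖ ≤ 1 := by
    intro z hz
    have hd : DiffContOnCl ℂ (fun z => Complex.exp (-u z - 1) • H z) (ball (0 : ℂ) R) :=
      ((hu.neg.sub_const _).cexp.smul hH).diffContOnCl
    refine Complex.norm_le_of_forall_mem_frontier_norm_le isBounded_ball hd (fun y hy => ?_)
      (subset_closure hz)
    rw [frontier_ball _ hR0.ne'] at hy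
    rw [hexp y, Real.exp_le_one_iff]
    have h1 := (abs_le.1 (huR y hy)).1
    linarith
  -- the lower bound at the origin
  have hlow : ‖F 0‖ ≤ Real.exp 2 * ‖Complex.exp (-u 0 - 1) • H 0‖ := by
    have hd : DiffContOnCl ℂ (fun z => φ z * Complex.exp (u z)) (ball (0 : ℂ) R) := by
      have h1 : DifferentiableOn ℂ (fun z => φ z * Complex.exp (u z)) (ball (0 : ℂ) (R + 1)) :=
        hφ1.mul hu.cexp.differentiableOn
      exact h1.diffContOnCl_ball hsub
    have h1 : ‖φ 0 * Complex.exp (u 0)‖ ≤ Real.exp 1 := by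
      refine Complex.norm_le_of_forall_mem_frontier_norm_le isBounded_ball hd (fun y hy => ?_)
        (subset_closure (mem_ball_self hR0))
      rw [frontier_ball _ hR0.ne'] at hy
      have hy1 : y ∈ ball (0 : ℂ) (R + 1) := hsub (sphere_subset_closedBall hy)
      have h2 := hF2 y hy1
      rw [hφ2 y hy1, norm_smul] at h2
      have h3 := (abs_le.1 (huR y hy)).2
      rw [norm_mul, Complex.norm_exp]
      have h4 : Real.exp (u y).re ≤ Real.exp 1 * ‖H y‖ := by
        rw [← Real.exp_log (hn y), ← Real.exp_add, Real.exp_le_exp]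
        linarith
      calc ‖φ y‖ * Real.exp (u y).re ≤ ‖φ y‖ * (Real.exp 1 * ‖H y‖) :=
            mul_le_mul_of_nonneg_left h4 (norm_nonneg _)
        _ = Real.exp 1 * (‖φ y‖ * ‖H y‖) := by ring
        _ ≤ Real.exp 1 * 1 := mul_le_mul_of_nonneg_left h2 (Real.exp_pos _).le
        _ = Real.exp 1 := mul_one _
    rw [hφ2 0 (mem_ball_self (by linarith)), norm_smul, norm_smul, Complex.norm_exp]
    rw [norm_mul, Complex.norm_exp] at h1
    have h5 : (-u 0 - 1).re = -(u 0).re - 1 := by simp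
    rw [h5, ← mul_assoc, ← Real.exp_add]
    refine mul_le_mul_of_nonneg_right ?_ (norm_nonneg _)
    have h6 : Real.exp (2 + (-(u 0).re - 1)) = Real.exp 1 * (Real.exp (u 0).re)⁻¹ := by
      rw [← Real.exp_neg, ← Real.exp_add]
      congr 1
      ring
    rw [h6, ← div_eq_mul_inv, le_div_iff₀ (Real.exp_pos _)]
    exact h1
  -- the Harnack inequality
  have hin : ∀ z ∈ ball w (‖w‖ + 1), ‖z‖ ≤ 2 * ‖w‖ + 1 := by
    intro z hz
    rw [mem_ball, dist_eq_norm] at hz
    have h1 : ‖z‖ ≤ ‖z - w‖ + ‖w‖ := by simpa using norm_add_le (z - w) w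
    linarith
  have hpos : ∀ z ∈ ball w (‖w‖ + 1), 0 < (u z + (1 + K + 1 : ℝ)).re := by
    intro z hz
    have hz1 := hin z hz
    have hzR : z ∈ ball (0 : ℂ) R := by
      rw [mem_ball_zero_iff, hR]
      linarith
    have h1 := hup z hzR
    rw [hexp z, Real.exp_le_one_iff] at h1
    have h2 := abs_le.1 (hK z (mem_closedBall_zero_iff.2 hz1))
    rw [Complex.add_re, Complex.ofReal_re]
    linarith [h2.1]
  have hhar := Pool.Agent.EG.LE.harnack (H := fun z => u z + (1 + K + 1 : ℝ)) (c := w) (r := ‖w‖ + 1)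
    (by linarith) (hu.add_const _).differentiableOn hpos (z := 0) (by
      rw [mem_ball, dist_eq_norm, zero_sub, norm_neg]
      linarith)
  rw [zero_sub, norm_neg] at hhar
  have hhar2 : (u w + (1 + K + 1 : ℝ)).re ≤ (2 * ‖w‖ + 1) * (u 0 + (1 + K + 1 : ℝ)).re := by
    have h1 : (‖w‖ + 1 - ‖w‖) / (‖w‖ + 1 + ‖w‖) = 1 / (2 * ‖w‖ + 1) := by
      congr 1 <;> ring
    rw [h1, mul_one_div, div_le_iff₀ (by linarith)] at hhar
    linarith
  refine ⟨fun z => Complex.exp (-u (w + z) - 1) • H (w + z), ?_, fun z hz => ?_, ?_, fun z _ => Or.inr ?_⟩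
  · have h1 : Differentiable ℂ fun z : ℂ => w + z := differentiable_id.const_add w
    exact (((hu.comp h1).neg.sub_const _).cexp.smul (hH.comp h1)).differentiableOn
  · refine hup _ ?_
    rw [mem_ball_zero_iff] at hz ⊢
    have := norm_add_le w z
    rw [hR]
    linarith
  · show _ ≤ ‖Complex.exp (-u (w + 0) - 1) • H (w + 0)‖
    rw [add_zero, hexp w, Real.exp_le_exp]
    have h1 : Real.exp (-(C₀ * (1 + (R + 1) ^ 2))) ≤ Real.exp (2 + (-(u 0).re - 1 + Real.log ‖H 0‖)) := by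
      rw [Real.exp_add 2, ← hexp 0]
      exact hF3.trans hlow
    rw [Real.exp_le_exp] at h1
    have h2 := abs_le.1 (hK 0 (mem_closedBall_self (by linarith)))
    have h3 := abs_le.1 (hK w (mem_closedBall_zero_iff.2 (by linarith)))
    rw [Complex.add_re, Complex.ofReal_re, Complex.add_re, Complex.ofReal_re] at hhar2
    have h4 : C₀ * (1 + (R + 1) ^ 2) ≤ max C₀ 0 * (2 + 2 * a ^ 2) * (1 + r ^ 2) := by
      have h5 : C₀ * (1 + (R + 1) ^ 2) ≤ max C₀ 0 * (1 + (R + 1) ^ 2) :=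
        mul_le_mul_of_nonneg_right (le_max_left _ _) (by positivity)
      refine h5.trans ?_
      rw [mul_assoc]
      refine mul_le_mul_of_nonneg_left ?_ (le_max_right _ _)
      have h6 : R + 1 = r + a := by rw [hR, ha]; ring
      rw [h6]
      nlinarith [sq_nonneg (r - a), sq_nonneg (r * a)]
    have h7 : (u 0).re + (1 + K + 1) ≤ (max C₀ 0 * (2 + 2 * a ^ 2) + 2 * K + 3) * (1 + r ^ 2) := by
      have h8 : (2 * K + 3) * 1 ≤ (2 * K + 3) * (1 + r ^ 2) :=
        mul_le_mul_of_nonneg_left (by nlinarith [sq_nonneg r]) (by linarith)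
      nlinarith [h2.2]
    have h9 : (u w).re + (1 + K + 1) ≤ (2 * ‖w‖ + 1) * ((max C₀ 0 * (2 + 2 * a ^ 2) + 2 * K + 3) * (1 + r ^ 2)) :=
      hhar2.trans (mul_le_mul_of_nonneg_left h7 (by linarith))
    have h10 : (2 * ‖w‖ + 1) * (max C₀ 0 * (2 + 2 * a ^ 2) + 2 * K + 3) * (1 + r ^ 2) =
      (2 * ‖w‖ + 1) * ((max C₀ 0 * (2 + 2 * a ^ 2) + 2 * K + 3) * (1 + r ^ 2)) := by ring
    rw [h10]
    linarith [h3.1]
  · refine ⟨(Complex.exp (-u (w + z) - 1))⁻¹, inv_ne_zero (Complex.exp_ne_zero _), ?_⟩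
    rw [smul_smul, inv_mul_cancel₀ (Complex.exp_ne_zero _), one_smul]

end Pool.Agent.SY
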