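import Pool.Agent.SY.Plug
import Pool.Agent.SY.Cp
import Pool.Agent.SY.C
import Pool.Agent.SY.OrdTr
import Pool.Agent.H22.WL.Proj

/-!
# SY Joint: step (b) from `NoBubbles`

If the derivatives are not bounded near the good points then there is a sequence of curves of length one which converges off a discrete set
and does not converge at a point `w`: there the limit of the lifts is `(z - w) ^ m (u H)`.  `NoBubbles` says `m = 0`, and then the derivatives
converge at `w`: contradiction.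
-/

set_option autoImplicit false

open Topology Filter Metric

namespace Pool.Agent.SY

open Pool.Agent.H36.BP (EN fs wd wd_cont fs_inv Sub OrdTwo)
open Pool.Agent.H14.PP (IsCone Tan CurveAt)
open Pool.Agent.H22.W (PseudoLength tan_entire tan_curve)

variable {N : ℕ} {X T : Set (EN N)}

/-- the derivative of `φ F` -/
private theorem deriv_smul_fun {φ : ℂ → ℂ} {F : ℂ → EN N} {z : ℂ} (hφ : DifferentiableAt ℂ φ z) (hF : DifferentiableAt ℂ F z) :
    deriv (fun z => φ z • F z) z = φ z • deriv F z + deriv φ z • F z :=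
  (hφ.hasDerivAt.smul hF.hasDerivAt).deriv

/-- the limit of curves of length one has length one -/
theorem length_limit (hX : IsCone X) (n : PseudoLength X) {𝒰 : Filter ℕ} [𝒰.NeBot] {F : ℕ → ℂ → EN N} (hF : ∀ k, Cls T n (F k)) {v : ℕ → ℂ → ℂ}
    (hv : ∀ᶠ k in 𝒰, Differentiable ℂ (v k)) {H HR : ℂ → EN N} {U : Set ℂ} (hU : IsOpen U)
    (hconv : TendstoLocallyUniformlyOn (fun k z => Complex.exp (v k z) • F k z) HR 𝒰 U)
    (hH : Differentiable ℂ H) (hHX : ∀ z, H z ∈ X)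
    (hloc : ∀ z₀ ∈ U, ∃ (k : ℕ) (w : ℂ → ℂ), AnalyticAt ℂ w z₀ ∧ w z₀ ≠ 0 ∧ ∀ᶠ z in 𝓝 z₀, HR z = (z - z₀) ^ k • (w z • H z)) :
    ∀ z ∈ U, n.toFun (H z) (deriv H z) = 1 := by
  have hdiff : ∀ᶠ k in 𝒰, DifferentiableOn ℂ (fun z => Complex.exp (v k z) • F k z) U :=
    hv.mono fun k hk => (hk.cexp.smul (hF k).1.diff).differentiableOn
  have hHRd : DifferentiableOn ℂ HR U := hconv.differentiableOn hdiff hU
  have hderiv := hconv.deriv hdiff hU
  -- the points where the limit is not zero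
  have key : ∀ z ∈ U, ∀ φ : ℂ → ℂ, AnalyticAt ℂ φ z → φ z ≠ 0 → (∀ᶠ y in 𝓝 z, HR y = φ y • H y) →
      n.toFun (H z) (deriv H z) = 1 := by
    intro z hz φ hφ hφ0 he
    have h1 : HR z = φ z • H z := he.self_of_nhds
    have h2 : deriv HR z = φ z • deriv H z + deriv φ z • H z := by
      rw [EventuallyEq.deriv_eq he]
      exact deriv_smul_fun hφ.differentiableAt (hH z)
    have h3 : n.toFun (HR z) (deriv HR z) = n.toFun (H z) (deriv H z) := by
      rw [h1, h2]
      exact n.inv hX (tan_entire hH hHX z) hφ0 _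
    have h4 : ∀ᶠ y in 𝓝 z, HR y ∈ X := by
      filter_upwards [he, hφ.continuousAt.eventually_ne hφ0] with y hy1 hy2
      rw [hy1]
      exact hX.smul_mem _ (hHX y) _ hy2
    have h5 : Tan X (HR z) (deriv HR z) :=
      tan_curve ⟨hHRd.analyticAt (hU.mem_nhds hz), h4⟩
    have h6 : ∀ᶠ k in 𝒰, Tan X (Complex.exp (v k z) • F k z) (deriv (fun z => Complex.exp (v k z) • F k z) z) := by
      filter_upwards [hv] with k hk
      exact tan_entire (F := fun z => Complex.exp (v k z) • F k z) (hk.cexp.smul (hF k).1.diff)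
        (fun y => hX.smul_mem _ ((hF k).1.mem y) _ (Complex.exp_ne_zero _)) z
    have h7 := n.tendsto h6 h5 (hconv.tendsto_at hz) (hderiv.tendsto_at hz)
    have h8 : ∀ᶠ k in 𝒰, n.toFun (Complex.exp (v k z) • F k z) (deriv (fun z => Complex.exp (v k z) • F k z) z) = 1 := by
      filter_upwards [hv] with k hk
      rw [deriv_smul_fun (hk.cexp z) ((hF k).1.diff z), n.inv hX (tan_entire (hF k).1.diff (hF k).1.mem z) (Complex.exp_ne_zero _)]
      exact (hF k).2 z
    have h9 : Tendsto (fun _ : ℕ => (1 : ℝ)) 𝒰 (𝓝 (n.toFun (HR z) (deriv HR z))) := h7.congr' h8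
    rw [← h3]
    exact tendsto_nhds_unique tendsto_const_nhds h9 |>.symm
  intro z₀ hz₀
  obtain ⟨k, w, hw, hw0, hwe⟩ := hloc z₀ hz₀
  have h1 : ∀ᶠ z in 𝓝[≠] z₀, n.toFun (H z) (deriv H z) = 1 := by
    filter_upwards [hwe.eventually_nhds.filter_mono nhdsWithin_le_nhds, hw.eventually_analyticAt.filter_mono nhdsWithin_le_nhds,
      (hw.continuousAt.eventually_ne hw0).filter_mono nhdsWithin_le_nhds, nhdsWithin_le_nhds (hU.mem_nhds hz₀), self_mem_nhdsWithin]
      with z h2 h3 h4 h5 h6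
    refine key z h5 (fun z => (z - z₀) ^ k * w z) ?_ (mul_ne_zero (pow_ne_zero _ (sub_ne_zero.2 h6)) h4) ?_
    · exact ((analyticAt_id.sub analyticAt_const).pow k).mul h3
    · filter_upwards [h2] with y hy
      rw [hy, smul_smul]
  have h2 : Tendsto (fun z => n.toFun (H z) (deriv H z)) (𝓝[≠] z₀) (𝓝 (n.toFun (H z₀) (deriv H z₀))) :=
    (n.continuous_curve hH hHX).continuousAt.tendsto.mono_left nhdsWithin_le_nhds
  have h3 : Tendsto (fun _ : ℂ => (1 : ℝ)) (𝓝[≠] z₀) (𝓝 (n.toFun (H z₀) (deriv H z₀))) := h2.congr' h1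
  exact tendsto_nhds_unique tendsto_const_nhds h3 |>.symm

/-- the Fubini-Study derivative of `exp v F` -/
private theorem fs_exp (hX : IsCone X) {F : ℂ → EN N} (hF : Differentiable ℂ F) (hFX : ∀ z, F z ∈ X) {v : ℂ → ℂ} (hv : Differentiable ℂ v) (z : ℂ) :
    fs (Complex.exp (v z) • F z) (deriv (fun z => Complex.exp (v z) • F z) z) = fs (F z) (deriv F z) := by
  rw [deriv_smul_fun (hv.cexp z) (hF z)]
  exact fs_inv (hX.ne_zero (hFX z)) _ (Complex.exp_ne_zero _) _

/-- **Joint**: step (b) from `NoBubbles` -/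
theorem stepB_of_noBubbles (hX : IsCone X) (hTs : ∀ x ∈ T, ∀ c : ℂ, c ≠ 0 → c • x ∈ T) {T₀ : Set (EN N)} (hT : T₀ ⊆ T)
    (n : PseudoLength X) (hnb : NoBubbles X T₀ n) : StepB X T n := by
  classical
  replace hnb := hnb.mono hT
  intro rho M c₀ C g E C₁ hA d hd R
  by_contra hcon
  push Not at hcon
  choose F hcls hgd z hz hfs using fun k : ℕ => hcon (k : ℝ)
  set 𝒰 : Ultrafilter ℕ := hyperfilter ℕ with h𝒰def
  have h𝒰 : (𝒰 : Filter ℕ) ≤ atTop := Nat.hyperfilter_le_atTop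
  obtain ⟨H, hHd, hHX, hHo, hHT, -, hH⟩ := exists_limit hX hTs E 𝒰 h𝒰 F (fun k => (hcls k).1) hd
    (fun k y _ => hA (F k) (hcls k) y) hgd
  have hHne : ∀ y, H y ≠ 0 := fun y => hX.ne_zero (hHX y)
  -- the limit has length one
  have hH1 : ∀ y, n.toFun (H y) (deriv H y) = 1 := by
    intro y
    obtain ⟨v, HR, hv, hconv, -, -, hfac⟩ := hH (⌈‖y‖⌉₊ + 1) (by omega)
    refine length_limit (T := T) hX n hcls (hv.mono fun k hk => hk.1) isOpen_ball hconv hHd hHX hfac y ?_
    rw [mem_ball_zero_iff]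
    have := Nat.le_ceil ‖y‖
    push_cast
    linarith
  obtain ⟨v, HR, hv, hconv, -, -, hfac⟩ := hH (⌈|R|⌉₊ + 1) (by omega)
  -- the limit of the points
  have hcomp : IsCompact (closedBall (0 : ℂ) |R|) := isCompact_closedBall _ _
  have hzc : ∀ k, z k ∈ closedBall (0 : ℂ) |R| := by
    intro k
    have h1 := hz k
    rw [mem_ball_zero_iff] at h1
    rw [mem_closedBall_zero_iff]
    exact h1.le.trans (le_abs_self R)
  have hmap : ((𝒰.map z : Ultrafilter ℂ) : Filter ℂ) ≤ 𝓟 (closedBall (0 : ℂ) |R|) := by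
    rw [le_principal_iff]
    exact mem_map.2 (Filter.univ_mem' hzc)
  obtain ⟨w, hw, hlim⟩ := hcomp.ultrafilter_le_nhds _ hmap
  have hlim' : Tendsto z (𝒰 : Filter ℕ) (𝓝 w) := hlim
  have hwR : w ∈ ball (0 : ℂ) ((⌈|R|⌉₊ + 1 : ℕ) : ℝ) := by
    rw [mem_closedBall_zero_iff] at hw
    rw [mem_ball_zero_iff]
    have hceil : |R| ≤ (⌈|R|⌉₊ : ℝ) := Nat.le_ceil _
    push_cast
    linarith
  obtain ⟨m, u, hu, hu0, hue⟩ := hfac w hwR
  -- the disc around the point
  obtain ⟨r, hr, hrs⟩ : ∃ r > 0, ∀ y ∈ ball w r, y ∈ ball (0 : ℂ) ((⌈|R|⌉₊ + 1 : ℕ) : ℝ) ∧ HR y = (y - w) ^ m • (u y • H y) ∧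
      u y ≠ 0 ∧ AnalyticAt ℂ u y := by
    have h0 : ∀ᶠ y in 𝓝 w, y ∈ ball (0 : ℂ) ((⌈|R|⌉₊ + 1 : ℕ) : ℝ) := isOpen_ball.mem_nhds hwR
    have h1 := ((h0.and hue).and (hu.continuousAt.eventually_ne hu0)).and hu.eventually_analyticAt
    obtain ⟨r, hr, h2⟩ := Metric.eventually_nhds_iff_ball.1 h1
    exact ⟨r, hr, fun y hy => ⟨(h2 y hy).1.1.1, (h2 y hy).1.1.2, (h2 y hy).1.2, (h2 y hy).2⟩⟩
  have hsub : ball w r ⊆ ball (0 : ℂ) ((⌈|R|⌉₊ + 1 : ℕ) : ℝ) := fun y hy => (hrs y hy).1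
  -- the modified exponents
  set v' : ℕ → ℂ → ℂ := fun k => if Differentiable ℂ (v k) then v k else 0 with hv'
  have hv'd : ∀ k, Differentiable ℂ (v' k) := by
    intro k
    rw [hv']
    by_cases h : Differentiable ℂ (v k)
    · simp only [h, if_true]
    · simp only [h, if_false]
      exact differentiable_const 0
  have hv'e : ∀ᶠ k in (𝒰 : Filter ℕ), v' k = v k := by
    filter_upwards [hv] with k hk
    rw [hv']
    simp only [hk.1, if_true]
  have hconv' : TendstoLocallyUniformlyOn (fun k y => Complex.exp (v' k y) • F k y) HR 𝒰 (ball 0 ((⌈|R|⌉₊ + 1 : ℕ) : ℝ)) := by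
    intro s hs y hy
    obtain ⟨t, ht, h1⟩ := hconv s hs y hy
    refine ⟨t, ht, ?_⟩
    filter_upwards [h1, hv'e] with k h2 h3
    rw [h3]
    exact h2
  -- the bubble has degree `0`
  have hm : m = 0 := by
    refine hnb 𝒰 (fun k y => F k (w + y)) (fun k y => v' k (w + y)) (fun y => H (w + y)) (fun y => u (w + y)) r m ?_
    have hadd : ∀ y ∈ ball (0 : ℂ) r, w + y ∈ ball w r := by
      intro y hy
      rw [mem_ball_zero_iff] at hy
      rw [mem_ball, dist_eq_norm, add_sub_cancel_left]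
      exact hy
    have haff : Differentiable ℂ fun y : ℂ => w + y := differentiable_id.const_add w
    refine ⟨h𝒰, hr, fun k => ?_, fun k => (hv'd k).comp haff, ?_, OrdTwo.translate hHd hHne hHo w, ?_, fun y hy => (hrs _ (hadd y hy)).2.2.1, ?_⟩
    · have h1 := (hcls k).aff (a := 1) norm_one w
      refine (funext fun y => ?_ : (fun y => F k (1 * y + w)) = fun y => F k (w + y)) ▸ h1
      rw [one_mul, add_comm]
    · have h0 : Cls T n H := ⟨⟨hHd, hHX, hHT⟩, hH1⟩
      have h1 := h0.aff (a := 1) norm_one w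
      refine (funext fun y => ?_ : (fun y => H (1 * y + w)) = fun y => H (w + y)) ▸ h1
      rw [one_mul, add_comm]
    · intro y hy
      have h1 : DifferentiableAt ℂ u (w + y) := (hrs _ (hadd y hy)).2.2.2.differentiableAt
      exact (h1.comp y (haff y)).differentiableWithinAt
    · have h1 : TendstoLocallyUniformlyOn (fun k y => Complex.exp (v' k (w + y)) • F k (w + y)) (fun y => HR (w + y)) 𝒰 (ball 0 r) := by
        have h2 := (hconv'.mono hsub).comp (fun y : ℂ => w + y) (t := ball (0 : ℂ) r) hadd haff.continuous.continuousOn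
        exact h2
      refine h1.congr_right fun y hy => ?_
      show HR (w + y) = y ^ m • (u (w + y) • H (w + y))
      rw [(hrs _ (hadd y hy)).2.1, add_sub_cancel_left]
  -- the derivatives converge
  have hHRw : HR w ≠ 0 := by
    rw [(hrs w (mem_ball_self hr)).2.1, hm, pow_zero, one_smul]
    exact smul_ne_zero hu0 (hHne w)
  have hdiff : ∀ᶠ k in (𝒰 : Filter ℕ), DifferentiableOn ℂ (fun z => Complex.exp (v' k z) • F k z) (ball 0 ((⌈|R|⌉₊ + 1 : ℕ) : ℝ)) :=
    Eventually.of_forall fun k => ((hv'd k).cexp.smul (hcls k).1.diff).differentiableOn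
  have hHRd := hconv'.differentiableOn hdiff isOpen_ball
  have hHRa : AnalyticAt ℂ HR w := hHRd.analyticAt (isOpen_ball.mem_nhds hwR)
  have hzw : Tendsto z (𝒰 : Filter ℕ) (𝓝[ball 0 ((⌈|R|⌉₊ + 1 : ℕ) : ℝ)] w) := by
    rw [isOpen_ball.nhdsWithin_eq hwR]
    exact hlim'
  have h1 : Tendsto (fun k => Complex.exp (v' k (z k)) • F k (z k)) (𝒰 : Filter ℕ) (𝓝 (HR w)) :=
    hconv'.tendsto_comp hHRa.continuousAt.continuousWithinAt hwR hzw
  have h2 : Tendsto (fun k => deriv (fun z => Complex.exp (v' k z) • F k z) (z k)) (𝒰 : Filter ℕ) (𝓝 (deriv HR w)) :=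
    (hconv'.deriv hdiff isOpen_ball).tendsto_comp hHRa.deriv.continuousAt.continuousWithinAt hwR hzw
  have h3 : Tendsto (fun k => fs (Complex.exp (v' k (z k)) • F k (z k)) (deriv (fun z => Complex.exp (v' k z) • F k z) (z k)))
      (𝒰 : Filter ℕ) (𝓝 (fs (HR w) (deriv HR w))) := by
    unfold fs
    exact ((wd_cont.tendsto (HR w, deriv HR w)).comp (h1.prodMk_nhds h2)).div (h1.norm.pow 2) (pow_ne_zero _ (norm_ne_zero_iff.2 hHRw))
  have h4 : ∀ k, fs (Complex.exp (v' k (z k)) • F k (z k)) (deriv (fun z => Complex.exp (v' k z) • F k z) (z k)) =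
      fs (F k (z k)) (deriv (F k) (z k)) := fun k => fs_exp hX (hcls k).1.diff (hcls k).1.mem (hv'd k) (z k)
  have h5 : Tendsto (fun k : ℕ => (k : ℝ)) (𝒰 : Filter ℕ) atTop := tendsto_natCast_atTop_atTop.mono_left h𝒰
  have h6 : Tendsto (fun k => fs (F k (z k)) (deriv (F k) (z k))) (𝒰 : Filter ℕ) atTop :=
    tendsto_atTop_mono (fun k => (hfs k).le) h5
  simp only [h4] at h3
  exact not_tendsto_nhds_of_tendsto_atTop h6 _ h3

/-- step (b) for every pseudo-length, from `NoBubblesAll` -/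
theorem stepBAll_of_noBubblesAll {P : Ideal (MvPolynomial (Fin (N + 1)) ℂ)} (hX : IsCone (Pool.Agent.H17EF.coneE P)) (h : NoBubblesAll P) :
    StepBAll P := by
  intro n R d hR hRP hnull
  obtain ⟨R₀, d₀, h1, h2, h3⟩ := h n R d hR hRP hnull
  refine ⟨R₀, d₀, h1, h2, fun Q D hQ _ hsub => stepB_of_noBubbles hX ?_ hsub n h3⟩
  intro x hx c hc
  refine ⟨hX.smul_mem x hx.1 c hc, ?_⟩
  have e1 := Pool.Agent.H22.WL.evF_smul hQ c x
  have e2 : MvPolynomial.eval (c • x).ofLp Q = c ^ D * MvPolynomial.eval x.ofLp Q := by simpa [Pool.Agent.H22.WL.evF] using e1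
  rw [e2, hx.2, mul_zero]

end Pool.Agent.SY
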