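import Pool.Agent.H74.NB.Child

/-!
# SY BdP: every rescaling at a bubble point has a polynomial limit

`poly_lim`: if `Φ n → (z - w) ^ m • G z` near `w`, `b n → w`, `ρ n → 0`, then suitable multiples of `Φ n (b n + ρ n * ζ)` converge on `ℂ` to a
nonzero vector of polynomials of degree at most `m`.
-/

set_option autoImplicit false

open Topology Filter Metric Polynomial

noncomputable section

namespace Pool.Agent.SY

open Pool.Agent.H74.NB (CC Obj vec vec_apply it newton weier cc_it exists_lim)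

variable {N : ℕ} {𝒰 : Ultrafilter ℕ}

/-- compactness of the vectors of polynomials of degree at most `m` -/
theorem exists_poly_lim {m : ℕ} (p : ℕ → Fin (N + 1) → ℂ[X]) (hd : ∀ n i, (p n i).natDegree ≤ m)
    (h0 : ∀ᶠ n in (𝒰 : Filter ℕ), ∃ i, p n i ≠ 0) :
    ∃ (l : ℕ → ℝ) (P : Fin (N + 1) → ℂ[X]), (∀ᶠ n in (𝒰 : Filter ℕ), 0 < l n) ∧ (∃ i, P i ≠ 0) ∧ (∀ i, (P i).natDegree ≤ m) ∧
      ∀ (ζ₀ : ℂ) (ζ : ℕ → ℂ), Tendsto ζ 𝒰 (𝓝 ζ₀) → Tendsto (fun n => (l n : ℂ) • vec (p n) (ζ n)) 𝒰 (𝓝 (vec P ζ₀)) := by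
  set L : ℕ → ℝ := fun n => ∑ i, ∑ k ∈ Finset.range (m + 1), ‖(p n i).coeff k‖ with hL
  have hL0 : ∀ n, 0 ≤ L n := fun n => Finset.sum_nonneg fun i _ => Finset.sum_nonneg fun k _ => norm_nonneg _
  have hle : ∀ n i, ∀ k ∈ Finset.range (m + 1), ‖(p n i).coeff k‖ ≤ L n := by
    intro n i k hk
    refine (Finset.single_le_sum (f := fun k => ‖(p n i).coeff k‖) (fun k _ => norm_nonneg _) hk).trans ?_
    exact Finset.single_le_sum (f := fun i => ∑ k ∈ Finset.range (m + 1), ‖(p n i).coeff k‖)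
      (fun i _ => Finset.sum_nonneg fun k _ => norm_nonneg _) (Finset.mem_univ i)
  have hLp : ∀ᶠ n in (𝒰 : Filter ℕ), 0 < L n := by
    filter_upwards [h0] with n hn
    obtain ⟨i, hi⟩ := hn
    have h1 : (p n i).coeff (p n i).natDegree ≠ 0 := by
      rw [Polynomial.coeff_natDegree]
      exact Polynomial.leadingCoeff_ne_zero.2 hi
    exact (norm_pos_iff.2 h1).trans_le (hle n i _ (Finset.mem_range.2 (Nat.lt_succ_of_le (hd n i))))
  have hq : ∀ i, ∀ k ∈ Finset.range (m + 1), ∃ x : ℂ, Tendsto (fun n => (((L n)⁻¹ : ℝ) : ℂ) * (p n i).coeff k) 𝒰 (𝓝 x) := by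
    intro i k hk
    obtain ⟨x, -, hx⟩ := exists_lim (𝒰 := 𝒰) (isCompact_closedBall (0 : ℂ) 1) (x := fun n => (((L n)⁻¹ : ℝ) : ℂ) * (p n i).coeff k) (by
      filter_upwards [hLp] with n hn
      rw [mem_closedBall_zero_iff, norm_mul, Complex.norm_real, Real.norm_of_nonneg (inv_nonneg.2 hn.le), inv_mul_le_iff₀ hn, mul_one]
      exact hle n i k hk)
    exact ⟨x, hx⟩
  choose! q hq using hq
  have hcoef : ∀ i, ∀ k ∈ Finset.range (m + 1), (∑ k ∈ Finset.range (m + 1), C (q i k) * X ^ k : ℂ[X]).coeff k = q i k := by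
    intro i k hk
    rw [Polynomial.finsetSum_coeff, Finset.sum_eq_single k]
    · rw [Polynomial.coeff_C_mul, Polynomial.coeff_X_pow, if_pos rfl, mul_one]
    · intro j _ hj
      rw [Polynomial.coeff_C_mul, Polynomial.coeff_X_pow, if_neg (Ne.symm hj), mul_zero]
    · intro h
      exact absurd hk h
  have hone : ∑ i, ∑ k ∈ Finset.range (m + 1), ‖q i k‖ = 1 := by
    have h1 : Tendsto (fun n => ∑ i, ∑ k ∈ Finset.range (m + 1), ‖(((L n)⁻¹ : ℝ) : ℂ) * (p n i).coeff k‖) 𝒰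
        (𝓝 (∑ i, ∑ k ∈ Finset.range (m + 1), ‖q i k‖)) :=
      tendsto_finsetSum _ fun i _ => tendsto_finsetSum _ fun k hk => (hq i k hk).norm
    refine tendsto_nhds_unique h1 (Tendsto.congr' ?_ tendsto_const_nhds)
    filter_upwards [hLp] with n hn
    have h2 : ∀ i k, ‖(((L n)⁻¹ : ℝ) : ℂ) * (p n i).coeff k‖ = (L n)⁻¹ * ‖(p n i).coeff k‖ := by
      intro i k
      rw [norm_mul, Complex.norm_real, Real.norm_of_nonneg (inv_nonneg.2 hn.le)]
    simp only [h2, ← Finset.mul_sum]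
    exact (inv_mul_cancel₀ hn.ne').symm
  refine ⟨fun n => (L n)⁻¹, fun i => ∑ k ∈ Finset.range (m + 1), C (q i k) * X ^ k, ?_, ?_, ?_, ?_⟩
  · exact hLp.mono fun n hn => inv_pos.2 hn
  · by_contra hcon
    push Not at hcon
    have h1 : ∀ i, ∀ k ∈ Finset.range (m + 1), ‖q i k‖ = 0 := by
      intro i k hk
      rw [← hcoef i k hk, hcon i, Polynomial.coeff_zero, norm_zero]
    have h2 : ∑ i : Fin (N + 1), ∑ k ∈ Finset.range (m + 1), ‖q i k‖ = 0 :=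
      Finset.sum_eq_zero fun i _ => Finset.sum_eq_zero fun k hk => h1 i k hk
    rw [hone] at h2
    exact one_ne_zero h2
  · intro i
    refine Polynomial.natDegree_sum_le_of_forall_le _ _ fun k hk => ?_
    exact (Polynomial.natDegree_C_mul_X_pow_le _ _).trans (Nat.lt_succ_iff.1 (Finset.mem_range.1 hk))
  · intro ζ₀ ζ hζ
    have h1 : ∀ i, Tendsto (fun n => (((L n)⁻¹ : ℝ) : ℂ) * (p n i).eval (ζ n)) 𝒰
        (𝓝 ((∑ k ∈ Finset.range (m + 1), C (q i k) * X ^ k : ℂ[X]).eval ζ₀)) := by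
      intro i
      have h2 : (∑ k ∈ Finset.range (m + 1), C (q i k) * X ^ k : ℂ[X]).eval ζ₀ = ∑ k ∈ Finset.range (m + 1), q i k * ζ₀ ^ k := by
        simp [Polynomial.eval_finsetSum]
      rw [h2]
      have h3 : (fun n => (((L n)⁻¹ : ℝ) : ℂ) * (p n i).eval (ζ n)) =
          fun n => ∑ k ∈ Finset.range (m + 1), ((((L n)⁻¹ : ℝ) : ℂ) * (p n i).coeff k) * ζ n ^ k := by
        funext n
        rw [Polynomial.eval_eq_sum_range' (Nat.lt_succ_of_le (hd n i)), Finset.mul_sum]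
        exact Finset.sum_congr rfl fun k _ => by ring
      rw [h3]
      exact tendsto_finsetSum _ fun k hk => (hq i k hk).mul (hζ.pow k)
    have h2 : Tendsto (fun n => (fun i => (((L n)⁻¹ : ℝ) : ℂ) * (p n i).eval (ζ n) : Fin (N + 1) → ℂ)) 𝒰
        (𝓝 (fun i => (∑ k ∈ Finset.range (m + 1), C (q i k) * X ^ k : ℂ[X]).eval ζ₀)) := tendsto_pi_nhds.2 h1
    exact ((PiLp.continuous_toLp 2 (fun _ : Fin (N + 1) => ℂ)).tendsto _).comp h2

/-- **Every rescaling at a bubble point has a polynomial limit.** -/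
theorem poly_lim {Φ : ℕ → ℂ → EuclideanSpace ℂ (Fin (N + 1))} {w : ℂ} {m : ℕ} {G : ℂ → EuclideanSpace ℂ (Fin (N + 1))} {r : ℝ}
    (h : Obj 𝒰 Φ w m G r) {b : ℕ → ℂ} {ρ : ℕ → ℝ} (hb : Tendsto b 𝒰 (𝓝 w)) (hρ : Tendsto ρ 𝒰 (𝓝 0)) :
    ∃ (l : ℕ → ℝ) (P : Fin (N + 1) → ℂ[X]), (∀ᶠ n in (𝒰 : Filter ℕ), 0 < l n) ∧ (∃ i, P i ≠ 0) ∧ (∀ i, (P i).natDegree ≤ m) ∧
      CC 𝒰 (fun n ζ => (l n : ℂ) • Φ n (b n + ρ n * ζ)) (vec P) Set.univ := by
  obtain ⟨ℓ, hℓ⟩ : ∃ ℓ : EuclideanSpace ℂ (Fin (N + 1)) →L[ℂ] ℂ, ℓ (G w) = 1 := by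
    obtain ⟨g, -, hg⟩ := exists_dual_vector ℂ (G w) (norm_ne_zero_iff.2 h.nzG)
    refine ⟨((‖G w‖ : ℂ))⁻¹ • g, ?_⟩
    have : ((‖G w‖ : ℂ)) ≠ 0 := by
      rw [Ne, Complex.ofReal_eq_zero, norm_eq_zero]
      exact h.nzG
    rw [smul_apply, hg, smul_eq_mul]
    exact inv_mul_cancel₀ this
  have hk : DifferentiableOn ℂ (fun z => ℓ (G z)) (ball w r) := ℓ.differentiable.comp_differentiableOn h.holG
  obtain ⟨r₁, hr₁, hr₁r, hk0⟩ : ∃ r₁, 0 < r₁ ∧ r₁ ≤ r ∧ ∀ z ∈ ball w r₁, ℓ (G z) ≠ 0 := by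
    have h1 : ∀ᶠ z in 𝓝 w, ℓ (G z) ≠ 0 :=
      (hk.continuousOn.continuousAt (ball_mem_nhds w h.pos)).eventually_ne (by rw [hℓ]; exact one_ne_zero)
    obtain ⟨s, hs, hs'⟩ := Metric.mem_nhds_iff.1 h1
    exact ⟨min s r, lt_min hs h.pos, min_le_right _ _, fun z hz => hs' (ball_subset_ball (min_le_left _ _) hz)⟩
  have hsub : ball w r₁ ⊆ ball w r := ball_subset_ball hr₁r
  obtain ⟨a, q, ha, hq1, hq2, hq3⟩ := weier (𝒰 := 𝒰) hr₁ (hk.mono hsub) (hk0 w (mem_ball_self hr₁)) m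
    (h := fun n z => ℓ (Φ n z)) (h.hol.mono fun n hn => (ℓ.differentiable.comp_differentiableOn hn).mono hsub) (by
      intro z₀ hz₀ z hz
      have h1 := (ℓ.continuous.tendsto _).comp (h.cc z₀ (hsub hz₀) z hz)
      simpa [Function.comp_def] using h1)
  set r₂ : ℝ := r₁ / 2 with hr₂
  have hr₂0 : 0 < r₂ := by positivity
  have hsub2 : ball w r₂ ⊆ ball w r₁ := ball_subset_ball (by linarith)
  have hqn : ∀ᶠ n in (𝒰 : Filter ℕ), ∀ z ∈ ball w r₂, q n z ≠ 0 := by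
    have h1 := hq3.ne_zero hk0 (isCompact_closedBall w r₂) (closedBall_subset_ball (by linarith))
    exact h1.mono fun n hn z hz => hn z (ball_subset_closedBall hz)
  set F : ℕ → ℂ → EuclideanSpace ℂ (Fin (N + 1)) := fun n z => (q n z)⁻¹ • Φ n z with hFdef
  set g : ℂ → EuclideanSpace ℂ (Fin (N + 1)) := fun z => (ℓ (G z))⁻¹ • G z with hgdef
  have hgw : g w = G w := by simp [hgdef, hℓ]
  have hFd : ∀ᶠ n in (𝒰 : Filter ℕ), DifferentiableOn ℂ (F n) (ball w r₂) := by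
    filter_upwards [hqn, hq1, h.hol] with n h1 h2 h3
    exact ((h2.mono hsub2).inv h1).smul (h3.mono (hsub2.trans hsub))
  have hgd : DifferentiableOn ℂ g (ball w r₂) :=
    ((hk.mono (hsub2.trans hsub)).inv fun z hz => hk0 z (hsub2 hz)).smul (h.holG.mono (hsub2.trans hsub))
  have hFc : CC 𝒰 F (fun z => (z - w) ^ m • g z) (ball w r₂) := by
    intro z₀ hz₀ z hz
    have h1 := ((hq3 z₀ (hsub2 hz₀) z hz).inv₀ (hk0 z₀ (hsub2 hz₀))).smul (h.cc z₀ (hsub (hsub2 hz₀)) z hz)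
    have h2 : (ℓ (G z₀))⁻¹ • (z₀ - w) ^ m • G z₀ = (z₀ - w) ^ m • g z₀ := by
      rw [hgdef, smul_comm]
    rw [h2] at h1
    exact h1
  have hit := cc_it hr₂0 ha hFd hgd hFc
  set c : ℕ → ℕ → EuclideanSpace ℂ (Fin (N + 1)) := fun j n => it (F n) (fun i => a i n) j (a j n) with hcdef
  have hS : CC 𝒰 (fun n => it (F n) (fun i => a i n) m) g (ball w r₂) :=
    ((hit m 0 (by omega)).2).congr fun z _ => by simp
  -- the polynomials
  set A : ℕ → ℕ → ℂ[X] := fun k n => C (b n - a k n) + C (ρ n : ℂ) * X with hA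
  set p : ℕ → Fin (N + 1) → ℂ[X] := fun n i => ∑ j ∈ Finset.range m, (∏ k ∈ Finset.range j, A k n) * C (c j n i) +
    (∏ k ∈ Finset.range m, A k n) * C (G w i) with hp
  have hAd : ∀ k n, (A k n).natDegree ≤ 1 := by
    intro k n
    refine (Polynomial.natDegree_add_le _ _).trans (max_le ?_ ?_)
    · rw [Polynomial.natDegree_C]
      exact zero_le_one
    · exact (Polynomial.natDegree_C_mul_le _ _).trans Polynomial.natDegree_X_le
  have hAp : ∀ j n, (∏ k ∈ Finset.range j, A k n).natDegree ≤ j := by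
    intro j n
    refine (Polynomial.natDegree_prod_le _ _).trans ?_
    refine (Finset.sum_le_sum fun k _ => hAd k n).trans ?_
    simp
  have hpd : ∀ n i, (p n i).natDegree ≤ m := by
    intro n i
    refine (Polynomial.natDegree_add_le _ _).trans (max_le ?_ ?_)
    · refine Polynomial.natDegree_sum_le_of_forall_le _ _ fun j hj => ?_
      exact (Polynomial.natDegree_mul_C_le _ _).trans ((hAp j n).trans (Finset.mem_range.1 hj).le)
    · exact (Polynomial.natDegree_mul_C_le _ _).trans (hAp m n)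
  have hpe : ∀ n (ζ : ℂ), vec (p n) ζ = ∑ j ∈ Finset.range m, (∏ k ∈ Finset.range j, (b n + ρ n * ζ - a k n)) • c j n +
      (∏ k ∈ Finset.range m, (b n + ρ n * ζ - a k n)) • G w := by
    intro n ζ
    have h1 : ∀ k, (A k n).eval ζ = b n + ρ n * ζ - a k n := by
      intro k
      rw [hA]
      simp only [Polynomial.eval_add, Polynomial.eval_C, Polynomial.eval_mul, Polynomial.eval_X]
      ring
    ext i
    rw [vec_apply, hp]
    simp [Polynomial.eval_finsetSum, Polynomial.eval_prod, h1]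
  have hx : ∀ {ζ₀ : ℂ} {ζ : ℕ → ℂ}, Tendsto ζ 𝒰 (𝓝 ζ₀) → Tendsto (fun n => b n + ρ n * ζ n) 𝒰 (𝓝 w) := by
    intro ζ₀ ζ hζ
    have h1 : Tendsto (fun n => (ρ n : ℂ) * ζ n) 𝒰 (𝓝 ((0 : ℂ) * ζ₀)) :=
      ((Complex.continuous_ofReal.tendsto' 0 0 (by simp)).comp hρ).mul hζ
    have := hb.add h1
    simpa using this
  set e : ℕ → ℂ → EuclideanSpace ℂ (Fin (N + 1)) := fun n z => it (F n) (fun i => a i n) m z - G w with he
  have hkey : ∀ᶠ n in (𝒰 : Filter ℕ), ∀ ζ : ℂ, b n + ρ n * ζ ∈ ball w r₂ →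
      F n (b n + ρ n * ζ) = vec (p n) ζ + ℓ (F n (b n + ρ n * ζ)) • e n (b n + ρ n * ζ) := by
    filter_upwards [hqn, hq2] with n h1 h2 ζ h3
    have h4 : ℓ (F n (b n + ρ n * ζ)) = ∏ k ∈ Finset.range m, (b n + ρ n * ζ - a k n) := by
      have h5 := h2 (b n + ρ n * ζ)
      rw [hFdef]
      simp only [map_smul, smul_eq_mul]
      rw [h5]
      field_simp [h1 _ h3]
    rw [h4, hpe, he, smul_sub]
    conv_lhs => rw [newton (F n) (fun i => a i n) m (b n + ρ n * ζ)]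
    abel
  have het : ∀ {ζ₀ : ℂ} {ζ : ℕ → ℂ}, Tendsto ζ 𝒰 (𝓝 ζ₀) → Tendsto (fun n => e n (b n + ρ n * ζ n)) 𝒰 (𝓝 0) := by
    intro ζ₀ ζ hζ
    have h1 := (hS w (mem_ball_self hr₂0) _ (hx hζ)).sub_const (G w)
    rw [hgw, sub_self] at h1
    exact h1
  have hFf : ∀ {ζ₀ : ℂ} {ζ : ℕ → ℂ}, Tendsto ζ 𝒰 (𝓝 ζ₀) → ∀ᶠ n in (𝒰 : Filter ℕ), (1 - ℓ (e n (b n + ρ n * ζ n)) ≠ 0) ∧
      F n (b n + ρ n * ζ n) = vec (p n) (ζ n) + ((1 - ℓ (e n (b n + ρ n * ζ n)))⁻¹ * ℓ (vec (p n) (ζ n))) • e n (b n + ρ n * ζ n) := by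
    intro ζ₀ ζ hζ
    have h1 : Tendsto (fun n => 1 - ℓ (e n (b n + ρ n * ζ n))) 𝒰 (𝓝 1) := by
      have h2 := ((ℓ.continuous.tendsto _).comp (het hζ)).const_sub 1
      rw [map_zero, sub_zero] at h2
      exact h2
    filter_upwards [h1.eventually_ne one_ne_zero, hkey, (hx hζ).eventually (ball_mem_nhds w hr₂0)] with n h2 h3 h4
    refine ⟨h2, ?_⟩
    have h5 := h3 (ζ n) h4
    have h6 : ℓ (F n (b n + ρ n * ζ n)) = (1 - ℓ (e n (b n + ρ n * ζ n)))⁻¹ * ℓ (vec (p n) (ζ n)) := by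
      generalize F n (b n + ρ n * ζ n) = x at h5 ⊢
      have h7 := congrArg ℓ h5
      rw [map_add, map_smul, smul_eq_mul] at h7
      rw [eq_inv_mul_iff_mul_eq₀ h2]
      linear_combination h7
    rw [← h6]
    exact h5
  -- the polynomials are not zero
  have hp0 : ∀ᶠ n in (𝒰 : Filter ℕ), ∃ i, p n i ≠ 0 := by
    filter_upwards [hFf (ζ := fun _ => 0) tendsto_const_nhds, hqn, h.nz, (hx (ζ := fun _ => (0 : ℂ)) tendsto_const_nhds).eventually
      (ball_mem_nhds w hr₂0)] with n h1 h2 h3 h4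
    by_contra hcon
    push Not at hcon
    have h5 : vec (p n) 0 = 0 := by
      ext i
      rw [vec_apply, hcon i]
      simp
    have h6 : F n (b n + ρ n * 0) = 0 := by
      rw [h1.2, h5, map_zero]
      simp
    exact smul_ne_zero (inv_ne_zero (h2 _ h4)) (h3 _ (hsub (hsub2 h4))) h6
  obtain ⟨l, P, hl, hP0, hPd, hPl⟩ := exists_poly_lim p hpd hp0
  refine ⟨l, P, hl, hP0, hPd, ?_⟩
  intro ζ₀ _ ζ hζ
  have h1 := hPl ζ₀ ζ hζ
  have h2 : Tendsto (fun n => (l n : ℂ) • F n (b n + ρ n * ζ n)) 𝒰 (𝓝 (vec P ζ₀)) := by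
    have h3 : Tendsto (fun n => (l n : ℂ) • vec (p n) (ζ n) + ((1 - ℓ (e n (b n + ρ n * ζ n)))⁻¹ * ℓ ((l n : ℂ) • vec (p n) (ζ n))) •
        e n (b n + ρ n * ζ n)) 𝒰 (𝓝 (vec P ζ₀ + ((1 - ℓ 0)⁻¹ * ℓ (vec P ζ₀)) • 0)) := by
      refine h1.add (Tendsto.smul (Tendsto.mul (Tendsto.inv₀ (((ℓ.continuous.tendsto _).comp (het hζ)).const_sub 1) ?_)
        ((ℓ.continuous.tendsto _).comp h1)) (het hζ))
      rw [map_zero, sub_zero]
      exact one_ne_zero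
    rw [smul_zero, add_zero] at h3
    refine h3.congr' ?_
    filter_upwards [hFf hζ] with n h4
    rw [h4.2, smul_add, map_smul, smul_eq_mul, smul_smul]
    congr 2
    ring
  have h3 := (hq3 w (mem_ball_self hr₁) _ (hx hζ)).smul h2
  beta_reduce at h3
  rw [hℓ, one_smul] at h3
  refine h3.congr' ?_
  filter_upwards [hqn, (hx hζ).eventually (ball_mem_nhds w hr₂0)] with n h4 h5
  rw [hFdef]
  simp only
  rw [smul_comm (q n (b n + ρ n * ζ n)), smul_smul (q n (b n + ρ n * ζ n)), mul_inv_cancel₀ (h4 _ h5), one_smul]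

end Pool.Agent.SY
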