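import Pool.Agent.UC.Defs
import Pool.Agent.H74.NB.Child
import Pool.Agent.H14.PP.Defs

/-!
# SY BdR: a vector of polynomials with values in the cone gives a rational curve
-/

set_option autoImplicit false

open Topology Filter Metric Polynomial

noncomputable section

namespace Pool.Agent.SY

open Pool.Agent.H74.NB (vec vec_apply vec_differentiable exists_factor vec_ne_zero)
open Pool.Agent.H36.BP (EN)
open Pool.Agent.H14.PP (IsCone)
open Pool.Agent.UC (RatC)

variable {N : ℕ}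

theorem cone_mem_of_frequently {X : Set (EN N)} (hX : IsCone X) {z : ℂ} {F : ℂ → EN N} (hF : ContinuousAt F z) (hz : F z ≠ 0)
    (h : ∃ᶠ y in 𝓝 z, F y ∈ X) : F z ∈ X := by
  have h1 : F z ∈ closure (insert 0 X) := by
    rw [mem_closure_iff_frequently]
    exact hF.tendsto.frequently (h.mono fun y hy => Set.mem_insert_of_mem _ hy)
  rw [hX.closed.closure_eq] at h1
  exact h1.resolve_left hz

theorem vec_reflect {d : ℕ} (K : Fin (N + 1) → ℂ[X]) (hK : ∀ i, (K i).natDegree ≤ d) (z : ℂ) (hz : z ≠ 0) :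
    vec K z = z ^ d • vec (fun i => (K i).reflect d) z⁻¹ := by
  ext i
  have : Invertible z := invertibleOfNonzero hz
  have h1 := Polynomial.eval₂_reflect_mul_pow (RingHom.id ℂ) z d (K i) (hK i)
  rw [invOf_eq_inv] at h1
  simp only [PiLp.smul_apply, vec_apply, smul_eq_mul, Polynomial.eval]
  rw [← h1, mul_comm]

theorem poly_ev_ne {c : ℂ[X]} (hc : c ≠ 0) (z : ℂ) : ∀ᶠ y in 𝓝[≠] z, c.eval y ≠ 0 := by
  have e2 : ((c.roots.toFinset.erase z : Finset ℂ) : Set ℂ)ᶜ ∈ 𝓝 z :=
    (Finset.isClosed _).isOpen_compl.mem_nhds (by simp)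
  filter_upwards [self_mem_nhdsWithin, mem_nhdsWithin_of_mem_nhds e2] with y hy1 hy2 hy3
  refine hy2 ?_
  rw [Finset.mem_coe, Finset.mem_erase, Multiset.mem_toFinset]
  exact ⟨hy1, (Polynomial.mem_roots hc).2 hy3⟩

/-- a vector of polynomials of degree at most `m` with values in the cone is a multiple of a rational curve of degree at most `m` -/
theorem ratC_of_poly {X : Set (EN N)} (hX : IsCone X) {m : ℕ} {P : Fin (N + 1) → ℂ[X]} (h0 : ∃ i, P i ≠ 0)
    (hd : ∀ i, (P i).natDegree ≤ m) (hPX : ∀ z, vec P z ≠ 0 → vec P z ∈ X) :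
    ∃ (c : ℂ[X]) (d : ℕ) (K K' : ℂ → EN N), c ≠ 0 ∧ d ≤ m ∧ RatC X d K K' ∧ (∀ z, vec P z = c.eval z • K z) ∧
      (d = 0 → ∀ z w, K z = K w) := by
  obtain ⟨c, K, hcm, hcK, hK⟩ := exists_factor P h0
  have hc0 : c ≠ 0 := hcm.ne_zero
  have hveq : ∀ ζ, vec P ζ = c.eval ζ • vec K ζ := by
    intro ζ
    ext i
    rw [vec_apply, hcK i, Polynomial.eval_mul]
    rfl
  have hvK : ∀ a, vec K a ≠ 0 := fun a => by
    obtain ⟨i, hi⟩ := hK a
    exact vec_ne_zero hi
  have hmem : ∀ z, vec K z ∈ X := by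
    intro z
    refine cone_mem_of_frequently hX (vec_differentiable K).continuous.continuousAt (hvK z) ?_
    have e1 : ∀ᶠ y in 𝓝[≠] z, vec K y ∈ X := by
      filter_upwards [poly_ev_ne hc0 z] with y hy
      have e2 := hX.smul_mem _ (hPX y (by rw [hveq]; exact smul_ne_zero hy (hvK y))) (c.eval y)⁻¹ (inv_ne_zero hy)
      rwa [hveq, smul_smul, inv_mul_cancel₀ hy, one_smul] at e2
    exact e1.frequently.filter_mono nhdsWithin_le_nhds
  obtain ⟨i₁, hi₁m, hi₁⟩ := Finset.exists_max_image ((Finset.univ : Finset (Fin (N + 1))).filter fun i => K i ≠ 0)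
    (fun i => (K i).natDegree) (by
      obtain ⟨i, hi⟩ := hK 0
      refine ⟨i, Finset.mem_filter.2 ⟨Finset.mem_univ _, fun h1 => hi ?_⟩⟩
      rw [h1, Polynomial.eval_zero])
  have hKi : K i₁ ≠ 0 := (Finset.mem_filter.1 hi₁m).2
  obtain ⟨d, hdd⟩ : ∃ d, d = (K i₁).natDegree := ⟨_, rfl⟩
  have hKd : ∀ i, (K i).natDegree ≤ d := by
    intro i
    by_cases h1 : K i = 0
    · rw [h1, Polynomial.natDegree_zero]
      exact Nat.zero_le _
    · exact hdd ▸ hi₁ i (Finset.mem_filter.2 ⟨Finset.mem_univ _, h1⟩)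
  have hdm : d ≤ m := by
    have h1 := hd i₁
    rw [hcK i₁, Polynomial.natDegree_mul hc0 hKi] at h1
    omega
  have hK'0 : vec (fun i => (K i).reflect d) 0 ≠ 0 := by
    refine vec_ne_zero (i := i₁) ?_
    rw [← Polynomial.coeff_zero_eq_eval_zero, Polynomial.coeff_reflect, Polynomial.revAt_le (Nat.zero_le d), Nat.sub_zero, hdd,
      Polynomial.coeff_natDegree]
    exact Polynomial.leadingCoeff_ne_zero.2 hKi
  have hmem' : ∀ z, z ≠ 0 → vec (fun i => (K i).reflect d) z ∈ X := by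
    intro z hz
    have e1 := vec_reflect K hKd z⁻¹ (inv_ne_zero hz)
    rw [inv_inv] at e1
    have e2 : vec (fun i => (K i).reflect d) z = z ^ d • vec K z⁻¹ := by
      rw [e1, smul_smul, ← mul_pow, mul_inv_cancel₀ hz, one_pow, one_smul]
    rw [e2]
    exact hX.smul_mem _ (hmem _) _ (pow_ne_zero _ hz)
  refine ⟨c, d, vec K, vec (fun i => (K i).reflect d), hc0, hdm, ⟨vec_differentiable _, vec_differentiable _, hmem, fun z => ?_,
    fun z hz => vec_reflect K hKd z hz⟩, hveq, fun h1 z w => ?_⟩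
  · by_cases hz : z = 0
    · subst hz
      refine cone_mem_of_frequently hX (vec_differentiable _).continuous.continuousAt hK'0 ?_
      have e1 : ∀ᶠ y in 𝓝[≠] (0 : ℂ), vec (fun i => (K i).reflect d) y ∈ X := by
        filter_upwards [self_mem_nhdsWithin] with y hy
        exact hmem' y hy
      exact e1.frequently.filter_mono nhdsWithin_le_nhds
    · exact hmem' z hz
  · ext i
    have h2 : (K i).natDegree ≤ 0 := h1 ▸ hKd i
    rw [vec_apply, vec_apply, Polynomial.eq_C_of_natDegree_le_zero h2, Polynomial.eval_C, Polynomial.eval_C]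

end Pool.Agent.SY
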