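import Pool.Agent.SY.Cp
import Pool.Agent.SY.BdP
import Pool.Agent.SY.BdR
import Pool.Agent.SY.BdZ
import Pool.Agent.H62.EF.LimL

/-!
# SY BdN: step (a), `g (F n)` is bounded near a bubble when the rational curves lie in `T`

`bound_near`: `Φ n = (unit) • F n` converges to `(z - w) ^ m • G z` near `w`, `G w ≠ 0`, and the rational curves of degree at most `m` in `X` lie
in `T`.  Then `g (F n)` is bounded near `w`.  Otherwise rescale at the maximum of `g` (Zalcman): the limit of the rescaled curves is neither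
constant nor contained in `T` (`exists_limit`), and it is a rational curve of degree at most `m` (`poly_lim`, `ratC_of_poly`).
-/

set_option autoImplicit false

open Topology Filter Metric

noncomputable section

namespace Pool.Agent.SY

open Pool.Agent.H36.BP (EN OrdTwo)
open Pool.Agent.H14.PP (IsCone)
open Pool.Agent.H74.NB (CC Obj vec)
open Pool.Agent.H62.EF (pr pr_smul pr_eq_iff continuousAt_pr)
open Pool.Agent.UC (RatC)

variable {N : ℕ} {X T : Set (EN N)} {rho : EN N → ℝ} {M : ℕ} {c₀ C : ℝ} {g : (ℂ → EN N) → ℂ → ℝ}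

theorem bound_near_unif {ι : Type*} {l : Filter ι} (hX : IsCone X) (hTs : ∀ x ∈ T, ∀ c : ℂ, c ≠ 0 → c • x ∈ T)
    (E : Energy X T (fun x => ‖x‖) rho M c₀ C g)
    {F : ι → ℂ → EN N} (hF : ∀ᶠ n in l, Ent X T (F n)) {Φ : ι → ℂ → EN N} {w : ℂ} {m : ℕ} {G : ℂ → EN N} {r : ℝ} (hr : 0 < r)
    (hΦ : ∀ᶠ n in l, DifferentiableOn ℂ (Φ n) (ball w r) ∧ ∀ z ∈ ball w r, ∃ c : ℂ, c ≠ 0 ∧ Φ n z = c • F n z)
    (hG : DifferentiableOn ℂ G (ball w r)) (hG0 : G w ≠ 0)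
    (hlim : ∀ ε : ℝ, 0 < ε → ∀ᶠ n in l, ∀ z ∈ ball w r, ‖Φ n z - (z - w) ^ m • G z‖ < ε)
    (hrat : ∀ (d : ℕ) (K K' : ℂ → EN N), 1 ≤ d → d ≤ m → RatC X d K K' → ∀ z, K z ∈ T) :
    ∃ s B : ℝ, 0 < s ∧ s ≤ r ∧ ∀ᶠ n in l, ∀ z ∈ ball w s, g (F n) z ≤ B := by
  by_contra hcon
  push Not at hcon
  have hX0 : ∀ x ∈ X, x ≠ 0 := fun x hx h => hX.zero_notMem (h ▸ hx)
  have hch : ∀ j : ℕ, ∃ n : ι, Ent X T (F n) ∧ (DifferentiableOn ℂ (Φ n) (ball w r) ∧ ∀ z ∈ ball w r, ∃ c : ℂ, c ≠ 0 ∧ Φ n z = c • F n z) ∧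
      (∀ z ∈ ball w r, ‖Φ n z - (z - w) ^ m • G z‖ < 1 / ((j : ℝ) + 1)) ∧
      ∃ z ∈ ball w (r / ((j : ℝ) + 1)), 4 * ((j : ℝ) + 1) / (r / ((j : ℝ) + 1)) < g (F n) z := by
    intro j
    have h1 : (0 : ℝ) ≤ j := Nat.cast_nonneg j
    have h2 := hcon (r / ((j : ℝ) + 1)) (4 * ((j : ℝ) + 1) / (r / ((j : ℝ) + 1))) (by positivity) (div_le_self hr.le (by linarith))
    obtain ⟨n, ⟨⟨h3, h4⟩, h5⟩, h6⟩ := (h2.and_eventually ((hF.and hΦ).and (hlim (1 / ((j : ℝ) + 1)) (by positivity)))).exists.imp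
      fun n hn => (⟨⟨⟨hn.2.1.1, hn.2.1.2⟩, hn.2.2⟩, hn.1⟩ : ((Ent X T (F n) ∧ _) ∧ _) ∧ _)
    exact ⟨n, h3, h4, h5, h6⟩
  choose n hE hΦn hun z hz hbig using hch
  have hj0 : ∀ j : ℕ, (0 : ℝ) < (j : ℝ) + 1 := fun j => by positivity
  have hs0 : ∀ j : ℕ, 0 < r / ((j : ℝ) + 1) := fun j => div_pos hr (hj0 j)
  have hresc := fun j : ℕ => rescale_g_loc E (hE j) j (zc := z j) (hs0 j) (by
    have := hbig j
    rw [div_lt_iff₀ (hs0 j)] at this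
    rw [mul_comm (r / ((j : ℝ) + 1))]
    exact this)
  choose ρ b hρ hρs hbz h1 h2 using hresc
  obtain ⟨𝒰, h𝒰⟩ : ∃ 𝒰 : Ultrafilter ℕ, 𝒰 = hyperfilter ℕ := ⟨_, rfl⟩
  have hle : (𝒰 : Filter ℕ) ≤ atTop := by rw [h𝒰]; exact Nat.hyperfilter_le_atTop
  have hj : Tendsto (fun j : ℕ => r / ((j : ℝ) + 1)) 𝒰 (𝓝 0) := by
    have h3 : Tendsto (fun k : ℕ => (k : ℝ) + 1) 𝒰 atTop :=
      (tendsto_atTop_add_const_right _ _ tendsto_natCast_atTop_atTop).mono_left hle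
    exact h3.const_div_atTop r
  have hone : Tendsto (fun j : ℕ => 1 / ((j : ℝ) + 1)) 𝒰 (𝓝 0) := by
    have h3 : Tendsto (fun k : ℕ => (k : ℝ) + 1) 𝒰 atTop :=
      (tendsto_atTop_add_const_right _ _ tendsto_natCast_atTop_atTop).mono_left hle
    exact h3.const_div_atTop 1
  have hρt : Tendsto ρ 𝒰 (𝓝 0) := by
    refine squeeze_zero (fun j => (hρ j).le) (fun j => ?_) hj
    have h3 := hρs j
    have h4 : (0 : ℝ) ≤ j := Nat.cast_nonneg j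
    have h5 := hρ j
    nlinarith
  have hbt : Tendsto b 𝒰 (𝓝 w) := by
    rw [tendsto_iff_norm_sub_tendsto_zero]
    have h3 := hj.const_mul (2 : ℝ)
    rw [mul_zero] at h3
    refine squeeze_zero (fun j => norm_nonneg _) (fun j => ?_) h3
    have h4 := hbz j
    have h5 : ‖z j - w‖ < r / ((j : ℝ) + 1) := by
      have := hz j
      rwa [mem_ball_iff_norm] at this
    have h6 : b j - w = (b j - z j) + (z j - w) := by ring
    rw [h6]
    refine (norm_add_le _ _).trans ?_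
    have h7 := hs0 j
    linarith
  -- the rescaled curves
  have hρc : ∀ j, ((ρ j : ℝ) : ℂ) ≠ 0 := fun j => by exact_mod_cast (hρ j).ne'
  obtain ⟨F', hF'⟩ : ∃ F' : ℕ → ℂ → EN N, F' = fun j ζ => F (n j) ((ρ j : ℂ) * ζ + b j) := ⟨_, rfl⟩
  have hF'E : ∀ j, Ent X T (F' j) := by
    intro j
    rw [hF']
    refine ⟨(hE j).diff.comp ((differentiable_id.const_mul _).add_const _), fun ζ => (hE j).mem _, ?_⟩
    obtain ⟨y, hy⟩ := (hE j).out
    refine ⟨(y - b j) / ρ j, ?_⟩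
    have h3 : (ρ j : ℂ) * ((y - b j) / ρ j) + b j = y := by
      field_simp [hρc j]
      ring
    show F (n j) ((ρ j : ℂ) * ((y - b j) / ρ j) + b j) ∉ T
    rw [h3]
    exact hy
  obtain ⟨H, hH, hHX, -, hHT, ⟨z₁, w₁, hne⟩, hlimH⟩ := exists_limit hX hTs E 𝒰 hle F' hF'E one_pos (A := 2)
    (fun j ζ hζ => by rw [hF']; exact h2 j ζ hζ) (fun j => by rw [hF']; exact (h1 j).ge)
  -- the polynomial limit
  have hobj : Obj 𝒰 (fun j => Φ (n j)) w m G r := by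
    refine ⟨hr, Eventually.of_forall fun j => (hΦn j).1, Eventually.of_forall fun j y hy => ?_, ?_, hG, hG0⟩
    · obtain ⟨c, hc, h3⟩ := (hΦn j).2 y hy
      rw [h3]
      exact smul_ne_zero hc (hX0 _ ((hE j).mem y))
    · intro y₀ hy₀ y hy
      have h3 : ContinuousAt (fun z => (z - w) ^ m • G z) y₀ := by
        have h4 : ContinuousAt G y₀ := hG.continuousOn.continuousAt (isOpen_ball.mem_nhds hy₀)
        fun_prop
      have h4 : Tendsto (fun j => (y j - w) ^ m • G (y j)) 𝒰 (𝓝 ((y₀ - w) ^ m • G y₀)) := h3.tendsto.comp hy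
      have h5 : Tendsto (fun j => Φ (n j) (y j) - (y j - w) ^ m • G (y j)) 𝒰 (𝓝 0) := by
        rw [tendsto_zero_iff_norm_tendsto_zero]
        refine squeeze_zero' (Eventually.of_forall fun j => norm_nonneg _) ?_ hone
        filter_upwards [hy.eventually (isOpen_ball.mem_nhds hy₀)] with j hyj
        exact (hun j _ hyj).le
      have h6 := h5.add h4
      simpa using h6
  obtain ⟨l', P, hl', hP0, hPd, hPl⟩ := poly_lim hobj hbt hρt
  have hmem : ∀ ζ : ℂ, ∀ᶠ j in (𝒰 : Filter ℕ), b j + ρ j * ζ ∈ ball w r := by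
    intro ζ
    have h3 : Tendsto (fun j => b j + ρ j * ζ) 𝒰 (𝓝 (w + (0 : ℂ) * ζ)) :=
      hbt.add (((Complex.continuous_ofReal.tendsto' 0 0 (by simp)).comp hρt).mul_const ζ)
    rw [zero_mul, add_zero] at h3
    exact h3.eventually (ball_mem_nhds w hr)
  have hrel : ∀ ζ : ℂ, ∀ᶠ j in (𝒰 : Filter ℕ), ∃ c : ℂ, c ≠ 0 ∧ (l' j : ℂ) • Φ (n j) (b j + ρ j * ζ) = c • F' j ζ := by
    intro ζ
    filter_upwards [hmem ζ, hl'] with j h3 h4
    obtain ⟨c, hc, h5⟩ := (hΦn j).2 _ h3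
    refine ⟨l' j * c, mul_ne_zero (by exact_mod_cast h4.ne') hc, ?_⟩
    rw [h5, smul_smul, hF', add_comm (b j)]
  have hPt : ∀ ζ : ℂ, Tendsto (fun j => (l' j : ℂ) • Φ (n j) (b j + ρ j * ζ)) 𝒰 (𝓝 (vec P ζ)) := fun ζ =>
    hPl ζ (Set.mem_univ _) (fun _ => ζ) tendsto_const_nhds
  have hPX : ∀ ζ, vec P ζ ≠ 0 → vec P ζ ∈ X := by
    intro ζ hζ
    have h3 : vec P ζ ∈ insert 0 X := by
      refine hX.closed.mem_of_tendsto (hPt ζ) ?_
      filter_upwards [hrel ζ] with j hj'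
      obtain ⟨c, hc, h4⟩ := hj'
      rw [h4]
      exact Set.mem_insert_of_mem _ (hX.smul_mem _ ((hF'E j).mem ζ) c hc)
    exact h3.resolve_left hζ
  obtain ⟨c, d, K, K', hc0, hdm, hRat, hPK, hd0⟩ := ratC_of_poly hX hP0 hPd hPX
  -- the two limits coincide
  have hloc : ∀ z₀ : ℂ, ∀ᶠ ζ in 𝓝[≠] z₀, pr (H ζ) = pr (K ζ) := by
    intro z₀
    obtain ⟨R, hR⟩ := exists_nat_gt ‖z₀‖
    have hR1 : 1 ≤ R := by
      by_contra hc
      have : R = 0 := by omega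
      rw [this, Nat.cast_zero] at hR
      linarith [norm_nonneg z₀]
    obtain ⟨v, HR, hv, hconv, hdiff, -, hfac⟩ := hlimH R hR1
    have hz₀ : z₀ ∈ ball (0 : ℂ) R := by rwa [mem_ball_zero_iff]
    obtain ⟨k, u, hu, hu0, hev⟩ := hfac z₀ hz₀
    have hwev : ∀ᶠ z in 𝓝 z₀, u z ≠ 0 := hu.continuousAt.eventually_ne hu0
    have hbev : ∀ᶠ z in 𝓝 z₀, z ∈ ball (0 : ℂ) R := isOpen_ball.mem_nhds hz₀
    filter_upwards [mem_nhdsWithin_of_mem_nhds hev, mem_nhdsWithin_of_mem_nhds hwev, mem_nhdsWithin_of_mem_nhds hbev,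
      poly_ev_ne hc0 z₀, self_mem_nhdsWithin] with ζ g1 g2 g3 g4 g5
    have g5' : ζ ≠ z₀ := g5
    have g1' : HR ζ = (ζ - z₀) ^ k • (u ζ • H ζ) := g1
    have g2' : u ζ ≠ 0 := g2
    have g3' : ζ ∈ ball (0 : ℂ) R := g3
    have g6 : (ζ - z₀) ^ k * u ζ ≠ 0 := mul_ne_zero (pow_ne_zero _ (sub_ne_zero.2 g5')) g2'
    rw [smul_smul] at g1'
    have g7 : HR ζ ≠ 0 := by
      rw [g1']
      exact smul_ne_zero g6 (hX0 _ (hHX ζ))
    have g8 : vec P ζ ≠ 0 := by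
      rw [hPK]
      exact smul_ne_zero g4 (hX0 _ (hRat.mem ζ))
    have g9 : Tendsto (fun j => pr (F' j ζ)) 𝒰 (𝓝 (pr (H ζ))) := by
      have k1 : Tendsto (fun j => pr (Complex.exp (v j ζ) • F' j ζ)) 𝒰 (𝓝 (pr (HR ζ))) :=
        (continuousAt_pr g7).tendsto.comp (hconv.tendsto_at g3')
      rw [g1', pr_smul _ g6] at k1
      refine k1.congr fun j => ?_
      rw [pr_smul _ (Complex.exp_ne_zero _)]
    have g10 : Tendsto (fun j => pr (F' j ζ)) 𝒰 (𝓝 (pr (K ζ))) := by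
      have k1 : Tendsto (fun j => pr ((l' j : ℂ) • Φ (n j) (b j + ρ j * ζ))) 𝒰 (𝓝 (pr (vec P ζ))) :=
        (continuousAt_pr g8).tendsto.comp (hPt ζ)
      rw [hPK, pr_smul _ g4] at k1
      refine k1.congr' ?_
      filter_upwards [hrel ζ] with j hj'
      obtain ⟨c', hc', k2⟩ := hj'
      rw [k2, pr_smul _ hc']
    exact tendsto_nhds_unique g9 g10
  have hall : ∀ ζ : ℂ, ∃ a : ℂ, a ≠ 0 ∧ H ζ = a • K ζ := by
    intro ζ
    have g1 : Tendsto (fun y => pr (H y)) (𝓝[≠] ζ) (𝓝 (pr (H ζ))) :=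
      ((continuousAt_pr (hX0 _ (hHX ζ))).tendsto.comp (hH.continuous.tendsto ζ)).mono_left nhdsWithin_le_nhds
    have g2 : Tendsto (fun y => pr (K y)) (𝓝[≠] ζ) (𝓝 (pr (K ζ))) :=
      ((continuousAt_pr (hX0 _ (hRat.mem ζ))).tendsto.comp (hRat.diff.continuous.tendsto ζ)).mono_left nhdsWithin_le_nhds
    exact (pr_eq_iff (hX0 _ (hHX ζ)) (hX0 _ (hRat.mem ζ))).1 (tendsto_nhds_unique (g1.congr' (hloc ζ)) g2)
  by_cases hd : d = 0
  · obtain ⟨a, ha, h3⟩ := hall z₁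
    obtain ⟨a', ha', h4⟩ := hall w₁
    refine hne (a * a'⁻¹) ?_
    rw [h3, h4, smul_smul, mul_assoc, inv_mul_cancel₀ ha', mul_one, hd0 hd z₁ w₁]
  · obtain ⟨y, hy⟩ := hHT
    obtain ⟨a, ha, h3⟩ := hall y
    refine hy ?_
    rw [h3]
    exact hTs _ (hrat d K K' (Nat.one_le_iff_ne_zero.2 hd) hdm hRat y) a ha

/-- Step (a).  `Φ n = (unit) • F n` converges to `(z - w) ^ m • G z`, `G w ≠ 0`; the rational curves of degree `≤ m` in `X` lie in `T`.  Then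
`g (F n)` is bounded near `w`. -/
theorem bound_near {ι : Type*} {l : Filter ι} (hX : IsCone X) (hTs : ∀ x ∈ T, ∀ c : ℂ, c ≠ 0 → c • x ∈ T)
    (E : Energy X T (fun x => ‖x‖) rho M c₀ C g)
    {F : ι → ℂ → EN N} (hF : ∀ᶠ n in l, Ent X T (F n)) {Φ : ι → ℂ → EN N} {w : ℂ} {m : ℕ} {G : ℂ → EN N} {r : ℝ} (hr : 0 < r)
    (hΦ : ∀ᶠ n in l, DifferentiableOn ℂ (Φ n) (ball w r) ∧ ∀ z ∈ ball w r, ∃ c : ℂ, c ≠ 0 ∧ Φ n z = c • F n z)
    (hG : DifferentiableOn ℂ G (ball w r)) (hG0 : G w ≠ 0)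
    (hlim : TendstoLocallyUniformlyOn Φ (fun z => (z - w) ^ m • G z) l (ball w r))
    (hrat : ∀ (d : ℕ) (K K' : ℂ → EN N), 1 ≤ d → d ≤ m → RatC X d K K' → ∀ z, K z ∈ T) :
    ∃ s B : ℝ, 0 < s ∧ s ≤ r ∧ ∀ᶠ n in l, ∀ z ∈ ball w s, g (F n) z ≤ B := by
  have hr2 : 0 < r / 2 := by positivity
  have hsub : ball w (r / 2) ⊆ ball w r := ball_subset_ball (by linarith)
  have hcl : closedBall w (r / 2) ⊆ ball w r := closedBall_subset_ball (by linarith)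
  have h1 := (tendstoLocallyUniformlyOn_iff_forall_isCompact isOpen_ball).1 hlim (closedBall w (r / 2)) hcl (isCompact_closedBall _ _)
  obtain ⟨s, B, hs, hsr, h2⟩ := bound_near_unif hX hTs E hF hr2 (Φ := Φ) (G := G) (w := w) (m := m)
    (hΦ.mono fun n hn => ⟨hn.1.mono hsub, fun z hz => hn.2 z (hsub hz)⟩) (hG.mono hsub) hG0 (fun ε hε => by
      filter_upwards [Metric.tendstoUniformlyOn_iff.1 h1 ε hε] with n hn z hz
      have := hn z (ball_subset_closedBall hz)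
      rwa [dist_comm, dist_eq_norm] at this) hrat
  exact ⟨s, B, hs, hsr.trans (by linarith), h2⟩

/-- Step (a), for `Obj`. -/
theorem bound_near_obj {𝒰 : Ultrafilter ℕ} (hX : IsCone X) (hTs : ∀ x ∈ T, ∀ c : ℂ, c ≠ 0 → c • x ∈ T)
    (E : Energy X T (fun x => ‖x‖) rho M c₀ C g)
    {F : ℕ → ℂ → EN N} (hF : ∀ᶠ n in (𝒰 : Filter ℕ), Ent X T (F n)) {Φ : ℕ → ℂ → EN N} {w : ℂ} {m : ℕ} {G : ℂ → EN N} {r : ℝ}
    (h : Obj 𝒰 Φ w m G r) (hΦ : ∀ᶠ n in (𝒰 : Filter ℕ), ∀ z ∈ ball w r, ∃ c : ℂ, c ≠ 0 ∧ Φ n z = c • F n z)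
    (hrat : ∀ (d : ℕ) (K K' : ℂ → EN N), 1 ≤ d → d ≤ m → RatC X d K K' → ∀ z, K z ∈ T) :
    ∃ s B : ℝ, 0 < s ∧ s ≤ r ∧ ∀ᶠ n in (𝒰 : Filter ℕ), ∀ z ∈ ball w s, g (F n) z ≤ B := by
  have hr2 : 0 < r / 2 := by have := h.pos; positivity
  have hsub : ball w (r / 2) ⊆ ball w r := ball_subset_ball (by linarith)
  have hcl : closedBall w (r / 2) ⊆ ball w r := closedBall_subset_ball (by linarith)
  have hcont : ContinuousOn (fun z => (z - w) ^ m • G z) (ball w r) := by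
    have h1 : ContinuousOn (fun z : ℂ => (z - w) ^ m) (ball w r) := by fun_prop
    exact h1.smul h.holG.continuousOn
  obtain ⟨s, B, hs, hsr, h2⟩ := bound_near_unif hX hTs E hF hr2 (Φ := Φ) (G := G) (w := w) (m := m)
    (by filter_upwards [h.hol, hΦ] with n h3 h4 using ⟨h3.mono hsub, fun z hz => h4 z (hsub hz)⟩) (h.holG.mono hsub) h.nzG (fun ε hε => by
      filter_upwards [h.cc.unif hcont isOpen_ball (isCompact_closedBall w (r / 2)) hcl hε] with n hn z hz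
      exact hn z (ball_subset_closedBall hz)) hrat
  exact ⟨s, B, hs, hsr.trans (by linarith), h2⟩

end Pool.Agent.SY
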