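import Pool.Agent.SY.Stub

/-!
# SY B: the bound of the derivative near the good points
-/

set_option autoImplicit false

open Topology Filter Metric

noncomputable section

namespace Pool.Agent.SY

open Pool.Agent.H36.BP (EN fs)
open Pool.Agent.H14.PP (IsCone)
open Pool.Agent.H22.W (PseudoLength)

variable {N : ℕ} {X T : Set (EN N)} {rho : EN N → ℝ} {M : ℕ} {c₀ C : ℝ} {g : (ℂ → EN N) → ℂ → ℝ}

/-- **B**: the bound of the derivative near the good points -/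
theorem bound_fs (hX : IsCone X) (hTs : ∀ x ∈ T, ∀ c : ℂ, c ≠ 0 → c • x ∈ T) (hrat : NoRat X) (E : Energy X T (fun x => ‖x‖) rho M c₀ C g) (n : PseudoLength X) {C₁ : ℝ}
    (hA : ∀ F, Cls T n F → ∀ z, g F z ≤ C₁) {d : ℝ} (hd : 0 < d) (R : ℝ) :
    ∃ L : ℝ, ∀ F, Cls T n F → d ≤ g F 0 → ∀ z ∈ ball (0 : ℂ) R, fs (F z) (deriv F z) ≤ L := by
  by_contra hcon
  push Not at hcon
  choose F hcls hgd z hz hfs using fun k : ℕ => hcon (k : ℝ)
  set 𝒰 : Ultrafilter ℕ := hyperfilter ℕ with h𝒰def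
  have h𝒰 : (𝒰 : Filter ℕ) ≤ atTop := by
    rw [← Nat.cofinite_eq_atTop]
    exact hyperfilter_le_cofinite
  obtain ⟨H, -, hHX, -, -, -, hH⟩ := Stub.exists_limit hX hTs E 𝒰 h𝒰 F (fun k => (hcls k).1) hd
    (fun k y _ => hA (F k) (hcls k) y) hgd
  obtain ⟨v, HR, hv, hconv, -, -, hfac⟩ := hH (⌈|R|⌉₊ + 1) (by omega)
  -- the limit of the points
  have hcomp : IsCompact (closedBall (0 : ℂ) |R|) := isCompact_closedBall _ _
  have hzc : ∀ k, z k ∈ closedBall (0 : ℂ) |R| := by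
    intro k
    have h1 := hz k
    rw [mem_ball_zero_iff] at h1
    rw [mem_closedBall_zero_iff]
    exact h1.le.trans (le_abs_self R)
  have hmap : ((𝒰.map z : Ultrafilter ℂ) : Filter ℂ) ≤ 𝓟 (closedBall (0 : ℂ) |R|) := by
    rw [le_principal_iff]
    exact mem_map.2 (Filter.univ_mem' hzc)
  obtain ⟨w, hw, hlim⟩ := hcomp.ultrafilter_le_nhds _ hmap
  have hlim' : Tendsto z (𝒰 : Filter ℕ) (𝓝 w) := hlim
  have hceil : |R| ≤ (⌈|R|⌉₊ : ℝ) := Nat.le_ceil _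
  have hwR : w ∈ ball (0 : ℂ) ((⌈|R|⌉₊ + 1 : ℕ) : ℝ) := by
    rw [mem_closedBall_zero_iff] at hw
    rw [mem_ball_zero_iff]
    push_cast
    linarith
  obtain ⟨r, hr, hrs⟩ := Metric.isOpen_iff.1 isOpen_ball w hwR
  have hne : ∀ᶠ y in 𝓝[≠] w, HR y ≠ 0 := by
    obtain ⟨k, u, hua, hu0, hue⟩ := hfac w hwR
    filter_upwards [hue.filter_mono nhdsWithin_le_nhds,
      (hua.continuousAt.eventually_ne hu0).filter_mono nhdsWithin_le_nhds, self_mem_nhdsWithin] with y h1 h2 h3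
    rw [h1]
    have h4 : H y ≠ 0 := fun h => hX.zero_notMem (h ▸ hHX y)
    exact smul_ne_zero (pow_ne_zero _ (sub_ne_zero.2 h3)) (smul_ne_zero h2 h4)
  obtain ⟨s, L, hs, hsL⟩ := Stub.no_bubble hX hrat h𝒰 (F := F) (fun k => (hcls k).1.diff) (fun k y => (hcls k).1.mem y)
    (hv.mono fun k hk => hk.1) hr (hconv.mono hrs) hne
  have h1 : ∀ᶠ k in (𝒰 : Filter ℕ), z k ∈ ball w s := hlim' (ball_mem_nhds w hs)
  have h2 : ∀ᶠ k : ℕ in (𝒰 : Filter ℕ), L ≤ (k : ℝ) := by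
    have h3 : Tendsto (fun k : ℕ => (k : ℝ)) (𝒰 : Filter ℕ) atTop := tendsto_natCast_atTop_atTop.mono_left h𝒰
    exact h3.eventually (eventually_ge_atTop L)
  obtain ⟨k, hk1, hk2, hk3⟩ := (hsL.and (h1.and h2)).exists
  exact absurd ((hk1 (z k) hk2).trans hk3) (not_le.2 (hfs k))

end Pool.Agent.SY
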