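import Pool.Agent.SY.Defs
import Pool.Agent.UC.Defs

/-!
# SY BdStub: step (a), `g (F n)` is bounded near a bubble when the rational curves lie in `T`

The proof is in `SY/BdN.lean` (namespace `Pool.Agent.SY`, same names).
-/

set_option autoImplicit false

open Topology Filter Metric

noncomputable section

namespace Pool.Agent.SY.BdStub

open Pool.Agent.H36.BP (EN)
open Pool.Agent.H14.PP (IsCone)
open Pool.Agent.H74.NB (CC Obj)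
open Pool.Agent.UC (RatC)

variable {N : ℕ} {X T : Set (EN N)} {rho : EN N → ℝ} {M : ℕ} {c₀ C : ℝ} {g : (ℂ → EN N) → ℂ → ℝ}

/-- Step (a).  `Φ n = (unit) • F n` converges to `(z - w) ^ m • G z`, `G w ≠ 0`; the rational curves of degree `≤ m` in `X` lie in `T`.  Then
`g (F n)` is bounded near `w`. -/
theorem bound_near {ι : Type*} {l : Filter ι} (hX : IsCone X) (hTs : ∀ x ∈ T, ∀ c : ℂ, c ≠ 0 → c • x ∈ T)
    (E : Energy X T (fun x => ‖x‖) rho M c₀ C g)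
    {F : ι → ℂ → EN N} (hF : ∀ᶠ n in l, Ent X T (F n)) {Φ : ι → ℂ → EN N} {w : ℂ} {m : ℕ} {G : ℂ → EN N} {r : ℝ} (hr : 0 < r)
    (hΦ : ∀ᶠ n in l, DifferentiableOn ℂ (Φ n) (ball w r) ∧ ∀ z ∈ ball w r, ∃ c : ℂ, c ≠ 0 ∧ Φ n z = c • F n z)
    (hG : DifferentiableOn ℂ G (ball w r)) (hG0 : G w ≠ 0)
    (hlim : TendstoLocallyUniformlyOn Φ (fun z => (z - w) ^ m • G z) l (ball w r))
    (hrat : ∀ (d : ℕ) (K K' : ℂ → EN N), 1 ≤ d → d ≤ m → RatC X d K K' → ∀ z, K z ∈ T) :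
    ∃ s B : ℝ, 0 < s ∧ s ≤ r ∧ ∀ᶠ n in l, ∀ z ∈ ball w s, g (F n) z ≤ B := by
  sorry

/-- Step (a), for `Obj`. -/
theorem bound_near_obj {𝒰 : Ultrafilter ℕ} (hX : IsCone X) (hTs : ∀ x ∈ T, ∀ c : ℂ, c ≠ 0 → c • x ∈ T)
    (E : Energy X T (fun x => ‖x‖) rho M c₀ C g)
    {F : ℕ → ℂ → EN N} (hF : ∀ᶠ n in (𝒰 : Filter ℕ), Ent X T (F n)) {Φ : ℕ → ℂ → EN N} {w : ℂ} {m : ℕ} {G : ℂ → EN N} {r : ℝ}
    (h : Obj 𝒰 Φ w m G r) (hΦ : ∀ᶠ n in (𝒰 : Filter ℕ), ∀ z ∈ ball w r, ∃ c : ℂ, c ≠ 0 ∧ Φ n z = c • F n z)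
    (hrat : ∀ (d : ℕ) (K K' : ℂ → EN N), 1 ≤ d → d ≤ m → RatC X d K K' → ∀ z, K z ∈ T) :
    ∃ s B : ℝ, 0 < s ∧ s ≤ r ∧ ∀ᶠ n in (𝒰 : Filter ℕ), ∀ z ∈ ball w s, g (F n) z ≤ B := by
  sorry

end Pool.Agent.SY.BdStub
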