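import Pool.Agent.H19Q.Induct
import Pool.Agent.H66.SD.Virt
import Pool.Agent.H66.SD.Dom
import Pool.Agent.SY.RDefs

/-!
# SY Cls: the least class of quasi-projective surfaces which contains given surfaces

`Cls B` is closed under dominant maps, modifications, finite étale coverings and orbifold coverings.  If the surfaces in `B` of log general type have
the properties of the Green–Griffiths–Lang conjecture, then so have the surfaces in `Cls B` of log general type (`Cls.main`), and the smooth projective
ones among them have the additional properties `GGLK` (`Cls.gglk`).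
-/

set_option autoImplicit false

open Topology Filter MvPolynomial

noncomputable section

namespace Pool.Agent.SY

open Pool.Agent.H17 (PN VanishesAt HolomorphicInto)
open Pool.Agent.H17LG.Variety (FunField IsLogGeneralType)
open Pool.Agent.H17EF (projVar coneE GT)
open Pool.Agent.H62.SA (locVar OnBd)
open Pool.Agent.H62.Qe (IsEtaleOver)
open Pool.Agent.H62.Et (GGLK)
open Pool.Agent.H7.Bir (GGL GGLOpen)
open Pool.Agent.H7.Qup (IsDominantMap)
open Pool.Agent.H19Q (QSurface LogClass IsModification IsRegularOnto)
open Pool.Agent.H92.TH (SymDiff)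
open Pool.Agent.H19OL (IsOrbifoldCover IsPullback fibreProduct)

/-- The smallest class of quasi-projective surfaces which contains the surfaces with the property `B` and has the following properties. -/
inductive Cls (B : QSurface → Prop) : QSurface → Prop
  /-- The class contains the basic surfaces. -/
  | basic (U : QSurface) (h : B U) : Cls B U
  /-- The class contains `U'` if there is a dominant regular map `U' → U` and `U` is in the class and of log general type. -/
  | dominant (U' U : QSurface) (p : PN U'.N → PN U.N) (hp : IsDominantMap U.P U'.P U.G U'.G p) (hgt : U.LogGeneralType) (h : Cls B U) : Cls B U'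
  /-- The class contains `U'` if there is a dominant rational map from `U'` to a projective surface `U` of general type in the class. -/
  | rational (U' U : QSurface) (hU : U.Projective) (hgt : U.LogGeneralType) (φ : FunField U.P →ₐ[ℂ] FunField U'.P) (h : Cls B U) : Cls B U'
  /-- The class contains `U` if it contains a surface `U'` with a modification `U' → U`. -/
  | modification (U' U : QSurface) (p : PN U'.N → PN U.N) (hp : IsModification U.P U'.P U.G U'.G p) (h : Cls B U') : Cls B U
  /-- The class contains `U` if it contains a surface `U'` with a finite étale covering `U' → U`. -/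
  | etale (U' U : QSurface) (p : PN U'.N → PN U.N) (hp : IsEtaleOver U.P U'.P U.G U'.G p) (h : Cls B U') : Cls B U
  /-- The class contains the smooth projective surface `X` if there are a rational map `(A : A')` from `X` to `ℙ¹` and a holomorphic map `R` from an
  elliptic curve `ℂ / L` (embedded in `ℙ^r` by `e`) onto `ℙ¹` with `(R₀ R₁' - R₁ R₀') ^ m = Φ (R₀, R₁)` for a binary form `Φ` of degree `2 m`, such
  that `(A dA' - A' dA) ^ m / Φ (A, A')` is a holomorphic symmetric differential `Θ` on `X`, and the class contains the fibre product of `X` and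
  `ℂ / L` over `ℙ¹`, which is assumed to be irreducible. -/
  | orbifold {r : ℕ} (U' U : QSurface) (hU : U.Projective) (hU' : U'.Projective) (hs : U.Smooth) (A A' : MvPolynomial (Fin (U.N + 1)) ℂ) (d : ℕ)
      (hA : A.IsHomogeneous d) (hA' : A'.IsHomogeneous d) (hAA' : A ∉ U.P ∨ A' ∉ U.P) (w : Fin 2 → ℂ) (hw : LinearIndependent ℝ w)
      (R : ℂ ⧸ AddSubgroup.closure (Set.range w) → PN 1) (m : ℕ) (hm : 1 ≤ m) (Φ : MvPolynomial (Fin 2) ℂ) (hR : IsOrbifoldCover R m Φ)
      (Θ : SymDiff (coneE U.P) m) (hΘ : IsPullback U.P A A' Θ Φ) (e : ℂ ⧸ AddSubgroup.closure (Set.range w) → PN r)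
      (he : HolomorphicInto (fun z : ℂ => e z) Set.univ) (he' : Function.Injective e) (ε : Fin (U'.N + 1) ≃ Fin (U.N + 1) × Fin (r + 1))
      (hV : U'.P = fibreProduct U.P A A' R e ε) (h : Cls B U') : Cls B U

/-- the surfaces with the property to be proved -/
def Good (U : QSurface) : Prop := U.LogGeneralType → ∃ Ξ, GGLOpen U.P U.G Ξ

/-- **The conjecture for the surfaces of the class.** -/
theorem Cls.main {B : QSurface → Prop} (hB : ∀ U, B U → U.LogGeneralType → ∃ Ξ, GGLOpen U.P U.G Ξ) {U : QSurface} (h : Cls B U) :
    U.LogGeneralType → ∃ Ξ, GGLOpen U.P U.G Ξ := by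
  have key : ∀ U : QSurface, LogClass Good U → Good U := fun U h => h.main fun _ h => h
  induction h with
  | basic U h => exact hB U h
  | dominant U' U p hp hgt h ih => exact key U' (LogClass.dominant U' U p hp hgt (LogClass.base U ih))
  | rational U' U hU hgt φ h ih =>
    intro _
    obtain ⟨Ξ, hΞ⟩ := ih hgt
    obtain ⟨m, hm⟩ := hU
    obtain ⟨z, hz⟩ := U.dim
    have h1 : locVar U.P U.G = projVar U.P := Pool.Agent.H19Q.locVar_projective ⟨m, hm⟩
    have hgtX : GT U.P 2 := by
      have h2 := hgt
      unfold QSurface.LogGeneralType at h2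
      rw [Pool.Agent.H19Q.onBd_projective U.P ⟨m, hm⟩ 2] at h2
      exact h2
    have hggl : GGL U.P Ξ := by
      refine ⟨?_, ?_, ?_, ?_, ?_, ?_⟩
      · rw [← h1]; exact hΞ.closed
      · rw [← h1]; exact hΞ.proper
      · intro w hw hz'
        obtain rfl := Pool.Agent.H17EF.two_of_basis ⟨z, hz⟩ hz'
        exact hgtX
      · intro f hf hfU hfn
        exact hΞ.picard f hf (by rw [h1]; exact hfU) hfn
      · intro f hf hfU hfn
        exact hΞ.brody f hf (by rw [h1]; exact hfU) hfn
      · intro Q _ hQ hPQ hsub w hw hz'
        have h3 := hΞ.strongly Q hQ hPQ (by rw [Pool.Agent.H19Q.locVar_projective ⟨m, hm⟩]; exact hsub) w hw hz'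
        rw [Pool.Agent.H19Q.onBd_projective Q ⟨m, hm⟩ w] at h3
        exact h3
    exact Pool.Agent.H66.SD.dom_open_four U'.homog U.dim U.homog U'.dim φ U'.form U'.nonempty hggl
  | modification U' U p hp h ih => exact key U (LogClass.modification U U' p hp (LogClass.base U' ih))
  | etale U' U p hp h ih =>
    intro hgt
    have hreg : IsRegularOnto U.P U'.P p := ⟨hp.reg.maps, hp.reg.surj, hp.reg.regular⟩
    have hgt' : U'.LogGeneralType := Pool.Agent.H7.Qup.logGT_up
      (hreg.isDominantMap hp.inv U.homog U.form U.nonempty) U'.homog U.form U'.form U'.nonempty U.dim U'.dim hgt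
    obtain ⟨Ξ, hΞ⟩ := ih hgt'
    exact Pool.Agent.H62.Qe.etaleOver_open U.homog U'.homog U.dim U'.dim U.form hp hgt hΞ
  | orbifold U' U hU hU' hs A A' d hA hA' hAA' w hw R m hm Φ hR Θ hΘ e he he' ε hV h ih =>
    exact key U (LogClass.orbifold U U' hU hU' hs A A' d hA hA' hAA' w hw R m hm Φ hR Θ hΘ e he he' ε hV (LogClass.base U' ih))

/-- **Smooth projective surfaces of the class**: the exceptional set is the Zariski closure of the union of the nonconstant entire curves, and the
Kobayashi metric is bounded below by a power of a form. -/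
theorem Cls.gglk {B : QSurface → Prop} (hB : ∀ U, B U → U.LogGeneralType → ∃ Ξ, GGLOpen U.P U.G Ξ) {U : QSurface} (h : Cls B U)
    (hgt : U.LogGeneralType) (hU : U.Projective) (hs : U.Smooth) : GGLK U.P :=
  (LogClass.base U (h.main hB) : LogClass Good U).gglk (fun _ h => h) hgt hU hs

/-- basic surfaces: those with the property `IsHyperbolicSurface` -/
theorem good_of_hyperbolic {U : QSurface} (h : U.LogGeneralType → IsHyperbolicSurface U.P) : U.LogGeneralType → ∃ Ξ, GGLOpen U.P U.G Ξ :=
  fun hgt => (h hgt).dominating U.N U.s U.P U.G U.homog U.form U.nonempty U.dim ⟨AlgHom.id ℂ _⟩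

/-- **Main theorem.**  `B`: the surfaces whose closure is known to have the property `IsHyperbolicSurface` if they are of log general type. -/
theorem Cls.final {B : QSurface → Prop} (hB : ∀ U, B U → U.LogGeneralType → IsHyperbolicSurface U.P) {U : QSurface} (h : Cls B U)
    (hgt : U.LogGeneralType) : (∃ Ξ, GGLOpen U.P U.G Ξ) ∧ (U.Projective → U.Smooth → GGLK U.P) :=
  ⟨h.main (fun V hV => good_of_hyperbolic (hB V hV)) hgt, fun hU hs => h.gglk (fun V hV => good_of_hyperbolic (hB V hV)) hgt hU hs⟩

end Pool.Agent.SY
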