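import Pool.Agent.SY.A
import Pool.Agent.SY.B
import Pool.Agent.SY.C
import Pool.Agent.H5.BD.CDef

/-!
# SY D: the curves of the class have bounded distortion
-/

set_option autoImplicit false

open Topology Filter Metric

namespace Pool.Agent.SY

open Pool.Agent.H36.BP (EN fs wd Sub OrdTwo fs_smul_right)
open Pool.Agent.H14.PP (IsCone)
open Pool.Agent.H62.EF (Charts)
open Pool.Agent.H22.W (PseudoLength exists_lower)
open Pool.Agent.H5.BD (BC)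

variable {N : ℕ} {X T : Set (EN N)} {rho : EN N → ℝ} {M : ℕ} {c₀ C : ℝ} {g : (ℂ → EN N) → ℂ → ℝ}

/-- the curves of the class have bounded distortion -/
theorem bounded_distortion (hX : IsCone X) (hch : Charts X) (hrat : NoRat X) (E : Energy X T (fun x => ‖x‖) rho M c₀ C g) (n : PseudoLength X)
    (hρ0 : ∀ x ∈ X, 0 ≤ rho x) (hρ : ∀ x ∈ X, x ∉ T → 0 < rho x) (hρc : ContinuousOn rho X)
    (hρs : ∀ x ∈ X, ∀ c : ℂ, c ≠ 0 → rho (c • x) = rho x)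
    (hTi : ∀ F : ℂ → EN N, Differentiable ℂ F → (∀ z, F z ∈ X) → (∃ z, F z ∉ T) → ∀ z₀, ∀ᶠ z in 𝓝[≠] z₀, F z ∉ T)
    (hTs : ∀ x ∈ T, ∀ c : ℂ, c ≠ 0 → c • x ∈ T)
    (hnull : ∀ F : ℂ → EN N, Differentiable ℂ F → (∀ z, F z ∈ X) → OrdTwo F → (∀ z, n.toFun (F z) (deriv F z) = 0) →
      (∀ z, F z ∈ T) ∨ ∀ z w, ∃ c : ℂ, F z = c • F w) :
    ∃ c L : ℝ, 0 < c ∧ ∀ F, Cls T n F → F ∈ BC X c L := by
  obtain ⟨c₁, hc₁, hlow⟩ := exists_lower hX hch n one_pos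
  obtain ⟨C₁, -, hA⟩ := bound_g hX hTs E n hnull
  obtain ⟨d, R, hd, hR, hgood⟩ := exists_good hX hch E n hρ0 hρ hρc hρs hTi hTs hA
  obtain ⟨L, hL⟩ := bound_fs hX hTs hrat E n hA hd (R + 1)
  refine ⟨c₁, L, hc₁, fun F hF => ⟨hF.1.diff, hF.1.mem, fun z => ⟨hlow F hF.1.diff hF.1.mem hF.2 z, ?_⟩⟩⟩
  obtain ⟨y, hy, hgy⟩ := hgood F hF z
  have hG : Cls T n (fun w => F (1 * w + y)) := hF.aff norm_one y
  have h1 : d ≤ g (fun w => F (1 * w + y)) 0 := by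
    rw [E.aff _ hF.1 _ _ one_ne_zero, norm_one, one_mul, mul_zero, zero_add]
    exact hgy
  have h2 := hL _ hG h1 (z - y) (by
    rw [mem_ball_zero_iff, norm_sub_rev]
    linarith)
  rw [deriv_aff hF.1.diff, fs_smul_right, norm_one, one_mul, one_mul, sub_add_cancel] at h2
  exact h2

end Pool.Agent.SY
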