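import Pool.Agent.SY.Defs
import Pool.Agent.H17BP.BlowM

/-!
# SY DefB: lifts of entire curves to the blow-up
-/

set_option autoImplicit false

open Topology Filter Metric

noncomputable section

namespace Pool.Agent.SY

open Pool.Agent.H62.BU (blow total Ker phi)

variable {V : Type} [NormedAddCommGroup V] [NormedSpace ℂ V] {ι : Type} [Fintype ι]

/-- `Φ` is a lift of the entire curve `F` to the blow-up. -/
def IsLiftB (l : ι → V →L[ℂ] ℂ) (X T : Set V) (F : ℂ → V) (Φ : ℂ → ι → V) : Prop :=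
  Ent (blow l X) (total l X T) Φ ∧ ∃ h : ℂ → ℂ, Differentiable ℂ h ∧ ∀ z, phi l (F z) = h z • Φ z

open Classical in
/-- the metric of the blow-up on the curves downstairs -/
def down (l : ι → V →L[ℂ] ℂ) (X T : Set V) (g : (ℂ → ι → V) → ℂ → ℝ) (F : ℂ → V) : ℂ → ℝ :=
  if h : ∃ Φ, IsLiftB l X T F Φ then g h.choose else 0

end Pool.Agent.SY
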