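import Pool.Agent.H36.BP.Defs
import Pool.Agent.H17BP.Model
import Pool.Agent.H14.KB.Kob
import Pool.Agent.H22.W.Def

/-!
# SY Defs: the metric along entire curves

`X` is the cone of a closed surface, `T` the cone of a curve in it.  `Ent X T F`: `F` is an entire curve in `X`, not contained in `T`.
`g F z` is the length of the derivative of `F` at `z` in a metric which lives on a blow-up of the surface (so it is not a function of a tangent
vector of `X`).  `nu` is a Euclidean norm on `V`, `rho` measures the distance to `T`.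
-/

set_option autoImplicit false

open Topology Filter Metric

namespace Pool.Agent.SY

open Pool.Agent.H36.BP (EN fs wd Sub)
open Pool.Agent.H17BP (Pr Surface IsForm NoZeros Eqs IsChart)
open Pool.Agent.H14.PP (IsCone)
open Pool.Agent.H22.W (PseudoLength)

/-- entire curves in the cone `X`, not contained in `T` -/
structure Ent {V : Type} [NormedAddCommGroup V] [NormedSpace ℂ V] (X T : Set V) (F : ℂ → V) : Prop where
  diff : Differentiable ℂ F
  mem : ∀ z, F z ∈ X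
  out : ∃ z, F z ∉ T

/-- a metric along entire curves -/
structure Energy {V : Type} [NormedAddCommGroup V] [NormedSpace ℂ V] (X T : Set V) (nu rho : V → ℝ) (M : ℕ) (c₀ C : ℝ)
    (g : (ℂ → V) → ℂ → ℝ) : Prop where
  c₀_pos : 0 < c₀
  C_pos : 0 < C
  nonneg : ∀ F, Ent X T F → ∀ z, 0 ≤ g F z
  usc : ∀ F, Ent X T F → ∀ z a, g F z < a → ∀ᶠ w in 𝓝 z, g F w < a
  aff : ∀ F, Ent X T F → ∀ a b : ℂ, a ≠ 0 → ∀ z, g (fun w => F (a * w + b)) z = ‖a‖ * g F (a * z + b)
  unit : ∀ F, Ent X T F → ∀ h : ℂ → ℂ, Differentiable ℂ h → (∀ z, h z ≠ 0) → ∀ z, g (fun w => h w • F w) z = g F z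
  sub : ∀ F, Ent X T F → ∀ z, 0 < g F z → Sub (fun w => g F w * nu (F w) ^ (-c₀)) z (-(C * g F z ^ 2))
  lower : ∀ F, Ent X T F → ∀ z, ∃ a : ℂ, rho (F z) ^ M * ‖deriv F z - a • F z‖ ≤ C * ‖F z‖ * g F z
  lim : ∀ (l : Filter ℕ), l.NeBot → ∀ (r A ε : ℝ), 0 < r → 0 < ε → ∀ (F : ℕ → ℂ → V) (H : ℂ → V), (∀ᶠ n in l, Ent X T (F n)) →
    (∀ᶠ n in l, ∀ z ∈ ball (0 : ℂ) r, g (F n) z ≤ A) → (∀ᶠ n in l, ε ≤ g (F n) 0) →
    (∃ h : ℕ → ℂ → ℂ, (∀ᶠ n in l, DifferentiableOn ℂ (h n) (ball 0 r) ∧ ∀ z ∈ ball (0 : ℂ) r, h n z ≠ 0) ∧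
      TendstoLocallyUniformlyOn (fun n z => h n z • F n z) H l (ball 0 r)) →
    (∀ z ∈ ball (0 : ℂ) r, H z ∈ X) → (∃ z ∈ ball (0 : ℂ) r, H z ∉ T) ∧ ∃ z ∈ ball (0 : ℂ) r, ∃ w ∈ ball (0 : ℂ) r, ¬ Pr (H z) (H w)

/-- A closed surface with a curve `T` in it and a section `Ω` of `m K - j H` without zeros outside `T`. -/
structure ModelS {V : Type} [NormedAddCommGroup V] [NormedSpace ℂ V] (X T : Set V) (m j : ℕ) (Ω : V → V → V → ℂ) {κ : Type} (Q : κ → V → ℂ)
    (D : ℕ) : Prop where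
  surf : Surface X
  one_m : 1 ≤ m
  one_j : 1 ≤ j
  form : IsForm X m j Ω
  noZeros : NoZeros X T Ω
  eqs : Eqs X T Q D
  thin : ∀ σ τ, IsChart X σ τ → ∃ᶠ p in 𝓝 (0 : ℂ × ℂ), σ p ∉ T

variable {N : ℕ}

/-- the entire curves of constant length one -/
def Cls {X : Set (EN N)} (T : Set (EN N)) (n : PseudoLength X) (F : ℂ → EN N) : Prop :=
  Ent X T F ∧ ∀ z, n.toFun (F z) (deriv F z) = 1

/-- `X` contains no rational curve: every vector of polynomials with values in the cone is constant as a map into the projective space -/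
def NoRat (X : Set (EN N)) : Prop :=
  ∀ p : Fin (N + 1) → Polynomial ℂ, (∀ z : ℂ, (WithLp.toLp 2 (fun i => (p i).eval z) : EN N) ∈ X) →
    ∀ z w : ℂ, ∃ c : ℂ, (WithLp.toLp 2 (fun i => (p i).eval z) : EN N) = c • (WithLp.toLp 2 (fun i => (p i).eval w) : EN N)

end Pool.Agent.SY
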