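import Pool.Agent.SY.Stub
import Pool.Agent.H22.WL.Proj

/-!
# SY F1: the curves of order two lie in a proper closed subset
-/

set_option autoImplicit false

open Topology Filter Metric MvPolynomial

noncomputable section

namespace Pool.Agent.SY

open Pool.Agent.H36.BP (EN fs wd Sub OrdTwo isCone_transport)
open Pool.Agent.H14.PP (IsCone)
open Pool.Agent.H22.W (PseudoLength tan_entire)
open Pool.Agent.H17 (PN VanishesAt HolomorphicInto ZariskiClosedIn puncturedDisc)
open Pool.Agent.H17BP (Surface)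
open Pool.Agent.H62.FC (Homog)
open Pool.Agent.H62.EF (Charts)
open Pool.Agent.H17LG.Variety (FunField)
open Pool.Agent.H13.SM (conTan cone)
open Pool.Agent.H13.OT (OrderTwo)
open Pool.Agent.H17EF (projVar coneE GT LE zariskiClosure)
open Pool.Agent.H14.V (IsNull IsLift isLift_mk average_toLp partA)
open Pool.Agent.H22.WL (evF evF_diff evF_smul vanishesAt_lift)
open Pool.Agent.H5.BD (BC)

variable {N : ℕ} {P : Ideal (MvPolynomial (Fin (N + 1)) ℂ)}

/-- from the characteristic function to the averages -/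
private theorem orderTwo_of_ordTwo {F : ℂ → EN N} {f : ℂ → PN N} (h : IsLift F f) (hF : OrdTwo F) : OrderTwo f := by
  have h1 : OrdTwo fun z => (LE N).symm (F z) := Pool.Agent.H17EF.ordTwo_symm hF
  have h2 : Differentiable ℂ fun z => (LE N).symm (F z) := (LE N).symm.differentiable.comp h.1
  have h3 : ∀ z, (LE N).symm (F z) ≠ 0 := fun z => (h.2 z).1
  have h4 : ∀ z, Pool.Agent.H17BP.HolP (fun z => (LE N).symm (F z)) z := by
    intro z
    exact ⟨fun z => (LE N).symm (F z), h2.analyticAt z, h3 z, Eventually.of_forall fun w => ⟨1, one_ne_zero, by simp⟩⟩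
  have h5 := Pool.Agent.H13.OT.OrdTwo.orderTwo h3 h4 h1
  have h6 : f = fun z => Projectivization.mk ℂ ((LE N).symm (F z)) (h3 z) := by
    funext z
    exact (h.2 z).2
  rw [h6]
  exact h5

private theorem vanishesAt_mul_left {Q R : MvPolynomial (Fin (N + 1)) ℂ} {x : PN N} (h : VanishesAt Q x) : VanishesAt (Q * R) x := by
  unfold VanishesAt at h ⊢
  rw [map_mul, h, zero_mul]

private theorem vanishesAt_mul_right {Q R : MvPolynomial (Fin (N + 1)) ℂ} {x : PN N} (h : VanishesAt R x) : VanishesAt (Q * R) x := by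
  unfold VanishesAt at h ⊢
  rw [map_mul, h, mul_zero]

/-- **F1**: the curves of order two lie in a proper closed subset -/
theorem orderTwo_degenerate [P.IsPrime] {z : Fin 2 → FunField P} (hP : Homog P) (hz : IsTranscendenceBasis ℂ z)
    (hsm : ∀ y : Fin (N + 1) → ℂ, y ≠ 0 → (∀ Q ∈ P, eval y Q = 0) → Module.finrank ℂ (conTan P y) ≤ 3) (hgt : GT P 2)
    (hrat : NoRat (coneE P)) (n : PseudoLength (coneE P)) {R : MvPolynomial (Fin (N + 1)) ℂ} {d : ℕ} (hR : R.IsHomogeneous d) (hRP : R ∉ P)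
    (hnull : ∀ f : ℂ → PN N, HolomorphicInto f Set.univ → OrderTwo f → (∀ z, f z ∈ projVar P) → (∃ z w, f z ≠ f w) → IsNull n f →
      ∀ z, VanishesAt R (f z)) :
    ∃ Ξ : Set (PN N), ZariskiClosedIn (projVar P) Ξ ∧ Ξ ≠ projVar P ∧
      ∀ f : ℂ → PN N, HolomorphicInto f Set.univ → OrderTwo f → (∀ z, f z ∈ projVar P) → (∃ z w, f z ≠ f w) → ∀ z, f z ∈ Ξ := by
  have hS : Surface (cone P) := Pool.Agent.H13.SM.surface_cone hP hz fun y hy => hsm y hy.1 hy.2
  have hX : IsCone (coneE P) := isCone_transport (LE N) hS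
  have hch : Charts (coneE P) := Pool.Agent.H17EF.charts hS
  obtain ⟨Q, D, M, c₀, C, g, hQ, hQP, hRQ, hM, E⟩ := Stub.energy_surface hP hz hsm hgt hR hRP
  obtain ⟨T, hT⟩ : ∃ T : Set (EN N), T = {x | x ∈ coneE P ∧ eval x.ofLp Q = 0} := ⟨_, rfl⟩
  rw [← hT] at E
  have hxne : ∀ x ∈ coneE P, ‖x‖ ≠ 0 := fun x hx => norm_ne_zero_iff.2 fun h => hX.zero_notMem (h ▸ hx)
  have hTs : ∀ x ∈ T, ∀ c : ℂ, c ≠ 0 → c • x ∈ T := by
    intro x hx c hc
    rw [hT] at hx ⊢
    refine ⟨hX.smul_mem x hx.1 c hc, ?_⟩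
    have h1 := evF_smul hQ c x
    unfold evF at h1
    rw [h1, hx.2, mul_zero]
  have hρ0 : ∀ x ∈ coneE P, 0 ≤ ‖eval x.ofLp Q‖ / ‖x‖ ^ D := fun x _ => by positivity
  have hρ : ∀ x ∈ coneE P, x ∉ T → 0 < ‖eval x.ofLp Q‖ / ‖x‖ ^ D := by
    intro x hx hxT
    have h1 : eval x.ofLp Q ≠ 0 := fun h => hxT (by rw [hT]; exact ⟨hx, h⟩)
    have h2 : 0 < ‖x‖ := lt_of_le_of_ne (norm_nonneg _) (Ne.symm (hxne x hx))
    have h3 : 0 < ‖eval x.ofLp Q‖ := norm_pos_iff.2 h1
    positivity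
  have hρc : ContinuousOn (fun x : EN N => ‖eval x.ofLp Q‖ / ‖x‖ ^ D) (coneE P) := by
    refine ContinuousOn.div ?_ (continuous_norm.pow D).continuousOn fun x hx => pow_ne_zero _ (hxne x hx)
    exact (evF_diff Q).continuous.norm.continuousOn
  have hρs : ∀ x ∈ coneE P, ∀ c : ℂ, c ≠ 0 → ‖eval (c • x).ofLp Q‖ / ‖c • x‖ ^ D = ‖eval x.ofLp Q‖ / ‖x‖ ^ D := by
    intro x _ c hc
    have h1 := evF_smul hQ c x
    unfold evF at h1
    rw [h1, norm_mul, norm_pow, norm_smul, mul_pow]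
    exact mul_div_mul_left _ _ (pow_ne_zero _ (norm_ne_zero_iff.2 hc))
  have hTi : ∀ F : ℂ → EN N, Differentiable ℂ F → (∀ z, F z ∈ coneE P) → (∃ z, F z ∉ T) → ∀ z₀, ∀ᶠ z in 𝓝[≠] z₀, F z ∉ T := by
    intro F hF hFX hne z₀
    have h1 : Differentiable ℂ fun z => evF Q (F z) := (evF_diff Q).comp hF
    have h2 : AnalyticAt ℂ (fun z => evF Q (F z)) z₀ := h1.analyticAt z₀
    rcases h2.eventually_eq_zero_or_eventually_ne_zero with h3 | h3
    · exfalso
      have h4 : AnalyticOnNhd ℂ (fun z => evF Q (F z)) Set.univ := fun z _ => h1.analyticAt z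
      have h5 := h4.eqOn_zero_of_preconnected_of_eventuallyEq_zero isPreconnected_univ (Set.mem_univ z₀) h3
      obtain ⟨z, hz⟩ := hne
      apply hz
      rw [hT]
      exact ⟨hFX z, h5 (Set.mem_univ z)⟩
    · filter_upwards [h3] with z hz hzT
      rw [hT] at hzT
      exact hz hzT.2
  have hnull' : ∀ F : ℂ → EN N, Differentiable ℂ F → (∀ z, F z ∈ coneE P) → OrdTwo F → (∀ z, n.toFun (F z) (deriv F z) = 0) →
      (∀ z, F z ∈ T) ∨ ∀ z w, ∃ c : ℂ, F z = c • F w := by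
    intro F hF hFX hFo hF0
    have h0 : ∀ z, (F z).ofLp ≠ 0 := fun z => (hFX z).1
    have hl := isLift_mk hF h0
    by_cases hcon : ∃ z w, (fun z => Projectivization.mk ℂ (F z).ofLp (h0 z)) z ≠ (fun z => Projectivization.mk ℂ (F z).ofLp (h0 z)) w
    · left
      intro z
      have h1 := hnull _ hl.holomorphicInto (orderTwo_of_ordTwo hl hFo) (fun z => (hl.mem_iff hP z).2 (hFX z)) hcon ⟨F, hl, hF0⟩ z
      rw [vanishesAt_lift hl hR] at h1
      rw [hT]
      exact ⟨hFX z, hRQ _ h1⟩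
    · right
      push Not at hcon
      intro z w
      have h1 := hcon z w
      simp only at h1
      rw [Projectivization.mk_eq_mk_iff'] at h1
      obtain ⟨a, ha⟩ := h1
      exact ⟨a, WithLp.ofLp_injective 2 ha.symm⟩
  obtain ⟨c, L, hc, hBC⟩ := Stub.bounded_distortion (rho := fun x : EN N => ‖eval x.ofLp Q‖ / ‖x‖ ^ D) hX hch hrat E n hρ0 hρ hρc hρs hTi hTs hnull'
  obtain ⟨hA1, S, hSf, hSb, hSe⟩ := partA hP hz hsm hgt hc L
  have hSX : ∀ g ∈ S, ∀ z, g z ∈ projVar P := fun g hg => (hSb hg).1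
  refine ⟨{x | x ∈ projVar P ∧ ∀ A ∈ ({Q} : Set (MvPolynomial (Fin (N + 1)) ℂ)), VanishesAt A x} ∪ ⋃ g ∈ S, zariskiClosure g, ?_, ?_, ?_⟩
  · refine Pool.Agent.H17EF.closed_union ⟨{Q}, ?_, rfl⟩
      (Pool.Agent.H17EF.closed_biUnion hSf fun g hg => Pool.Agent.H17EF.closed_zariskiClosure (hSX g hg))
    rintro A hA
    rw [Set.mem_singleton_iff.1 hA]
    exact ⟨D, hQ⟩
  · intro heq
    have hXi : ∃ i, (X i : MvPolynomial (Fin (N + 1)) ℂ) ∉ P := Pool.Agent.H62.FC.exists_X_notMem (r := 2) (by norm_num) ⟨z, hz⟩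
    obtain ⟨A, m, hA, hAP, hAU⟩ := Pool.Agent.H17EF.exists_prod (P := P) hSf (A := fun f => zariskiClosure f) (by
      intro f hf
      obtain ⟨B, k, hB, hBP, hBf⟩ := (hA1 f (hSb hf)).2
      exact ⟨B, k, hB, hBP, fun x hx => hx B k hB hBf⟩)
    obtain ⟨x, hx, hxA⟩ := Pool.Agent.H17EF.exists_point hP hXi (Q := Q * A)
      (fun h => ((inferInstance : P.IsPrime).mem_or_mem h).elim hQP hAP) (hQ.mul hA)
    apply hxA
    rw [← heq] at hx
    rcases hx with hx | hx
    · exact vanishesAt_mul_left (hx.2 Q rfl)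
    · exact vanishesAt_mul_right (hAU x hx)
  · intro f hf hfo hfX hfn
    obtain ⟨F₀, A, hF₀, hFf, hA⟩ := id hfo
    obtain ⟨A', hA'⟩ := average_toLp hF₀ (fun z => (hFf z).1) hA
    obtain ⟨F, hFdef⟩ : ∃ F : ℂ → EN N, F = fun z => WithLp.toLp 2 (F₀ z) := ⟨_, rfl⟩
    have hl : IsLift F f := by
      rw [hFdef]
      refine ⟨?_, fun z => hFf z⟩
      exact (LE N).differentiable.comp hF₀
    have hFX : ∀ z, F z ∈ coneE P := fun z => (hl.mem_iff hP z).1 (hfX z)
    obtain ⟨b, hb⟩ : ∃ b : ℝ, b = n.toFun (F 0) (deriv F 0) := ⟨_, rfl⟩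
    have hconst : ∀ z, n.toFun (F z) (deriv F z) = b := fun z => by
      rw [hb]
      refine Pool.Agent.H22.W.const_length hX hch n hl.1 hFX (A := A') ?_ z 0
      rw [hFdef]
      exact hA'
    have hb0 : 0 ≤ b := by
      rw [hb]
      exact n.nonneg _ _ (tan_entire hl.1 hFX 0)
    rcases hb0.eq_or_lt with h0 | hpos
    · intro y
      left
      refine ⟨hfX y, fun B hB => ?_⟩
      rw [Set.mem_singleton_iff.1 hB]
      have h1 := hnull f hf hfo hfX hfn ⟨F, hl, fun z => by rw [hconst z, h0]⟩ y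
      rw [vanishesAt_lift hl hR] at h1
      rw [vanishesAt_lift hl hQ]
      exact hRQ _ h1
    · by_cases hFT : ∀ y, F y ∈ T
      · intro y
        left
        refine ⟨hfX y, fun B hB => ?_⟩
        rw [Set.mem_singleton_iff.1 hB, vanishesAt_lift hl hQ]
        have := hFT y
        rw [hT] at this
        exact this.2
      · push Not at hFT
        obtain ⟨y₀, hy₀⟩ := hFT
        have hbc : ((b : ℝ) : ℂ) ≠ 0 := by exact_mod_cast hpos.ne'
        have hd' : Differentiable ℂ fun z => F (0 + ((b⁻¹ : ℝ) : ℂ) * z) :=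
          hl.1.comp ((differentiable_id.const_mul _).const_add 0)
        have hcls : Cls T n fun z => F (0 + ((b⁻¹ : ℝ) : ℂ) * z) := by
          refine ⟨⟨hd', fun z => hFX _, ⟨(b : ℂ) * y₀, ?_⟩⟩, fun z => ?_⟩
          · have : (0 : ℂ) + ((b⁻¹ : ℝ) : ℂ) * ((b : ℂ) * y₀) = y₀ := by
              push_cast
              field_simp
              ring
            rw [this]
            exact hy₀
          · rw [n.comp_affine hl.1 hFX _ 0 z, hconst, Complex.norm_real, Real.norm_of_nonneg (inv_pos.2 hpos).le,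
              inv_mul_cancel₀ hpos.ne']
        have hmem := hBC _ hcls
        have hl' : IsLift (fun z => F (0 + ((b⁻¹ : ℝ) : ℂ) * z)) fun z => f (0 + ((b⁻¹ : ℝ) : ℂ) * z) :=
          ⟨hd', fun z => hl.2 _⟩
        obtain ⟨g', hg', a', b', ha', hfg⟩ := hSe (fun z => f (0 + ((b⁻¹ : ℝ) : ℂ) * z)) ⟨fun z => hfX _, _, hl', hmem.2.2⟩
        intro y
        right
        refine Set.mem_biUnion hg' ?_
        have h1 := hfg ((b : ℂ) * y)
        have h2 : (0 : ℂ) + ((b⁻¹ : ℝ) : ℂ) * ((b : ℂ) * y) = y := by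
          push_cast
          field_simp
          ring
        rw [h2] at h1
        rw [h1]
        intro B k hB hBg
        exact hBg _

end Pool.Agent.SY
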