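import Pool.Agent.SY.Stub2

/-!
# SY F2: the main theorem
-/

set_option autoImplicit false

open Topology Filter Metric MvPolynomial

noncomputable section

namespace Pool.Agent.SY

open Pool.Agent.H22.W (PseudoLength)
open Pool.Agent.H17 (PN VanishesAt HolomorphicInto ZariskiClosedIn puncturedDisc)
open Pool.Agent.H62.FC (Homog)
open Pool.Agent.H17LG.Variety (FunField)
open Pool.Agent.H13.OT (OrderTwo)
open Pool.Agent.H17EF (projVar coneE GT)
open Pool.Agent.H14.KB (KobayashiHyperbolicModulo)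
open Pool.Agent.AD (NullClass)
open Pool.Agent.AD.NC (IsSmooth IsOfLogGeneralType FourProperties complement_zero isOfLogGeneralType_zero)

variable {N : ℕ} {P : Ideal (MvPolynomial (Fin (N + 1)) ℂ)}

/-- MODULE F2: the main theorem -/
theorem main [P.IsPrime] (hP : Homog P) (hdim : ∃ z : Fin 2 → FunField P, IsTranscendenceBasis ℂ z) (hsmooth : IsSmooth P 2)
    (hgt : IsOfLogGeneralType P (Fin.elim0 : Fin 0 → MvPolynomial (Fin (N + 1)) ℂ) 2) (hrat : NoRat (coneE P))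
    (A : Set (ℂ → PN N)) (hA : NullClass P A) (R : MvPolynomial (Fin (N + 1)) ℂ) (d : ℕ) (hR : R.IsHomogeneous d) (hRP : R ∉ P)
    (hnull : ∀ f : ℂ → PN N, HolomorphicInto f Set.univ → OrderTwo f → (∀ z, f z ∈ projVar P) → (∃ z w, f z ≠ f w) → f ∈ A →
      ∀ z, VanishesAt R (f z)) :
    (∃ Ξ : Set (PN N), FourProperties P (Fin.elim0 : Fin 0 → _) Ξ) ∧
    (∀ (M : ℕ) (P' : Ideal (MvPolynomial (Fin (M + 1)) ℂ)) [P'.IsPrime], Homog P' → Nonempty (FunField P' ≃ₐ[ℂ] FunField P) →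
      ∃ Ξ' : Set (PN M), FourProperties P' (Fin.elim0 : Fin 0 → _) Ξ') ∧
    ∃ (Q : MvPolynomial (Fin (N + 1)) ℂ) (D : ℕ), Q.IsHomogeneous D ∧ (∃ x ∈ projVar P, ¬ VanishesAt Q x) ∧
      KobayashiHyperbolicModulo (projVar P) Q D := by
  obtain ⟨z, hz⟩ := hdim
  have hgt' : GT P 2 := (isOfLogGeneralType_zero P _ 2).1 hgt
  obtain ⟨ν, hν⟩ := Pool.Agent.AD.exists_length hP hz hsmooth hA
  obtain ⟨Ξ, hcl, hne, hbr⟩ := Stub.orderTwo_degenerate hP hz hsmooth hgt' hrat ν hR hRP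
    (fun f hf hfo hfX hfn h => hnull f hf hfo hfX hfn (hν f hfX h))
  obtain ⟨h1, h2, h3, Q, D, hQ, hQx, -, hkob⟩ := Pool.Agent.H14.V.four_of_brody hP hz hsmooth hgt' hcl hne hbr
  have hG : ∀ w, 1 ≤ w → (∃ z : Fin w → FunField P, IsTranscendenceBasis ℂ z) → GT P w := by
    intro w _ hw
    obtain rfl := Pool.Agent.H17EF.two_of_basis ⟨z, hz⟩ hw
    exact hgt'
  refine ⟨⟨Ξ, ?_, ?_, ?_, ?_, ?_⟩, ?_, Q, D, hQ, hQx, hkob⟩
  · rw [complement_zero]
    exact ⟨hcl, hne⟩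
  · intro w hw hz'
    rw [isOfLogGeneralType_zero]
    exact hG w hw hz'
  · rw [complement_zero]
    exact h2
  · rw [complement_zero]
    exact h1
  · intro Q _ hQ hPQ hsub w hw hz'
    rw [isOfLogGeneralType_zero]
    rw [complement_zero] at hsub
    exact h3 Q hQ hPQ hsub w hw hz'
  · intro M P' _ hP' ⟨e⟩
    obtain ⟨Ξ', h⟩ := Pool.Agent.H7.Bir.bir_four hP ⟨1, z, hz⟩ hP' e (Ξ := Ξ) ⟨hcl, hne, hG, h2, h1, h3⟩
    refine ⟨Ξ', ?_, ?_, ?_, ?_, ?_⟩
    · rw [complement_zero]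
      exact ⟨h.closed, h.proper⟩
    · intro w hw hz'
      rw [isOfLogGeneralType_zero]
      exact h.generalType w hw hz'
    · rw [complement_zero]
      exact h.picard
    · rw [complement_zero]
      exact h.brody
    · intro Q _ hQ hPQ hsub w hw hz'
      rw [isOfLogGeneralType_zero]
      rw [complement_zero] at hsub
      exact h.strongly Q hQ hPQ hsub w hw hz'

end Pool.Agent.SY
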