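import Pool.Agent.SY.Defs

/-!
# SY N2: Liouville's theorem and the reduction of a polynomial curve
-/

set_option autoImplicit false

open Topology Filter Metric

namespace Pool.Agent.SY

open Pool.Agent.H36.BP (EN)
open Pool.Agent.H14.PP (IsCone)

private theorem N2_deriv {f : ℂ → ℂ} (hd : Differentiable ℂ f) {m : ℕ} {A : ℝ} (hg : ∀ z, ‖f z‖ ≤ A * max 1 (‖z‖ ^ m)) {n : ℕ}
    (hn : m < n) : iteratedDeriv n f 0 = 0 := by
  have hA : 0 ≤ A := by
    have h := hg 0
    have h1 : (0 : ℝ) < max 1 (‖(0 : ℂ)‖ ^ m) := lt_of_lt_of_le one_pos (le_max_left _ _)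
    have h2 := (norm_nonneg _).trans h
    exact (mul_nonneg_iff_of_pos_right h1).mp h2
  have key : ∀ R : ℝ, 1 ≤ R → ‖iteratedDeriv n f 0‖ ≤ n.factorial * A * R⁻¹ := by
    intro R hR
    have hR0 : 0 < R := by linarith
    have h1 := Complex.norm_iteratedDeriv_le_of_forall_mem_sphere_norm_le (c := 0) (R := R) (C := A * R ^ m) n hR0
      (hd.diffContOnCl) (fun z hz => by
        have h2 := hg z
        rw [mem_sphere_zero_iff_norm] at hz
        rw [hz] at h2
        rwa [max_eq_right (one_le_pow₀ hR)] at h2)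
    refine h1.trans ?_
    rw [div_le_iff₀ (pow_pos hR0 n)]
    obtain ⟨k, rfl⟩ : ∃ k, n = m + 1 + k := ⟨n - (m + 1), by omega⟩
    have h3 : R⁻¹ * R ^ (m + 1 + k) = R ^ m * R ^ k := by
      rw [pow_add, pow_succ]
      field_simp
    have h4 : 1 ≤ R ^ k := one_le_pow₀ hR
    have h5 : (0 : ℝ) ≤ (m + 1 + k).factorial * A := mul_nonneg (Nat.cast_nonneg _) hA
    have h6 : (0 : ℝ) ≤ R ^ m := by positivity
    calc ((m + 1 + k).factorial : ℝ) * (A * R ^ m) = (m + 1 + k).factorial * A * (R ^ m * 1) := by ring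
      _ ≤ (m + 1 + k).factorial * A * (R ^ m * R ^ k) := mul_le_mul_of_nonneg_left (mul_le_mul_of_nonneg_left h4 h6) h5
      _ = (m + 1 + k).factorial * A * R⁻¹ * R ^ (m + 1 + k) := by rw [mul_assoc _ R⁻¹, h3]
  have hlim : Tendsto (fun R : ℝ => n.factorial * A * R⁻¹) atTop (𝓝 (n.factorial * A * 0)) :=
    tendsto_inv_atTop_zero.const_mul _
  rw [mul_zero] at hlim
  have h7 : ‖iteratedDeriv n f 0‖ ≤ 0 := by
    refine ge_of_tendsto hlim ?_
    filter_upwards [eventually_ge_atTop (1 : ℝ)] with R hR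
    exact key R hR
  exact norm_le_zero_iff.mp h7

private theorem N2_scalar {f : ℂ → ℂ} (hd : Differentiable ℂ f) {m : ℕ} {A : ℝ} (hg : ∀ z, ‖f z‖ ≤ A * max 1 (‖z‖ ^ m)) :
    ∃ p : Polynomial ℂ, ∀ z, f z = p.eval z := by
  refine ⟨∑ n ∈ Finset.range (m + 1), Polynomial.C ((n.factorial : ℂ)⁻¹ * iteratedDeriv n f 0) * Polynomial.X ^ n, fun z => ?_⟩
  have h1 := Complex.hasSum_taylorSeries_of_entire hd 0 z
  have h2 : HasSum (fun n : ℕ => (n.factorial : ℂ)⁻¹ • (z - 0) ^ n • iteratedDeriv n f 0)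
      (∑ n ∈ Finset.range (m + 1), (n.factorial : ℂ)⁻¹ • (z - 0) ^ n • iteratedDeriv n f 0) := by
    refine hasSum_sum_of_ne_finset_zero fun n hn => ?_
    rw [Finset.mem_range, not_lt] at hn
    rw [N2_deriv hd hg (by omega : m < n), smul_zero, smul_zero]
  rw [h1.unique h2, Polynomial.eval_finsetSum]
  refine Finset.sum_congr rfl fun n _ => ?_
  simp only [sub_zero, smul_eq_mul, Polynomial.eval_mul, Polynomial.eval_C, Polynomial.eval_pow, Polynomial.eval_X]
  ring

/-- MODULE N2: Liouville -/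
theorem poly_of_growth {N : ℕ} {h : ℂ → EN N} (hd : Differentiable ℂ h) {m : ℕ} {A : ℝ} (hg : ∀ z, ‖h z‖ ≤ A * max 1 (‖z‖ ^ m)) :
    ∃ p : Fin (N + 1) → Polynomial ℂ, ∀ z i, h z i = (p i).eval z := by
  have key : ∀ i : Fin (N + 1), ∃ p : Polynomial ℂ, ∀ z, h z i = p.eval z := by
    intro i
    refine N2_scalar (f := fun z => h z i) (m := m) (A := A) ?_ ?_
    · exact (EuclideanSpace.proj (𝕜 := ℂ) i).differentiable.comp hd
    · intro z
      exact (PiLp.norm_apply_le (h z) i).trans (hg z)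
  choose p hp using key
  exact ⟨p, fun z i => hp i z⟩

private theorem N2_cont {N : ℕ} (p : Fin (N + 1) → Polynomial ℂ) :
    Continuous fun z : ℂ => (WithLp.toLp 2 (fun i => (p i).eval z) : EN N) := by
  refine (PiLp.continuous_toLp 2 _).comp ?_
  exact continuous_pi fun i => (p i).continuous

/-- MODULE N2: reduction of a polynomial curve -/
theorem poly_reduce {N : ℕ} {X : Set (EN N)} (hX : IsCone X) {p : Fin (N + 1) → Polynomial ℂ}
    (h0 : ∃ z : ℂ, (WithLp.toLp 2 (fun i => (p i).eval z) : EN N) ≠ 0)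
    (hp : ∀ z : ℂ, (WithLp.toLp 2 (fun i => (p i).eval z) : EN N) ≠ 0 → (WithLp.toLp 2 (fun i => (p i).eval z) : EN N) ∈ X) :
    ∃ (d : Polynomial ℂ) (p' : Fin (N + 1) → Polynomial ℂ), d ≠ 0 ∧ (∀ i, p i = d * p' i) ∧
      ∀ z : ℂ, (WithLp.toLp 2 (fun i => (p' i).eval z) : EN N) ∈ X := by
  set I : Ideal (Polynomial ℂ) := Ideal.span (Set.range p) with hI
  set d : Polynomial ℂ := Submodule.IsPrincipal.generator I with hd
  have hdiv : ∀ i, ∃ q, p i = d * q := by
    intro i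
    have h1 : p i ∈ I := Ideal.subset_span ⟨i, rfl⟩
    exact (Submodule.IsPrincipal.mem_iff_generator_dvd I).mp h1
  choose p' hp' using hdiv
  have hd0 : d ≠ 0 := by
    intro h
    obtain ⟨z, hz⟩ := h0
    apply hz
    ext i
    simp [hp' i, h]
  refine ⟨d, p', hd0, hp', ?_⟩
  -- the values of `p'` are not zero
  have hne : ∀ z : ℂ, (WithLp.toLp 2 (fun i => (p' i).eval z) : EN N) ≠ 0 := by
    intro z hz
    have h1 : d ∈ I := Submodule.IsPrincipal.generator_mem I
    rw [hI, Ideal.mem_span_range_iff_exists_fun] at h1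
    obtain ⟨a, ha⟩ := h1
    have h2 : d * ∑ i, a i * p' i = d * 1 := by
      rw [mul_one, Finset.mul_sum]
      conv_rhs => rw [← ha]
      refine Finset.sum_congr rfl fun i _ => ?_
      rw [hp' i]
      ring
    have h3 : ∑ i, a i * p' i = 1 := mul_left_cancel₀ hd0 h2
    have h4 := congrArg (Polynomial.eval z) h3
    rw [Polynomial.eval_finsetSum, Polynomial.eval_one] at h4
    have h5 : ∀ i, (p' i).eval z = 0 := by
      intro i
      have := congrArg (fun x : EN N => x i) hz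
      simpa using this
    have h6 : ∑ i, Polynomial.eval z (a i * p' i) = 0 :=
      Finset.sum_eq_zero fun i _ => by rw [Polynomial.eval_mul, h5 i, mul_zero]
    rw [h6] at h4
    exact zero_ne_one h4
  -- the points where `d` does not vanish
  have hgood : ∀ z : ℂ, d.eval z ≠ 0 → (WithLp.toLp 2 (fun i => (p' i).eval z) : EN N) ∈ X := by
    intro z hz
    have h1 : (WithLp.toLp 2 (fun i => (p i).eval z) : EN N) = d.eval z • (WithLp.toLp 2 (fun i => (p' i).eval z) : EN N) := by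
      ext i
      simp [hp' i]
    have h2 : (WithLp.toLp 2 (fun i => (p i).eval z) : EN N) ≠ 0 := by
      rw [h1]
      exact smul_ne_zero hz (hne z)
    have h3 := hX.smul_mem _ (hp z h2) (d.eval z)⁻¹ (inv_ne_zero hz)
    rwa [h1, smul_smul, inv_mul_cancel₀ hz, one_smul] at h3
  intro z
  have h1 : ∀ᶠ w in 𝓝[≠] z, (WithLp.toLp 2 (fun i => (p' i).eval w) : EN N) ∈ insert 0 X := by
    have h2 : (d.roots.toFinset : Set ℂ)ᶜ ∈ 𝓝[≠] z := by
      have h3 : ((d.roots.toFinset : Set ℂ) \ {z})ᶜ ∈ 𝓝 z :=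
        ((d.roots.toFinset.finite_toSet.subset Set.sdiff_subset).isClosed.isOpen_compl).mem_nhds (by simp)
      filter_upwards [nhdsWithin_le_nhds h3, self_mem_nhdsWithin] with w hw hwz hwd
      exact hw ⟨hwd, hwz⟩
    filter_upwards [h2] with w hw
    refine Or.inr (hgood w fun h => hw ?_)
    simp only [Finset.mem_coe, Multiset.mem_toFinset]
    exact (Polynomial.mem_roots hd0).mpr h
  have h4 : Tendsto (fun w : ℂ => (WithLp.toLp 2 (fun i => (p' i).eval w) : EN N)) (𝓝[≠] z)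
      (𝓝 (WithLp.toLp 2 (fun i => (p' i).eval z) : EN N)) := (N2_cont p').continuousAt.mono_left nhdsWithin_le_nhds
  have h5 := hX.closed.mem_of_tendsto h4 h1
  exact h5.resolve_left (hne z)

end Pool.Agent.SY
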