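import Pool.Agent.SY.Defs
import Pool.Agent.SY.N2
import Pool.Agent.SY.NBa
import Pool.Agent.SY.ChM
import Pool.Agent.H62.EF.LimL
import Pool.Agent.H36.BP.Brody

/-!
# SY NB: step (b), direct version

`lip_of_char`: let the closed cone `X` contain no rational curve.  If `F` is an entire curve in `X`, `E` has no zeros on the disc of radius `5 R`,
`|E F| ≤ 1` there and `|E 0 F 0| ≥ c` then `|f'| ≤ L` on the disc of radius `R`, `L = L(X, R, c)`.  `bound_fs_nb` is step (b).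

Proof.  Otherwise rescale (Zalcman): `K_n ζ = F_n (w_n + ρ_n ζ)`, `|w_n| ≤ 3R/2`, `ρ_n → 0`, `fs(K_n') ≤ 2` on `|ζ| < n + 1`, `= 1` at `0`.  With
`A_n = sup_{|z - w_n| ≤ ρ_n} |E_n F_n|` the lemma `growth` (Hadamard's three circles theorem) gives `|E_n F_n (z)| ≤ A_n (|z - w_n|/ρ_n)^m`
for `ρ_n ≤ |z - w_n| ≤ 3 R`.  Hence `(E_n F_n)(w_n + ρ_n ζ) / A_n` converges to an entire `G`, `|G ζ| ≤ (1 + |ζ|)^m`, a polynomial curve, not `0`, with
values in `X ∪ {0}`; it is proportional to the limit `H` of `limit_curves`, `fs(H'(0)) = 1`: not constant.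
-/

set_option autoImplicit false

open Topology Filter Metric

noncomputable section

namespace Pool.Agent.SY

open Pool.Agent.H36.BP (EN fs wd Sub)
open Pool.Agent.H14.PP (IsCone)
open Pool.Agent.H22.W (PseudoLength)
open Pool.Agent.H62.EF (MN pr pr_smul pr_eq_iff continuousAt_pr)

variable {N : ℕ} {X : Set (EN N)}

private theorem rescale_half {F : ℂ → EN N} (hF : Differentiable ℂ F) (h0 : ∀ z, F z ≠ 0) (n : ℕ)
    (hbig : 4 * ((n : ℝ) + 1) < fs (F 0) (deriv F 0)) :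
    ∃ (z₀ : ℂ) (a : ℝ), ‖z₀‖ ≤ 1 / 2 ∧ 4 * ((n : ℝ) + 1) < a ∧ fs (F z₀) (deriv (fun ζ => F (z₀ + ((a⁻¹ : ℝ) : ℂ) * ζ)) 0) = 1 ∧
      ∀ ζ ∈ ball (0 : ℂ) (n + 1), fs (F (z₀ + ((a⁻¹ : ℝ) : ℂ) * ζ)) (deriv (fun ζ => F (z₀ + ((a⁻¹ : ℝ) : ℂ) * ζ)) ζ) ≤ 2 := by
  have hn : (0 : ℝ) ≤ n := Nat.cast_nonneg n
  have hFc : Continuous F := hF.continuous
  have hF'c : Continuous (deriv F) := (hF.contDiff (n := 1)).continuous_deriv le_rfl
  have hgc : Continuous fun z : ℂ => fs (F z) (deriv F z) := by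
    unfold fs
    refine (Pool.Agent.H36.BP.wd_cont.comp (hFc.prodMk hF'c)).div (hFc.norm.pow 2) ?_
    intro z
    exact pow_ne_zero 2 (norm_ne_zero_iff.mpr (h0 z))
  set u : ℂ → ℝ := fun z => fs (F z) (deriv F z) * (1 / 2 - ‖z‖) with hu
  have huc : Continuous u := hgc.mul (continuous_const.sub continuous_norm)
  obtain ⟨z₀, hz₀, hmax⟩ := (isCompact_closedBall (0 : ℂ) (1 / 2)).exists_isMaxOn ⟨0, by simp⟩ huc.continuousOn
  have hz₀n : ‖z₀‖ ≤ 1 / 2 := by simpa using hz₀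
  have hu0z : u 0 ≤ u z₀ := hmax (by simp : (0 : ℂ) ∈ closedBall (0 : ℂ) (1 / 2))
  have hu0 : u 0 = fs (F 0) (deriv F 0) / 2 := by simp only [hu, norm_zero]; ring
  have hm : 2 * ((n : ℝ) + 1) < u z₀ := by rw [hu0] at hu0z; linarith
  set d : ℝ := 1 / 2 - ‖z₀‖ with hd
  have hd0 : 0 ≤ d := by rw [hd]; linarith
  set a : ℝ := fs (F z₀) (deriv F z₀) with ha
  have ha0 : 0 ≤ a := Pool.Agent.H36.BP.fs_nonneg _ _
  have huz : u z₀ = a * d := rfl
  have hpos : 0 < a * d := by rw [← huz]; linarith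
  have hapos : 0 < a := by
    rcases ha0.lt_or_eq with h | h
    · exact h
    · rw [← h] at hpos; simp at hpos
  have hdpos : 0 < d := by
    rcases hd0.lt_or_eq with h | h
    · exact h
    · rw [← h] at hpos; simp at hpos
  have hd2 : d ≤ 1 / 2 := by rw [hd]; linarith [norm_nonneg z₀]
  have haL : 4 * ((n : ℝ) + 1) < a := by
    have h1 : a * d ≤ a * (1 / 2) := mul_le_mul_of_nonneg_left hd2 ha0
    rw [huz] at hm
    linarith
  set φ : ℂ → ℂ := fun ζ => z₀ + ((a⁻¹ : ℝ) : ℂ) * ζ with hφ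
  have hφd : ∀ ζ, HasDerivAt φ ((a⁻¹ : ℝ) : ℂ) ζ := by
    intro ζ
    have := ((hasDerivAt_id ζ).const_mul ((a⁻¹ : ℝ) : ℂ)).const_add z₀
    simpa [hφ] using this
  have hkey : ∀ ζ ∈ ball (0 : ℂ) (n + 1), ‖φ ζ‖ ≤ 1 / 2 - d / 2 := by
    intro ζ hζ
    have hζn : ‖ζ‖ < n + 1 := by simpa using hζ
    have h1 : ‖φ ζ‖ ≤ ‖z₀‖ + a⁻¹ * ‖ζ‖ := by
      calc ‖φ ζ‖ ≤ ‖z₀‖ + ‖((a⁻¹ : ℝ) : ℂ) * ζ‖ := norm_add_le _ _
        _ = ‖z₀‖ + a⁻¹ * ‖ζ‖ := by
          rw [norm_mul, Complex.norm_real, Real.norm_of_nonneg (by positivity)]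
    have h2 : a⁻¹ * ‖ζ‖ ≤ d / 2 := by
      rw [inv_mul_le_iff₀ hapos]
      rw [huz] at hm
      linarith
    have h3 : ‖z₀‖ = 1 / 2 - d := by rw [hd]; ring
    linarith
  have hball : ∀ ζ ∈ ball (0 : ℂ) (n + 1), φ ζ ∈ closedBall (0 : ℂ) (1 / 2) := by
    intro ζ hζ
    have := hkey ζ hζ
    rw [mem_closedBall_zero_iff]
    linarith
  have hder : ∀ ζ, deriv (fun ζ => F (φ ζ)) ζ = ((a⁻¹ : ℝ) : ℂ) • deriv F (φ ζ) := by
    intro ζ
    exact ((hF (φ ζ)).hasDerivAt.scomp ζ (hφd ζ)).deriv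
  have hfs : ∀ ζ, fs (F (φ ζ)) (deriv (fun ζ => F (φ ζ)) ζ) = a⁻¹ * fs (F (φ ζ)) (deriv F (φ ζ)) := by
    intro ζ
    rw [hder, Pool.Agent.H36.BP.fs_smul_right, Complex.norm_real, Real.norm_of_nonneg (by positivity)]
  have hφ0 : φ 0 = z₀ := by simp [hφ]
  refine ⟨z₀, a, hz₀n, haL, ?_, ?_⟩
  · have h1 := hfs 0
    rw [hφ0, ← ha, inv_mul_cancel₀ hapos.ne'] at h1
    exact h1
  · intro ζ hζ
    change fs (F (φ ζ)) (deriv (fun ζ => F (φ ζ)) ζ) ≤ 2
    rw [hfs ζ]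
    have h1 : u (φ ζ) ≤ u z₀ := hmax (hball ζ hζ)
    have h2 := hkey ζ hζ
    have h3 : fs (F (φ ζ)) (deriv F (φ ζ)) * (1 / 2 - ‖φ ζ‖) ≤ a * d := h1
    have h4 : 0 ≤ fs (F (φ ζ)) (deriv F (φ ζ)) := Pool.Agent.H36.BP.fs_nonneg _ _
    have h5 : fs (F (φ ζ)) (deriv F (φ ζ)) * (d / 2) ≤ a * d :=
      le_trans (mul_le_mul_of_nonneg_left (by linarith) h4) h3
    have h6 : fs (F (φ ζ)) (deriv F (φ ζ)) ≤ 2 * a := by
      by_contra hc
      push Not at hc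
      have : 2 * a * (d / 2) < fs (F (φ ζ)) (deriv F (φ ζ)) * (d / 2) := mul_lt_mul_of_pos_right hc (by linarith)
      linarith
    rw [inv_mul_le_iff₀ hapos]
    linarith

/-- the local version about a centre `w` and with a scale `s` -/
private theorem rescale_at {F : ℂ → EN N} (hF : Differentiable ℂ F) (h0 : ∀ z, F z ≠ 0) (n : ℕ) {s : ℝ} (hs : 0 < s) (w : ℂ)
    (hbig : 4 * ((n : ℝ) + 1) / s < fs (F w) (deriv F w)) :
    ∃ (w' : ℂ) (ρ : ℝ), ‖w' - w‖ ≤ s / 2 ∧ 0 < ρ ∧ 4 * ((n : ℝ) + 1) * ρ < s ∧ fs (F w') (deriv (fun ζ => F (w' + (ρ : ℂ) * ζ)) 0) = 1 ∧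
      ∀ ζ ∈ ball (0 : ℂ) (n + 1), fs (F (w' + (ρ : ℂ) * ζ)) (deriv (fun ζ => F (w' + (ρ : ℂ) * ζ)) ζ) ≤ 2 := by
  have hd : Differentiable ℂ (fun z => F (w + (s : ℂ) * z)) :=
    hF.comp ((differentiable_id.const_mul _).const_add _)
  obtain ⟨z₀, a, h1, h2, h3, h4⟩ := rescale_half hd (fun z => h0 _) n (by
    have e1 : HasDerivAt (fun z : ℂ => w + (s : ℂ) * z) (s : ℂ) 0 := by
      simpa using ((hasDerivAt_id (0 : ℂ)).const_mul (s : ℂ)).const_add w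
    have e2 : deriv (fun z => F (w + (s : ℂ) * z)) 0 = (s : ℂ) • deriv F w := by
      have e3 := ((hF (w + (s : ℂ) * 0)).hasDerivAt.scomp 0 e1).deriv
      rw [mul_zero, add_zero] at e3
      exact e3
    rw [e2, Pool.Agent.H36.BP.fs_smul_right, Complex.norm_real, Real.norm_of_nonneg hs.le, mul_zero, add_zero]
    rw [div_lt_iff₀ hs] at hbig
    linarith)
  have hn : (0 : ℝ) ≤ n := Nat.cast_nonneg n
  have ha : 0 < a := by linarith
  have e : ∀ ζ : ℂ, w + (s : ℂ) * (z₀ + ((a⁻¹ : ℝ) : ℂ) * ζ) = (w + (s : ℂ) * z₀) + ((s * a⁻¹ : ℝ) : ℂ) * ζ := by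
    intro ζ
    push_cast
    ring
  refine ⟨w + (s : ℂ) * z₀, s * a⁻¹, ?_, by positivity, ?_, ?_, ?_⟩
  · rw [add_sub_cancel_left, norm_mul, Complex.norm_real, Real.norm_of_nonneg hs.le]
    nlinarith
  · rw [← mul_assoc, ← div_eq_mul_inv, div_lt_iff₀ ha]
    nlinarith
  · have h5 := h3
    simp only [e] at h5
    exact h5
  · intro ζ hζ
    have h5 := h4 ζ hζ
    simp only [e] at h5
    exact h5

/-- a sequence of maps bounded on compact sets has an entire limit along an ultrafilter -/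
private theorem entire_limit {𝒰 : Ultrafilter ℕ} {G : ℕ → ℂ → EN N} {B : ℕ → ℝ}
    (h : ∀ j : ℕ, ∀ᶠ n in (𝒰 : Filter ℕ), DifferentiableOn ℂ (G n) (ball 0 (j + 1)) ∧ ∀ z ∈ ball (0 : ℂ) (j + 1), ‖G n z‖ ≤ B j) :
    ∃ g : ℂ → EN N, Differentiable ℂ g ∧ ∀ j : ℕ, TendstoLocallyUniformlyOn G g 𝒰 (ball 0 (j + 1)) := by
  choose φ hφ hφt using fun j : ℕ => Pool.Agent.H17.montel_ultrafilter 𝒰 (F := G) (a := 0) (r := (j : ℝ) + 1) (B := B j)
    ((h j).mono fun n hn => hn.1) ((h j).mono fun n hn => hn.2)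
  have hmem : ∀ z : ℂ, z ∈ ball (0 : ℂ) ((⌈‖z‖⌉₊ : ℕ) + 1) := by
    intro z
    rw [mem_ball_zero_iff]
    have := Nat.le_ceil ‖z‖
    linarith
  have heq : ∀ i j : ℕ, ∀ z : ℂ, z ∈ ball (0 : ℂ) (i + 1) → z ∈ ball (0 : ℂ) (j + 1) → φ i z = φ j z := by
    intro i j z hi hj
    exact tendsto_nhds_unique ((hφt i).tendsto_at hi) ((hφt j).tendsto_at hj)
  have hgj : ∀ j : ℕ, Set.EqOn (φ j) (fun z => φ ⌈‖z‖⌉₊ z) (ball (0 : ℂ) (j + 1)) := fun j z hz => heq j _ z hz (hmem z)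
  refine ⟨fun z => φ ⌈‖z‖⌉₊ z, ?_, fun j => (hφt j).congr_right (hgj j)⟩
  intro z
  have h1 : DifferentiableOn ℂ (fun z => φ ⌈‖z‖⌉₊ z) (ball 0 ((⌈‖z‖⌉₊ : ℕ) + 1)) := (hφ _).congr (fun w hw => (hgj _ hw).symm)
  exact h1.differentiableAt (isOpen_ball.mem_nhds (hmem z))

theorem lip_of_char (hX : IsCone X) (hr : NoRat X) {R c : ℝ} (hR : 0 < R) (hc : 0 < c) :
    ∃ L : ℝ, 0 < L ∧ ∀ (F : ℂ → EN N) (E : ℂ → ℂ), Differentiable ℂ F → (∀ z, F z ∈ X) → DifferentiableOn ℂ E (ball 0 (5 * R)) →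
      (∀ z ∈ ball (0 : ℂ) (5 * R), E z ≠ 0 ∧ ‖E z • F z‖ ≤ 1) → c ≤ ‖E 0 • F 0‖ →
      ∀ z ∈ closedBall (0 : ℂ) R, fs (F z) (deriv F z) ≤ L := by
  by_contra hcon
  push Not at hcon
  have hX0 : ∀ x ∈ X, x ≠ 0 := fun x hx h => hX.zero_notMem (h ▸ hx)
  choose F E hF hFX hE hE1 hE0 zc hzc hbig using fun n : ℕ => hcon (4 * ((n : ℝ) + 1) / R) (by positivity)
  choose w ρ hw hρ hρs h1 h2 using fun n : ℕ => rescale_at (hF n) (fun z => hX0 _ (hFX n z)) n hR (zc n) (hbig n)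
  have hwR : ∀ n, ‖w n‖ ≤ 3 * R / 2 := by
    intro n
    have e1 := hzc n
    rw [mem_closedBall_zero_iff] at e1
    have e2 : w n = (w n - zc n) + zc n := by ring
    rw [e2]
    refine (norm_add_le _ _).trans ?_
    have := hw n
    linarith
  have hρ1 : ∀ n, ρ n * ((n : ℝ) + 1) < R / 4 := by
    intro n
    have := hρs n
    nlinarith
  have hρR : ∀ n, ρ n < R / 4 := by
    intro n
    have e1 := hρ1 n
    have e2 : ρ n * 1 ≤ ρ n * ((n : ℝ) + 1) := mul_le_mul_of_nonneg_left (by have := Nat.cast_nonneg (α := ℝ) n; linarith) (hρ n).le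
    linarith
  -- the normalised curves
  set P : ℕ → ℂ → EN N := fun n z => E n z • F n z with hP
  have hPd : ∀ n, DifferentiableOn ℂ (P n) (ball 0 (5 * R)) := fun n => (hE n).smul (hF n).differentiableOn
  have hsub : ∀ n, ball (w n) (7 * R / 2) ⊆ ball (0 : ℂ) (5 * R) := by
    intro n z hz
    rw [mem_ball, dist_eq_norm] at hz
    rw [mem_ball_zero_iff]
    have e2 : z = (z - w n) + w n := by ring
    rw [e2]
    refine (norm_add_le _ _).trans_lt ?_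
    have := hwR n
    linarith
  have hcb : ∀ n, closedBall (w n) (ρ n) ⊆ ball (w n) (7 * R / 2) := fun n => closedBall_subset_ball (by have := hρR n; linarith)
  choose y hy hymax using fun n : ℕ => (isCompact_closedBall (w n) (ρ n)).exists_isMaxOn ⟨w n, mem_closedBall_self (hρ n).le⟩
    (((hPd n).mono ((hcb n).trans (hsub n))).continuousOn.norm)
  set A : ℕ → ℝ := fun n => ‖P n (y n)‖ with hA
  have hAle : ∀ n, ∀ z ∈ closedBall (w n) (ρ n), ‖P n z‖ ≤ A n := fun n z hz => hymax n hz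
  have hA1 : ∀ n, A n ≤ 1 := fun n => (hE1 n _ (hsub n (hcb n (hy n)))).2
  have hEne : ∀ n, ∀ z ∈ ball (0 : ℂ) (5 * R), E n z ≠ 0 := fun n z hz => (hE1 n z hz).1
  have hPne : ∀ n, ∀ z ∈ ball (0 : ℂ) (5 * R), P n z ≠ 0 := fun n z hz => smul_ne_zero (hEne n z hz) (hX0 _ (hFX n z))
  have hA0 : ∀ n, 0 < A n := fun n => norm_pos_iff.mpr (hPne n _ (hsub n (hcb n (hy n))))
  obtain ⟨m, hm⟩ := exists_nat_ge (-Real.log c / Real.log 2)
  have hgrow : ∀ n, ∀ z, ρ n ≤ ‖z - w n‖ → ‖z - w n‖ ≤ 3 * R → ‖P n z‖ ≤ A n * (‖z - w n‖ / ρ n) ^ m := by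
    intro n z hz1 hz2
    refine (growth (F := P n) (w := w n) (z₁ := 0) (R₁ := 7 * R / 2) (R₀ := 3 * R) (ρ := ρ n) (A := A n) (c := c) (m := m)
      ((hPd n).mono (hsub n)) (fun z hz => (hE1 n z (hsub n hz)).2) (hρ n) (by have := hρR n; linarith) (by linarith)
      (hAle n) (hA1 n) hc ?_ (hE0 n) hm hz1 hz2).2
    rw [zero_sub, norm_neg]
    have := hwR n
    linarith
  set G : ℕ → ℂ → EN N := fun n ζ => ((A n)⁻¹ : ℂ) • P n (w n + (ρ n : ℂ) * ζ) with hG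
  have hnζ : ∀ n (ζ : ℂ), ‖(w n + (ρ n : ℂ) * ζ) - w n‖ = ρ n * ‖ζ‖ := by
    intro n ζ
    rw [add_sub_cancel_left, norm_mul, Complex.norm_real, Real.norm_of_nonneg (hρ n).le]
  have hdom : ∀ (n : ℕ) (ζ : ℂ), ‖ζ‖ < (n : ℝ) + 1 → w n + (ρ n : ℂ) * ζ ∈ ball (w n) (7 * R / 2) := by
    intro n ζ hζ
    rw [mem_ball, dist_eq_norm, hnζ]
    have e1 := mul_lt_mul_of_pos_left hζ (hρ n)
    have e2 := hρ1 n
    linarith
  have hGb : ∀ (n : ℕ) (ζ : ℂ), ‖ζ‖ < (n : ℝ) + 1 → ‖G n ζ‖ ≤ (1 + ‖ζ‖) ^ m := by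
    intro n ζ hζ
    have e0 : ‖G n ζ‖ = (A n)⁻¹ * ‖P n (w n + (ρ n : ℂ) * ζ)‖ := by
      rw [hG]
      simp only
      rw [norm_smul, norm_inv, Complex.norm_real, Real.norm_of_nonneg (hA0 n).le]
    rw [e0, inv_mul_le_iff₀ (hA0 n)]
    by_cases h3 : ‖ζ‖ ≤ 1
    · have h4 : ‖P n (w n + (ρ n : ℂ) * ζ)‖ ≤ A n := by
        refine hAle n _ ?_
        rw [mem_closedBall, dist_eq_norm, hnζ]
        have := mul_le_mul_of_nonneg_left h3 (hρ n).le
        linarith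
      refine h4.trans ?_
      have h5 : (1 : ℝ) ≤ (1 + ‖ζ‖) ^ m := one_le_pow₀ (by linarith [norm_nonneg ζ])
      have := mul_le_mul_of_nonneg_left h5 (hA0 n).le
      linarith
    · push Not at h3
      have h4 := hgrow n (w n + (ρ n : ℂ) * ζ) (by
        rw [hnζ]
        have := mul_le_mul_of_nonneg_left h3.le (hρ n).le
        linarith) (by
        rw [hnζ]
        have e1 := mul_lt_mul_of_pos_left hζ (hρ n)
        have e2 := hρ1 n
        linarith)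
      refine h4.trans (mul_le_mul_of_nonneg_left ?_ (hA0 n).le)
      rw [hnζ, mul_div_cancel_left₀ _ (hρ n).ne']
      exact pow_le_pow_left₀ (norm_nonneg _) (by linarith) m
  have hGd : ∀ n, DifferentiableOn ℂ (G n) (ball 0 (n + 1)) := by
    intro n ζ hζ
    rw [mem_ball_zero_iff] at hζ
    have e1 : DifferentiableAt ℂ (P n) (w n + (ρ n : ℂ) * ζ) :=
      (hPd n).differentiableAt (isOpen_ball.mem_nhds (hsub n (hdom n ζ hζ)))
    have e2 : DifferentiableAt ℂ (fun ζ : ℂ => w n + (ρ n : ℂ) * ζ) ζ := (differentiableAt_id.const_mul _).const_add _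
    have e3 : DifferentiableAt ℂ (P n ∘ fun ζ : ℂ => w n + (ρ n : ℂ) * ζ) ζ := DifferentiableAt.comp ζ e1 e2
    exact (e3.const_smul ((A n)⁻¹ : ℂ)).differentiableWithinAt
  -- the ultrafilter
  set 𝒰 : Ultrafilter ℕ := hyperfilter ℕ with h𝒰
  have hle : (𝒰 : Filter ℕ) ≤ atTop := Nat.hyperfilter_le_atTop
  have hev : ∀ j : ℕ, ∀ᶠ n in (𝒰 : Filter ℕ), j ≤ n := fun j => hle (eventually_ge_atTop j)
  obtain ⟨g, hgd, hgt⟩ := entire_limit (𝒰 := 𝒰) (G := G) (B := fun j => (1 + ((j : ℝ) + 1)) ^ m) (by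
    intro j
    filter_upwards [hev j] with n hn
    have hjn : (j : ℝ) ≤ n := by exact_mod_cast hn
    refine ⟨(hGd n).mono (ball_subset_ball (by linarith)), fun z hz => ?_⟩
    rw [mem_ball_zero_iff] at hz
    refine (hGb n z (by linarith)).trans ?_
    exact pow_le_pow_left₀ (by positivity) (by linarith) m)
  have hpt : ∀ z, Tendsto (fun n => G n z) 𝒰 (𝓝 (g z)) := by
    intro z
    refine (hgt ⌈‖z‖⌉₊).tendsto_at ?_
    rw [mem_ball_zero_iff]
    have := Nat.le_ceil ‖z‖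
    linarith
  have hlt : ∀ z : ℂ, ∀ᶠ n : ℕ in (𝒰 : Filter ℕ), ‖z‖ < n + 1 := by
    intro z
    filter_upwards [hev ⌈‖z‖⌉₊] with n hn
    have e1 : (⌈‖z‖⌉₊ : ℝ) ≤ n := by exact_mod_cast hn
    have := Nat.le_ceil ‖z‖
    linarith
  have hgb : ∀ z, ‖g z‖ ≤ (1 + ‖z‖) ^ m := by
    intro z
    refine le_of_tendsto (hpt z).norm ?_
    filter_upwards [hlt z] with n hn
    exact hGb n z hn
  -- the limit is not zero
  obtain ⟨η, hη⟩ : ∃ η, g η ≠ 0 := by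
    set t : ℕ → ℂ := fun n => (y n - w n) / (ρ n : ℂ) with ht
    have ht1 : ∀ n, t n ∈ closedBall (0 : ℂ) 1 := by
      intro n
      have e1 := hy n
      rw [mem_closedBall, dist_eq_norm] at e1
      rw [mem_closedBall_zero_iff, ht]
      simp only
      rw [norm_div, Complex.norm_real, Real.norm_of_nonneg (hρ n).le, div_le_one (hρ n)]
      exact e1
    obtain ⟨t₀, ht₀, hlim⟩ := (isCompact_closedBall (0 : ℂ) 1).ultrafilter_le_nhds (𝒰.map t) (by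
      rw [Filter.le_principal_iff, Ultrafilter.coe_map, Filter.mem_map]
      exact Filter.univ_mem' ht1)
    have hlim' : Tendsto t 𝒰 (𝓝 t₀) := hlim
    refine ⟨t₀, fun h0 => ?_⟩
    have ht2 : t₀ ∈ ball (0 : ℂ) ((1 : ℕ) + 1) := by
      rw [mem_closedBall_zero_iff] at ht₀
      rw [mem_ball_zero_iff]
      push_cast
      linarith
    have e1 : Tendsto (fun n => G n (t n)) 𝒰 (𝓝 (g t₀)) := by
      refine (hgt 1).tendsto_comp (hgd.continuous.continuousOn _ ht2) ht2 (tendsto_nhdsWithin_iff.2 ⟨hlim', ?_⟩)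
      exact hlim'.eventually (isOpen_ball.mem_nhds ht2)
    have e2 : ∀ n, ‖G n (t n)‖ = 1 := by
      intro n
      have e3 : w n + (ρ n : ℂ) * t n = y n := by
        have e4 : (ρ n : ℂ) ≠ 0 := by exact_mod_cast (hρ n).ne'
        rw [ht]
        simp only
        field_simp
        ring
      rw [hG]
      simp only
      rw [e3, norm_smul, norm_inv, Complex.norm_real, Real.norm_of_nonneg (hA0 n).le]
      exact inv_mul_cancel₀ (hA0 n).ne'
    have e3 := e1.norm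
    simp only [e2] at e3
    have e4 := tendsto_nhds_unique e3 tendsto_const_nhds
    rw [h0, norm_zero] at e4
    exact zero_ne_one e4
  -- the limit is a polynomial curve
  have hpoly : ∀ i : Fin (N + 1), ∃ p : Polynomial ℂ, ∀ z, g z i = p.eval z := by
    intro i
    refine exists_poly_of_growth m (fun z => g z i) 1 ?_ ?_
    · exact (EuclideanSpace.proj i : EN N →L[ℂ] ℂ).differentiable.comp hgd
    · intro z
      rw [one_mul]
      exact (PiLp.norm_apply_le (g z) i).trans (hgb z)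
  choose p hp using hpoly
  have hgp : ∀ z, g z = (WithLp.toLp 2 (fun i => (p i).eval z) : EN N) := by
    intro z
    ext i
    exact hp i z
  have hgX : ∀ z, g z ≠ 0 → g z ∈ X := by
    intro z hz
    have e1 : g z ∈ insert 0 X := by
      refine hX.closed.mem_of_tendsto (hpt z) ?_
      filter_upwards [hlt z] with n hn
      right
      rw [hG]
      simp only
      have e2 : ((A n)⁻¹ : ℂ) ≠ 0 := inv_ne_zero (by exact_mod_cast (hA0 n).ne')
      rw [hP]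
      simp only
      rw [smul_smul]
      exact hX.smul_mem _ (hFX n _) _ (mul_ne_zero e2 (hEne n _ (hsub n (hdom n z hn))))
    rcases e1 with e1 | e1
    · exact absurd e1 hz
    · exact e1
  obtain ⟨d, p', hd, hpd, hp'X⟩ := poly_reduce hX (p := p) ⟨η, by rw [← hgp]; exact hη⟩ (fun z hz => by
    rw [← hgp] at hz ⊢
    exact hgX z hz)
  set v : ℂ → EN N := fun z => WithLp.toLp 2 (fun i => (p' i).eval z) with hv
  have hgv : ∀ z, g z = d.eval z • v z := by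
    intro z
    rw [hgp]
    ext i
    show (p i).eval z = d.eval z * (p' i).eval z
    rw [hpd i, Polynomial.eval_mul]
  have hline : ∀ z, ∃ a : ℂ, v z = a • v 0 := fun z => hr p' hp'X z 0
  -- the limit of `limit_curves`
  have hρ' : Tendsto (fun n : ℕ => (n : ℝ) + 1) 𝒰 atTop :=
    (tendsto_atTop_add_const_right _ _ tendsto_natCast_atTop_atTop).mono_left hle
  obtain ⟨H, hH, hHX, hpr, hfs, -⟩ := Pool.Agent.H62.EF.limit_curves hX (L := 2) two_pos 𝒰 (fun n ζ => F n (w n + (ρ n : ℂ) * ζ))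
    (fun n : ℕ => (n : ℝ) + 1) hρ' (Eventually.of_forall fun n =>
      ⟨((hF n).comp ((differentiable_id.const_mul _).const_add _)).differentiableOn, fun z hz => ⟨hFX n _, h2 n z hz⟩⟩)
  have hone : fs (H 0) (deriv H 0) = 1 := by
    have h3 := hfs 0
    have h4 : ∀ n, fs (F n (w n + (ρ n : ℂ) * 0)) (deriv (fun ζ => F n (w n + (ρ n : ℂ) * ζ)) 0) = 1 := by
      intro n
      rw [mul_zero, add_zero]
      exact h1 n
    simp only [h4] at h3
    exact (tendsto_nhds_unique h3 tendsto_const_nhds)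
  have hH0 : ∀ z, H z ≠ 0 := fun z => hX0 _ (hHX z)
  have hHg : ∀ z, g z ≠ 0 → ∃ a : ℂ, H z = a • v 0 := by
    intro z hz
    have e1 : Tendsto (fun n => pr (G n z)) 𝒰 (𝓝 (pr (g z))) := (continuousAt_pr hz).tendsto.comp (hpt z)
    have e2 : ∀ᶠ n in (𝒰 : Filter ℕ), pr (G n z) = pr (F n (w n + (ρ n : ℂ) * z)) := by
      filter_upwards [hlt z] with n hn
      have e3 : ((A n)⁻¹ : ℂ) ≠ 0 := inv_ne_zero (by exact_mod_cast (hA0 n).ne')
      rw [hG]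
      simp only
      rw [pr_smul _ e3, hP]
      simp only
      rw [pr_smul _ (hEne n _ (hsub n (hdom n z hn)))]
    have e3 : pr (g z) = pr (H z) := tendsto_nhds_unique (e1.congr' e2) (hpr z)
    obtain ⟨a, ha, e4⟩ := (pr_eq_iff (hH0 z) hz).mp e3.symm
    obtain ⟨b, hb⟩ := hline z
    exact ⟨a * d.eval z * b, by rw [e4, hgv, hb, smul_smul, smul_smul]⟩
  have hcl : IsClosed ((ℂ ∙ v 0 : Submodule ℂ (EN N)) : Set (EN N)) := Submodule.closed_of_finiteDimensional _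
  have hHv : ∀ z, H z ∈ (ℂ ∙ v 0 : Submodule ℂ (EN N)) := by
    intro z
    have e1 : ∀ᶠ ζ in 𝓝[≠] z, g ζ ≠ 0 := by
      rcases (hgd.analyticAt z).eventually_eq_zero_or_eventually_ne_zero with h3 | h3
      · exfalso
        have h4 : AnalyticOnNhd ℂ g Set.univ := fun x _ => hgd.analyticAt x
        exact hη (h4.eqOn_zero_of_preconnected_of_eventuallyEq_zero isPreconnected_univ (Set.mem_univ z) h3 (Set.mem_univ η))
      · exact h3
    have e2 : Tendsto H (𝓝[≠] z) (𝓝 (H z)) := (hH.continuous.tendsto z).mono_left nhdsWithin_le_nhds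
    refine hcl.mem_of_tendsto e2 ?_
    filter_upwards [e1] with ζ hζ
    obtain ⟨a, ha⟩ := hHg ζ hζ
    rw [ha]
    exact Submodule.smul_mem _ _ (Submodule.mem_span_singleton_self _)
  have hHc : ∀ z, ∃ a : ℂ, H z = a • H 0 := by
    intro z
    obtain ⟨a, ha⟩ := Submodule.mem_span_singleton.mp (hHv z)
    obtain ⟨b, hb⟩ := Submodule.mem_span_singleton.mp (hHv 0)
    have hb0 : b ≠ 0 := by
      rintro rfl
      rw [zero_smul] at hb
      exact hH0 0 hb.symm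
    refine ⟨a * b⁻¹, ?_⟩
    rw [← hb, smul_smul, mul_assoc, inv_mul_cancel₀ hb0, mul_one, ha]
  obtain ⟨b, hb⟩ := Pool.Agent.H36.BP.Brody_deriv_line (hH 0) hHc
  have h3 : wd (H 0) (deriv H 0) = 0 := (Pool.Agent.H36.BP.wd_eq_zero (hH0 0)).mpr ⟨b, hb⟩
  unfold fs at hone
  rw [h3, zero_div] at hone
  exact zero_ne_one hone

variable {T : Set (EN N)} {rho : EN N → ℝ} {M : ℕ} {c₀ C : ℝ} {g : (ℂ → EN N) → ℂ → ℝ}

/-- step (b), with the statement of MODULE B (`bound_fs`) -/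
theorem bound_fs_nb (hX : IsCone X) (hrat : NoRat X) (E : Energy X T (fun x => ‖x‖) rho M c₀ C g) (n : PseudoLength X) {C₁ : ℝ}
    (hA : ∀ F, Cls T n F → ∀ z, g F z ≤ C₁) {d : ℝ} (hd : 0 < d) (R : ℝ) :
    ∃ L : ℝ, ∀ F, Cls T n F → d ≤ g F 0 → ∀ z ∈ ball (0 : ℂ) R, fs (F z) (deriv F z) ≤ L := by
  have hX0 : ∀ x ∈ X, x ≠ 0 := fun x hx h => hX.zero_notMem (h ▸ hx)
  set R' : ℝ := max R 1 with hR'
  have hR0 : 0 < R' := lt_of_lt_of_le one_pos (le_max_right _ _)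
  obtain ⟨L, hL, hLb⟩ := lip_of_char hX hrat hR0
    (Real.exp_pos (-(1 + Real.log (C₁ / d * Real.exp 1 * Real.exp ((C * C₁ ^ 2 + 1) * (5 * R') ^ 2))) / c₀))
  refine ⟨L, fun F hF hFd z hz => ?_⟩
  obtain ⟨u, hu, hu1, hu0⟩ := char_fun (m := g F) (F := F) (c₀ := c₀) (C := C) (A := C₁) (δ := d) (R := 5 * R') E.c₀_pos E.C_pos.le
    (by positivity) hd hF.1.diff (fun z => hX0 _ (hF.1.mem z))
    (fun x _ a ha => (E.usc F hF.1 x a ha).filter_mono nhdsWithin_le_nhds) (fun z _ => hA F hF z) hFd (fun z _ hz0 => E.sub F hF.1 z hz0)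
  refine hLb F (fun z => Complex.exp (u z)) hF.1.diff hF.1.mem (hu.cexp).differentiableOn
    (fun z hz => ⟨Complex.exp_ne_zero _, hu1 z hz⟩) hu0 z ?_
  rw [mem_ball_zero_iff] at hz
  rw [mem_closedBall_zero_iff]
  exact hz.le.trans (le_max_left _ _)

end Pool.Agent.SY
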