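import Pool.Agent.SY.F1G
import Pool.Agent.SY.NB
import Pool.Agent.AD.T.NCProof
import Pool.Agent.H66.SD.Dom

/-!
# SY F2G: the main theorem, from step (b)
-/

set_option autoImplicit false

open Topology Filter Metric MvPolynomial

noncomputable section

namespace Pool.Agent.SY

open Pool.Agent.H36.BP (EN fs isCone_transport)
open Pool.Agent.H22.W (PseudoLength)
open Pool.Agent.H17 (PN VanishesAt HolomorphicInto ZariskiClosedIn puncturedDisc)
open Pool.Agent.H62.FC (Homog)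
open Pool.Agent.H62.SA (locVar OnBd)
open Pool.Agent.H7.Bir (GGL GGLOpen)
open Pool.Agent.H17LG.Variety (FunField)
open Pool.Agent.H13.OT (OrderTwo)
open Pool.Agent.H17EF (projVar coneE GT LE)
open Pool.Agent.H14.PP (IsCone)
open Pool.Agent.H14.KB (KobayashiHyperbolicModulo)
open Pool.Agent.AD (NullClass)
open Pool.Agent.AD.NC (IsSmooth IsOfLogGeneralType isOfLogGeneralType_zero)

variable {N : ℕ} {P : Ideal (MvPolynomial (Fin (N + 1)) ℂ)}

/-- no rational curves -/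
theorem stepBAll_of_noRat [P.IsPrime] {z : Fin 2 → FunField P} (hP : Homog P) (hz : IsTranscendenceBasis ℂ z) (hsm : IsSmooth P 2)
    (hrat : NoRat (coneE P)) : StepBAll P := by
  have hX : IsCone (coneE P) :=
    isCone_transport (LE N) (Pool.Agent.H13.SM.surface_cone hP hz fun y hy => hsm y hy.1 hy.2)
  intro n R d hR hRP _
  exact ⟨R, d, hR, hRP, fun Q D _ _ _ rho M c₀ C g E C₁ hA d hd R => bound_fs_nb hX hrat E n hA hd R⟩

/-- the main theorem -/
theorem main_of [P.IsPrime] (hP : Homog P) (hdim : ∃ z : Fin 2 → FunField P, IsTranscendenceBasis ℂ z) (hsmooth : IsSmooth P 2)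
    (hgt : IsOfLogGeneralType P (Fin.elim0 : Fin 0 → MvPolynomial (Fin (N + 1)) ℂ) 2) (hb : StepBAll P)
    (A : Set (ℂ → PN N)) (hA : NullClass P A) (R : MvPolynomial (Fin (N + 1)) ℂ) (d : ℕ) (hR : R.IsHomogeneous d) (hRP : R ∉ P)
    (hnull : ∀ f : ℂ → PN N, HolomorphicInto f Set.univ → OrderTwo f → (∀ z, f z ∈ projVar P) → (∃ z w, f z ≠ f w) → f ∈ A →
      ∀ z, VanishesAt R (f z)) :
    (∀ (M s : ℕ) (P' : Ideal (MvPolynomial (Fin (M + 1)) ℂ)) [P'.IsPrime] (G : Fin s → MvPolynomial (Fin (M + 1)) ℂ), Homog P' →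
      (∃ z : Fin 2 → FunField P', IsTranscendenceBasis ℂ z) → (∀ m, ∃ n, (G m).IsHomogeneous n) → (locVar P' G).Nonempty →
      Nonempty (FunField P →ₐ[ℂ] FunField P') → ∃ Ξ' : Set (PN M), GGLOpen P' G Ξ') ∧
    ∃ (Q : MvPolynomial (Fin (N + 1)) ℂ) (D : ℕ), Q.IsHomogeneous D ∧ (∃ x ∈ projVar P, ¬ VanishesAt Q x) ∧
      KobayashiHyperbolicModulo (projVar P) Q D := by
  obtain ⟨z, hz⟩ := id hdim
  have hgt' : GT P 2 := (isOfLogGeneralType_zero P _ 2).1 hgt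
  obtain ⟨ν, hν⟩ := Pool.Agent.AD.exists_length hP hz hsmooth hA
  obtain ⟨Ξ, hcl, hne, hbr⟩ := orderTwo_degenerate_of hP hz hsmooth hgt' hb ν hR hRP
    (fun f hf hfo hfX hfn h => hnull f hf hfo hfX hfn (hν f hfX h))
  obtain ⟨h1, h2, h3, Q, D, hQ, hQx, -, hkob⟩ := Pool.Agent.H14.V.four_of_brody hP hz hsmooth hgt' hcl hne hbr
  have hG : ∀ w, 1 ≤ w → (∃ z : Fin w → FunField P, IsTranscendenceBasis ℂ z) → GT P w := by
    intro w _ hw
    obtain rfl := Pool.Agent.H17EF.two_of_basis ⟨z, hz⟩ hw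
    exact hgt'
  refine ⟨?_, Q, D, hQ, hQx, hkob⟩
  intro M s P' _ G hP' hdim' hGh hne' ⟨φ⟩
  exact Pool.Agent.H66.SD.dom_open_four hP' hdim hP hdim' φ hGh hne' (Ξ := Ξ) ⟨hcl, hne, hG, h2, h1, h3⟩

end Pool.Agent.SY
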