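import Pool.Agent.H62.FC.Special
import Pool.Agent.H62.Qe.Defs

/-!
# SY LangD: the special set of a surface, definitions
-/

set_option autoImplicit false

open MvPolynomial
open Pool.Agent.H17 (PN)
open Pool.Agent.H62.FC (Homog specialSet IsGeneralType)
open Pool.Agent.H62.Qe (IsEtaleOver)
open Pool.Agent.H17LG.Variety (FunField)
open Pool.Agent.H17EF (projVar)

noncomputable section

namespace Pool.Agent.SY.Lang

variable {N : ℕ}

/-- The special set of the closed subvariety `X` of `ℙ^N` given by `P` is not `X`, and for every closed subvariety `Y` of `X` of positive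
dimension it is equivalent that `Y` is of general type, that the special set of `Y` is not `Y`, and that `Y` is not contained in the special set of
`X`. -/
structure LangSpecial (P : Ideal (MvPolynomial (Fin (N + 1)) ℂ)) [P.IsPrime] : Prop where
  ne : specialSet (projVar P) ≠ projVar P
  subvarieties : ∀ (Q : Ideal (MvPolynomial (Fin (N + 1)) ℂ)) [Q.IsPrime], Homog Q → P ≤ Q → ∀ w, 1 ≤ w →
    (∃ z : Fin w → FunField Q, IsTranscendenceBasis ℂ z) →
    (IsGeneralType (FunField Q) w ↔ specialSet (projVar Q) ≠ projVar Q) ∧
    (IsGeneralType (FunField Q) w ↔ ¬ projVar Q ⊆ specialSet (projVar P))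

/-- The conclusion, for the surface `X` given by `P`: the conjecture holds for all closed subvarieties of `X`, and of all projective surfaces which
dominate `X`, or virtually dominate `X`. -/
structure LangSurface (P : Ideal (MvPolynomial (Fin (N + 1)) ℂ)) [P.IsPrime] : Prop where
  /-- every projective surface with a dominant rational map to `X` (for instance `X` itself) -/
  dominating : ∀ (M : ℕ) (P' : Ideal (MvPolynomial (Fin (M + 1)) ℂ)) [P'.IsPrime], Homog P' →
    (∃ z : Fin 2 → FunField P', IsTranscendenceBasis ℂ z) → Nonempty (FunField P →ₐ[ℂ] FunField P') → LangSpecial P'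
  /-- every projective surface of general type with a finite étale covering `X'` and a dominant rational map from `X'` to `X` -/
  virtual : ∀ (M L : ℕ) (P' : Ideal (MvPolynomial (Fin (M + 1)) ℂ)) [P'.IsPrime] (R : Ideal (MvPolynomial (Fin (L + 1)) ℂ)) [R.IsPrime]
    (q : PN M → PN L), Homog P' → Homog R → (∃ z : Fin 2 → FunField P', IsTranscendenceBasis ℂ z) →
    (∃ z : Fin 2 → FunField R, IsTranscendenceBasis ℂ z) → Nonempty (FunField P →ₐ[ℂ] FunField P') →
    IsEtaleOver R P' (fun _ : Fin 1 => 1) (fun _ : Fin 1 => 1) q → IsGeneralType (FunField R) 2 → LangSpecial R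

end Pool.Agent.SY.Lang
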