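import Pool.Agent.SY.LangS
import Pool.Agent.SY.RDefs

/-!
# SY LangR: the special set, from the properties of the Green–Griffiths–Lang conjecture
-/

set_option autoImplicit false

open Topology Filter Metric MvPolynomial

noncomputable section

namespace Pool.Agent.SY.Lang

open Pool.Agent.H17 (PN VanishesAt HolomorphicInto ZariskiClosedIn)
open Pool.Agent.H62.FC (Homog IsGeneralType)
open Pool.Agent.H62.SA (locVar OnBd)
open Pool.Agent.H62.Qe (IsEtaleOver)
open Pool.Agent.H7.Bir (GGLOpen)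
open Pool.Agent.H17LG.Variety (FunField IsLogGeneralType)
open Pool.Agent.H17EF (projVar coneE)

variable {N : ℕ}

/-- from the properties of the conjecture -/
theorem langSpecial_of_ggl {P : Ideal (MvPolynomial (Fin (N + 1)) ℂ)} [P.IsPrime] (hP : Homog P)
    (hdim : ∃ z : Fin 2 → FunField P, IsTranscendenceBasis ℂ z) {Ξ : Set (PN N)}
    (h : GGLOpen P (fun _ : Fin 1 => (1 : MvPolynomial (Fin (N + 1)) ℂ)) Ξ) : LangSpecial P := by
  have h1 := h.logGeneralType 2 one_le_two hdim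
  rw [Pool.Agent.H17EF.onBd_one] at h1
  have h2 := h.closed
  have h3 := h.proper
  have h4 := h.brody
  rw [Pool.Agent.H17EF.locVar_one] at h2 h3 h4
  exact langSpecial_of hP hdim (Pool.Agent.H14.V.isGeneralType_of_gt h1) h2 h3 h4

theorem one_notMem (P : Ideal (MvPolynomial (Fin (N + 1)) ℂ)) [P.IsPrime] : (1 : MvPolynomial (Fin (N + 1)) ℂ) ∉ P :=
  fun h => (inferInstance : P.IsPrime).ne_top ((Ideal.eq_top_iff_one P).2 h)

/-- **The special set.** -/
theorem lang_of_hyperbolic {P : Ideal (MvPolynomial (Fin (N + 1)) ℂ)} [P.IsPrime] (h : IsHyperbolicSurface P) : LangSurface P := by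
  refine ⟨?_, ?_⟩
  · intro M P' _ hP' hdim' hφ
    obtain ⟨x, hx, -⟩ := Pool.Agent.H17EF.exists_point hP' (exists_X P' one_le_two hdim') (one_notMem P') (isHomogeneous_one _ _)
    obtain ⟨Ξ', hΞ⟩ := h.dominating M 1 P' (fun _ => 1) hP' hom_one ⟨x, by rw [Pool.Agent.H17EF.locVar_one]; exact hx⟩ hdim' hφ
    exact langSpecial_of_ggl hP' hdim' hΞ
  · intro M L P' _ R _ q hP' hR hdim' hdimR hφ hq hgt
    obtain ⟨Ξ', hΞ⟩ := h.virtual M L 1 1 P' R (fun _ => 1) (fun _ => 1) q hP' hR hom_one hom_one ⟨0, one_notMem R⟩ hdim' hdimR hφ hq (by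
      rw [Pool.Agent.H17EF.onBd_one]
      exact Pool.Agent.H14.V.gt_of_isGeneralType hgt)
    exact langSpecial_of_ggl hR hdimR hΞ

end Pool.Agent.SY.Lang
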