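import Pool.Agent.H62.EF.ZalA

/-!
# SY N3: Zalcman's choice of the centres, localised

`zal_one`: one curve; the function `fs (F z) (F' z) * (2 s - ‖z - w‖)` has a maximum on `closedBall w (2 s)`.
`zalcman`: for every `n` the largest `k ≤ n` with a point `z` in `ball w (1 / (k + 1))` with `fs > 2 (k + 1) ^ 2`.
-/

set_option autoImplicit false

open Topology Filter Metric

namespace Pool.Agent.SY

open Pool.Agent.H36.BP (EN fs wd wd_cont fs_nonneg fs_smul_right)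

variable {N : ℕ}

theorem zal_one {F : ℂ → EN N} (hF : Differentiable ℂ F) (h0 : ∀ z, F z ≠ 0) {w : ℂ} {s K : ℝ} (hs : 0 < s) (hK : 0 < K)
    (hbig : ∃ z ∈ ball w s, 2 * (K / s) < fs (F z) (deriv F z)) :
    ∃ (z₀ : ℂ) (a : ℝ), ‖z₀ - w‖ ≤ 2 * s ∧ K / s < a ∧ fs (F z₀) (deriv (fun ζ => F (z₀ + ((a⁻¹ : ℝ) : ℂ) * ζ)) 0) = 1 ∧
      ∀ ζ ∈ ball (0 : ℂ) K, fs (F (z₀ + ((a⁻¹ : ℝ) : ℂ) * ζ)) (deriv (fun ζ => F (z₀ + ((a⁻¹ : ℝ) : ℂ) * ζ)) ζ) ≤ 2 := by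
  obtain ⟨zb, hzb, hbig⟩ := hbig
  have hFc : Continuous F := hF.continuous
  have hF'c : Continuous (deriv F) := (hF.contDiff (n := 1)).continuous_deriv le_rfl
  have hgc : Continuous fun z : ℂ => fs (F z) (deriv F z) := by
    unfold fs
    refine (wd_cont.comp (hFc.prodMk hF'c)).div (hFc.norm.pow 2) ?_
    intro z
    exact pow_ne_zero 2 (norm_ne_zero_iff.mpr (h0 z))
  set u : ℂ → ℝ := fun z => fs (F z) (deriv F z) * (2 * s - ‖z - w‖) with hu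
  have huc : Continuous u := hgc.mul (continuous_const.sub (continuous_norm.comp (continuous_id.sub continuous_const)))
  obtain ⟨z₀, hz₀, hmax⟩ := (isCompact_closedBall w (2 * s)).exists_isMaxOn ⟨w, by simp [hs.le]⟩ huc.continuousOn
  have hz₀n : ‖z₀ - w‖ ≤ 2 * s := by simpa [dist_eq_norm] using hz₀
  have hzbn : ‖zb - w‖ < s := by simpa [dist_eq_norm] using hzb
  have hu0z : u zb ≤ u z₀ := hmax (by rw [mem_closedBall, dist_eq_norm]; linarith : zb ∈ closedBall w (2 * s))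
  have hub : 2 * K < u zb := by
    have h1 : 2 * (K / s) * s < fs (F zb) (deriv F zb) * (2 * s - ‖zb - w‖) := by
      have h2 : s < 2 * s - ‖zb - w‖ := by linarith
      have h3 : 0 < 2 * (K / s) := by positivity
      calc 2 * (K / s) * s < 2 * (K / s) * (2 * s - ‖zb - w‖) := mul_lt_mul_of_pos_left h2 h3
        _ ≤ fs (F zb) (deriv F zb) * (2 * s - ‖zb - w‖) := mul_le_mul_of_nonneg_right hbig.le (by linarith)
    have h4 : 2 * (K / s) * s = 2 * K := by field_simp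
    rw [h4] at h1
    exact h1
  have hm : 2 * K < u z₀ := lt_of_lt_of_le hub hu0z
  set d : ℝ := 2 * s - ‖z₀ - w‖ with hd
  have hd0 : 0 ≤ d := by rw [hd]; linarith
  set a : ℝ := fs (F z₀) (deriv F z₀) with ha
  have ha0 : 0 ≤ a := fs_nonneg _ _
  have huz : u z₀ = a * d := rfl
  have hpos : 0 < a * d := by rw [← huz]; linarith
  have hapos : 0 < a := by
    rcases ha0.lt_or_eq with h | h
    · exact h
    · rw [← h] at hpos; simp at hpos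
  have hdpos : 0 < d := by
    rcases hd0.lt_or_eq with h | h
    · exact h
    · rw [← h] at hpos; simp at hpos
  have hd2 : d ≤ 2 * s := by rw [hd]; linarith [norm_nonneg (z₀ - w)]
  have haL : K / s < a := by
    have h1 : a * d ≤ a * (2 * s) := mul_le_mul_of_nonneg_left hd2 ha0
    rw [huz] at hm
    rw [div_lt_iff₀ hs]
    linarith
  set φ : ℂ → ℂ := fun ζ => z₀ + ((a⁻¹ : ℝ) : ℂ) * ζ with hφ
  have hφd : ∀ ζ, HasDerivAt φ ((a⁻¹ : ℝ) : ℂ) ζ := by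
    intro ζ
    have := ((hasDerivAt_id ζ).const_mul ((a⁻¹ : ℝ) : ℂ)).const_add z₀
    simpa [hφ] using this
  have hkey : ∀ ζ ∈ ball (0 : ℂ) K, ‖φ ζ - w‖ ≤ 2 * s - d / 2 := by
    intro ζ hζ
    have hζn : ‖ζ‖ < K := by simpa using hζ
    have h1 : ‖φ ζ - w‖ ≤ ‖z₀ - w‖ + a⁻¹ * ‖ζ‖ := by
      have h11 : φ ζ - w = (z₀ - w) + ((a⁻¹ : ℝ) : ℂ) * ζ := by simp only [hφ]; ring
      rw [h11]
      calc ‖(z₀ - w) + ((a⁻¹ : ℝ) : ℂ) * ζ‖ ≤ ‖z₀ - w‖ + ‖((a⁻¹ : ℝ) : ℂ) * ζ‖ := norm_add_le _ _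
        _ = ‖z₀ - w‖ + a⁻¹ * ‖ζ‖ := by
          rw [norm_mul, Complex.norm_real, Real.norm_of_nonneg (by positivity)]
    have h2 : a⁻¹ * ‖ζ‖ ≤ d / 2 := by
      rw [inv_mul_le_iff₀ hapos]
      rw [huz] at hm
      linarith
    have h3 : ‖z₀ - w‖ = 2 * s - d := by rw [hd]; ring
    linarith
  have hball : ∀ ζ ∈ ball (0 : ℂ) K, φ ζ ∈ closedBall w (2 * s) := by
    intro ζ hζ
    have := hkey ζ hζ
    rw [mem_closedBall, dist_eq_norm]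
    linarith
  have hder : ∀ ζ, deriv (fun ζ => F (φ ζ)) ζ = ((a⁻¹ : ℝ) : ℂ) • deriv F (φ ζ) := by
    intro ζ
    exact ((hF (φ ζ)).hasDerivAt.scomp ζ (hφd ζ)).deriv
  have hfs : ∀ ζ, fs (F (φ ζ)) (deriv (fun ζ => F (φ ζ)) ζ) = a⁻¹ * fs (F (φ ζ)) (deriv F (φ ζ)) := by
    intro ζ
    rw [hder, fs_smul_right, Complex.norm_real, Real.norm_of_nonneg (by positivity)]
  have hφ0 : φ 0 = z₀ := by simp [hφ]
  refine ⟨z₀, a, hz₀n, haL, ?_, ?_⟩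
  · have h1 := hfs 0
    rw [hφ0, ← ha, inv_mul_cancel₀ hapos.ne'] at h1
    exact h1
  · intro ζ hζ
    change fs (F (φ ζ)) (deriv (fun ζ => F (φ ζ)) ζ) ≤ 2
    rw [hfs ζ]
    have h1 : u (φ ζ) ≤ u z₀ := hmax (hball ζ hζ)
    have h2 := hkey ζ hζ
    have h3 : fs (F (φ ζ)) (deriv F (φ ζ)) * (2 * s - ‖φ ζ - w‖) ≤ a * d := h1
    have h4 : 0 ≤ fs (F (φ ζ)) (deriv F (φ ζ)) := fs_nonneg _ _
    have h5 : fs (F (φ ζ)) (deriv F (φ ζ)) * (d / 2) ≤ a * d :=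
      le_trans (mul_le_mul_of_nonneg_left (by linarith) h4) h3
    have h6 : fs (F (φ ζ)) (deriv F (φ ζ)) ≤ 2 * a := by
      by_contra hc
      push Not at hc
      have : 2 * a * (d / 2) < fs (F (φ ζ)) (deriv F (φ ζ)) * (d / 2) := mul_lt_mul_of_pos_right hc (by linarith)
      linarith
    rw [inv_mul_le_iff₀ hapos]
    linarith

/-- MODULE N3: Zalcman's choice of the centres (localised version of `H62.EF.rescale_fs`) -/
theorem zalcman {𝒰 : Ultrafilter ℕ} (h𝒰 : (𝒰 : Filter ℕ) ≤ atTop) {F : ℕ → ℂ → EN N} (hF : ∀ n, Differentiable ℂ (F n)) (h0 : ∀ n z, F n z ≠ 0)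
    {w : ℂ} (hunb : ∀ s L : ℝ, 0 < s → ∀ᶠ n in (𝒰 : Filter ℕ), ∃ z ∈ ball w s, L < fs (F n z) (deriv (F n) z)) :
    ∃ (w' : ℕ → ℂ) (a ρ : ℕ → ℝ), Tendsto w' 𝒰 (𝓝 w) ∧ Tendsto a 𝒰 atTop ∧ Tendsto ρ 𝒰 atTop ∧
      ∀ᶠ n in (𝒰 : Filter ℕ), 0 < a n ∧
        fs (F n (w' n)) (deriv (fun ζ => F n (w' n + (((a n)⁻¹ : ℝ) : ℂ) * ζ)) 0) = 1 ∧
        ∀ ζ ∈ ball (0 : ℂ) (ρ n), fs (F n (w' n + (((a n)⁻¹ : ℝ) : ℂ) * ζ)) (deriv (fun ζ => F n (w' n + (((a n)⁻¹ : ℝ) : ℂ) * ζ)) ζ) ≤ 2 := by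
  classical
  let P : ℕ → ℕ → Prop := fun n k => ∃ z ∈ ball w (1 / ((k : ℝ) + 1)), 2 * (((k : ℝ) + 1) / (1 / ((k : ℝ) + 1))) < fs (F n z) (deriv (F n) z)
  have hPe : ∀ k : ℕ, ∀ᶠ n in (𝒰 : Filter ℕ), P n k := fun k => hunb _ _ (by positivity)
  let k : ℕ → ℕ := fun n => Nat.findGreatest (P n) n
  have hPk : ∀ᶠ n in (𝒰 : Filter ℕ), P n (k n) := by
    filter_upwards [hPe 0] with n hn
    exact Nat.findGreatest_spec (P := P n) (Nat.zero_le n) hn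
  have hk : Tendsto k 𝒰 atTop := by
    rw [Filter.tendsto_atTop]
    intro b
    filter_upwards [hPe b, h𝒰 (eventually_ge_atTop b)] with n hn hb
    exact Nat.le_findGreatest hb hn
  have hch : ∀ n : ℕ, ∃ (z₀ : ℂ) (a : ℝ), P n (k n) → (‖z₀ - w‖ ≤ 2 * (1 / ((k n : ℝ) + 1)) ∧ ((k n : ℝ) + 1) / (1 / ((k n : ℝ) + 1)) < a ∧
      fs (F n z₀) (deriv (fun ζ => F n (z₀ + ((a⁻¹ : ℝ) : ℂ) * ζ)) 0) = 1 ∧
      ∀ ζ ∈ ball (0 : ℂ) ((k n : ℝ) + 1), fs (F n (z₀ + ((a⁻¹ : ℝ) : ℂ) * ζ)) (deriv (fun ζ => F n (z₀ + ((a⁻¹ : ℝ) : ℂ) * ζ)) ζ) ≤ 2) := by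
    intro n
    by_cases hn : P n (k n)
    · obtain ⟨z₀, a, h⟩ := zal_one (hF n) (h0 n) (by positivity) (by positivity : (0 : ℝ) < (k n : ℝ) + 1) hn
      exact ⟨z₀, a, fun _ => h⟩
    · exact ⟨0, 0, fun h => absurd h hn⟩
  choose w' a hwa using hch
  have hkr : Tendsto (fun n => (k n : ℝ) + 1) 𝒰 atTop := tendsto_atTop_add_const_right _ _ (tendsto_natCast_atTop_atTop.comp hk)
  refine ⟨w', a, fun n => (k n : ℝ) + 1, ?_, ?_, hkr, ?_⟩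
  · rw [tendsto_iff_norm_sub_tendsto_zero]
    have h1 : Tendsto (fun n => 2 * (1 / ((k n : ℝ) + 1))) (𝒰 : Filter ℕ) (𝓝 0) := by
      have h2 : Tendsto (fun n => ((k n : ℝ) + 1)⁻¹) (𝒰 : Filter ℕ) (𝓝 0) := tendsto_inv_atTop_zero.comp hkr
      simpa using h2.const_mul 2
    refine squeeze_zero' (Eventually.of_forall fun n => norm_nonneg _) ?_ h1
    filter_upwards [hPk] with n hn
    exact (hwa n hn).1
  · refine tendsto_atTop_mono' _ ?_ hkr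
    filter_upwards [hPk] with n hn
    have h1 := (hwa n hn).2.1
    have h2 : (1 : ℝ) ≤ (k n : ℝ) + 1 := by have : (0 : ℝ) ≤ (k n : ℝ) := Nat.cast_nonneg _; linarith
    have h3 : ((k n : ℝ) + 1) / (1 / ((k n : ℝ) + 1)) = ((k n : ℝ) + 1) * ((k n : ℝ) + 1) := by
      rw [one_div, div_inv_eq_mul]
    rw [h3] at h1
    nlinarith
  · filter_upwards [hPk] with n hn
    obtain ⟨-, h1, h2, h3⟩ := hwa n hn
    exact ⟨lt_trans (by positivity) h1, h2, h3⟩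

end Pool.Agent.SY
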