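import Pool.Agent.SY.DefB
import Pool.Agent.H36.BP.OrdDefs
import Pool.Agent.H17BP.BlowM
import Pool.Agent.H14.V.MainV

/-!
# SY Stub: the statements of the modules
-/

set_option autoImplicit false

open Topology Filter Metric MvPolynomial

noncomputable section

namespace Pool.Agent.SY.Stub

open Pool.Agent.H36.BP (EN fs wd Sub OrdTwo MetricData mt Curve)
open Pool.Agent.H17BP (Pr Surface IsForm NoZeros NodalAt Eqs IsChart ResAt)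
open Pool.Agent.H14.PP (IsCone)
open Pool.Agent.H14.KB (rhoS)
open Pool.Agent.H22.W (PseudoLength)
open Pool.Agent.H62.EF (Charts)
open Pool.Agent.H62.BU (blow total Ker phi om)
open Pool.Agent.H17 (PN VanishesAt HolomorphicInto ZariskiClosedIn)
open Pool.Agent.H62.FC (Homog)
open Pool.Agent.H17LG.Variety (FunField)
open Pool.Agent.H13.SM (conTan)
open Pool.Agent.H17EF (coneE GT)
open Pool.Agent.H5.BD (BC)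

/-! ## the metric -/

section energy

variable {V : Type} [NormedAddCommGroup V] [NormedSpace ℂ V]

/-- MODULE EiA: the metric of the nodal case on a closed cone in `EN N`. -/
theorem energy_of_metric {N : ℕ} {X T : Set (EN N)} (hX : IsCone X) {G : EN N → EN N → ℝ} {ρ : EN N → ℝ} {M : ℕ} {c₀ C : ℝ}
    (hM : MetricData X (X ∩ T) G ρ M c₀ C) (hT : ∀ x ∈ T, ∀ c : ℂ, c ≠ 0 → c • x ∈ T) :
    ∃ C' : ℝ, Energy X T (fun x => ‖x‖) ρ M c₀ C' (mt G) := by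
  sorry

/-- MODULE EiN: the nodal case. -/
theorem energy_nodal [FiniteDimensional ℂ V] {X T : Set V} {m j : ℕ}
    {Ω : V → V → V → ℂ} {κ : Type} [Fintype κ] {Q : κ → V → ℂ} {D : ℕ} (h : ModelS X T m j Ω Q D) (hn : ∀ x ∈ X, NodalAt X T x)
    {N : ℕ} (L : V ≃L[ℂ] EN N) :
    ∃ (M : ℕ) (c₀ C : ℝ) (g : (ℂ → V) → ℂ → ℝ), 1 ≤ M ∧ Energy X T (fun x => ‖L x‖) (rhoS Q D) M c₀ C g := by
  sorry

variable {ι : Type} [Fintype ι] {l : ι → V →L[ℂ] ℂ} {X T : Set V} {q : V}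

/-- MODULE EiL: existence of the lift. -/
theorem exists_liftB (hX : Surface X) (hl : Ker l q) (hTX : T ⊆ X) (hT : ∀ x ∈ T, ∀ c : ℂ, c ≠ 0 → c • x ∈ T) (hq : q ∈ T) {F : ℂ → V}
    (hF : Ent X T F) : ∃ Φ, IsLiftB l X T F Φ := by
  sorry

/-- MODULE EiL: uniqueness of the lift. -/
theorem liftB_unique (hX : Surface X) (hl : Ker l q) (hTX : T ⊆ X) (hT : ∀ x ∈ T, ∀ c : ℂ, c ≠ 0 → c • x ∈ T) (hq : q ∈ T) {F : ℂ → V}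
    (hF : Ent X T F) {Φ Ψ : ℂ → ι → V} (h1 : IsLiftB l X T F Φ) (h2 : IsLiftB l X T F Ψ) :
    ∃ u : ℂ → ℂ, Differentiable ℂ u ∧ (∀ z, u z ≠ 0) ∧ ∀ z, Φ z = u z • Ψ z := by
  sorry

/-- MODULE EiD (1): the value on any lift, and the easy fields -/
theorem down_eq {N' : ℕ} {L' : (ι → V) ≃L[ℂ] EN N'} {rho : (ι → V) → ℝ} {M : ℕ} {c₀ C : ℝ} {g : (ℂ → ι → V) → ℂ → ℝ}
    (hX : Surface X) (hl : Ker l q) (hTX : T ⊆ X) (hT : ∀ x ∈ T, ∀ c : ℂ, c ≠ 0 → c • x ∈ T) (hq : q ∈ T)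
    (E : Energy (blow l X) (total l X T) (fun y => ‖L' y‖) rho M c₀ C g) {F : ℂ → V} (hF : Ent X T F) {Φ : ℂ → ι → V}
    (h1 : IsLiftB l X T F Φ) : down l X T g F = g Φ := by
  sorry

/-- MODULE EiD (2) -/
theorem down_aff {N' : ℕ} {L' : (ι → V) ≃L[ℂ] EN N'} {rho : (ι → V) → ℝ} {M : ℕ} {c₀ C : ℝ} {g : (ℂ → ι → V) → ℂ → ℝ}
    (hX : Surface X) (hl : Ker l q) (hTX : T ⊆ X) (hT : ∀ x ∈ T, ∀ c : ℂ, c ≠ 0 → c • x ∈ T) (hq : q ∈ T)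
    (E : Energy (blow l X) (total l X T) (fun y => ‖L' y‖) rho M c₀ C g) {F : ℂ → V} (hF : Ent X T F) {a b : ℂ} (ha : a ≠ 0) (z : ℂ) :
    down l X T g (fun w => F (a * w + b)) z = ‖a‖ * down l X T g F (a * z + b) := by
  sorry

/-- MODULE EiD (3) -/
theorem down_unit {N' : ℕ} {L' : (ι → V) ≃L[ℂ] EN N'} {rho : (ι → V) → ℝ} {M : ℕ} {c₀ C : ℝ} {g : (ℂ → ι → V) → ℂ → ℝ}
    (hX : Surface X) (hl : Ker l q) (hTX : T ⊆ X) (hT : ∀ x ∈ T, ∀ c : ℂ, c ≠ 0 → c • x ∈ T) (hq : q ∈ T)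
    (E : Energy (blow l X) (total l X T) (fun y => ‖L' y‖) rho M c₀ C g) {F : ℂ → V} (hF : Ent X T F) {h : ℂ → ℂ}
    (hh : Differentiable ℂ h) (h0 : ∀ z, h z ≠ 0) (z : ℂ) :
    down l X T g (fun w => h w • F w) z = down l X T g F z := by
  sorry

/-- MODULE EiS: the curvature -/
theorem down_sub {N N' : ℕ} {L : V ≃L[ℂ] EN N} {L' : (ι → V) ≃L[ℂ] EN N'} (hL : ∀ y, ‖L' y‖ ^ 2 = ∑ b, ‖L (y b)‖ ^ 2)
    {rho : (ι → V) → ℝ} {M : ℕ} {c₀ C : ℝ} {g : (ℂ → ι → V) → ℂ → ℝ}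
    (hX : Surface X) (hl : Ker l q) (hTX : T ⊆ X) (hT : ∀ x ∈ T, ∀ c : ℂ, c ≠ 0 → c • x ∈ T) (hq : q ∈ T)
    (E : Energy (blow l X) (total l X T) (fun y => ‖L' y‖) rho M c₀ C g) {F : ℂ → V} (hF : Ent X T F) (z : ℂ)
    (hz : 0 < down l X T g F z) :
    Sub (fun w => down l X T g F w * ‖L (F w)‖ ^ (-c₀)) z (-(C * down l X T g F z ^ 2)) := by
  sorry

/-- MODULE EiW: the lower bound (compare `H14/KB/KobK.lean`, `kobK_blow`) -/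
theorem down_lower {N' : ℕ} {L' : (ι → V) ≃L[ℂ] EN N'} {κ : Type} [Fintype κ] {Q : κ → V → ℂ} {D : ℕ} {M : ℕ} {c₀ C : ℝ}
    {g : (ℂ → ι → V) → ℂ → ℝ} (hX : Surface X) (hl : Ker l q) (he : Eqs X T Q D) (hq : q ∈ T) (hM : 1 ≤ M)
    (E : Energy (blow l X) (total l X T) (fun y => ‖L' y‖) (rhoS (fun (p : κ × ι) (y : ι → V) => Q p.1 (y p.2)) D) M c₀ C g)
    {F : ℂ → V} (hF : Ent X T F) (z : ℂ) :
    ∃ a : ℂ, rhoS Q D (F z) ^ M * ‖deriv F z - a • F z‖ ≤ C * ‖F z‖ * down l X T g F z := by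
  sorry

/-- MODULE EiM: limits -/
theorem down_lim [FiniteDimensional ℂ V] {N' : ℕ} {L' : (ι → V) ≃L[ℂ] EN N'} {rho : (ι → V) → ℝ} {M : ℕ} {c₀ C : ℝ} {g : (ℂ → ι → V) → ℂ → ℝ}
    (hX : Surface X) (hl : Ker l q) (hTX : T ⊆ X) (hT : ∀ x ∈ T, ∀ c : ℂ, c ≠ 0 → c • x ∈ T) (hq : q ∈ T)
    (E : Energy (blow l X) (total l X T) (fun y => ‖L' y‖) rho M c₀ C g)
    (u : Filter ℕ) (hu : u.NeBot) (r A ε : ℝ) (hr : 0 < r) (hε : 0 < ε) (F : ℕ → ℂ → V) (H : ℂ → V) (hF : ∀ᶠ n in u, Ent X T (F n))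
    (hA : ∀ᶠ n in u, ∀ z ∈ ball (0 : ℂ) r, down l X T g (F n) z ≤ A) (hB : ∀ᶠ n in u, ε ≤ down l X T g (F n) 0)
    (hc : ∃ h : ℕ → ℂ → ℂ, (∀ᶠ n in u, DifferentiableOn ℂ (h n) (ball 0 r) ∧ ∀ z ∈ ball (0 : ℂ) r, h n z ≠ 0) ∧
      TendstoLocallyUniformlyOn (fun n z => h n z • F n z) H u (ball 0 r))
    (hH : ∀ z ∈ ball (0 : ℂ) r, H z ∈ X) :
    (∃ z ∈ ball (0 : ℂ) r, H z ∉ T) ∧ ∃ z ∈ ball (0 : ℂ) r, ∃ w ∈ ball (0 : ℂ) r, ¬ Pr (H z) (H w) := by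
  sorry

/-- MODULE EiQ: the Euclidean norm on the product -/
theorem exists_equiv_sum {N : ℕ} (L : V ≃L[ℂ] EN N) (r : ℕ) (hr : 0 < r) :
    ∃ (N' : ℕ) (L' : (Fin r → V) ≃L[ℂ] EN N'), ∀ y, ‖L' y‖ ^ 2 = ∑ b, ‖L (y b)‖ ^ 2 := by
  sorry

/-- MODULE EiI: the induction over the blow-ups (compare `H36/LB/Ind.lean`) -/
theorem energy_of_model [FiniteDimensional ℂ V] {m j : ℕ} {Ω : V → V → V → ℂ} {κ : Type} [Fintype κ] {Q : κ → V → ℂ} {D : ℕ}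
    (h : ModelS X T m j Ω Q D) {N : ℕ} (L : V ≃L[ℂ] EN N) :
    ∃ (M : ℕ) (c₀ C : ℝ) (g : (ℂ → V) → ℂ → ℝ), 1 ≤ M ∧ Energy X T (fun x => ‖L x‖) (rhoS Q D) M c₀ C g := by
  sorry

end energy

/-! ## projective surfaces -/

section surface

variable {N : ℕ} {P : Ideal (MvPolynomial (Fin (N + 1)) ℂ)}

/-- MODULE EiP: the metric on a smooth projective surface of general type -/
theorem energy_surface [P.IsPrime] {z : Fin 2 → FunField P} (hP : Homog P) (hz : IsTranscendenceBasis ℂ z)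
    (hsm : ∀ y : Fin (N + 1) → ℂ, y ≠ 0 → (∀ Q ∈ P, eval y Q = 0) → Module.finrank ℂ (conTan P y) ≤ 3) (hgt : GT P 2)
    {R : MvPolynomial (Fin (N + 1)) ℂ} {d : ℕ} (hR : R.IsHomogeneous d) (hRP : R ∉ P) :
    ∃ (Q : MvPolynomial (Fin (N + 1)) ℂ) (D M : ℕ) (c₀ C : ℝ) (g : (ℂ → EN N) → ℂ → ℝ), Q.IsHomogeneous D ∧ Q ∉ P ∧
      (∀ x : EN N, eval x.ofLp R = 0 → eval x.ofLp Q = 0) ∧ 1 ≤ M ∧
      Energy (coneE P) {x | x ∈ coneE P ∧ eval x.ofLp Q = 0} (fun x => ‖x‖) (fun x => ‖eval x.ofLp Q‖ / ‖x‖ ^ D) M c₀ C g := by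
  sorry

end surface

/-! ## function theory: `X` is the cone of a closed surface in `EN N` -/

section curves

variable {N : ℕ} {X T : Set (EN N)} {rho : EN N → ℝ} {M : ℕ} {c₀ C : ℝ} {g : (ℂ → EN N) → ℂ → ℝ}

/-- MODULE ChM (helper45): bounded characteristic, for a function `m` -/
theorem char_fun {c₀ C : ℝ} (hc : 0 < c₀) (hC : 0 ≤ C) {R A δ : ℝ} (hR : 0 < R) (hδ : 0 < δ) {F : ℂ → EN N} (hF : Differentiable ℂ F)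
    (h0 : ∀ z, F z ≠ 0) {m : ℂ → ℝ} (hm : UpperSemicontinuousOn m (closedBall 0 R)) (hmA : ∀ z ∈ closedBall (0 : ℂ) R, m z ≤ A) (hm0 : δ ≤ m 0)
    (hs : ∀ z ∈ ball (0 : ℂ) R, 0 < m z → Sub (fun w => m w * ‖F w‖ ^ (-c₀)) z (-(C * m z ^ 2))) :
    ∃ u : ℂ → ℂ, Differentiable ℂ u ∧ (∀ z ∈ ball (0 : ℂ) R, ‖Complex.exp (u z) • F z‖ ≤ 1) ∧
      Real.exp (-(1 + Real.log (A / δ * Real.exp 1 * Real.exp ((C * A ^ 2 + 1) * R ^ 2))) / c₀) ≤ ‖Complex.exp (u 0) • F 0‖ := by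
  sorry

/-- MODULE LimM (helper45): the limit curve.  `v R n` are the units. -/
theorem limit_fun (hX : IsCone X) (𝒰 : Ultrafilter ℕ) (h𝒰 : (𝒰 : Filter ℕ) ≤ atTop) (F : ℕ → ℂ → EN N)
    (hF : ∀ n, Differentiable ℂ (F n)) (hFX : ∀ n z, F n z ∈ X) (c' : ℕ → ℝ) (hc' : ∀ R, 1 ≤ R → 0 < c' R)
    (hchar : ∀ R : ℕ, 1 ≤ R → ∀ n, R ≤ n → ∃ u : ℂ → ℂ, Differentiable ℂ u ∧
      (∀ z ∈ ball (0 : ℂ) R, ‖Complex.exp (u z) • F n z‖ ≤ 1) ∧ c' R ≤ ‖Complex.exp (u 0) • F n 0‖) :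
    ∃ (v : ℕ → ℕ → ℂ → ℂ) (Hs : ℕ → ℂ → EN N) (H : ℂ → EN N),
      (∀ R : ℕ, 1 ≤ R → ∀ n, R ≤ n → Differentiable ℂ (v R n) ∧ ∀ z ∈ ball (0 : ℂ) R, ‖Complex.exp (v R n z) • F n z‖ ≤ 1) ∧
      (∀ R : ℕ, 1 ≤ R → TendstoLocallyUniformlyOn (fun n z => Complex.exp (v R n z) • F n z) (Hs R) 𝒰 (ball 0 R)) ∧
      (∀ R : ℕ, 1 ≤ R → DifferentiableOn ℂ (Hs R) (ball 0 R) ∧ (∀ z ∈ ball (0 : ℂ) R, ‖Hs R z‖ ≤ 1) ∧ c' R ≤ ‖Hs R 0‖) ∧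
      Differentiable ℂ H ∧ (∀ z, H z ∈ X) ∧
      ∀ R : ℕ, 1 ≤ R → ∀ z₀ ∈ ball (0 : ℂ) R, ∃ (k : ℕ) (w : ℂ → ℂ), AnalyticAt ℂ w z₀ ∧ w z₀ ≠ 0 ∧
        ∀ᶠ z in 𝓝 z₀, Hs R z = (z - z₀) ^ k • (w z • H z) := by
  sorry

/-- MODULE Cp: compactness of the entire curves with bounded `g` and `g F 0 ≥ δ`: near `0` (and at all points off a closed discrete set) the
normalised curves converge, the limit is not in `T` and not constant -/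
theorem exists_limit (hX : IsCone X) (hTs : ∀ x ∈ T, ∀ c : ℂ, c ≠ 0 → c • x ∈ T) (E : Energy X T (fun x => ‖x‖) rho M c₀ C g) (𝒰 : Ultrafilter ℕ) (h𝒰 : (𝒰 : Filter ℕ) ≤ atTop)
    (F : ℕ → ℂ → EN N) (hF : ∀ n, Ent X T (F n)) {A δ : ℝ} (hδ : 0 < δ) (hA : ∀ n : ℕ, ∀ z ∈ ball (0 : ℂ) (n + 1), g (F n) z ≤ A)
    (h0 : ∀ n, δ ≤ g (F n) 0) :
    ∃ H : ℂ → EN N, Differentiable ℂ H ∧ (∀ z, H z ∈ X) ∧ OrdTwo H ∧ (∃ z, H z ∉ T) ∧ (∃ z w, ∀ c : ℂ, H z ≠ c • H w) ∧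
      ∀ R : ℕ, 1 ≤ R → ∃ (v : ℕ → ℂ → ℂ) (HR : ℂ → EN N),
        (∀ᶠ n in (𝒰 : Filter ℕ), Differentiable ℂ (v n) ∧ ∀ z ∈ ball (0 : ℂ) R, ‖Complex.exp (v n z) • F n z‖ ≤ 1) ∧
        TendstoLocallyUniformlyOn (fun n z => Complex.exp (v n z) • F n z) HR 𝒰 (ball 0 R) ∧ DifferentiableOn ℂ HR (ball 0 R) ∧ HR 0 ≠ 0 ∧
        ∀ z₀ ∈ ball (0 : ℂ) R, ∃ (k : ℕ) (w : ℂ → ℂ), AnalyticAt ℂ w z₀ ∧ w z₀ ≠ 0 ∧ ∀ᶠ z in 𝓝 z₀, HR z = (z - z₀) ^ k • (w z • H z) := by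
  sorry

/-- MODULE A: a bound of `g` -/
theorem bound_g (hX : IsCone X) (hTs : ∀ x ∈ T, ∀ c : ℂ, c ≠ 0 → c • x ∈ T) (E : Energy X T (fun x => ‖x‖) rho M c₀ C g) (n : PseudoLength X)
    (hnull : ∀ F : ℂ → EN N, Differentiable ℂ F → (∀ z, F z ∈ X) → OrdTwo F → (∀ z, n.toFun (F z) (deriv F z) = 0) →
      (∀ z, F z ∈ T) ∨ ∀ z w, ∃ c : ℂ, F z = c • F w) :
    ∃ C₁ : ℝ, 0 < C₁ ∧ ∀ F, Cls T n F → ∀ z, g F z ≤ C₁ := by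
  sorry

/-- MODULE N1: growth on an annulus, by the maximum modulus principle for `(z - w)^(-m) • F z` -/
theorem annulus_growth {F : ℂ → EN N} (hF : Differentiable ℂ F) {w : ℂ} {δ B b : ℝ} {m : ℕ} (hδ : 0 < δ) (hB : ∀ z ∈ sphere w δ, ‖F z‖ ≤ B)
    (hb : ∃ z ∈ sphere w (δ / 2), b ≤ ‖F z‖) (hbB : B < 2 ^ m * b) {r : ℝ} (hr : 0 < r) (hrδ : r < δ / 2) {z : ℂ} (h1 : r ≤ ‖z - w‖)
    (h2 : ‖z - w‖ ≤ δ / 2) : ∃ y ∈ sphere w r, ‖F z‖ ≤ (‖z - w‖ / r) ^ m * ‖F y‖ := by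
  sorry

/-- MODULE N2: Liouville -/
theorem poly_of_growth {h : ℂ → EN N} (hd : Differentiable ℂ h) {m : ℕ} {A : ℝ} (hg : ∀ z, ‖h z‖ ≤ A * max 1 (‖z‖ ^ m)) :
    ∃ p : Fin (N + 1) → Polynomial ℂ, ∀ z i, h z i = (p i).eval z := by
  sorry

/-- MODULE N2: reduction of a polynomial curve -/
theorem poly_reduce (hX : IsCone X) {p : Fin (N + 1) → Polynomial ℂ} (h0 : ∃ z : ℂ, (WithLp.toLp 2 (fun i => (p i).eval z) : EN N) ≠ 0)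
    (hp : ∀ z : ℂ, (WithLp.toLp 2 (fun i => (p i).eval z) : EN N) ≠ 0 → (WithLp.toLp 2 (fun i => (p i).eval z) : EN N) ∈ X) :
    ∃ (d : Polynomial ℂ) (p' : Fin (N + 1) → Polynomial ℂ), d ≠ 0 ∧ (∀ i, p i = d * p' i) ∧
      ∀ z : ℂ, (WithLp.toLp 2 (fun i => (p' i).eval z) : EN N) ∈ X := by
  sorry

/-- MODULE N3: Zalcman's choice of the centres (localised version of `H62.EF.rescale_fs`) -/
theorem zalcman {𝒰 : Ultrafilter ℕ} (h𝒰 : (𝒰 : Filter ℕ) ≤ atTop) {F : ℕ → ℂ → EN N} (hF : ∀ n, Differentiable ℂ (F n)) (h0 : ∀ n z, F n z ≠ 0)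
    {w : ℂ} (hunb : ∀ s L : ℝ, 0 < s → ∀ᶠ n in (𝒰 : Filter ℕ), ∃ z ∈ ball w s, L < fs (F n z) (deriv (F n) z)) :
    ∃ (w' : ℕ → ℂ) (a ρ : ℕ → ℝ), Tendsto w' 𝒰 (𝓝 w) ∧ Tendsto a 𝒰 atTop ∧ Tendsto ρ 𝒰 atTop ∧
      ∀ᶠ n in (𝒰 : Filter ℕ), 0 < a n ∧
        fs (F n (w' n)) (deriv (fun ζ => F n (w' n + (((a n)⁻¹ : ℝ) : ℂ) * ζ)) 0) = 1 ∧
        ∀ ζ ∈ ball (0 : ℂ) (ρ n), fs (F n (w' n + (((a n)⁻¹ : ℝ) : ℂ) * ζ)) (deriv (fun ζ => F n (w' n + (((a n)⁻¹ : ℝ) : ℂ) * ζ)) ζ) ≤ 2 := by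
  sorry

/-- MODULE N4: no bubbles.  From N1, N2, N3, `H62.EF.limit_curves`, `H17.montel_ultrafilter`. -/
theorem no_bubble (hX : IsCone X) (hrat : NoRat X) {𝒰 : Ultrafilter ℕ} (h𝒰 : (𝒰 : Filter ℕ) ≤ atTop) {F : ℕ → ℂ → EN N}
    (hF : ∀ n, Differentiable ℂ (F n)) (hFX : ∀ n z, F n z ∈ X) {v : ℕ → ℂ → ℂ} (hv : ∀ᶠ n in (𝒰 : Filter ℕ), Differentiable ℂ (v n))
    {H : ℂ → EN N} {w : ℂ} {r : ℝ} (hr : 0 < r) (hc : TendstoLocallyUniformlyOn (fun n z => Complex.exp (v n z) • F n z) H 𝒰 (ball w r))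
    (hH : ∀ᶠ z in 𝓝[≠] w, H z ≠ 0) :
    ∃ s L : ℝ, 0 < s ∧ ∀ᶠ n in (𝒰 : Filter ℕ), ∀ z ∈ ball w s, fs (F n z) (deriv (F n) z) ≤ L := by
  sorry

/-- MODULE B: the bound of the derivative near the good points -/
theorem bound_fs (hX : IsCone X) (hTs : ∀ x ∈ T, ∀ c : ℂ, c ≠ 0 → c • x ∈ T) (hrat : NoRat X) (E : Energy X T (fun x => ‖x‖) rho M c₀ C g) (n : PseudoLength X) {C₁ : ℝ}
    (hA : ∀ F, Cls T n F → ∀ z, g F z ≤ C₁) {d : ℝ} (hd : 0 < d) (R : ℝ) :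
    ∃ L : ℝ, ∀ F, Cls T n F → d ≤ g F 0 → ∀ z ∈ ball (0 : ℂ) R, fs (F z) (deriv F z) ≤ L := by
  sorry

/-- MODULE C1: decay inside a disc without good points -/
theorem decay {m : ℂ → ℝ} {z₀ : ℂ} {R A κ : ℝ} (hR : 0 < R) (hκ : 0 < κ) (hA0 : 0 ≤ A) (hm : UpperSemicontinuousOn m (closedBall z₀ R))
    (hA : ∀ z ∈ closedBall z₀ R, m z ≤ A) (hs : ∀ z ∈ ball z₀ R, 0 < m z → Sub m z κ) :
    ∀ z ∈ closedBall z₀ R, m z ≤ A * Real.exp (-(κ / 2) * (R ^ 2 - ‖z - z₀‖ ^ 2)) := by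
  sorry

/-- MODULE C: the good points are everywhere -/
theorem exists_good (hX : IsCone X) (hch : Charts X) (E : Energy X T (fun x => ‖x‖) rho M c₀ C g) (n : PseudoLength X)
    (hρ0 : ∀ x ∈ X, 0 ≤ rho x) (hρ : ∀ x ∈ X, x ∉ T → 0 < rho x) (hρc : ContinuousOn rho X)
    (hρs : ∀ x ∈ X, ∀ c : ℂ, c ≠ 0 → rho (c • x) = rho x)
    (hTi : ∀ F : ℂ → EN N, Differentiable ℂ F → (∀ z, F z ∈ X) → (∃ z, F z ∉ T) → ∀ z₀, ∀ᶠ z in 𝓝[≠] z₀, F z ∉ T)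
    (hTs : ∀ x ∈ T, ∀ c : ℂ, c ≠ 0 → c • x ∈ T)
    {C₁ : ℝ} (hA : ∀ F, Cls T n F → ∀ z, g F z ≤ C₁) :
    ∃ d R : ℝ, 0 < d ∧ 0 < R ∧ ∀ F, Cls T n F → ∀ z, ∃ y, ‖y - z‖ ≤ R ∧ d ≤ g F y := by
  sorry

/-- MODULE D: the curves of the class have bounded distortion -/
theorem bounded_distortion (hX : IsCone X) (hch : Charts X) (hrat : NoRat X) (E : Energy X T (fun x => ‖x‖) rho M c₀ C g) (n : PseudoLength X)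
    (hρ0 : ∀ x ∈ X, 0 ≤ rho x) (hρ : ∀ x ∈ X, x ∉ T → 0 < rho x) (hρc : ContinuousOn rho X)
    (hρs : ∀ x ∈ X, ∀ c : ℂ, c ≠ 0 → rho (c • x) = rho x)
    (hTi : ∀ F : ℂ → EN N, Differentiable ℂ F → (∀ z, F z ∈ X) → (∃ z, F z ∉ T) → ∀ z₀, ∀ᶠ z in 𝓝[≠] z₀, F z ∉ T)
    (hTs : ∀ x ∈ T, ∀ c : ℂ, c ≠ 0 → c • x ∈ T)
    (hnull : ∀ F : ℂ → EN N, Differentiable ℂ F → (∀ z, F z ∈ X) → OrdTwo F → (∀ z, n.toFun (F z) (deriv F z) = 0) →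
      (∀ z, F z ∈ T) ∨ ∀ z w, ∃ c : ℂ, F z = c • F w) :
    ∃ c L : ℝ, 0 < c ∧ ∀ F, Cls T n F → F ∈ BC X c L := by
  sorry

end curves

end Pool.Agent.SY.Stub
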