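import Pool.Agent.SY.Stub
import Pool.Agent.AD.T.NCProof

/-!
# SY Stub2: the end
-/

set_option autoImplicit false

open Topology Filter Metric MvPolynomial

noncomputable section

namespace Pool.Agent.SY.Stub

open Pool.Agent.H36.BP (EN fs wd Sub OrdTwo)
open Pool.Agent.H14.PP (IsCone)
open Pool.Agent.H22.W (PseudoLength)
open Pool.Agent.H17 (PN VanishesAt HolomorphicInto ZariskiClosedIn puncturedDisc)
open Pool.Agent.H62.FC (Homog)
open Pool.Agent.H17LG.Variety (FunField)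
open Pool.Agent.H13.SM (conTan)
open Pool.Agent.H13.OT (OrderTwo)
open Pool.Agent.H17EF (projVar coneE GT)
open Pool.Agent.H14.V (IsNull)
open Pool.Agent.H14.KB (KobayashiHyperbolicModulo)
open Pool.Agent.AD (NullClass)
open Pool.Agent.AD.NC (IsSmooth IsOfLogGeneralType FourProperties)

variable {N : ℕ} {P : Ideal (MvPolynomial (Fin (N + 1)) ℂ)}

/-- MODULE F1: from the metric and `bounded_distortion`: the curves of order two lie in a proper closed subset.
`n` null curves of order two lie in `{R = 0}`.  Steps: `energy_surface` for `R`; `T = {Q = 0}`; `hnull` of `bounded_distortion` from `hnull` (a lift `F` gives a curve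
`f` in `PN N` by `isLift_mk`, `OrdTwo` to `OrderTwo` as in `H14.V.orderTwo_of`); `bounded_distortion`: `c, L`; `H14.V.partA` for `c, L`: finite set `S` of doubly periodic degenerate
curves.  `Ξ = {Q = 0} ∪ ⋃ g ∈ S, zariskiClosure g`.  Let `f` be of order two with lift `F`; the length of `F'` is constant `= b` (`H22.W.const_length`, with the average of `log |F|`
from `OrderTwo`, see `AD.scale_down` / `H14.V.average_toLp`); `b = 0`: null, so in `{R = 0} ⊆ {Q = 0}`; `b > 0`: if `F` is not in `T` then `F (z / b)` is in `Cls`, so in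
`BC (coneE P) c L`, so `f (z / b)` is in `boundedDistortion`, and is `g (a z + b)`. -/
theorem orderTwo_degenerate [P.IsPrime] {z : Fin 2 → FunField P} (hP : Homog P) (hz : IsTranscendenceBasis ℂ z)
    (hsm : ∀ y : Fin (N + 1) → ℂ, y ≠ 0 → (∀ Q ∈ P, eval y Q = 0) → Module.finrank ℂ (conTan P y) ≤ 3) (hgt : GT P 2)
    (hrat : NoRat (coneE P)) (n : PseudoLength (coneE P)) {R : MvPolynomial (Fin (N + 1)) ℂ} {d : ℕ} (hR : R.IsHomogeneous d) (hRP : R ∉ P)
    (hnull : ∀ f : ℂ → PN N, HolomorphicInto f Set.univ → OrderTwo f → (∀ z, f z ∈ projVar P) → (∃ z w, f z ≠ f w) → IsNull n f →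
      ∀ z, VanishesAt R (f z)) :
    ∃ Ξ : Set (PN N), ZariskiClosedIn (projVar P) Ξ ∧ Ξ ≠ projVar P ∧
      ∀ f : ℂ → PN N, HolomorphicInto f Set.univ → OrderTwo f → (∀ z, f z ∈ projVar P) → (∃ z w, f z ≠ f w) → ∀ z, f z ∈ Ξ := by
  sorry

/-- MODULE F2: the main theorem, from F1, `H14.V.four_of_brody`, `H7.Bir.bir_four` (see `AD.NC.finitely_of`), `AD.exists_length`. -/
theorem main [P.IsPrime] (hP : Homog P) (hdim : ∃ z : Fin 2 → FunField P, IsTranscendenceBasis ℂ z) (hsmooth : IsSmooth P 2)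
    (hgt : IsOfLogGeneralType P (Fin.elim0 : Fin 0 → MvPolynomial (Fin (N + 1)) ℂ) 2) (hrat : NoRat (coneE P))
    (A : Set (ℂ → PN N)) (hA : NullClass P A) (R : MvPolynomial (Fin (N + 1)) ℂ) (d : ℕ) (hR : R.IsHomogeneous d) (hRP : R ∉ P)
    (hnull : ∀ f : ℂ → PN N, HolomorphicInto f Set.univ → OrderTwo f → (∀ z, f z ∈ projVar P) → (∃ z w, f z ≠ f w) → f ∈ A →
      ∀ z, VanishesAt R (f z)) :
    (∃ Ξ : Set (PN N), FourProperties P (Fin.elim0 : Fin 0 → _) Ξ) ∧
    (∀ (M : ℕ) (P' : Ideal (MvPolynomial (Fin (M + 1)) ℂ)) [P'.IsPrime], Homog P' → Nonempty (FunField P' ≃ₐ[ℂ] FunField P) →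
      ∃ Ξ' : Set (PN M), FourProperties P' (Fin.elim0 : Fin 0 → _) Ξ') ∧
    ∃ (Q : MvPolynomial (Fin (N + 1)) ℂ) (D : ℕ), Q.IsHomogeneous D ∧ (∃ x ∈ projVar P, ¬ VanishesAt Q x) ∧
      KobayashiHyperbolicModulo (projVar P) Q D := by
  sorry

end Pool.Agent.SY.Stub
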